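import Pool.Agent.ChS.Defs
import Pool.Agent.ChP.Star

/-!
# The group of deck transformations of a connected covering is finitely generated
-/

namespace Pool.Agent.ChS

open Pool.Agent.ChP
open scoped Pointwise

variable {n : ℕ} (K : AffineTriangulation n)

private theorem FGGam_inj {v : K.V} {γ δ : K.Γ} (h : γ • v = δ • v) : γ = δ := by
  have h1 : (δ⁻¹ * γ) • ({v} : Finset K.V) = {v} := by
    rw [Finset.smul_finset_singleton, mul_smul, h, inv_smul_smul]
  have h2 := K.free _ _ (K.singleton_mem v) h1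
  rw [inv_mul_eq_one] at h2
  exact h2.symm

theorem gamma_fg (hc : Connected K) : Group.FG K.Γ := by
  classical
  obtain ⟨⟨v₀⟩, hconn⟩ := hc
  obtain ⟨F, hF⟩ := K.cocompact
  obtain ⟨D, hD⟩ : ∃ D : Finset K.V, D = F.biUnion id := ⟨_, rfl⟩
  have hex : ∀ v : K.V, ∃ γ : K.Γ, γ • v ∈ D := by
    intro v
    obtain ⟨γ, hγ⟩ := hF _ (K.singleton_mem v)
    refine ⟨γ, ?_⟩
    rw [hD, Finset.mem_biUnion]
    refine ⟨_, hγ, ?_⟩
    rw [Finset.smul_finset_singleton]
    exact Finset.mem_singleton_self _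
  choose g hg using hex
  -- the finite set of neighbouring translations
  have hfin : {γ : K.Γ | ∃ x ∈ D, ∃ y ∈ D, ({x, γ • y} : Finset K.V) ∈ K.faces}.Finite := by
    have h1 : {γ : K.Γ | ∃ x ∈ D, ∃ y ∈ D, ({x, γ • y} : Finset K.V) ∈ K.faces} =
        ⋃ x ∈ (D : Set K.V), ⋃ y ∈ (D : Set K.V),
          {γ : K.Γ | ({x, γ • y} : Finset K.V) ∈ K.faces} := by
      ext γ
      simp only [Set.mem_iUnion, Set.mem_ofPred_eq, Finset.mem_coe, exists_prop]
    rw [h1]
    refine Set.Finite.biUnion (Finset.finite_toSet D) fun x _ =>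
      Set.Finite.biUnion (Finset.finite_toSet D) fun y _ => ?_
    refine Set.Finite.of_injOn (f := fun γ : K.Γ => ({x, γ • y} : Finset K.V))
      (t := {τ | τ ∈ K.faces ∧ ({x} : Finset K.V) ⊆ τ}) ?_ ?_
      (K.star_finite (K.singleton_mem x))
    · intro γ hγ
      exact ⟨hγ, by simp⟩
    · intro γ _ δ _ h
      have h2 : γ • y ∈ ({x, δ • y} : Finset K.V) := by
        have h3 : ({x, γ • y} : Finset K.V) = {x, δ • y} := h
        rw [← h3]
        simp
      have h4 : δ • y ∈ ({x, γ • y} : Finset K.V) := by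
        have h3 : ({x, γ • y} : Finset K.V) = {x, δ • y} := h
        rw [h3]
        simp
      rw [Finset.mem_insert, Finset.mem_singleton] at h2 h4
      rcases h2 with h2 | h2
      · rcases h4 with h4 | h4
        · exact FGGam_inj K (h2.trans h4.symm)
        · exact FGGam_inj K h4.symm
      · exact FGGam_inj K h2
  obtain ⟨E, hE⟩ : ∃ E : Finset K.Γ, E = hfin.toFinset := ⟨_, rfl⟩
  have hEmem : ∀ γ, γ ∈ E ↔ ∃ x ∈ D, ∃ y ∈ D, ({x, γ • y} : Finset K.V) ∈ K.faces := by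
    intro γ
    rw [hE, Set.Finite.mem_toFinset]
    rfl
  have hstep : ∀ u v : K.V, ({u, v} : Finset K.V) ∈ K.faces → g u * (g v)⁻¹ ∈ E := by
    intro u v h
    rw [hEmem]
    refine ⟨g u • u, hg u, g v • v, hg v, ?_⟩
    have h2 := K.smul_mem (g u) _ h
    rw [Finset.smul_finset_insert, Finset.smul_finset_singleton] at h2
    rw [mul_smul, inv_smul_smul]
    exact h2
  have hpath : ∀ v : K.V, g v₀ * (g v)⁻¹ ∈ Subgroup.closure (E : Set K.Γ) := by
    intro v
    induction hconn v₀ v with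
    | refl => rw [mul_inv_cancel]; exact Subgroup.one_mem _
    | @tail b c _ h ih =>
      have h2 := Subgroup.mul_mem _ ih (Subgroup.subset_closure (hstep b c h))
      have h3 : g v₀ * (g b)⁻¹ * (g b * (g c)⁻¹) = g v₀ * (g c)⁻¹ := by group
      rwa [h3] at h2
  have hall : ∀ γ : K.Γ, g v₀ * γ * (g v₀)⁻¹ ∈ Subgroup.closure (E : Set K.Γ) := by
    intro γ
    have h1 := hpath (γ • v₀)
    have h2 : g (γ • v₀) * γ * (g v₀)⁻¹ ∈ Subgroup.closure (E : Set K.Γ) := by
      apply Subgroup.subset_closure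
      rw [Finset.mem_coe, hEmem]
      refine ⟨g (γ • v₀) • γ • v₀, hg _, g v₀ • v₀, hg _, ?_⟩
      have h3 : (g (γ • v₀) * γ * (g v₀)⁻¹) • g v₀ • v₀ = g (γ • v₀) • γ • v₀ := by
        rw [mul_smul, inv_smul_smul, mul_smul]
      rw [h3, Finset.pair_eq_singleton]
      exact K.singleton_mem _
    have h4 := Subgroup.mul_mem _ h1 h2
    have h5 : g v₀ * (g (γ • v₀))⁻¹ * (g (γ • v₀) * γ * (g v₀)⁻¹) = g v₀ * γ * (g v₀)⁻¹ := by
      group
    rwa [h5] at h4
  refine ⟨⟨E, ?_⟩⟩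
  rw [eq_top_iff]
  intro γ _
  have h1 := hall ((g v₀)⁻¹ * γ * g v₀)
  have h2 : g v₀ * ((g v₀)⁻¹ * γ * g v₀) * (g v₀)⁻¹ = γ := by group
  rwa [h2] at h1

end Pool.Agent.ChS
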