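import Pool.Agent.ChS.Defs

/-!
# Crossed homomorphisms of finitely generated groups

A crossed homomorphism is determined by its values on generators: `z 1 = 0`,
`z g⁻¹ = -act (ρ g⁻¹) (z g)`, so `{g | z g = 0}` is a subgroup.  The alternating matrices form a space
of dimension 6.  (`act` is compatible with products: `act (g h) A = act g (act h A)` for
invertible `g, h`; the matrices `ρ g` are invertible.)
-/

namespace Pool.Agent.ChS

open Matrix Pool.Agent.ChP

theorem act_mul {G : Type*} [Group G] (ρ : G →* Matrix (Fin 4) (Fin 4) ℝ) (g h : G)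
    (A : Matrix (Fin 4) (Fin 4) ℝ) : act (ρ (g * h)) A = act (ρ g) (act (ρ h) A) := by
  unfold act
  rw [map_mul, Matrix.det_mul, abs_mul, Real.sqrt_mul (abs_nonneg _), Matrix.mul_inv_rev,
    Matrix.transpose_mul, Matrix.mul_smul, Matrix.smul_mul, smul_smul]
  congr 1
  simp only [Matrix.mul_assoc]

theorem act_one (A : Matrix (Fin 4) (Fin 4) ℝ) : act 1 A = A := by
  unfold act
  simp

theorem act_add (g A B : Matrix (Fin 4) (Fin 4) ℝ) : act g (A + B) = act g A + act g B := by
  unfold act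
  rw [Matrix.mul_add, Matrix.add_mul, smul_add]

private theorem Z1Dim_act_zero (g : Matrix (Fin 4) (Fin 4) ℝ) : act g 0 = 0 := by
  unfold act
  simp

private theorem Z1Dim_zero {G : Type*} [Group G] (ρ : G →* Matrix (Fin 4) (Fin 4) ℝ)
    (S : Set G) (hS : Subgroup.closure S = ⊤)
    (z : G → Matrix (Fin 4) (Fin 4) ℝ) (hz : ∀ g h, z (g * h) = z g + act (ρ g) (z h))
    (h0 : ∀ g ∈ S, z g = 0) (g : G) : z g = 0 := by
  have hone : z 1 = 0 := by
    have := hz 1 1
    rw [mul_one, map_one, act_one] at this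
    exact (left_eq_add.1 this)
  have hg : g ∈ Subgroup.closure S := by rw [hS]; exact Subgroup.mem_top g
  induction hg using Subgroup.closure_induction with
  | mem x hx => exact h0 x hx
  | one => exact hone
  | mul x y _ _ hx hy => rw [hz, hx, hy, Z1Dim_act_zero, add_zero]
  | inv x _ hx =>
    have := hz x⁻¹ x
    rw [inv_mul_cancel, hone, hx, Z1Dim_act_zero, add_zero] at this
    exact this.symm

/-- rows of the entries above the diagonal -/
private def Z1Dim_a : Fin 6 → Fin 4 := ![0, 0, 0, 1, 1, 2]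

/-- columns of the entries above the diagonal -/
private def Z1Dim_b : Fin 6 → Fin 4 := ![1, 2, 3, 2, 3, 3]

private theorem Z1Dim_alt (A : Matrix (Fin 4) (Fin 4) ℝ) (hA : Aᵀ = -A)
    (h : ∀ i, A (Z1Dim_a i) (Z1Dim_b i) = 0) : A = 0 := by
  have hs : ∀ i j, A j i = -A i j := fun i j => congrFun (congrFun hA i) j
  have hd : ∀ i, A i i = 0 := fun i => by have := hs i i; linarith
  have h01 : A 0 1 = 0 := h 0
  have h02 : A 0 2 = 0 := h 1
  have h03 : A 0 3 = 0 := h 2
  have h12 : A 1 2 = 0 := h 3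
  have h13 : A 1 3 = 0 := h 4
  have h23 : A 2 3 = 0 := h 5
  have h10 : A 1 0 = 0 := by rw [hs 0 1, h01, neg_zero]
  have h20 : A 2 0 = 0 := by rw [hs 0 2, h02, neg_zero]
  have h30 : A 3 0 = 0 := by rw [hs 0 3, h03, neg_zero]
  have h21 : A 2 1 = 0 := by rw [hs 1 2, h12, neg_zero]
  have h31 : A 3 1 = 0 := by rw [hs 1 3, h13, neg_zero]
  have h32 : A 3 2 = 0 := by rw [hs 2 3, h23, neg_zero]
  ext i j
  fin_cases i <;> fin_cases j <;> first | exact hd _ | assumption

/-- the values on the generators -/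
private noncomputable def Z1Dim_phi {G : Type*} [Group G] (ρ : G →* Matrix (Fin 4) (Fin 4) ℝ)
    (S : Finset G) : Z1 ρ →ₗ[ℝ] (S → Fin 6 → ℝ) where
  toFun z g i := z.1 g.1 (Z1Dim_a i) (Z1Dim_b i)
  map_add' _ _ := rfl
  map_smul' _ _ := rfl

theorem z1_finrank_le {G : Type*} [Group G] (ρ : G →* Matrix (Fin 4) (Fin 4) ℝ) (S : Finset G)
    (hS : Subgroup.closure (S : Set G) = ⊤) :
    Module.Finite ℝ (Z1 ρ) ∧ Module.finrank ℝ (Z1 ρ) ≤ 6 * S.card := by
  have hinj : Function.Injective (Z1Dim_phi ρ S) := by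
    rw [injective_iff_map_eq_zero]
    intro z hz
    ext1
    funext g
    have hz2 := z.2
    refine Z1Dim_zero ρ (S : Set G) hS z.1 hz2.2 (fun g hg => ?_) g
    refine Z1Dim_alt _ (hz2.1 g) fun i => ?_
    exact congrFun (congrFun hz ⟨g, hg⟩) i
  refine ⟨Module.Finite.of_injective _ hinj, ?_⟩
  refine (LinearMap.finrank_le_finrank_of_injective hinj).trans ?_
  rw [Module.finrank_pi_fintype]
  simp [mul_comm]

end Pool.Agent.ChS
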