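import Mathlib

/-!
# Groups with few generators for subgroups of finite index
-/

namespace Pool.Agent.ChS

open Subgroup

/-- `G` has a subgroup of finite index `k` generated by fewer than `1 + 5 k / 6` elements. -/
def FewGen (G : Type*) [Group G] : Prop :=
  ∃ (H : Subgroup G) (S : Finset G), H.FiniteIndex ∧ Subgroup.closure (S : Set G) = H ∧
    6 * S.card < 5 * H.index + 6

/-- Finitely generated normal subgroups. -/
theorem fewGen_of_normal {G : Type*} [Group G] (hG : Group.FG G) (N : Subgroup G) [hn : N.Normal]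
    (hN : N.FG)
    (h : ∀ m : ℕ, ∃ H : Subgroup G, H.FiniteIndex ∧ m ≤ H.relIndex N ∧ m ≤ (N ⊔ H).index) :
    FewGen G := by
  classical
  obtain ⟨SG, hSG⟩ := hG.out
  obtain ⟨SN, hSN⟩ := hN
  obtain ⟨H, hH, ha, hb⟩ := h (4 * (SN.card + SG.card) + 4)
  have hNH : (N ⊔ H).FiniteIndex := Subgroup.finiteIndex_of_le (le_sup_right : H ≤ N ⊔ H)
  have hHN : (H.subgroupOf N).FiniteIndex := inferInstance
  -- generators of `N`
  obtain ⟨SN', hSN'c, hSN'⟩ : ∃ S' : Finset N, S'.card ≤ SN.card ∧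
      Subgroup.closure (S' : Set N) = ⊤ := by
    have hsub : ∀ g ∈ SN, g ∈ N := fun g hg => by rw [← hSN]; exact Subgroup.subset_closure hg
    obtain ⟨S', hS'⟩ : ∃ S' : Finset N, S' = SN.attach.image (fun g => (⟨g.1, hsub _ g.2⟩ : N)) :=
      ⟨_, rfl⟩
    have himg : (N.subtype '' (S' : Set N)) = (SN : Set G) := by
      ext g
      constructor
      · rintro ⟨x, hx, rfl⟩
        rw [Finset.mem_coe, hS', Finset.mem_image] at hx
        obtain ⟨a, -, rfl⟩ := hx
        exact a.2
      · intro hg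
        refine ⟨⟨g, hsub g hg⟩, ?_, rfl⟩
        rw [Finset.mem_coe, hS', Finset.mem_image]
        exact ⟨⟨g, hg⟩, Finset.mem_attach _ _, rfl⟩
    refine ⟨S', ?_, ?_⟩
    · rw [hS']
      exact Finset.card_image_le.trans_eq Finset.card_attach
    · apply Subgroup.map_injective N.subtype_injective
      rw [MonoidHom.map_closure, himg, hSN, ← MonoidHom.range_eq_map, N.range_subtype]
  obtain ⟨T1, hT1c, hT1⟩ := Subgroup.exists_finset_card_le_mul (H.subgroupOf N) hSN'
  obtain ⟨T2, hT2c, hT2⟩ := Subgroup.exists_finset_card_le_mul (N ⊔ H) hSG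
  -- decompose the elements of `N ⊔ H`
  have hdec : ∀ g : (N ⊔ H : Subgroup G), ∃ x : G, x ∈ H ∧ (g : G) * x⁻¹ ∈ N := by
    rintro ⟨g, hg⟩
    have hg' : g ∈ ((N ⊔ H : Subgroup G) : Set G) := hg
    rw [Subgroup.normal_mul] at hg'
    obtain ⟨a, ha', b, hb', rfl⟩ := hg'
    exact ⟨b, hb', by simpa using ha'⟩
  choose r hr1 hr2 using hdec
  obtain ⟨A, hA⟩ : ∃ A : Finset G, A = T1.image (fun x : H.subgroupOf N => ((x : N) : G)) :=
    ⟨_, rfl⟩
  obtain ⟨B, hB⟩ : ∃ B : Finset G, B = T2.image r := ⟨_, rfl⟩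
  have hAc : A.card ≤ T1.card := by rw [hA]; exact Finset.card_image_le
  have hBc : B.card ≤ T2.card := by rw [hB]; exact Finset.card_image_le
  have hAcl : Subgroup.closure (A : Set G) = N ⊓ H := by
    have h1 : (A : Set G) = (N.subtype.comp (H.subgroupOf N).subtype) '' (T1 : Set _) := by
      rw [hA, Finset.coe_image]
      rfl
    rw [h1, ← MonoidHom.map_closure, hT1, ← MonoidHom.range_eq_map]
    ext g
    constructor
    · rintro ⟨x, rfl⟩
      exact ⟨(x : N).2, x.2⟩
    · rintro ⟨h1, h2⟩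
      exact ⟨⟨⟨g, h1⟩, h2⟩, rfl⟩
  have hcl : Subgroup.closure ((A ∪ B : Finset G) : Set G) = H := by
    rw [Finset.coe_union, Subgroup.closure_union, hAcl]
    apply le_antisymm
    · refine sup_le inf_le_right ?_
      rw [Subgroup.closure_le]
      intro g hg
      rw [hB, Finset.coe_image] at hg
      obtain ⟨x, -, rfl⟩ := hg
      exact hr1 x
    · -- every element of `N ⊔ H` is a product of an element of `N` and one of `closure B`
      have key : ∀ g : (N ⊔ H : Subgroup G), ∃ y ∈ Subgroup.closure (B : Set G),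
          (g : G) * y⁻¹ ∈ N := by
        intro g
        have hg : g ∈ Subgroup.closure (T2 : Set (N ⊔ H : Subgroup G)) := by
          rw [hT2]; exact Subgroup.mem_top g
        induction hg using Subgroup.closure_induction with
        | mem x hx =>
          refine ⟨r x, Subgroup.subset_closure ?_, hr2 x⟩
          rw [hB, Finset.coe_image]
          exact ⟨x, hx, rfl⟩
        | one => exact ⟨1, Subgroup.one_mem _, by simp⟩
        | mul x y _ _ hx hy =>
          obtain ⟨a, ha1, ha2⟩ := hx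
          obtain ⟨b, hb1, hb2⟩ := hy
          refine ⟨a * b, Subgroup.mul_mem _ ha1 hb1, ?_⟩
          have h3 : ((x * y : (N ⊔ H : Subgroup G)) : G) * (a * b)⁻¹ =
              ((x : G) * a⁻¹) * (a * ((y : G) * b⁻¹) * a⁻¹) := by
            rw [Subgroup.coe_mul]
            group
          rw [h3]
          exact N.mul_mem ha2 (hn.conj_mem _ hb2 _)
        | inv x _ hx =>
          obtain ⟨a, ha1, ha2⟩ := hx
          refine ⟨a⁻¹, Subgroup.inv_mem _ ha1, ?_⟩
          have h3 : ((x⁻¹ : (N ⊔ H : Subgroup G)) : G) * a⁻¹⁻¹ =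
              a⁻¹ * (a * ((x : G)⁻¹ * a) * a⁻¹) * a := by
            rw [Subgroup.coe_inv]
            group
          have h4 : a * ((x : G)⁻¹ * a) * a⁻¹ = ((x : G) * a⁻¹)⁻¹ := by group
          rw [h3, h4]
          have h5 := hn.conj_mem _ (N.inv_mem ha2) a⁻¹
          simpa using h5
      intro g hg
      obtain ⟨y, hy1, hy2⟩ := key ⟨g, (le_sup_right : H ≤ N ⊔ H) hg⟩
      have hyH : y ∈ H := by
        have : Subgroup.closure (B : Set G) ≤ H := by
          rw [Subgroup.closure_le]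
          intro g hg
          rw [hB, Finset.coe_image] at hg
          obtain ⟨x, -, rfl⟩ := hg
          exact hr1 x
        exact this hy1
      have h3 : g * y⁻¹ ∈ N ⊓ H := ⟨hy2, H.mul_mem hg (H.inv_mem hyH)⟩
      have h4 : g = (g * y⁻¹) * y := by group
      rw [h4]
      exact Subgroup.mul_mem _ ((le_sup_left : N ⊓ H ≤ _) h3) ((le_sup_right :
        Subgroup.closure (B : Set G) ≤ _) hy1)
  refine ⟨H, A ∪ B, hH, hcl, ?_⟩
  have hidx : H.relIndex N * (N ⊔ H).index ≤ H.index := by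
    rw [← Subgroup.relIndex_mul_index (le_sup_right : H ≤ N ⊔ H)]
    refine Nat.mul_le_mul_right _ ?_
    have : H.IsFiniteRelIndex (N ⊔ H) := ⟨fun h0 => hH.index_ne_zero (by
      rw [← Subgroup.relIndex_mul_index (le_sup_right : H ≤ N ⊔ H), h0, Nat.zero_mul])⟩
    exact Subgroup.relIndex_le_of_le_right (le_sup_left : N ≤ N ⊔ H)
      (Subgroup.relIndex_ne_zero)
  have hcard : (A ∪ B).card ≤ H.relIndex N * SN.card + (N ⊔ H).index * SG.card := by
    calc (A ∪ B).card ≤ A.card + B.card := Finset.card_union_le _ _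
      _ ≤ T1.card + T2.card := Nat.add_le_add hAc hBc
      _ ≤ (H.subgroupOf N).index * SN'.card + (N ⊔ H).index * SG.card :=
        Nat.add_le_add hT1c hT2c
      _ ≤ _ := Nat.add_le_add_right (Nat.mul_le_mul_left _ hSN'c) _
  obtain ⟨a, ha0⟩ : ∃ a, a = H.relIndex N := ⟨_, rfl⟩
  obtain ⟨b, hb0⟩ : ∃ b, b = (N ⊔ H).index := ⟨_, rfl⟩
  rw [← ha0, ← hb0] at hcard hidx
  rw [← ha0] at ha
  rw [← hb0] at hb
  have h1 : 4 * (a * SN.card) ≤ a * b := by
    rw [← mul_assoc, mul_comm 4 a, mul_assoc]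
    exact Nat.mul_le_mul_left _ (by omega)
  have h2 : 4 * (b * SG.card) ≤ a * b := by
    rw [← mul_assoc, mul_comm 4 b, mul_assoc, mul_comm a b]
    exact Nat.mul_le_mul_left _ (by omega)
  omega

/-- Extensions of `ℤ` by a finitely generated group. -/
theorem fewGen_of_int {G : Type*} [Group G] (φ : G →* Multiplicative ℤ)
    (hφ : Function.Surjective φ) (hN : φ.ker.FG) : FewGen G := by
  classical
  obtain ⟨SN, hSN⟩ := hN
  obtain ⟨t, ht⟩ := hφ (Multiplicative.ofAdd 1)
  obtain ⟨k, hk⟩ : ∃ k : ℕ, k = 2 * (SN.card + 1) := ⟨_, rfl⟩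
  obtain ⟨H, hH⟩ : ∃ H : Subgroup G,
      H = (Subgroup.zpowers (Multiplicative.ofAdd (k : ℤ))).comap φ := ⟨_, rfl⟩
  have hidx : H.index = k := by
    rw [hH, Subgroup.index_comap_of_surjective _ hφ]
    have h1 := Int.index_zmultiples (k : ℤ)
    rw [Int.natAbs_natCast] at h1
    exact h1
  have hcl : Subgroup.closure ((SN ∪ {t ^ k} : Finset G) : Set G) = H := by
    rw [Finset.coe_union, Subgroup.closure_union, hSN, Finset.coe_singleton,
      ← Subgroup.zpowers_eq_closure]
    have htk : φ (t ^ k) = Multiplicative.ofAdd (k : ℤ) := by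
      rw [map_pow, ht, ← ofAdd_nsmul]
      simp
    apply le_antisymm
    · refine sup_le ?_ ?_
      · intro g hg
        rw [hH, Subgroup.mem_comap, MonoidHom.mem_ker.1 hg]
        exact Subgroup.one_mem _
      · rw [Subgroup.zpowers_le, hH, Subgroup.mem_comap, htk]
        exact Subgroup.mem_zpowers _
    · intro g hg
      rw [hH, Subgroup.mem_comap] at hg
      obtain ⟨j, hj⟩ := hg
      have h1 : g * ((t ^ k) ^ j)⁻¹ ∈ φ.ker := by
        rw [MonoidHom.mem_ker, map_mul, map_inv, map_zpow, htk]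
        have : φ g = Multiplicative.ofAdd (k : ℤ) ^ j := hj.symm
        rw [this, mul_inv_cancel]
      have h2 : g = (g * ((t ^ k) ^ j)⁻¹) * (t ^ k) ^ j := by group
      rw [h2]
      exact Subgroup.mul_mem _ ((le_sup_left : φ.ker ≤ _) h1)
        ((le_sup_right : Subgroup.zpowers (t ^ k) ≤ _) (Subgroup.zpow_mem _
          (Subgroup.mem_zpowers _) j))
  refine ⟨H, SN ∪ {t ^ k}, ⟨by rw [hidx, hk]; omega⟩, hcl, ?_⟩
  have h3 : (SN ∪ {t ^ k} : Finset G).card ≤ SN.card + 1 :=
    (Finset.card_union_le _ _).trans_eq (by rw [Finset.card_singleton])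
  rw [hidx]
  omega

end Pool.Agent.ChS
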