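import Pool.Agent.ChS.SdDef

/-!
# The Euler characteristic of the barycentric subdivision

`chain_sum`: let `F σ` be the sum of `(-1)^c.card` over the chains `c` of non-empty sets with largest
member `σ`.  Removing `σ` from `c` gives `F σ = -1 - ∑_{∅ ≠ ρ ⊂ σ} F ρ`, so `F σ = (-1)^σ.card` by induction
and `∑_{ρ ⊆ σ} (-1)^ρ.card = 0`.

`sd_eulerChar`: let `R` be a set of representatives for `K`; the chains with largest member in `R` are
representatives for `sd K` (freeness), apply `eulerChar_eq` to both.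
-/

namespace Pool.Agent.ChS

open Matrix Pool.Agent.ChP
open scoped Pointwise

/-- the chains of non-empty subsets of `σ` which contain `σ` -/
noncomputable def chainsTop {V : Type*} [DecidableEq V] (σ : Finset V) :
    Finset (Finset (Finset V)) :=
  open Classical in
  σ.powerset.powerset.filter fun c => σ ∈ c ∧ (∀ a ∈ c, a.Nonempty) ∧
    ∀ a ∈ c, ∀ b ∈ c, a ⊆ b ∨ b ⊆ a

private theorem SdEuler_mem {V : Type*} [DecidableEq V] {σ : Finset V} {c : Finset (Finset V)} :
    c ∈ chainsTop σ ↔ (∀ a ∈ c, a ⊆ σ) ∧ σ ∈ c ∧ (∀ a ∈ c, a.Nonempty) ∧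
      ∀ a ∈ c, ∀ b ∈ c, a ⊆ b ∨ b ⊆ a := by
  classical
  unfold chainsTop
  rw [Finset.mem_filter, Finset.mem_powerset]
  constructor
  · rintro ⟨h1, h2⟩
    exact ⟨fun a ha => Finset.mem_powerset.1 (h1 ha), h2⟩
  · rintro ⟨h1, h2⟩
    exact ⟨fun a ha => Finset.mem_powerset.2 (h1 a ha), h2⟩

/-- a chain has a largest member -/
private theorem SdEuler_max {V : Type*} [DecidableEq V] (c : Finset (Finset V)) (hc : c.Nonempty)
    (h : ∀ a ∈ c, ∀ b ∈ c, a ⊆ b ∨ b ⊆ a) : ∃ m ∈ c, (∀ a ∈ c, a ⊆ m) ∧ c.sup id = m := by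
  obtain ⟨m, hm, hmax⟩ := Finset.exists_max_image c Finset.card hc
  have h1 : ∀ a ∈ c, a ⊆ m := by
    intro a ha
    rcases h a ha m hm with h2 | h2
    · exact h2
    · exact (Finset.eq_of_subset_of_card_le h2 (hmax a ha)).symm.subset
  refine ⟨m, hm, h1, le_antisymm (Finset.sup_le h1) (Finset.le_sup (f := id) hm)⟩

theorem chain_sum {V : Type*} [DecidableEq V] (σ : Finset V) (h : σ.Nonempty) :
    ∑ c ∈ chainsTop σ, (-1 : ℤ) ^ c.card = (-1) ^ σ.card := by
  classical
  induction σ using Finset.strongInduction with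
  | H σ ih =>
    have hmaps : ∀ c ∈ chainsTop σ, (c.erase σ).sup id ∈ σ.ssubsets := by
      intro c hc
      rw [SdEuler_mem] at hc
      obtain ⟨h1, h2, h3, h4⟩ := hc
      rw [Finset.mem_ssubsets]
      rcases (c.erase σ).eq_empty_or_nonempty with he | he
      · rw [he, Finset.sup_empty]
        rw [Finset.bot_eq_empty, Finset.empty_ssubset]
        exact h
      · obtain ⟨m, hm, -, hs⟩ := SdEuler_max (c.erase σ) he
          (fun a ha b hb => h4 a (Finset.mem_of_mem_erase ha) b (Finset.mem_of_mem_erase hb))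
        rw [hs]
        exact lt_of_le_of_ne (h1 m (Finset.mem_of_mem_erase hm)) (Finset.ne_of_mem_erase hm)
    rw [← Finset.sum_fiberwise_of_maps_to hmaps]
    have hfib : ∀ ρ ∈ σ.ssubsets, ∑ c ∈ (chainsTop σ).filter (fun c => (c.erase σ).sup id = ρ),
        (-1 : ℤ) ^ c.card = -(-1) ^ ρ.card := by
      intro ρ hρ
      rw [Finset.mem_ssubsets] at hρ
      rcases ρ.eq_empty_or_nonempty with he | he
      · have h1 : (chainsTop σ).filter (fun c => (c.erase σ).sup id = ρ) = {{σ}} := by
          ext c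
          rw [Finset.mem_filter, SdEuler_mem, Finset.mem_singleton]
          constructor
          · rintro ⟨⟨h1, h2, h3, h4⟩, h5⟩
            rcases (c.erase σ).eq_empty_or_nonempty with h6 | h6
            · rw [Finset.erase_eq_empty_iff] at h6
              rcases h6 with h6 | h6
              · rw [h6] at h2
                exact absurd h2 (Finset.notMem_empty _)
              · exact h6
            · obtain ⟨m, hm, -, hs⟩ := SdEuler_max (c.erase σ) h6
                (fun a ha b hb => h4 a (Finset.mem_of_mem_erase ha) b (Finset.mem_of_mem_erase hb))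
              rw [hs, he] at h5
              have h7 := h3 m (Finset.mem_of_mem_erase hm)
              rw [h5] at h7
              exact absurd h7 Finset.not_nonempty_empty
          · rintro rfl
            refine ⟨⟨?_, ?_, ?_, ?_⟩, ?_⟩
            · intro a ha
              rw [Finset.mem_singleton] at ha
              rw [ha]
            · exact Finset.mem_singleton_self _
            · intro a ha
              rw [Finset.mem_singleton] at ha
              rw [ha]
              exact h
            · intro a ha b hb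
              rw [Finset.mem_singleton] at ha hb
              rw [ha, hb]
              exact Or.inl subset_rfl
            · rw [he, Finset.erase_singleton]
              rfl
        rw [h1, he]
        simp
      · rw [← ih ρ hρ he, ← Finset.sum_neg_distrib]
        refine Finset.sum_bij' (fun c _ => c.erase σ) (fun c _ => insert σ c) ?_ ?_ ?_ ?_ ?_
        · intro c hc
          rw [Finset.mem_filter, SdEuler_mem] at hc
          obtain ⟨⟨h1, h2, h3, h4⟩, h5⟩ := hc
          have h6 : (c.erase σ).Nonempty := by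
            rw [Finset.nonempty_iff_ne_empty]
            intro h6
            rw [h6, Finset.sup_empty] at h5
            rw [← h5] at he
            exact absurd he Finset.not_nonempty_empty
          obtain ⟨m, hm, hm', hs⟩ := SdEuler_max (c.erase σ) h6
            (fun a ha b hb => h4 a (Finset.mem_of_mem_erase ha) b (Finset.mem_of_mem_erase hb))
          have h7 : m = ρ := hs.symm.trans h5
          rw [SdEuler_mem]
          refine ⟨fun a ha => h7 ▸ hm' a ha, h7 ▸ hm, fun a ha => h3 a (Finset.mem_of_mem_erase ha),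
            fun a ha b hb => h4 a (Finset.mem_of_mem_erase ha) b (Finset.mem_of_mem_erase hb)⟩
        · intro c hc
          rw [SdEuler_mem] at hc
          obtain ⟨h1, h2, h3, h4⟩ := hc
          have hnot : σ ∉ c := fun h5 => hρ.not_subset (h1 σ h5)
          rw [Finset.mem_filter, SdEuler_mem, Finset.erase_insert hnot]
          refine ⟨⟨?_, Finset.mem_insert_self _ _, ?_, ?_⟩, ?_⟩
          · intro a ha
            rcases Finset.mem_insert.1 ha with h5 | h5
            · rw [h5]
            · exact (h1 a h5).trans hρ.subset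
          · intro a ha
            rcases Finset.mem_insert.1 ha with h5 | h5
            · rw [h5]
              exact h
            · exact h3 a h5
          · intro a ha b hb
            rcases Finset.mem_insert.1 ha with h5 | h5 <;> rcases Finset.mem_insert.1 hb with h6 | h6
            · rw [h5, h6]
              exact Or.inl subset_rfl
            · rw [h5]
              exact Or.inr ((h1 b h6).trans hρ.subset)
            · rw [h6]
              exact Or.inl ((h1 a h5).trans hρ.subset)
            · exact h4 a h5 b h6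
          · exact le_antisymm (Finset.sup_le h1) (Finset.le_sup (f := id) h2)
        · intro c hc
          rw [Finset.mem_filter, SdEuler_mem] at hc
          exact Finset.insert_erase hc.1.2.1
        · intro c hc
          rw [SdEuler_mem] at hc
          exact Finset.erase_insert fun h5 => hρ.not_subset (hc.1 σ h5)
        · intro c hc
          rw [Finset.mem_filter, SdEuler_mem] at hc
          have h5 := Finset.card_erase_add_one hc.1.2.1
          rw [← h5, pow_succ]
          ring
    rw [Finset.sum_congr rfl hfib, Finset.sum_neg_distrib]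
    have h1 := Finset.sum_powerset_neg_one_pow_card_of_nonempty h
    have h2 : ∑ ρ ∈ σ.ssubsets, (-1 : ℤ) ^ ρ.card + (-1) ^ σ.card = 0 := by
      rw [← h1]
      exact Finset.sum_erase_add _ _ (Finset.mem_powerset_self σ)
    linarith

variable {n : ℕ} (K : AffineTriangulation n)

/-- a chain of sets as a chain of simplices -/
private noncomputable def SdEuler_G (c : Finset (Finset K.V)) : Finset (SdV K) :=
  open Classical in
  Finset.subtype (fun σ => σ ∈ K.faces) c

private theorem SdEuler_mem_G {c : Finset (Finset K.V)} {x : SdV K} :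
    x ∈ SdEuler_G K c ↔ x.1 ∈ c := by
  classical
  unfold SdEuler_G
  exact Finset.mem_subtype

/-- the representatives -/
private noncomputable def SdEuler_S (R : Finset (Finset K.V)) : Finset (Finset (SdV K)) :=
  R.biUnion fun σ => (chainsTop σ).image (SdEuler_G K)

private theorem SdEuler_mem_S {R : Finset (Finset K.V)} (d : Finset (SdV K)) :
    d ∈ SdEuler_S K R ↔ ∃ σ ∈ R, ∃ e ∈ chainsTop σ, SdEuler_G K e = d := by
  unfold SdEuler_S
  rw [Finset.mem_biUnion]
  refine exists_congr fun σ => and_congr_right fun _ => ?_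
  rw [Finset.mem_image]

private theorem SdEuler_face {R : Finset (Finset K.V)} (hR : K.Reps R) (d : Finset (SdV K))
    (hd : d ∈ SdEuler_S K R) : d ∈ sdFaces K := by
  obtain ⟨σ, hσ, e, he, rfl⟩ := (SdEuler_mem_S K d).1 hd
  have he' := SdEuler_mem.1 he
  refine ⟨⟨⟨σ, hR.1 σ hσ⟩, (SdEuler_mem_G K).2 he'.2.1⟩, ?_⟩
  intro a ha b hb
  exact he'.2.2.2 _ ((SdEuler_mem_G K).1 ha) _ ((SdEuler_mem_G K).1 hb)

private theorem SdEuler_ex {R : Finset (Finset K.V)} (c : Finset (SdV K))
    (hc : c ∈ sdFaces K) (x : SdV K) (hx : x ∈ c) (hxmax : ∀ a ∈ c, a.1 ⊆ x.1) (γ : K.Γ)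
    (A : Finset K.V) (hA : A ∈ R) (hγ : γ • A = x.1) :
    (γ⁻¹ • c : Finset (SdV K)) ∈ SdEuler_S K R := by
  have hA' : A = γ⁻¹ • x.1 := by rw [← hγ, inv_smul_smul]
  have hc2 := sd_smul_mem K γ⁻¹ c hc
  rw [SdEuler_mem_S]
  refine ⟨A, hA, (γ⁻¹ • c : Finset (SdV K)).image (fun a => a.1), ?_, ?_⟩
  · rw [SdEuler_mem]
    refine ⟨?_, ?_, ?_, ?_⟩
    · intro a ha
      obtain ⟨y, hy, rfl⟩ := Finset.mem_image.1 ha
      obtain ⟨z, hz, rfl⟩ := Finset.mem_smul_finset.1 hy
      rw [hA', sdV_smul_val]
      exact Finset.smul_finset_subset_smul_finset (hxmax z hz)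
    · exact Finset.mem_image.2 ⟨γ⁻¹ • x, Finset.smul_mem_smul_finset hx, by
        rw [sdV_smul_val, hA']⟩
    · intro a ha
      obtain ⟨y, hy, rfl⟩ := Finset.mem_image.1 ha
      exact K.nonempty_of_mem _ y.2
    · intro a ha b hb
      obtain ⟨y, hy, rfl⟩ := Finset.mem_image.1 ha
      obtain ⟨z, hz, rfl⟩ := Finset.mem_image.1 hb
      exact hc2.2 y hy z hz
  · ext y
    rw [SdEuler_mem_G, Finset.mem_image]
    constructor
    · rintro ⟨z, hz, hzy⟩
      have : z = y := Subtype.ext hzy
      rwa [← this]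
    · intro hy
      exact ⟨y, hy, rfl⟩

private theorem SdEuler_un {R : Finset (Finset K.V)} (hR : K.Reps R) (c : Finset (SdV K))
    (x : SdV K) (hx : x ∈ c) (hxmax : ∀ a ∈ c, a.1 ⊆ x.1) (γ' : K.Γ)
    (d : Finset (SdV K)) (hd : d ∈ SdEuler_S K R) (hγ : γ' • d = c) :
    ∃ A ∈ R, γ' • A = x.1 := by
  obtain ⟨A', hA2, e, he, hed⟩ := (SdEuler_mem_S K d).1 hd
  have he' := SdEuler_mem.1 he
  refine ⟨A', hA2, ?_⟩
  apply Finset.Subset.antisymm
  · let y : SdV K := ⟨A', hR.1 A' hA2⟩
    have h2 : y ∈ d := by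
      rw [← hed]
      exact (SdEuler_mem_G K).2 he'.2.1
    have h3 : γ' • y ∈ c := by
      rw [← hγ]
      exact Finset.smul_mem_smul_finset h2
    exact hxmax _ h3
  · rw [← hγ] at hx
    obtain ⟨y, hy, hyx⟩ := Finset.mem_smul_finset.1 hx
    rw [← hyx, sdV_smul_val]
    apply Finset.smul_finset_subset_smul_finset
    rw [← hed] at hy
    exact he'.1 _ ((SdEuler_mem_G K).1 hy)

private theorem SdEuler_eu {R : Finset (Finset K.V)} (hR : K.Reps R) (c : Finset (SdV K))
    (hc : c ∈ sdFaces K) :
    ∃! p : K.Γ × Finset (SdV K), p.2 ∈ SdEuler_S K R ∧ p.1 • p.2 = c := by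
  obtain ⟨x, hx, hxmax⟩ : ∃ x ∈ c, ∀ a ∈ c, a.1 ⊆ x.1 := by
    obtain ⟨m, hm, hmax⟩ := Finset.exists_max_image c (fun a : SdV K => a.1.card) hc.1
    refine ⟨m, hm, fun a ha => ?_⟩
    rcases hc.2 a ha m hm with h2 | h2
    · exact h2
    · exact (Finset.eq_of_subset_of_card_le h2 (hmax a ha)).symm.subset
  obtain ⟨⟨γ, A⟩, ⟨hA, hγ⟩, huniq⟩ := hR.2 x.1 x.2
  simp only at hA hγ
  refine ⟨(γ, (γ⁻¹ • c : Finset (SdV K))),
    ⟨SdEuler_ex K c hc x hx hxmax γ A hA hγ, smul_inv_smul γ c⟩, ?_⟩
  rintro ⟨γ', d'⟩ ⟨hd', hγ'⟩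
  simp only at hd' hγ'
  obtain ⟨A', hA2, h1⟩ := SdEuler_un K hR c x hx hxmax γ' d' hd' hγ'
  have h2 := huniq (γ', A') ⟨hA2, h1⟩
  have h3 : γ' = γ := congrArg Prod.fst h2
  subst h3
  have h4 : d' = γ'⁻¹ • c := by rw [← hγ', inv_smul_smul]
  rw [h4]

private theorem SdEuler_reps {R : Finset (Finset K.V)} (hR : K.Reps R) :
    (sd K).Reps (SdEuler_S K R) :=
  ⟨SdEuler_face K hR, SdEuler_eu K hR⟩

private theorem SdEuler_sum {R : Finset (Finset K.V)} (hR : K.Reps R) :
    ∑ d ∈ SdEuler_S K R, (-1 : ℤ) ^ (d.card + 1) = ∑ σ ∈ R, (-1 : ℤ) ^ (σ.card + 1) := by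
  have hface : ∀ σ ∈ R, ∀ e ∈ chainsTop σ, ∀ a ∈ e, a ∈ K.faces := by
    intro σ hσ e he a ha
    rw [SdEuler_mem] at he
    exact K.down_closed σ (hR.1 σ hσ) a (he.1 a ha) (he.2.2.1 a ha)
  have hinj : ∀ σ ∈ R, ∀ e ∈ chainsTop σ, (SdEuler_G K e).image (fun a => a.1) = e := by
    intro σ hσ e he
    ext a
    rw [Finset.mem_image]
    constructor
    · rintro ⟨y, hy, rfl⟩
      exact (SdEuler_mem_G K).1 hy
    · intro ha
      exact ⟨⟨a, hface σ hσ e he a ha⟩, (SdEuler_mem_G K).2 ha, rfl⟩
  have hcard : ∀ σ ∈ R, ∀ e ∈ chainsTop σ, (SdEuler_G K e).card = e.card := by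
    intro σ hσ e he
    have h1 : ((SdEuler_G K e).image (fun a => a.1)).card = (SdEuler_G K e).card :=
      Finset.card_image_of_injective _ Subtype.val_injective
    rw [← h1, hinj σ hσ e he]
  unfold SdEuler_S
  rw [Finset.sum_biUnion]
  · refine Finset.sum_congr rfl fun σ hσ => ?_
    rw [Finset.sum_image]
    · rw [Finset.sum_congr rfl fun e he => by rw [hcard σ hσ e he]]
      simp only [pow_succ]
      rw [← Finset.sum_mul, chain_sum σ (K.nonempty_of_mem _ (hR.1 σ hσ))]
    · intro e he e' he' hee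
      rw [← hinj σ hσ e he, ← hinj σ hσ e' he', hee]
  · intro σ hσ τ hτ hne
    rw [Function.onFun, Finset.disjoint_left]
    intro d hd hd'
    obtain ⟨e, he, hed⟩ := Finset.mem_image.1 hd
    obtain ⟨e', he', hed'⟩ := Finset.mem_image.1 hd'
    have h1 : e = e' := by
      rw [← hinj σ hσ e he, ← hinj τ hτ e' he', hed, hed']
    subst h1
    have h2 := SdEuler_mem.1 he
    have h3 := SdEuler_mem.1 he'
    exact hne (Finset.Subset.antisymm (h3.1 _ h2.2.1) (h2.1 _ h3.2.1))

theorem sd_eulerChar : (sd K).eulerChar = K.eulerChar := by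
  obtain ⟨R, hR⟩ := K.exists_reps
  rw [(sd K).eulerChar_eq (SdEuler_reps K hR), K.eulerChar_eq hR]
  exact SdEuler_sum K hR

end Pool.Agent.ChS
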