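import Pool.Agent.ChS.SdDef

/-!
# Topological properties of the barycentric subdivision

`sd_proper`: if `a` and `γ • a` lie in a chain they are comparable and have the same number of
elements, so `γ • a = a` and `γ = 1` (`K.free`).

`sd_connected`: `σ` is joined to `{v}` for `v ∈ σ`, and `{u}`, `{u, v}`, `{v}` is an edge path.

`sd_h1`: let `c` be additive on the triangles of the subdivision.  For `{u, v} ∈ K.faces` put
`c' u v = c {u} {u,v} - c {v} {u,v}` (and `0` otherwise).  For a face `T = {u, v, w}` one has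
`c' u v = c {u} T - c {v} T`, so `c'` is additive on triangles (possibly degenerate ones); let
`c' u v = f v - f u`.  For `v ∈ σ ∈ K.faces` the number `F σ = c {v} σ + f v` does not depend on `v ∈ σ`,
and `c σ τ = F τ - F σ` for `σ ⊆ τ` by additivity on `{v} ⊆ σ ⊆ τ`; for `τ ⊆ σ` use
`c σ τ + c τ σ = c σ σ = 0`.
-/

namespace Pool.Agent.ChS

open Matrix Pool.Agent.ChP
open scoped Pointwise

variable {n : ℕ} (K : AffineTriangulation n)

private theorem SdTop_pair (a b : SdV K) (h : a.1 ⊆ b.1) :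
    ({a, b} : Finset (SdV K)) ∈ sdFaces K := by
  refine ⟨Finset.insert_nonempty _ _, ?_⟩
  intro x hx y hy
  simp only [Finset.mem_insert, Finset.mem_singleton] at hx hy
  rcases hx with rfl | rfl <;> rcases hy with rfl | rfl
  · exact Or.inl subset_rfl
  · exact Or.inl h
  · exact Or.inr h
  · exact Or.inl subset_rfl

private theorem SdTop_pair' (a b : SdV K) (h : a.1 ⊆ b.1) :
    ({b, a} : Finset (SdV K)) ∈ sdFaces K := by
  rw [Finset.pair_comm]
  exact SdTop_pair K a b h

private theorem SdTop_triple (a b c : SdV K) (h : a.1 ⊆ b.1) (h' : b.1 ⊆ c.1) :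
    ({a, b, c} : Finset (SdV K)) ∈ sdFaces K := by
  refine ⟨Finset.insert_nonempty _ _, ?_⟩
  intro x hx y hy
  simp only [Finset.mem_insert, Finset.mem_singleton] at hx hy
  rcases hx with rfl | rfl | rfl <;> rcases hy with rfl | rfl | rfl
  · exact Or.inl subset_rfl
  · exact Or.inl h
  · exact Or.inl (h.trans h')
  · exact Or.inr h
  · exact Or.inl subset_rfl
  · exact Or.inl h'
  · exact Or.inr (h.trans h')
  · exact Or.inr h'
  · exact Or.inl subset_rfl

private theorem SdTop_edge (a b : SdV K) (h : ({a, b} : Finset (SdV K)) ∈ sdFaces K) :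
    a.1 ⊆ b.1 ∨ b.1 ⊆ a.1 :=
  h.2 a (Finset.mem_insert_self _ _) b (Finset.mem_insert_of_mem (Finset.mem_singleton_self _))

/-- the vertex of the subdivision given by a vertex -/
private def SdTop_vx (v : K.V) : SdV K := ⟨{v}, K.singleton_mem v⟩

private theorem SdTop_vx_sub {v : K.V} {a : SdV K} (h : v ∈ a.1) : (SdTop_vx K v).1 ⊆ a.1 := by
  intro x hx
  have : x = v := Finset.mem_singleton.1 hx
  rw [this]
  exact h

private theorem SdTop_proper (c : Finset (SdV K)) (hc : c ∈ sdFaces K) (v : SdV K) (hv : v ∈ c)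
    (γ : K.Γ) (h : γ • v ∈ c) : γ = 1 := by
  refine K.free γ v.1 v.2 ?_
  have h1 : (γ • v).1.card = v.1.card := by
    rw [sdV_smul_val, Finset.card_smul_finset]
  rw [← sdV_smul_val]
  rcases hc.2 _ h _ hv with h2 | h2
  · exact Finset.eq_of_subset_of_card_le h2 h1.ge
  · exact (Finset.eq_of_subset_of_card_le h2 h1.le).symm

theorem sd_proper : Proper (sd K) := by
  intro c hc v hv γ h
  exact SdTop_proper K c hc v hv γ h

/-- adjacency in the subdivision -/
private def SdTop_adj (a b : SdV K) : Prop := ({a, b} : Finset (SdV K)) ∈ sdFaces K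

private theorem SdTop_path (h : Connected K) (a b : SdV K) :
    Relation.ReflTransGen (SdTop_adj K) a b := by
  have h1 : ∀ u v : K.V, Relation.ReflTransGen (fun a b => ({a, b} : Finset K.V) ∈ K.faces) u v →
      Relation.ReflTransGen (SdTop_adj K) (SdTop_vx K u) (SdTop_vx K v) := by
    intro u v huv
    induction huv with
    | refl => exact Relation.ReflTransGen.refl
    | @tail v w _ hvw ih =>
      have e1 : SdTop_adj K (SdTop_vx K v) ⟨{v, w}, hvw⟩ :=
        SdTop_pair K _ _ (SdTop_vx_sub K (Finset.mem_insert_self _ _))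
      have e2 : SdTop_adj K ⟨{v, w}, hvw⟩ (SdTop_vx K w) :=
        SdTop_pair' K _ _ (SdTop_vx_sub K
          (Finset.mem_insert_of_mem (Finset.mem_singleton_self _)))
      exact (ih.tail e1).tail e2
  obtain ⟨u, hu⟩ := K.nonempty_of_mem _ a.2
  obtain ⟨v, hv⟩ := K.nonempty_of_mem _ b.2
  refine (Relation.ReflTransGen.head ?_ (h1 u v (h.2 u v))).tail ?_
  · exact SdTop_pair' K _ _ (SdTop_vx_sub K hu)
  · exact SdTop_pair K _ _ (SdTop_vx_sub K hv)

theorem sd_connected (h : Connected K) : Connected (sd K) := by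
  refine ⟨?_, fun a b => SdTop_path K h a b⟩
  obtain ⟨v⟩ := h.1
  exact ⟨SdTop_vx K v⟩

private theorem SdTop_h1 (h : H1Zero K) (c : SdV K → SdV K → ℝ)
    (hc : ∀ u v w : SdV K, ({u, v, w} : Finset (SdV K)) ∈ sdFaces K → c u v + c v w = c u w) :
    ∃ f : SdV K → ℝ, ∀ u v : SdV K, ({u, v} : Finset (SdV K)) ∈ sdFaces K →
      c u v = f v - f u := by
  classical
  have hch : ∀ u v w : SdV K, u.1 ⊆ v.1 → v.1 ⊆ w.1 → c u v + c v w = c u w :=
    fun u v w h1 h2 => hc u v w (SdTop_triple K u v w h1 h2)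
  have hcc : ∀ u : SdV K, c u u = 0 := by
    intro u
    have := hch u u u subset_rfl subset_rfl
    linarith
  have hanti : ∀ u v : SdV K, u.1 ⊆ v.1 → c v u = - c u v := by
    intro u v huv
    have h1 : ({u, v, u} : Finset (SdV K)) ∈ sdFaces K := by
      have h2 : ({u, v, u} : Finset (SdV K)) = {u, v} := by
        ext x
        simp only [Finset.mem_insert, Finset.mem_singleton]
        tauto
      rw [h2]
      exact SdTop_pair K u v huv
    have h3 := hc u v u h1
    rw [hcc] at h3
    linarith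
  -- the cochain on the edges
  obtain ⟨c', hc'⟩ : ∃ c' : K.V → K.V → ℝ, ∀ u v, c' u v =
      if hh : ({u, v} : Finset K.V) ∈ K.faces then
        c (SdTop_vx K u) ⟨{u, v}, hh⟩ - c (SdTop_vx K v) ⟨{u, v}, hh⟩ else 0 := ⟨_, fun _ _ => rfl⟩
  have key : ∀ (T : SdV K) (u v : K.V), u ∈ T.1 → v ∈ T.1 →
      c' u v = c (SdTop_vx K u) T - c (SdTop_vx K v) T := by
    intro T u v hu hv
    have hsub : ({u, v} : Finset K.V) ⊆ T.1 := by
      intro x hx
      rw [Finset.mem_insert, Finset.mem_singleton] at hx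
      rcases hx with rfl | rfl
      · exact hu
      · exact hv
    have hmem : ({u, v} : Finset K.V) ∈ K.faces :=
      K.down_closed _ T.2 _ hsub (Finset.insert_nonempty _ _)
    rw [hc', dif_pos hmem]
    have e1 := hch (SdTop_vx K u) ⟨{u, v}, hmem⟩ T
      (SdTop_vx_sub K (Finset.mem_insert_self _ _)) hsub
    have e2 := hch (SdTop_vx K v) ⟨{u, v}, hmem⟩ T
      (SdTop_vx_sub K (Finset.mem_insert_of_mem (Finset.mem_singleton_self _))) hsub
    linarith
  obtain ⟨f, hf⟩ := h c' (by
    intro u v w huvw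
    have hu : u ∈ ({u, v, w} : Finset K.V) := by simp
    have hv : v ∈ ({u, v, w} : Finset K.V) := by simp
    have hw : w ∈ ({u, v, w} : Finset K.V) := by simp
    rw [key ⟨_, huvw⟩ u v hu hv, key ⟨_, huvw⟩ v w hv hw, key ⟨_, huvw⟩ u w hu hw]
    ring)
  have hne : ∀ a : SdV K, ∃ v, v ∈ a.1 := fun a => K.nonempty_of_mem _ a.2
  choose p hp using hne
  obtain ⟨F, hF⟩ : ∃ F : SdV K → ℝ, ∀ a, F a = c (SdTop_vx K (p a)) a + f (p a) :=
    ⟨_, fun _ => rfl⟩
  have hFv : ∀ (a : SdV K) (v : K.V), v ∈ a.1 → F a = c (SdTop_vx K v) a + f v := by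
    intro a v hv
    have hsub : ({v, p a} : Finset K.V) ⊆ a.1 := by
      intro x hx
      rw [Finset.mem_insert, Finset.mem_singleton] at hx
      rcases hx with rfl | rfl
      · exact hv
      · exact hp a
    have hmem : ({v, p a} : Finset K.V) ∈ K.faces :=
      K.down_closed _ a.2 _ hsub (Finset.insert_nonempty _ _)
    have e1 := key a v (p a) hv (hp a)
    have e2 := hf v (p a) hmem
    rw [hF]
    linarith
  have hsubF : ∀ a b : SdV K, a.1 ⊆ b.1 → c a b = F b - F a := by
    intro a b hab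
    have e1 := hFv a (p a) (hp a)
    have e2 := hFv b (p a) (hab (hp a))
    have e3 := hch (SdTop_vx K (p a)) a b (SdTop_vx_sub K (hp a)) hab
    linarith
  refine ⟨F, fun a b hab => ?_⟩
  rcases SdTop_edge K a b hab with h1 | h1
  · exact hsubF a b h1
  · have e1 := hsubF b a h1
    have e2 := hanti b a h1
    linarith

theorem sd_h1 (h : H1Zero K) : H1Zero (sd K) := by
  intro c hc
  exact SdTop_h1 K h c hc

end Pool.Agent.ChS
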