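import Pool.Agent.ChS.Final
import Pool.Agent.ChS.SdTop
import Pool.Agent.ChS.SdEuler
import Pool.Agent.ChS.Cor
import Pool.Agent.ChS.FGGam

/-!
# The theorems for arbitrary triangulations
-/

namespace Pool.Agent.ChS

open Matrix Pool.Agent.ChP
open scoped Pointwise

variable (K : AffineTriangulation 4)

theorem final_Z1 (hc : Connected K) (h1 : H1Zero K) (H : Subgroup K.Γ) [hH : H.FiniteIndex]
    (hZ : Module.Finite ℝ (Z1 (K.lin.comp H.subtype))) :
    16 * (H.index * |K.eulerChar|) + 12 ≤ 6 * (H.index * K.eulerChar) +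
      2 * (Module.finrank ℝ (Z1 (K.lin.comp H.subtype)) : ℤ) := by
  obtain ⟨o⟩ := exists_lab (sd K) (sd_proper K)
  have hH' : (show Subgroup (sd K).Γ from H).FiniteIndex := hH
  have h := main_cover (sd K) (sd_connected K hc) (sd_h1 K h1) o (show Subgroup (sd K).Γ from H) hZ
  rw [sd_eulerChar] at h
  exact h

theorem final_gen (hc : Connected K) (h1 : H1Zero K) (H : Subgroup K.Γ) [hH : H.FiniteIndex]
    (S : Finset K.Γ) (hS : Subgroup.closure (S : Set K.Γ) = H) :
    16 * (H.index * |K.eulerChar|) + 12 ≤ 6 * (H.index * K.eulerChar) + 12 * (S.card : ℤ) := by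
  obtain ⟨o⟩ := exists_lab (sd K) (sd_proper K)
  have hH' : (show Subgroup (sd K).Γ from H).FiniteIndex := hH
  have h := main_gen (sd K) (sd_connected K hc) (sd_h1 K h1) o (show Subgroup (sd K).Γ from H)
    S hS
  rw [sd_eulerChar] at h
  exact h

/-- If the Euler characteristic of a closed affine 4-manifold is not zero then every subgroup of
index `k` of the fundamental group needs at least `1 + 5 k / 6` generators. -/
theorem final_zero (hc : Connected K) (h1 : H1Zero K) (H : Subgroup K.Γ) [hH : H.FiniteIndex]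
    (S : Finset K.Γ) (hS : Subgroup.closure (S : Set K.Γ) = H)
    (hlt : 6 * S.card < 5 * H.index + 6) : K.eulerChar = 0 := by
  by_contra h0
  have h := final_gen K hc h1 H S hS
  have h2 : (1 : ℤ) ≤ |K.eulerChar| := Int.one_le_abs h0
  have h3 : K.eulerChar ≤ |K.eulerChar| := le_abs_self _
  have h4 : (0 : ℤ) ≤ H.index := Int.natCast_nonneg _
  have h5 : (H.index : ℤ) * K.eulerChar ≤ H.index * |K.eulerChar| :=
    mul_le_mul_of_nonneg_left h3 h4
  have h6 : (H.index : ℤ) * 1 ≤ H.index * |K.eulerChar| :=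
    mul_le_mul_of_nonneg_left h2 h4
  have h7 : (6 * (S.card : ℤ)) < 5 * H.index + 6 := by exact_mod_cast hlt
  omega

theorem final_fewGen (hc : Connected K) (h1 : H1Zero K) (h : FewGen K.Γ) : K.eulerChar = 0 := by
  obtain ⟨H, S, hH, hS, hlt⟩ := h
  exact final_zero K hc h1 H S hS hlt

/-- Extensions of `ℤ` by finitely generated groups. -/
theorem final_int (hc : Connected K) (h1 : H1Zero K) (φ : K.Γ →* Multiplicative ℤ)
    (hφ : Function.Surjective φ) (hN : φ.ker.FG) : K.eulerChar = 0 :=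
  final_fewGen K hc h1 (fewGen_of_int φ hφ hN)

/-- Finitely generated normal subgroups. -/
theorem final_normal (hc : Connected K) (h1 : H1Zero K) (N : Subgroup K.Γ) [N.Normal]
    (hN : N.FG) (h : ∀ m : ℕ, ∃ H : Subgroup K.Γ, H.FiniteIndex ∧ m ≤ H.relIndex N ∧
      m ≤ (N ⊔ H).index) : K.eulerChar = 0 :=
  final_fewGen K hc h1 (fewGen_of_normal (gamma_fg K hc) N hN h)

/-- The main theorem. -/
theorem final_main (hc : Connected K) (h1 : H1Zero K) (H : Subgroup K.Γ) (hH : H.FiniteIndex)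
    (S : Finset K.Γ) (hS : Subgroup.closure (S : Set K.Γ) = H) :
    8 * (H.index * |K.eulerChar|) + 6 ≤ 3 * (H.index * K.eulerChar) +
        (Module.finrank ℝ (Z1 (K.lin.comp H.subtype)) : ℤ) ∧
      Module.finrank ℝ (Z1 (K.lin.comp H.subtype)) ≤ 6 * S.card ∧
      (6 * S.card < 5 * H.index + 6 → K.eulerChar = 0) := by
  obtain ⟨hZ1, hZ2⟩ := z1_finrank_le' (K.lin) H S hS
  refine ⟨?_, hZ2, fun h => final_zero K hc h1 H S hS h⟩
  have h := final_Z1 K hc h1 H hZ1
  omega

end Pool.Agent.ChS
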