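import Pool.Agent.ChS.Defs
import Pool.Agent.ChP.Star

/-!
# Ordered chambers

* `exists_cham`: enumerate the vertices of the chamber by increasing labels (`Lab.inj`).
* `cham_unique`: strictly increasing enumerations of the same set coincide.
* `genPos_lin`: write the chamber as the image of an ordered tuple `t` and complete `J` to a set
  of `n` vertices; the determinant of the corresponding vectors is `± tco`.
* `numSimplices_eq`: see the proof of `AffineTriangulation.eulerChar_eq` in `ChP/Star.lean`.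
* `card_chamReps`: `t ↦ image t` is a bijection between the ordered chambers in `chamReps o R` and
  the `σ ∈ R` with `σ.card = n + 1`.
-/

namespace Pool.Agent.ChS

open Matrix Pool.Agent.ChP
open scoped Pointwise

variable {n : ℕ} {K : AffineTriangulation n}

theorem Cham.injective {o : Lab K} {t : Fin (n + 1) → K.V} (ht : Cham o t) :
    Function.Injective t := by
  intro i j hij
  exact ht.1.injective (congrArg o.lab hij)

theorem Cham.chb {o : Lab K} {t : Fin (n + 1) → K.V} (ht : Cham o t) :
    Chb K (Finset.univ.image t) := by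
  refine ⟨ht.2, ?_⟩
  rw [Finset.card_image_of_injective _ ht.injective, Finset.card_univ, Fintype.card_fin]

private theorem ChamBasic_image_smul (γ : K.Γ) (t : Fin (n + 1) → K.V) :
    Finset.univ.image (fun i => γ • t i) = γ • Finset.univ.image t := by
  ext v
  simp only [Finset.mem_image, Finset.mem_univ, true_and, Finset.mem_smul_finset]
  constructor
  · rintro ⟨i, rfl⟩
    exact ⟨t i, ⟨i, rfl⟩, rfl⟩
  · rintro ⟨_, ⟨i, rfl⟩, rfl⟩
    exact ⟨i, rfl⟩

theorem Cham.smul {o : Lab K} {t : Fin (n + 1) → K.V} (ht : Cham o t) (γ : K.Γ) :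
    Cham o (fun i => γ • t i) := by
  refine ⟨?_, ?_⟩
  · intro i j hij
    simp only [o.smul]
    exact ht.1 hij
  · rw [ChamBasic_image_smul]
    exact K.smul_mem _ _ ht.2

theorem exists_cham (o : Lab K) {σ : Finset K.V} (hσ : Chb K σ) :
    ∃ t : Fin (n + 1) → K.V, Cham o t ∧ Finset.univ.image t = σ := by
  classical
  have hinj := o.inj σ hσ.1
  have hc : (σ.image o.lab).card = n + 1 := by
    rw [Finset.card_image_of_injOn hinj, hσ.2]
  have hmem : ∀ i, ∃ v ∈ σ, o.lab v = (σ.image o.lab).orderEmbOfFin hc i := by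
    intro i
    have := Finset.orderEmbOfFin_mem (σ.image o.lab) hc i
    rw [Finset.mem_image] at this
    exact this
  choose t ht ht' using hmem
  have hmono : StrictMono (fun i => o.lab (t i)) := by
    intro i j hij
    simp only [ht']
    exact ((σ.image o.lab).orderEmbOfFin hc).strictMono hij
  have him : Finset.univ.image t = σ := by
    apply Finset.eq_of_subset_of_card_le
    · intro v hv
      rw [Finset.mem_image] at hv
      obtain ⟨i, -, rfl⟩ := hv
      exact ht i
    · rw [hσ.2, Finset.card_image_of_injective, Finset.card_univ, Fintype.card_fin]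
      intro i j hij
      exact hmono.injective (congrArg o.lab hij)
  exact ⟨t, ⟨hmono, by rw [him]; exact hσ.1⟩, him⟩

theorem cham_unique {o : Lab K} {t t' : Fin (n + 1) → K.V} (ht : Cham o t) (ht' : Cham o t')
    (h : Finset.univ.image t = Finset.univ.image t') : t = t' := by
  have h1 : (fun i => o.lab (t i)) = fun i => o.lab (t' i) := by
    rw [← StrictMono.range_inj ht.1 ht'.1]
    have e : ∀ s : Fin (n + 1) → K.V, Set.range (fun i => o.lab (s i)) =
        o.lab '' ((Finset.univ.image s : Finset K.V) : Set K.V) := by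
      intro s
      rw [Finset.coe_image, Finset.coe_univ, Set.image_univ, ← Set.range_comp]
      rfl
    rw [e t, e t', h]
  funext i
  refine o.inj _ ht'.2 ?_ ?_ (congrFun h1 i)
  · rw [← h]
    exact Finset.mem_coe.2 (Finset.mem_image_of_mem t (Finset.mem_univ i))
  · exact Finset.mem_coe.2 (Finset.mem_image_of_mem t' (Finset.mem_univ i))

private theorem ChamBasic_sign_mul (a b : ℝ) : Real.sign (a * b) = Real.sign a * Real.sign b := by
  rcases lt_trichotomy a 0 with ha | ha | ha <;> rcases lt_trichotomy b 0 with hb | hb | hb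
  · rw [Real.sign_of_neg ha, Real.sign_of_neg hb, Real.sign_of_pos (mul_pos_of_neg_of_neg ha hb)]
    norm_num
  · rw [hb, mul_zero, Real.sign_zero, mul_zero]
  · rw [Real.sign_of_neg ha, Real.sign_of_pos hb, Real.sign_of_neg (mul_neg_of_neg_of_pos ha hb)]
    norm_num
  · rw [ha, zero_mul, Real.sign_zero, zero_mul]
  · rw [ha, zero_mul, Real.sign_zero, zero_mul]
  · rw [ha, zero_mul, Real.sign_zero, zero_mul]
  · rw [Real.sign_of_pos ha, Real.sign_of_neg hb, Real.sign_of_neg (mul_neg_of_pos_of_neg ha hb)]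
    norm_num
  · rw [hb, mul_zero, Real.sign_zero, mul_zero]
  · rw [Real.sign_of_pos ha, Real.sign_of_pos hb, Real.sign_of_pos (mul_pos ha hb)]
    norm_num

theorem orr_smul (γ : K.Γ) (t : Fin (n + 1) → K.V) :
    orr K (fun i => γ • t i) = chi K.lin γ * orr K t := by
  unfold orr chi
  have h : (Matrix.of fun a : Fin n => K.dev (γ • t a.succ) - K.dev (γ • t 0)) =
      (Matrix.of fun a : Fin n => K.dev (t a.succ) - K.dev (t 0)) * (K.lin γ)ᵀ := by
    ext a b
    rw [Matrix.of_apply, K.dev_smul, K.dev_smul, ← K.lin_mulVec, Matrix.mul_apply]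
    simp only [Matrix.mulVec, dotProduct, Matrix.of_apply, Matrix.transpose_apply]
    exact Finset.sum_congr rfl fun c _ => mul_comm _ _
  rw [h, Matrix.det_mul, Matrix.det_transpose, ChamBasic_sign_mul, mul_comm]

theorem orr_ne_zero {o : Lab K} {t : Fin (n + 1) → K.V} (ht : Cham o t) : orr K t ≠ 0 := by
  unfold orr
  rw [Ne, Real.sign_eq_zero_iff]
  have h1 := K.indep _ ht.2
  let e : Fin (n + 1) ↪ (Finset.univ.image t : Finset K.V) :=
    ⟨fun i => ⟨t i, Finset.mem_image_of_mem t (Finset.mem_univ i)⟩, fun i j hij =>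
      ht.injective (congrArg Subtype.val hij)⟩
  have h2 := h1.comp_embedding e
  rw [affineIndependent_iff_linearIndependent_vsub ℝ _ (0 : Fin (n + 1))] at h2
  have h3 := h2.comp (fun a : Fin n => (⟨a.succ, Fin.succ_ne_zero a⟩ : {x : Fin (n + 1) // x ≠ 0}))
    (fun a b hab => Fin.succ_injective n (congrArg Subtype.val hab))
  have h4 : LinearIndependent ℝ
      (Matrix.of fun a : Fin n => K.dev (t a.succ) - K.dev (t 0)).row := h3
  rw [Matrix.linearIndependent_rows_iff_isUnit, Matrix.isUnit_iff_isUnit_det,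
    isUnit_iff_ne_zero] at h4
  exact h4

theorem genPos_lin {o : Lab K} {s : K.V → Fin n → ℝ} (hg : GenPos o s) {σ : Finset K.V}
    (hσ : Chb K σ) : ∀ J ⊆ σ, J.card ≤ n → LinearIndependent ℝ (fun v : J => s v) := by
  intro J hJ hJn
  obtain ⟨t, ht, rfl⟩ := exists_cham o hσ
  obtain ⟨v, hv, hvJ⟩ : ∃ v ∈ Finset.univ.image t, v ∉ J := by
    by_contra hcon
    push Not at hcon
    have := Finset.card_le_card (show Finset.univ.image t ⊆ J from hcon)
    rw [hσ.2] at this
    omega
  rw [Finset.mem_image] at hv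
  obtain ⟨i, -, rfl⟩ := hv
  have h1 := hg t ht i
  unfold tco at h1
  have h2 := right_ne_zero_of_mul h1
  have h3 : LinearIndependent ℝ (Matrix.of fun a b : Fin n => s (t (i.succAbove a)) b).row := by
    rw [Matrix.linearIndependent_rows_iff_isUnit, Matrix.isUnit_iff_isUnit_det,
      isUnit_iff_ne_zero]
    exact h2
  have h4 : ∀ w : J, ∃ a : Fin n, t (i.succAbove a) = w := by
    intro w
    obtain ⟨k, -, hk⟩ := Finset.mem_image.1 (hJ w.2)
    have hki : k ≠ i := by
      rintro rfl
      rw [hk] at hvJ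
      exact hvJ w.2
    obtain ⟨a, ha⟩ := Fin.exists_succAbove_eq hki
    exact ⟨a, by rw [ha, hk]⟩
  choose a ha using h4
  have h5 := h3.comp a (fun u w huw => by
    apply Subtype.ext
    rw [← ha u, ← ha w, huw])
  convert h5 using 1
  funext w b
  simp only [Function.comp_apply, Matrix.row_apply, Matrix.of_apply]
  rw [ha]

theorem genPos_left {o : Lab K} {s s' : K.V → Fin n → ℝ} (hg : GenPos2 o s s') :
    GenPos o s := by
  intro t ht i
  unfold tco
  refine mul_ne_zero (pow_ne_zero _ (by norm_num)) ?_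
  have h := hg t ht ⟨fun a => (i.succAbove a, false), fun a b hab =>
    Fin.succAbove_right_injective (congrArg Prod.fst hab)⟩
  simpa using h

theorem numSimplices_eq {R : Finset (Finset K.V)} (hR : K.Reps R) (k : ℕ) :
    K.numSimplices k = (R.filter fun σ => σ.card = k + 1).card := by
  classical
  have hset : {O : Set (Finset K.V) | ∃ σ ∈ K.faces, σ.card = k + 1 ∧
      O = MulAction.orbit K.Γ σ} =
      (((R.filter fun σ => σ.card = k + 1).image fun σ => MulAction.orbit K.Γ σ :
        Finset (Set (Finset K.V))) : Set (Set (Finset K.V))) := by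
    ext O
    simp only [Set.mem_ofPred_eq, Finset.coe_image, Set.mem_image, Finset.coe_filter]
    constructor
    · rintro ⟨σ, hσ, hc, rfl⟩
      obtain ⟨⟨γ, A⟩, ⟨hA, hγ⟩, -⟩ := hR.2 σ hσ
      simp only at hA hγ
      refine ⟨A, ⟨hA, ?_⟩, ?_⟩
      · rw [← hc, ← hγ, Finset.card_smul_finset]
      · rw [← hγ, MulAction.orbit_smul]
    · rintro ⟨A, ⟨hA, hc⟩, rfl⟩
      exact ⟨A, hR.1 A hA, hc, rfl⟩
  unfold AffineTriangulation.numSimplices
  rw [hset, Set.ncard_coe_finset, Finset.card_image_of_injOn]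
  intro A hA B hB h
  simp only [Finset.coe_filter, Set.mem_ofPred_eq] at hA hB
  have h1 : A ∈ MulAction.orbit K.Γ B := by
    have h2 : MulAction.orbit K.Γ A = MulAction.orbit K.Γ B := h
    rw [← h2]
    exact MulAction.mem_orbit_self A
  obtain ⟨γ, hγ⟩ := h1
  have h3 := (hR.2 A (hR.1 A hA.1)).unique (y₁ := ((1 : K.Γ), A)) (y₂ := (γ, B))
    ⟨hA.1, one_smul _ _⟩ ⟨hB.1, hγ⟩
  exact congrArg Prod.snd h3

theorem card_chamReps (o : Lab K) {R : Finset (Finset K.V)} (hR : K.Reps R) :
    (chamReps o R).card = K.numSimplices n := by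
  rw [numSimplices_eq hR]
  refine Finset.card_bij (fun t _ => Finset.univ.image t) ?_ ?_ ?_
  · intro t ht
    rw [mem_chamReps] at ht
    rw [Finset.mem_filter]
    exact ⟨ht.2, ht.1.chb.2⟩
  · intro t ht t' ht' h
    rw [mem_chamReps] at ht ht'
    exact cham_unique ht.1 ht'.1 h
  · intro σ hσ
    rw [Finset.mem_filter] at hσ
    obtain ⟨t, ht, hts⟩ := exists_cham o ⟨hR.1 σ hσ.1, hσ.2⟩
    exact ⟨t, mem_chamReps.2 ⟨ht, by rw [hts]; exact hσ.1⟩, hts⟩

/-- every ordered chamber is a translate of exactly one element of `chamReps` -/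
theorem exists_chamRep (o : Lab K) {R : Finset (Finset K.V)} (hR : K.Reps R)
    {t : Fin (n + 1) → K.V} (ht : Cham o t) :
    ∃ γ : K.Γ, ∃ t' ∈ chamReps o R, t = fun i => γ • t' i := by
  obtain ⟨⟨γ, A⟩, ⟨hA, hγ⟩, -⟩ := hR.2 _ ht.2
  simp only at hA hγ
  refine ⟨γ, fun i => γ⁻¹ • t i, ?_, ?_⟩
  · rw [mem_chamReps]
    refine ⟨ht.smul γ⁻¹, ?_⟩
    rw [ChamBasic_image_smul, ← hγ, inv_smul_smul]
    exact hA
  · funext i
    rw [smul_inv_smul]

end Pool.Agent.ChS
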