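import Pool.Agent.ChS.ChamBasic

/-!
# Counting flags

Both sides count the orbits of pairs `(ρ, τ)`, `ρ ⊆ τ ∈ K.faces`, `ρ.card = j`, `τ.card = k`: every
orbit contains exactly one pair with `ρ ∈ R` and exactly one pair with `τ ∈ R` (freeness:
`Reps` gives unique translations).  E.g. `(ρ, τ) ↦ (γ⁻¹ • ρ, γ⁻¹ • τ)`, `γ` determined by
`τ = γ • σ`, `σ ∈ R`, is a bijection from the pairs with `ρ ∈ R` to the pairs with `τ ∈ R`.
-/

namespace Pool.Agent.ChS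

open Matrix Pool.Agent.ChP
open scoped Pointwise

variable {n : ℕ} {K : AffineTriangulation n}

theorem flag_count {R : Finset (Finset K.V)} (hR : K.Reps R) {j : ℕ} (hj : 0 < j) (k : ℕ) :
    ∑ ρ ∈ R.filter (fun ρ => ρ.card = j), {τ | τ ∈ K.faces ∧ ρ ⊆ τ ∧ τ.card = k}.ncard =
      k.choose j * (R.filter fun σ => σ.card = k).card := by
  classical
  have hfin : ∀ ρ ∈ R, {τ | τ ∈ K.faces ∧ ρ ⊆ τ ∧ τ.card = k}.Finite := fun ρ hρ =>
    (K.star_finite (hR.1 ρ hρ)).subset (fun τ hτ => ⟨hτ.1, hτ.2.1⟩)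
  -- finset version of the star
  obtain ⟨S, hS⟩ : ∃ S : Finset K.V → Finset (Finset K.V), ∀ ρ ∈ R,
      (∀ τ, τ ∈ S ρ ↔ τ ∈ K.faces ∧ ρ ⊆ τ ∧ τ.card = k) ∧
      {τ | τ ∈ K.faces ∧ ρ ⊆ τ ∧ τ.card = k}.ncard = (S ρ).card := by
    refine ⟨fun ρ => if h : ρ ∈ R then (hfin ρ h).toFinset else ∅, fun ρ hρ => ⟨fun τ => ?_, ?_⟩⟩
    · simp only [dif_pos hρ]
      rw [Set.Finite.mem_toFinset]
      rfl
    · simp only [dif_pos hρ]
      exact Set.ncard_eq_toFinset_card _ (hfin ρ hρ)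
  have hex : ∀ τ : Finset K.V, ∃ p : K.Γ × Finset K.V, τ ∈ K.faces →
      (p.2 ∈ R ∧ p.1 • p.2 = τ) ∧ ∀ q : K.Γ × Finset K.V, q.2 ∈ R → q.1 • q.2 = τ → q = p := by
    intro τ
    by_cases h : τ ∈ K.faces
    · obtain ⟨p, hp, hu⟩ := hR.2 τ h
      exact ⟨p, fun _ => ⟨hp, fun q h1 h2 => hu q ⟨h1, h2⟩⟩⟩
    · exact ⟨(1, τ), fun h' => absurd h' h⟩
  choose rep hrep using hex
  have hleft : ∑ ρ ∈ R.filter (fun ρ => ρ.card = j),
      {τ | τ ∈ K.faces ∧ ρ ⊆ τ ∧ τ.card = k}.ncard =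
      ((R.filter (fun ρ => ρ.card = j)).sigma S).card := by
    rw [Finset.card_sigma]
    exact Finset.sum_congr rfl (fun ρ hρ => (hS ρ (Finset.mem_filter.1 hρ).1).2)
  have hright : k.choose j * (R.filter fun σ => σ.card = k).card =
      ((R.filter (fun σ => σ.card = k)).sigma (fun σ => σ.powersetCard j)).card := by
    rw [Finset.card_sigma, Finset.sum_congr rfl (g := fun _ => k.choose j), Finset.sum_const,
      smul_eq_mul, mul_comm]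
    intro σ hσ
    rw [Finset.card_powersetCard, (Finset.mem_filter.1 hσ).2]
  rw [hleft, hright]
  have hface : ∀ σ ∈ R, ∀ π ⊆ σ, π.card = j → π ∈ K.faces := fun σ hσ π hπ hc =>
    K.down_closed σ (hR.1 σ hσ) π hπ (Finset.card_pos.1 (by omega))
  have hinv : ∀ (γ : K.Γ) (σ τ : Finset K.V), γ • σ = τ → γ⁻¹ • τ = σ := fun γ σ τ h => by
    rw [← h, inv_smul_smul]
  refine Finset.card_nbij' (fun x => ⟨(rep x.2).2, (rep x.2).1⁻¹ • x.1⟩)
    (fun y => ⟨(rep y.2).2, (rep y.2).1⁻¹ • y.1⟩) ?_ ?_ ?_ ?_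
  · rintro ⟨ρ, τ⟩ hx
    simp only [Finset.coe_sigma, Set.mem_sigma_iff, Finset.mem_coe, Finset.mem_filter,
      Finset.mem_powersetCard] at hx ⊢
    obtain ⟨⟨h1, h2⟩, h3⟩ := hx
    obtain ⟨h4, h5, h6⟩ := ((hS ρ h1).1 τ).1 h3
    obtain ⟨⟨h7, h8⟩, -⟩ := hrep τ h4
    have h9 := hinv _ _ _ h8
    refine ⟨⟨h7, ?_⟩, ?_, ?_⟩
    · rw [← h6, ← h9, Finset.card_smul_finset]
    · rw [← h9]
      exact Finset.smul_finset_subset_smul_finset h5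
    · rw [Finset.card_smul_finset, h2]
  · rintro ⟨σ, π⟩ hx
    simp only [Finset.coe_sigma, Set.mem_sigma_iff, Finset.mem_coe, Finset.mem_filter,
      Finset.mem_powersetCard] at hx ⊢
    obtain ⟨⟨h1, h2⟩, h3, h4⟩ := hx
    have h5 := hface σ h1 π h3 h4
    obtain ⟨⟨h7, h8⟩, -⟩ := hrep π h5
    have h9 := hinv _ _ _ h8
    refine ⟨⟨h7, ?_⟩, ?_⟩
    · rw [← h4, ← h9, Finset.card_smul_finset]
    · rw [(hS _ h7).1]
      refine ⟨K.smul_mem _ _ (hR.1 σ h1), ?_, ?_⟩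
      · rw [← h9]
        exact Finset.smul_finset_subset_smul_finset h3
      · rw [Finset.card_smul_finset, h2]
  · rintro ⟨ρ, τ⟩ hx
    simp only [Finset.coe_sigma, Set.mem_sigma_iff, Finset.mem_coe, Finset.mem_filter] at hx
    obtain ⟨⟨h1, h2⟩, h3⟩ := hx
    obtain ⟨h4, h5, h6⟩ := ((hS ρ h1).1 τ).1 h3
    obtain ⟨⟨h7, h8⟩, -⟩ := hrep τ h4
    have h9 : (rep τ).1⁻¹ • ρ ∈ K.faces := K.smul_mem _ _ (hR.1 ρ h1)
    have h10 := (hrep _ h9).2 ((rep τ).1⁻¹, ρ) h1 rfl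
    simp only
    rw [← h10]
    simp only [inv_inv]
    rw [h8]
  · rintro ⟨σ, π⟩ hx
    simp only [Finset.coe_sigma, Set.mem_sigma_iff, Finset.mem_coe, Finset.mem_filter,
      Finset.mem_powersetCard] at hx
    obtain ⟨⟨h1, h2⟩, h3, h4⟩ := hx
    have h5 := hface σ h1 π h3 h4
    obtain ⟨⟨h7, h8⟩, -⟩ := hrep π h5
    have h9 : (rep π).1⁻¹ • σ ∈ K.faces := K.smul_mem _ _ (hR.1 σ h1)
    have h10 := (hrep _ h9).2 ((rep π).1⁻¹, σ) h1 rfl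
    simp only
    rw [← h10]
    simp only [inv_inv]
    rw [h8]

end Pool.Agent.ChS
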