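import Pool.Agent.ChS.Defs
import Pool.Agent.ChP.Star

/-!
# The Euler characteristic of links

Choose `x ∈ ℝ^n` outside all proper subspaces `span {dev u - dev u' : u, u' ∈ ρ \ {v}}`,
`σ₀ ⊆ ρ ∈ K.faces`, `v ∈ ρ` (finitely many, `star_finite`; dimension `< n` as they are spanned
by at most `n` affinely independent points), and outside the spans of the directions of the faces
`ρ ⊇ σ₀` with `ρ.card ≤ n`.
For `σ₀ ⊆ τ ∈ K.faces` let `ρ τ ⊇ τ` be the simplex which `x` enters from `τ` (`local_homeo`); by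
the choice of `x` it has `n + 1` elements.  For a simplex `ρ ⊇ σ₀` with `n + 1` elements write
`x = ∑_{v ∈ ρ} c_v dev v`, `∑ c_v = 0` (unique); all `c_v ≠ 0`.  One has `ρ τ = ρ` iff
`σ₀ ∪ N ⊆ τ ⊆ ρ`, `N = {v ∈ ρ : c_v < 0}`.  The sum of `(-1)^τ.card` over these `τ` is `0` unless
`σ₀ ∪ N = ρ`, and then `(-1)^(n+1)`.  The latter means that `-x` enters `ρ` from `σ₀`, which is the case
for exactly one `ρ` (`local_homeo` for `σ₀` and `-x`).
-/

namespace Pool.Agent.ChS

open Matrix Pool.Agent.ChP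
open scoped Pointwise

variable {n : ℕ} (K : AffineTriangulation n)

private theorem StarEuler_sum_Icc {V : Type*} [DecidableEq V] (A B : Finset V) (hAB : A ⊆ B) :
    ∑ τ ∈ Finset.Icc A B, (-1 : ℤ) ^ τ.card = if A = B then (-1) ^ B.card else 0 := by
  rw [Finset.Icc_eq_image_powerset hAB, Finset.sum_image]
  · have h : ∀ C ∈ (B \ A).powerset,
        (-1 : ℤ) ^ (A ∪ C).card = (-1) ^ A.card * (-1) ^ C.card := by
      intro C hC
      rw [Finset.card_union_of_disjoint, pow_add]
      exact Finset.disjoint_sdiff.mono_right (Finset.mem_powerset.1 hC)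
    rw [Finset.sum_congr rfl h, ← Finset.mul_sum, Finset.sum_powerset_neg_one_pow_card]
    by_cases h1 : A = B
    · subst h1
      simp
    · rw [if_neg, if_neg h1, mul_zero]
      intro h2
      exact h1 (subset_antisymm hAB (Finset.sdiff_eq_empty_iff_subset.1 h2))
  · intro C hC D hD hCD
    have hC' : Disjoint A C :=
      Finset.disjoint_sdiff.mono_right (Finset.mem_powerset.1 hC)
    have hD' : Disjoint A D :=
      Finset.disjoint_sdiff.mono_right (Finset.mem_powerset.1 hD)
    have e1 : (A ∪ C) \ A = C := by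
      rw [Finset.union_sdiff_left]
      exact Finset.sdiff_eq_self_of_disjoint hC'.symm
    have e2 : (A ∪ D) \ A = D := by
      rw [Finset.union_sdiff_left]
      exact Finset.sdiff_eq_self_of_disjoint hD'.symm
    have hCD' : A ∪ C = A ∪ D := hCD
    rw [← e1, ← e2, hCD']

private theorem StarEuler_mem {ρ : Finset K.V} {c : K.V → ℝ} (h0 : ∑ v ∈ ρ, c v = 0) :
    ∑ v ∈ ρ, c v • K.dev v ∈ vectorSpan ℝ (Set.range fun v : ρ => K.dev v) := by
  rcases ρ.eq_empty_or_nonempty with h | ⟨v0, hv0⟩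
  · subst h
    rw [Finset.sum_empty]
    exact Submodule.zero_mem _
  · have hx : ∑ v ∈ ρ, c v • K.dev v = ∑ v ∈ ρ, c v • (K.dev v - K.dev v0) := by
      simp only [smul_sub]
      rw [Finset.sum_sub_distrib, ← Finset.sum_smul, h0, zero_smul, sub_zero]
    rw [hx]
    refine Submodule.sum_mem _ fun v hv => Submodule.smul_mem _ _ ?_
    exact vsub_mem_vectorSpan ℝ ⟨⟨v, hv⟩, rfl⟩ ⟨⟨v0, hv0⟩, rfl⟩

private theorem StarEuler_uniq {ρ : Finset K.V} (hρ : ρ ∈ K.faces) {c c' : K.V → ℝ}
    (h0 : ∑ v ∈ ρ, c v = 0) (h0' : ∑ v ∈ ρ, c' v = 0)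
    (h1 : ∑ v ∈ ρ, c v • K.dev v = ∑ v ∈ ρ, c' v • K.dev v) : ∀ v ∈ ρ, c v = c' v := by
  intro v hv
  have h := affineIndependent_iff.1 (K.indep ρ hρ) Finset.univ (fun u : ρ => c u - c' u)
    (by
      rw [Finset.sum_sub_distrib, Finset.sum_coe_sort ρ (fun u => c u),
        Finset.sum_coe_sort ρ (fun u => c' u), h0, h0', sub_zero])
    (by
      simp only [sub_smul]
      rw [Finset.sum_sub_distrib, Finset.sum_coe_sort ρ (fun u => c u • K.dev u),
        Finset.sum_coe_sort ρ (fun u => c' u • K.dev u), h1, sub_self])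
    ⟨v, hv⟩ (Finset.mem_univ _)
  exact sub_eq_zero.1 h

private theorem StarEuler_generic (hn : 0 < n) (P : Finset (Finset K.V))
    (hP : ∀ ρ ∈ P, ρ.card ≤ n) :
    ∃ x : Fin n → ℝ, ∀ ρ ∈ P, x ∉ vectorSpan ℝ (Set.range fun v : ρ => K.dev v) := by
  by_contra hcon
  push Not at hcon
  have hcov : (⋃ τ : {τ : Finset K.V // τ ∈ P},
      ((vectorSpan ℝ (Set.range fun v : τ.1 => K.dev v) : Submodule ℝ (Fin n → ℝ)) :
        Set (Fin n → ℝ))) = Set.univ := by
    rw [Set.eq_univ_iff_forall]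
    intro x
    obtain ⟨ρ, hρ, hx⟩ := hcon x
    exact Set.mem_iUnion.2 ⟨⟨ρ, hρ⟩, hx⟩
  obtain ⟨⟨τ, hτ⟩, htop⟩ := Subspace.exists_eq_top_of_iUnion_eq_univ hcov
  have hc := hP τ hτ
  have htop' : vectorSpan ℝ (Set.range fun v : τ => K.dev v) = ⊤ := htop
  have hr : Module.finrank ℝ (vectorSpan ℝ (Set.range fun v : τ => K.dev v)) = n := by
    rw [htop', finrank_top, Module.finrank_fin_fun]
  rcases τ.eq_empty_or_nonempty with h | h
  · subst h
    have he : (Set.range fun v : (∅ : Finset K.V) => K.dev v) = ∅ := by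
      haveI : IsEmpty (∅ : Finset K.V) := ⟨fun v => absurd v.2 (Finset.notMem_empty _)⟩
      exact Set.range_eq_empty _
    rw [he, vectorSpan_empty, finrank_bot] at hr
    omega
  · have hcard : Fintype.card τ = (τ.card - 1) + 1 := by
      rw [Fintype.card_coe]
      have := h.card_pos
      omega
    have h2 := finrank_vectorSpan_range_le ℝ (fun v : τ => K.dev v) hcard
    rw [hr] at h2
    have := h.card_pos
    omega

theorem star_euler {σ₀ : Finset K.V} (h : σ₀ ∈ K.faces) :
    ∑ τ ∈ (K.star_finite h).toFinset, (-1 : ℤ) ^ τ.card = (-1) ^ (n + 1) := by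
  classical
  have memS : ∀ τ, τ ∈ (K.star_finite h).toFinset ↔ τ ∈ K.faces ∧ σ₀ ⊆ τ := fun τ => by
    rw [Set.Finite.mem_toFinset]
    rfl
  rcases Nat.eq_zero_or_pos n with hn | hn
  · have hS : (K.star_finite h).toFinset = {σ₀} := by
      ext τ
      rw [memS, Finset.mem_singleton]
      constructor
      · rintro ⟨hτ, hsub⟩
        have h1 := K.card_le hτ
        have h2 := (K.nonempty_of_mem σ₀ h).card_pos
        exact (Finset.eq_of_subset_of_card_le hsub (by omega)).symm
      · rintro rfl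
        exact ⟨h, subset_rfl⟩
    have hc : σ₀.card = n + 1 := by
      have h1 := K.card_le h
      have h2 := (K.nonempty_of_mem σ₀ h).card_pos
      omega
    rw [hS, Finset.sum_singleton, hc]
  · obtain ⟨x, hx⟩ := StarEuler_generic K hn
      (((K.star_finite h).toFinset.biUnion Finset.powerset).filter (fun ρ => ρ.card ≤ n))
      (fun ρ hρ => (Finset.mem_filter.1 hρ).2)
    have hG : ∀ ρ ∈ K.faces, σ₀ ⊆ ρ → ∀ c : K.V → ℝ, ∑ v ∈ ρ, c v = 0 →
        ∑ v ∈ ρ, c v • K.dev v = x → ρ.card = n + 1 ∧ ∀ v ∈ ρ, c v ≠ 0 := by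
      intro ρ hρ hsub c h0 h1
      have hP : ∀ ρ' ⊆ ρ, ρ'.card ≤ n →
          x ∉ vectorSpan ℝ (Set.range fun v : ρ' => K.dev v) := by
        intro ρ' hρ' hc
        exact hx ρ' (Finset.mem_filter.2 ⟨Finset.mem_biUnion.2
          ⟨ρ, (memS ρ).2 ⟨hρ, hsub⟩, Finset.mem_powerset.2 hρ'⟩, hc⟩)
      have hcard : ρ.card = n + 1 := by
        by_contra hne
        have := K.card_le hρ
        refine hP ρ subset_rfl (by omega) ?_
        rw [← h1]
        exact StarEuler_mem K h0
      refine ⟨hcard, fun v hv hcv => ?_⟩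
      refine hP (ρ.erase v) (Finset.erase_subset v ρ)
        (by rw [Finset.card_erase_of_mem hv]; omega) ?_
      have e1 : ∑ u ∈ ρ.erase v, c u = 0 := by
        rw [← h0, ← Finset.add_sum_erase ρ _ hv, hcv, zero_add]
      have e2 : ∑ u ∈ ρ.erase v, c u • K.dev u = x := by
        rw [← h1, ← Finset.add_sum_erase ρ _ hv, hcv, zero_smul, zero_add]
      rw [← e2]
      exact StarEuler_mem K e1
    obtain ⟨ρ₁, ⟨hρ₁, hsub₁, c₁, hc₁, hpos₁, hsum₁⟩, huniq₁⟩ := K.local_homeo σ₀ h (-x)
    -- the double sum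
    have hdouble : ∀ τ ∈ (K.star_finite h).toFinset, (-1 : ℤ) ^ τ.card =
        ∑ ρ ∈ (K.star_finite h).toFinset,
          if (τ ⊆ ρ ∧ ∃ c : K.V → ℝ, (∑ v ∈ ρ, c v = 0) ∧ (∀ v ∈ ρ \ τ, 0 < c v) ∧
            ∑ v ∈ ρ, c v • K.dev v = x) then (-1 : ℤ) ^ τ.card else 0 := by
      intro τ hτ
      obtain ⟨hτ1, hτ2⟩ := (memS τ).1 hτ
      obtain ⟨ρ, ⟨hρ, hsub, hc⟩, huniq⟩ := K.local_homeo τ hτ1 x
      rw [Finset.sum_eq_single ρ, if_pos ⟨hsub, hc⟩]
      · intro ρ' hρ' hne
        rw [if_neg]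
        rintro ⟨hs, hc'⟩
        exact hne (huniq ρ' ⟨((memS ρ').1 hρ').1, hs, hc'⟩)
      · intro hn'
        exact absurd ((memS ρ).2 ⟨hρ, hτ2.trans hsub⟩) hn'
    rw [Finset.sum_congr rfl hdouble, Finset.sum_comm]
    have hinner : ∀ ρ ∈ (K.star_finite h).toFinset,
        (∑ τ ∈ (K.star_finite h).toFinset,
          if (τ ⊆ ρ ∧ ∃ c : K.V → ℝ, (∑ v ∈ ρ, c v = 0) ∧ (∀ v ∈ ρ \ τ, 0 < c v) ∧
            ∑ v ∈ ρ, c v • K.dev v = x) then (-1 : ℤ) ^ τ.card else 0) =
        if ρ = ρ₁ then (-1) ^ (n + 1) else 0 := by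
      intro ρ hρS
      obtain ⟨hρ, hsub⟩ := (memS ρ).1 hρS
      by_cases hex : ∃ c : K.V → ℝ, (∑ v ∈ ρ, c v = 0) ∧ ∑ v ∈ ρ, c v • K.dev v = x
      · obtain ⟨c, h0, h1⟩ := hex
        obtain ⟨hcard, hne⟩ := hG ρ hρ hsub c h0 h1
        rw [← Finset.sum_filter]
        have hset : (K.star_finite h).toFinset.filter
            (fun τ => τ ⊆ ρ ∧ ∃ c : K.V → ℝ, (∑ v ∈ ρ, c v = 0) ∧ (∀ v ∈ ρ \ τ, 0 < c v) ∧
              ∑ v ∈ ρ, c v • K.dev v = x) =
            Finset.Icc (σ₀ ∪ ρ.filter (fun v => c v < 0)) ρ := by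
          ext τ
          rw [Finset.mem_filter, memS, Finset.mem_Icc]
          constructor
          · rintro ⟨⟨hτ, hσ⟩, hτρ, c', h0', hpos, h1'⟩
            refine ⟨?_, hτρ⟩
            intro v hv
            rcases Finset.mem_union.1 hv with hv | hv
            · exact hσ hv
            · obtain ⟨hv1, hv2⟩ := Finset.mem_filter.1 hv
              by_contra hvτ
              have h2 := hpos v (Finset.mem_sdiff.2 ⟨hv1, hvτ⟩)
              have h3 := StarEuler_uniq K hρ h0 h0' (h1.trans h1'.symm) v hv1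
              rw [h3] at hv2
              linarith
          · rintro ⟨hl, hu⟩
            have hσ : σ₀ ⊆ τ := (Finset.subset_union_left).trans hl
            have hτ : τ ∈ K.faces := K.down_closed ρ hρ τ hu
              ((K.nonempty_of_mem σ₀ h).mono hσ)
            refine ⟨⟨hτ, hσ⟩, hu, c, h0, ?_, h1⟩
            intro v hv
            obtain ⟨hv1, hv2⟩ := Finset.mem_sdiff.1 hv
            by_contra hcon
            have h4 : c v < 0 := lt_of_le_of_ne (not_lt.1 hcon) (hne v hv1)
            exact hv2 (hl (Finset.mem_union_right _ (Finset.mem_filter.2 ⟨hv1, h4⟩)))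
        rw [hset, StarEuler_sum_Icc _ _
          (Finset.union_subset hsub (Finset.filter_subset _ _)), hcard]
        have hiff : (σ₀ ∪ ρ.filter (fun v => c v < 0) = ρ) ↔ ρ = ρ₁ := by
          constructor
          · intro he
            refine huniq₁ ρ ⟨hρ, hsub, fun v => -c v, ?_, ?_, ?_⟩
            · rw [Finset.sum_neg_distrib, h0, neg_zero]
            · intro v hv
              obtain ⟨hv1, hv2⟩ := Finset.mem_sdiff.1 hv
              rw [← he] at hv1
              rcases Finset.mem_union.1 hv1 with hv3 | hv3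
              · exact absurd hv3 hv2
              · have := (Finset.mem_filter.1 hv3).2
                linarith
            · simp only [neg_smul]
              rw [Finset.sum_neg_distrib, h1]
          · intro he
            subst he
            refine subset_antisymm (Finset.union_subset hsub (Finset.filter_subset _ _)) ?_
            intro v hv
            by_cases hvσ : v ∈ σ₀
            · exact Finset.mem_union_left _ hvσ
            · refine Finset.mem_union_right _ (Finset.mem_filter.2 ⟨hv, ?_⟩)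
              have h2 := hpos₁ v (Finset.mem_sdiff.2 ⟨hv, hvσ⟩)
              have h3 := StarEuler_uniq K hρ (c := c) (c' := fun u => -c₁ u) h0
                (by rw [Finset.sum_neg_distrib, hc₁, neg_zero])
                (by
                  simp only [neg_smul]
                  rw [Finset.sum_neg_distrib, hsum₁, h1, neg_neg]) v hv
              rw [h3]
              linarith
        by_cases hr : ρ = ρ₁
        · rw [if_pos (hiff.2 hr), if_pos hr]
        · rw [if_neg (fun hh => hr (hiff.1 hh)), if_neg hr]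
      · rw [Finset.sum_eq_zero, if_neg]
        · rintro rfl
          exact hex ⟨fun u => -c₁ u, by rw [Finset.sum_neg_distrib, hc₁, neg_zero], by
            simp only [neg_smul]
            rw [Finset.sum_neg_distrib, hsum₁, neg_neg]⟩
        · intro τ _
          rw [if_neg]
          rintro ⟨-, c, h0, -, h1⟩
          exact hex ⟨c, h0, h1⟩
    rw [Finset.sum_congr rfl hinner, Finset.sum_ite_eq', if_pos ((memS ρ₁).2 ⟨hρ₁, hsub₁⟩)]

end Pool.Agent.ChS
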