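import Pool.Agent.ChS.Defs

/-!
# Behaviour under linear maps
-/

namespace Pool.Agent.ChS

open Matrix Pool.Agent.ChP

theorem tco_mulVec {n : ℕ} (g : Matrix (Fin n) (Fin n) ℝ) (s : Fin (n + 1) → Fin n → ℝ)
    (i : Fin (n + 1)) : tco (fun j => g *ᵥ s j) i = g.det * tco s i := by
  unfold tco
  have h : (Matrix.of fun a b : Fin n => (g *ᵥ s (i.succAbove a)) b) =
      (Matrix.of fun a b : Fin n => s (i.succAbove a) b) * gᵀ := by
    ext a b
    simp only [Matrix.of_apply, Matrix.mul_apply, Matrix.transpose_apply, Matrix.mulVec,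
      dotProduct]
    exact Finset.sum_congr rfl fun c _ => mul_comm _ _
  rw [h, Matrix.det_mul, Matrix.det_transpose]
  ring

theorem LL_mulVec (c : ℝ) (C : Fin 5 → Fin 5 → ℝ) (s : Fin 5 → Fin 4 → ℝ)
    (g : Matrix (Fin 4) (Fin 4) ℝ) :
    LL (fun i j => c * C i j) (fun i => g *ᵥ s i) = c * g.det ^ 2 * LL C s := by
  unfold LL
  rw [Finset.mul_sum]
  refine Finset.sum_congr rfl fun i _ => ?_
  rw [Finset.mul_sum]
  refine Finset.sum_congr rfl fun j _ => ?_
  split_ifs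
  · rw [tco_mulVec, tco_mulVec]
    ring
  · simp

theorem LL_add (C D : Fin 5 → Fin 5 → ℝ) (s : Fin 5 → Fin 4 → ℝ) :
    LL (fun i j => C i j + D i j) s = LL C s + LL D s := by
  unfold LL
  rw [← Finset.sum_add_distrib]
  refine Finset.sum_congr rfl fun i _ => ?_
  rw [← Finset.sum_add_distrib]
  refine Finset.sum_congr rfl fun j _ => ?_
  split_ifs
  · ring
  · simp

theorem LL_smul (c : ℝ) (C : Fin 5 → Fin 5 → ℝ) (s : Fin 5 → Fin 4 → ℝ) :
    LL (fun i j => c * C i j) s = c * LL C s := by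
  unfold LL
  rw [Finset.mul_sum]
  refine Finset.sum_congr rfl fun i _ => ?_
  rw [Finset.mul_sum]
  refine Finset.sum_congr rfl fun j _ => ?_
  split_ifs
  · ring
  · simp

/-- the sign of the determinant comes out of the quadratic form -/
theorem BB_mulVec (C : Fin 5 → Fin 5 → ℝ) (s : Fin 5 → Fin 4 → ℝ)
    (g : Matrix (Fin 4) (Fin 4) ℝ) (hg : g.det ≠ 0) :
    BB (fun i j => Real.sqrt |g.det| * C i j) (fun i => g *ᵥ s i) =
      Real.sign g.det * BB C s := by
  unfold BB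
  rw [LL_mulVec]
  have h1 : ∏ i, tco (fun i => g *ᵥ s i) i = g.det ^ 5 * ∏ i, tco s i := by
    simp_rw [tco_mulVec]
    rw [Finset.prod_mul_distrib, Finset.prod_const, Finset.card_univ, Fintype.card_fin]
  rw [h1]
  have h2 : Real.sqrt |g.det| ^ 2 = |g.det| := Real.sq_sqrt (abs_nonneg _)
  have h3 : (Real.sqrt |g.det| * g.det ^ 2 * LL C s) ^ 2 =
      |g.det| * g.det ^ 4 * LL C s ^ 2 := by
    calc (Real.sqrt |g.det| * g.det ^ 2 * LL C s) ^ 2 =
        Real.sqrt |g.det| ^ 2 * g.det ^ 4 * LL C s ^ 2 := by ring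
      _ = _ := by rw [h2]
  rw [h3]
  have h4 : |g.det| = Real.sign g.det * g.det := by
    rcases lt_or_gt_of_ne hg with h | h
    · rw [Real.sign_of_neg h, abs_of_neg h]; ring
    · rw [Real.sign_of_pos h, abs_of_pos h]; ring
  rw [h4]
  by_cases h5 : ∏ i, tco s i = 0
  · rw [h5]; simp
  · field_simp

end Pool.Agent.ChS
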