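import Pool.Agent.ChS.LamSum

/-!
# The fundamental cycle of the quotient

Let `φ` be a `χ`-equivariant function on `n`-tuples of vertices, `φ' y = φ y` if the labels of `y`
are strictly increasing and `0` otherwise (again equivariant).  By `wcycle_interval` for the
function `y ↦ φ' (lam o ∘ y)` on `n`-tuples of intervals (`lam_smul`),
`∑_{t ∈ chainReps} mor t * Ψ (lam o ∘ t) = 0` with `Ψ t = ∑_j (-1)^j φ' (t ∘ j.succAbove)`.
If the vertices of `t` lie in a simplex, the labels of `t` are increasing and `t` is not injective,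
then `Ψ t = 0`: if there is exactly one pair of equal neighbours `t i = t (i + 1)` the terms
`j = i, i + 1` cancel and the others vanish, otherwise all terms vanish.  So `sum_lam` applies, and
`Ψ t = ∑_j (-1)^j φ (t ∘ j.succAbove)` for ordered chambers `t`.
-/

namespace Pool.Agent.ChS

open Matrix Pool.Agent.ChP
open scoped Pointwise

variable {n : ℕ} {K : AffineTriangulation n}

private theorem WCham_pair (o : Lab K) {t : Fin (n + 1) → K.V} {σ : Finset K.V}
    (hσ : σ ∈ K.faces) (ht : ∀ i, t i ∈ σ) (hm : Monotone (fun i => o.lab (t i)))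
    (hinj : ¬ Function.Injective t) : ∃ i : Fin n, t i.castSucc = t i.succ := by
  by_contra hcon
  push Not at hcon
  apply hinj
  have hs : StrictMono (fun i => o.lab (t i)) := by
    rw [Fin.strictMono_iff_lt_succ]
    intro i
    refine lt_of_le_of_ne (hm (Fin.castSucc_lt_succ).le) ?_
    intro he
    exact hcon i (o.inj σ hσ (Finset.mem_coe.mpr (ht _)) (Finset.mem_coe.mpr (ht _)) he)
  intro a b hab
  exact hs.injective (by simp only [hab])

private theorem WCham_face {X : Type*} (t : Fin (n + 1) → X) (i : Fin n)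
    (h : t i.castSucc = t i.succ) :
    (fun k => t (i.castSucc.succAbove k)) = fun k => t (i.succ.succAbove k) := by
  funext k
  rcases lt_trichotomy k i with hk | hk | hk
  · rw [Fin.succAbove_of_castSucc_lt _ _ (Fin.castSucc_lt_castSucc_iff.mpr hk),
      Fin.succAbove_of_castSucc_lt _ _ (lt_trans (Fin.castSucc_lt_castSucc_iff.mpr hk)
        (Fin.castSucc_lt_succ))]
  · subst hk
    rw [Fin.succAbove_of_le_castSucc _ _ le_rfl,
      Fin.succAbove_of_castSucc_lt _ _ (Fin.castSucc_lt_succ)]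
    exact h.symm
  · rw [Fin.succAbove_of_le_castSucc _ _ (Fin.castSucc_le_castSucc_iff.mpr hk.le),
      Fin.succAbove_of_le_castSucc _ _ (by
        rw [Fin.le_def, Fin.val_succ, Fin.val_castSucc]
        exact hk)]

private theorem WCham_zero {X : Type*} (lab : X → ℕ) (f : (Fin n → X) → ℝ)
    (hf : ∀ y, ¬ StrictMono (fun i => lab (y i)) → f y = 0)
    (t : Fin (n + 1) → X) (i : Fin n) (h : t i.castSucc = t i.succ) :
    ∑ j : Fin (n + 1), (-1 : ℝ) ^ (j : ℕ) * f (fun k => t (j.succAbove k)) = 0 := by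
  rw [Fintype.sum_eq_add i.castSucc i.succ (Fin.castSucc_lt_succ).ne]
  · rw [WCham_face t i h, Fin.val_castSucc, Fin.val_succ, pow_succ]
    ring
  · rintro j ⟨hj1, hj2⟩
    rw [hf, mul_zero]
    intro hs
    obtain ⟨a, ha⟩ := Fin.exists_succAbove_eq hj1.symm
    obtain ⟨b, hb⟩ := Fin.exists_succAbove_eq hj2.symm
    have hab : a = b := by
      apply hs.injective
      simp only [ha, hb, h]
    rw [← hab, ha] at hb
    exact (Fin.castSucc_lt_succ).ne hb

theorem wcycle_cham (hn : 0 < n) (o : Lab K) {R : Finset (Finset K.V)} (hR : K.Reps R) :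
    WCycle (chi K.lin) (fun k : {t // t ∈ chamReps o R} => (k : Fin (n + 1) → K.V))
      (fun k => orr K (k : Fin (n + 1) → K.V)) := by
  classical
  intro φ hφ
  obtain ⟨f, hfdef⟩ : ∃ f : (Fin n → K.V) → ℝ, f = fun y =>
      if StrictMono (fun i => o.lab (y i)) then φ y else 0 := ⟨_, rfl⟩
  have hf0 : ∀ y, ¬ StrictMono (fun i => o.lab (y i)) → f y = 0 := by
    intro y hy
    rw [hfdef]
    exact if_neg hy
  have hf1 : ∀ y, StrictMono (fun i => o.lab (y i)) → f y = φ y := by
    intro y hy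
    rw [hfdef]
    exact if_pos hy
  have hfeq : ∀ (γ : K.Γ) (y : Fin n → K.V), f (fun i => γ • y i) = chi K.lin γ * f y := by
    intro γ y
    have hlab : (fun i => o.lab (γ • y i)) = fun i => o.lab (y i) := by
      funext i
      exact o.smul γ (y i)
    by_cases hy : StrictMono (fun i => o.lab (y i))
    · rw [hf1 y hy, hf1 _ (by rw [hlab]; exact hy)]
      exact hφ γ y
    · rw [hf0 y hy, hf0 _ (by rw [hlab]; exact hy), mul_zero]
  have hW := K.wcycle_interval hn hR (fun y : Fin n → K.Iv => f (fun i => lam o (y i))) (by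
    intro γ y
    have : (fun i => lam o (γ • y i)) = fun i => γ • lam o (y i) := by
      funext i
      exact lam_smul o γ (y i)
    simp only [this]
    exact hfeq γ _)
  obtain ⟨Ψ, hΨdef⟩ : ∃ Ψ : (Fin (n + 1) → K.V) → ℝ, Ψ = fun t =>
      ∑ j : Fin (n + 1), (-1 : ℝ) ^ (j : ℕ) * f (fun k => t (j.succAbove k)) := ⟨_, rfl⟩
  have hΨ : ∀ t : Fin (n + 1) → K.V, (∃ σ ∈ K.faces, ∀ i, t i ∈ σ) →
      Monotone (fun i => o.lab (t i)) → ¬ Function.Injective t → Ψ t = 0 := by
    rintro t ⟨σ, hσ, ht⟩ hm hinj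
    obtain ⟨i, hi⟩ := WCham_pair o hσ ht hm hinj
    rw [hΨdef]
    exact WCham_zero o.lab f hf0 t i hi
  have hsum := sum_lam o hR Ψ hΨ
  have h0 : ∑ t ∈ K.chainReps R, K.mor t * Ψ (fun i => lam o (t i)) = 0 := by
    rw [← hW, ← Finset.sum_coe_sort, hΨdef]
  rw [h0] at hsum
  rw [Finset.sum_coe_sort (chamReps o R) (fun t => orr K t *
      ∑ j : Fin (n + 1), (-1 : ℝ) ^ (j : ℕ) * φ (fun i => t (j.succAbove i)))]
  rw [hsum]
  refine Finset.sum_congr rfl fun t ht => ?_
  rw [hΨdef]
  simp only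
  congr 1
  refine Finset.sum_congr rfl fun j _ => ?_
  congr 1
  refine (hf1 _ ?_).symm
  have hs := (mem_chamReps.mp ht).1.1
  intro a b hab
  exact hs (Fin.strictMono_succAbove j hab)

end Pool.Agent.ChS
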