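import Pool.Agent.ChS.Defs

/-!
# Averaging the elementary Euler cocycle over sign changes

With signs `e_i = ±1` and `P = ∏ e_i` one has `tco (e s) i = P * e_i * tco s i` (drop `e_i` from the
product of all signs).  All of them are positive iff `e_i = P * sign (tco s i)` for all `i`; taking
the product (`n + 1` is odd) this forces `∏ sign (tco s i) = 1`, and then there are exactly two
solutions (`P = 1` and `P = -1`).  All of them are negative iff `e_i = -P * sign (tco s i)`, which
forces `∏ sign (tco s i) = -1`, again with two solutions.
-/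

namespace Pool.Agent.ChS

open Matrix Pool.Agent.ChP

/-- The sign attached to a truth value. -/
private noncomputable def SignAvg_sg (b : Bool) : ℝ := if b then 1 else -1

private theorem SignAvg_sq (b : Bool) : SignAvg_sg b * SignAvg_sg b = 1 := by
  cases b <;> simp [SignAvg_sg]

private theorem SignAvg_not (b : Bool) : SignAvg_sg (!b) = -SignAvg_sg b := by
  cases b <;> simp [SignAvg_sg]

private theorem SignAvg_inj {a b : Bool} (h : SignAvg_sg a = SignAvg_sg b) : a = b := by
  cases a <;> cases b <;> simp [SignAvg_sg] at h ⊢ <;> norm_num at h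

private theorem SignAvg_prod {m : ℕ} (η : Fin m → Bool) :
    ∏ j, SignAvg_sg (η j) = 1 ∨ ∏ j, SignAvg_sg (η j) = -1 := by
  rw [← mul_self_eq_one_iff, ← Finset.prod_mul_distrib]
  exact Finset.prod_eq_one fun j _ => SignAvg_sq (η j)

private theorem SignAvg_count {n : ℕ} (hn : Even n) (g : Fin (n + 1) → Bool) :
    ∑ η : Fin (n + 1) → Bool,
      (if ∀ i, (∏ j, SignAvg_sg (η j)) * SignAvg_sg (η i) = SignAvg_sg (g i) then (1 : ℝ) else 0) =
      1 + ∏ i, SignAvg_sg (g i) := by
  classical
  have hodd : Odd (n + 1) := hn.add_one
  rw [Finset.sum_boole]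
  rcases SignAvg_prod g with hg | hg
  · have hset : (Finset.univ.filter fun η : Fin (n + 1) → Bool =>
        ∀ i, (∏ j, SignAvg_sg (η j)) * SignAvg_sg (η i) = SignAvg_sg (g i)) =
        {g, fun i => !(g i)} := by
      ext η
      rw [Finset.mem_filter, Finset.mem_insert, Finset.mem_singleton]
      constructor
      · rintro ⟨-, h⟩
        rcases SignAvg_prod η with hP | hP
        · left
          funext i
          have := h i
          rw [hP, one_mul] at this
          exact SignAvg_inj this
        · right
          funext i
          have := h i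
          rw [hP, neg_one_mul, ← SignAvg_not] at this
          rw [← SignAvg_inj this, Bool.not_not]
      · rintro (rfl | rfl)
        · refine ⟨Finset.mem_univ _, fun i => ?_⟩
          rw [hg, one_mul]
        · refine ⟨Finset.mem_univ _, fun i => ?_⟩
          have : ∏ j, SignAvg_sg (!(g j)) = -1 := by
            simp only [SignAvg_not]
            rw [Finset.prod_neg, hg, Finset.card_univ, Fintype.card_fin, hodd.neg_one_pow, mul_one]
          rw [this, SignAvg_not]
          ring
    rw [hset, Finset.card_pair, hg]
    · norm_num
    · intro h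
      have := congrFun h 0
      cases hg0 : g 0 <;> simp [hg0] at this
  · have hset : (Finset.univ.filter fun η : Fin (n + 1) → Bool =>
        ∀ i, (∏ j, SignAvg_sg (η j)) * SignAvg_sg (η i) = SignAvg_sg (g i)) = ∅ := by
      refine Finset.filter_eq_empty_iff.2 fun η _ h => ?_
      have h1 : ∏ i, ((∏ j, SignAvg_sg (η j)) * SignAvg_sg (η i)) = -1 := by
        rw [Finset.prod_congr rfl fun i _ => h i, hg]
      rw [Finset.prod_mul_distrib, Finset.prod_const, Finset.card_univ, Fintype.card_fin,
        ← pow_succ] at h1
      have hev : Even (n + 1 + 1) := hodd.add_one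
      rcases SignAvg_prod η with hP | hP
      · rw [hP, one_pow] at h1
        norm_num at h1
      · rw [hP, hev.neg_one_pow] at h1
        norm_num at h1
    rw [hset, hg, Finset.card_empty]
    norm_num

theorem sum_eps_signs {n : ℕ} (hn : Even n) (s : Fin (n + 1) → Fin n → ℝ)
    (h : ∀ i, tco s i ≠ 0) :
    ∑ η : Fin (n + 1) → Bool, eps (fun i => (if η i then (1 : ℝ) else -1) • s i) = 2 * sgp s := by
  classical
  set g : Fin (n + 1) → Bool := fun i => decide (0 < tco s i) with hgdef
  have htc : ∀ (η : Fin (n + 1) → Bool) (i : Fin (n + 1)),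
      tco (fun i => (if η i then (1 : ℝ) else -1) • s i) i =
      ((∏ j, SignAvg_sg (η j)) * SignAvg_sg (η i)) * tco s i := by
    intro η i
    have h1 : tco (fun i => (if η i then (1 : ℝ) else -1) • s i) i =
        (∏ a : Fin n, SignAvg_sg (η (i.succAbove a))) * tco s i := by
      unfold tco
      have h2 : (Matrix.of fun a b : Fin n =>
          ((if η (i.succAbove a) then (1 : ℝ) else -1) • s (i.succAbove a)) b) =
          Matrix.of fun a b : Fin n => SignAvg_sg (η (i.succAbove a)) *
            (Matrix.of fun a b : Fin n => s (i.succAbove a) b) a b := by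
        ext a b
        simp [SignAvg_sg]
      rw [h2, Matrix.det_mul_column]
      ring
    rw [h1, Fin.prod_univ_succAbove (fun j => SignAvg_sg (η j)) i]
    have h3 := SignAvg_sq (η i)
    linear_combination (-(∏ a : Fin n, SignAvg_sg (η (i.succAbove a))) * tco s i) * h3
  have hsg : ∀ i, Real.sign (tco s i) = SignAvg_sg (g i) := by
    intro i
    rcases lt_or_gt_of_ne (h i) with h1 | h1
    · rw [Real.sign_of_neg h1, hgdef]
      simp [SignAvg_sg, not_lt.2 h1.le]
    · rw [Real.sign_of_pos h1, hgdef]
      simp [SignAvg_sg, h1]
  have hPe : ∀ (η : Fin (n + 1) → Bool) (i : Fin (n + 1)),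
      (∏ j, SignAvg_sg (η j)) * SignAvg_sg (η i) = 1 ∨
      (∏ j, SignAvg_sg (η j)) * SignAvg_sg (η i) = -1 := by
    intro η i
    have h2 : SignAvg_sg (η i) = 1 ∨ SignAvg_sg (η i) = -1 := by
      cases η i <;> simp [SignAvg_sg]
    rcases SignAvg_prod η with h1 | h1 <;> rcases h2 with h2 | h2 <;> rw [h1, h2] <;> norm_num
  have hpos : ∀ (η : Fin (n + 1) → Bool), (∀ i, 0 <
      tco (fun i => (if η i then (1 : ℝ) else -1) • s i) i) ↔
      ∀ i, (∏ j, SignAvg_sg (η j)) * SignAvg_sg (η i) = SignAvg_sg (g i) := by
    intro η
    refine forall_congr' fun i => ?_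
    rw [htc, ← hsg]
    rcases lt_or_gt_of_ne (h i) with h1 | h1 <;> rcases hPe η i with h2 | h2 <;> rw [h2]
    · rw [Real.sign_of_neg h1]
      constructor
      · intro h3
        linarith
      · intro h3
        norm_num at h3
    · rw [Real.sign_of_neg h1]
      constructor
      · intro _
        rfl
      · intro _
        linarith
    · rw [Real.sign_of_pos h1]
      constructor
      · intro _
        rfl
      · intro _
        linarith
    · rw [Real.sign_of_pos h1]
      constructor
      · intro h3
        linarith
      · intro h3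
        norm_num at h3
  have hneg : ∀ (η : Fin (n + 1) → Bool), (∀ i,
      tco (fun i => (if η i then (1 : ℝ) else -1) • s i) i < 0) ↔
      ∀ i, (∏ j, SignAvg_sg (η j)) * SignAvg_sg (η i) = SignAvg_sg ((fun i => !(g i)) i) := by
    intro η
    refine forall_congr' fun i => ?_
    change _ ↔ _ = SignAvg_sg (!(g i))
    rw [htc, SignAvg_not, ← hsg]
    rcases lt_or_gt_of_ne (h i) with h1 | h1 <;> rcases hPe η i with h2 | h2 <;> rw [h2]
    · rw [Real.sign_of_neg h1]
      constructor
      · intro _
        norm_num
      · intro _
        linarith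
    · rw [Real.sign_of_neg h1]
      constructor
      · intro h3
        linarith
      · intro h3
        norm_num at h3
    · rw [Real.sign_of_pos h1]
      constructor
      · intro h3
        linarith
      · intro h3
        norm_num at h3
    · rw [Real.sign_of_pos h1]
      constructor
      · intro _
        rfl
      · intro _
        linarith
  unfold eps
  simp only [hpos, hneg]
  rw [Finset.sum_sub_distrib, SignAvg_count hn g, SignAvg_count hn (fun i => !(g i))]
  unfold sgp
  simp only [hsg, SignAvg_not]
  rw [Finset.prod_neg, Finset.card_univ, Fintype.card_fin, (hn.add_one).neg_one_pow]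
  ring

end Pool.Agent.ChS
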