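import Pool.Agent.ChS.ChiEps
import Pool.Agent.ChS.SignAvg

/-!
# The Euler characteristic and the products of signs

Let `M` be larger than all labels of the vertices of the chambers in `chamReps o R`.  For
`η : Fin M → Bool` let `s_η v = ± s v` with the sign given by `η (lab v)` (`+` if `lab v ≥ M`): it is
again equivariant and in general position (`tco` changes by signs only), so `sum_eps_cham` holds for
`s_η`.  Sum over `η`: for fixed `t ∈ chamReps o R` the labels of `t_0, ..., t_n` are distinct, so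
`∑_η eps (s_η ∘ t) = 2^(M - n - 1) * ∑_{η' : Fin (n + 1) → Bool} eps (η' s ∘ t)
= 2^(M - n) * sgp (s ∘ t)` by `sum_eps_signs`; the right hand side is `2^M * χ`.
-/

namespace Pool.Agent.ChS

open MeasureTheory Matrix Pool.Agent.ChP
open scoped Pointwise

variable {n : ℕ} {K : AffineTriangulation n}

/-- Summation over the extensions of a sign vector. -/
private theorem ChiSign_ext {X Y : Type*} [Fintype X] [Fintype Y] [DecidableEq X] [DecidableEq Y]
    (ι : Y → X) (hι : Function.Injective ι) :
    ∃ c : ℝ, ∀ F : (Y → Bool) → ℝ, ∑ η : X → Bool, F (fun i => η (ι i)) =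
      c * ∑ η : Y → Bool, F η := by
  classical
  refine ⟨(Fintype.card ({x // ¬ x ∈ Set.range ι} → Bool) : ℝ), fun F => ?_⟩
  let e : Y ≃ {x // x ∈ Set.range ι} := Equiv.ofInjective ι hι
  have h1 : ∑ η : X → Bool, F (fun i => η (ι i)) =
      ∑ p : ({x // x ∈ Set.range ι} → Bool) × ({x // ¬ x ∈ Set.range ι} → Bool),
        F (fun i => p.1 (e i)) := by
    refine Fintype.sum_equiv (Equiv.piEquivPiSubtypeProd (fun x => x ∈ Set.range ι)
      (fun _ => Bool)) _ _ fun η => ?_
    rfl
  have h2 : ∑ a : {x // x ∈ Set.range ι} → Bool, F (fun i => a (e i)) =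
      ∑ η : Y → Bool, F η := by
    refine Fintype.sum_equiv (Equiv.arrowCongr e.symm (Equiv.refl Bool)) _ _ fun a => ?_
    congr 1
  rw [h1, Fintype.sum_prod_type]
  simp only [Finset.sum_const, Finset.card_univ, nsmul_eq_mul]
  rw [← Finset.mul_sum, h2]

private noncomputable def ChiSign_e (b : Bool) : ℝ := if b then 1 else -1

private theorem ChiSign_e_ne (b : Bool) : ChiSign_e b ≠ 0 := by
  cases b <;> simp [ChiSign_e]

private theorem ChiSign_tco (c : Fin (n + 1) → ℝ) (s : Fin (n + 1) → Fin n → ℝ)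
    (i : Fin (n + 1)) :
    tco (fun j => c j • s j) i = (∏ a : Fin n, c (i.succAbove a)) * tco s i := by
  unfold tco
  have h2 : (Matrix.of fun a b : Fin n => (c (i.succAbove a) • s (i.succAbove a)) b) =
      Matrix.of fun a b : Fin n => c (i.succAbove a) *
        (Matrix.of fun a b : Fin n => s (i.succAbove a) b) a b := by
    ext a b
    simp
  rw [h2, Matrix.det_mul_column]
  ring

theorem sum_sgp_cham (hn : 0 < n) (he : Even n) (o : Lab K) {R : Finset (Finset K.V)}
    (hR : K.Reps R) (s : K.V → Fin n → ℝ) (hs : Equi K s) (hg : GenPos o s) :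
    ∑ t ∈ chamReps o R, orr K t * sgp (fun i => s (t i)) = 2 ^ n * (K.eulerChar : ℝ) := by
  classical
  obtain ⟨M, hM⟩ : ∃ M : ℕ, ∀ t ∈ chamReps o R, ∀ i, o.lab (t i) < M := by
    refine ⟨((chamReps o R).sup fun t => Finset.univ.sup fun i => o.lab (t i)) + 1, ?_⟩
    intro t ht i
    refine Nat.lt_succ_of_le ?_
    exact (Finset.le_sup (f := fun i => o.lab (t i)) (Finset.mem_univ i)).trans
      (Finset.le_sup (f := fun t => Finset.univ.sup fun i => o.lab (t i)) ht)
  -- the sign function
  obtain ⟨σ, hσ⟩ : ∃ σ : (Fin M → Bool) → K.V → ℝ, σ = fun η v =>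
      if h : o.lab v < M then ChiSign_e (η ⟨o.lab v, h⟩) else 1 := ⟨_, rfl⟩
  have hσ0 : ∀ η v, σ η v ≠ 0 := by
    intro η v
    rw [hσ]
    simp only
    split_ifs
    · exact ChiSign_e_ne _
    · exact one_ne_zero
  have hσs : ∀ η (γ : K.Γ) v, σ η (γ • v) = σ η v := by
    intro η γ v
    rw [hσ]
    simp only [o.smul]
  have hEq : ∀ η, Equi K (fun v => σ η v • s v) := by
    intro η γ v
    simp only
    rw [hσs, hs, Matrix.mulVec_smul]
  have hGen : ∀ η, GenPos o (fun v => σ η v • s v) := by
    intro η t ht i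
    have h1 := ChiSign_tco (fun j => σ η (t j)) (fun j => s (t j)) i
    simp only at h1 ⊢
    rw [h1]
    exact mul_ne_zero (Finset.prod_ne_zero_iff.2 fun a _ => hσ0 _ _) (hg t ht i)
  have hsum : ∀ η, ∑ t ∈ chamReps o R, orr K t * eps (fun i => σ η (t i) • s (t i)) =
      (K.eulerChar : ℝ) := by
    intro η
    have h1 := sum_eps_cham hn o hR (fun v => σ η v • s v) (hEq η) (hGen η)
    rw [he.neg_one_pow, one_mul] at h1
    exact h1
  have h1 : ∑ η : Fin M → Bool, ∑ t ∈ chamReps o R,
      orr K t * eps (fun i => σ η (t i) • s (t i)) = 2 ^ M * (K.eulerChar : ℝ) := by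
    rw [Finset.sum_congr rfl fun η _ => hsum η, Finset.sum_const, Finset.card_univ,
      Fintype.card_fun, Fintype.card_bool, Fintype.card_fin, nsmul_eq_mul]
    push_cast
    rfl
  rw [Finset.sum_comm] at h1
  have h2 : ∀ t ∈ chamReps o R, ∑ η : Fin M → Bool,
      orr K t * eps (fun i => σ η (t i) • s (t i)) =
      2 ^ M / 2 ^ n * (orr K t * sgp (fun i => s (t i))) := by
    intro t ht
    have ht' := (mem_chamReps.1 ht).1
    have hinj : Function.Injective (fun i => (⟨o.lab (t i), hM t ht i⟩ : Fin M)) := by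
      intro i j hij
      have h3 : o.lab (t i) = o.lab (t j) := congrArg Fin.val hij
      exact ht'.1.injective h3
    obtain ⟨c, hc⟩ := ChiSign_ext (fun i => (⟨o.lab (t i), hM t ht i⟩ : Fin M)) hinj
    have hc1 := hc (fun _ => 1)
    simp only [Finset.sum_const, Finset.card_univ, Fintype.card_fun, Fintype.card_bool,
      Fintype.card_fin, nsmul_eq_mul, mul_one] at hc1
    push_cast at hc1
    have hc2 := hc (fun η => eps (fun i => (if η i then (1 : ℝ) else -1) • s (t i)))
    rw [sum_eps_signs he (fun i => s (t i)) (hg t ht')] at hc2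
    have h4 : ∀ η : Fin M → Bool, eps (fun i => σ η (t i) • s (t i)) =
        eps (fun i => (if η ⟨o.lab (t i), hM t ht i⟩ then (1 : ℝ) else -1) • s (t i)) := by
      intro η
      congr 1
      funext i
      rw [hσ]
      simp only [hM t ht i, dif_pos]
      rfl
    rw [← Finset.mul_sum, Finset.sum_congr rfl fun η _ => h4 η, hc2]
    have h5 : c = 2 ^ M / 2 ^ (n + 1) := by
      rw [eq_div_iff (by positivity)]
      exact hc1.symm
    rw [h5, pow_succ]
    field_simp
  rw [Finset.sum_congr rfl h2, ← Finset.mul_sum] at h1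
  have h3 : (2 : ℝ) ^ M ≠ 0 := by positivity
  have h4 : (2 : ℝ) ^ n ≠ 0 := by positivity
  field_simp at h1
  linarith

end Pool.Agent.ChS
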