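import Pool.Agent.ChS.ChamBasic

/-!
# Existence of equivariant vector fields in general position

Choose a set `R` of representatives (`exists_reps`); every vertex is `γ • v` for exactly one pair
with `{v} ∈ R`, so equivariant `s, s'` are given by arbitrary values at the finitely many `v` with
`{v} ∈ R`, i.e. by a point of `Q → ℝ^n`, `Q = {v // {v} ∈ R} × Bool`.  By equivariance it is enough to
have the determinants non-zero for the `t ∈ chamReps o R` (`exists_chamRep`).  For such `t` and
`e` the vectors in the determinant are `lin (γ_a) *ᵥ (value at q_a)` with distinct `q_a ∈ Q` (`a : Fin n`):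
the vertices of `t` have different labels, so they lie in different orbits.  So the determinant
is a non-zero polynomial function of the point of `Q → ℝ^n`.  A finite product of non-zero
polynomials is non-zero, hence does not vanish identically (`MvPolynomial`, infinite field); or
choose the values one after the other outside finitely many proper subspaces, or use that the zero
sets have measure zero (`ae_det_ne_zero` in `ChP/CCBasic.lean`).
-/

namespace Pool.Agent.ChS

open Matrix Pool.Agent.ChP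
open scoped Pointwise

variable {n : ℕ} {K : AffineTriangulation n}

private theorem GenSec_rep {R : Finset (Finset K.V)} (hR : K.Reps R) :
    ∃ (g : K.V → K.Γ) (r : K.V → K.V), (∀ v, g v • r v = v) ∧
      (∀ (δ : K.Γ) (v : K.V), g (δ • v) = δ * g v) ∧
      ∀ (δ : K.Γ) (v : K.V), r (δ • v) = r v := by
  have h : ∀ v : K.V, ∃ p : K.Γ × Finset K.V, (p.2 ∈ R ∧ p.1 • p.2 = {v}) ∧
      ∀ q : K.Γ × Finset K.V, q.2 ∈ R ∧ q.1 • q.2 = {v} → q = p := fun v =>
    hR.2 {v} (K.singleton_mem v)
  choose p hp hu using h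
  have hsmul : ∀ (δ : K.Γ) (v : K.V), (δ * (p v).1, (p v).2) = p (δ • v) := by
    intro δ v
    refine hu (δ • v) _ ⟨(hp v).1, ?_⟩
    rw [mul_smul, (hp v).2, Finset.smul_finset_singleton]
  have hsmul1 : ∀ (δ : K.Γ) (v : K.V), (p (δ • v)).1 = δ * (p v).1 := by
    intro δ v
    rw [← hsmul]
  refine ⟨fun v => (p v).1, fun v => (p v).1⁻¹ • v, fun v => ?_, hsmul1, fun δ v => ?_⟩
  · exact smul_inv_smul _ _
  · simp only [hsmul1]
    rw [_root_.mul_inv_rev, mul_smul, inv_smul_smul]

private theorem GenSec_poly {ι : Type*} {m : ℕ} (L : Fin m → Matrix (Fin m) (Fin m) ℝ)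
    (hL : ∀ a, (L a).det ≠ 0) (q : Fin m → ι) (hq : Function.Injective q) :
    ∃ P : MvPolynomial (ι × Fin m) ℝ, P ≠ 0 ∧ ∀ f : ι × Fin m → ℝ,
      MvPolynomial.eval f P =
        Matrix.det (Matrix.of fun a b => (L a *ᵥ (fun c => f (q a, c))) b) := by
  have heval : ∀ f : ι × Fin m → ℝ, MvPolynomial.eval f (Matrix.det (Matrix.of fun a b =>
      ∑ c, MvPolynomial.C (L a b c) * MvPolynomial.X (q a, c))) =
        Matrix.det (Matrix.of fun a b => (L a *ᵥ (fun c => f (q a, c))) b) := by
    intro f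
    rw [RingHom.map_det]
    congr 1
    ext a b
    simp only [RingHom.mapMatrix_apply, Matrix.map_apply, Matrix.of_apply, map_sum, map_mul,
      MvPolynomial.eval_C, MvPolynomial.eval_X, Matrix.mulVec, dotProduct]
  refine ⟨_, ?_, heval⟩
  intro h0
  have h1 := heval (fun x => Function.extend q (fun a c => (L a)⁻¹ c a) 0 x.1 x.2)
  rw [h0, map_zero] at h1
  have h2 : (Matrix.of fun a b => (L a *ᵥ (fun c =>
      Function.extend q (fun a c => (L a)⁻¹ c a) (0 : ι → Fin m → ℝ) (q a) c)) b) =
      (1 : Matrix (Fin m) (Fin m) ℝ) := by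
    ext a b
    rw [Matrix.of_apply, hq.extend_apply]
    have h3 : L a * (L a)⁻¹ = 1 := Matrix.mul_nonsing_inv _ (isUnit_iff_ne_zero.2 (hL a))
    have h4 := congrFun (congrFun h3 b) a
    rw [Matrix.mul_apply] at h4
    simp only [Matrix.mulVec, dotProduct]
    rw [h4, Matrix.one_apply, Matrix.one_apply]
    simp only [eq_comm]
  simp only at h1
  rw [h2, Matrix.det_one] at h1
  exact zero_ne_one h1

theorem exists_genPos2 (o : Lab K) :
    ∃ s s' : K.V → Fin n → ℝ, Equi K s ∧ Equi K s' ∧ GenPos2 o s s' := by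
  classical
  obtain ⟨R, hR⟩ := K.exists_reps
  obtain ⟨g, r, hgr, hg, hr⟩ := GenSec_rep hR
  have hlab : ∀ v, o.lab (r v) = o.lab v := by
    intro v
    have h := o.smul (g v) (r v)
    rw [hgr] at h
    exact h.symm
  have hpoly : ∀ (t : Fin (n + 1) → K.V) (e : Fin n ↪ Fin (n + 1) × Bool), Cham o t →
      ∃ P : MvPolynomial ((K.V × Bool) × Fin n) ℝ, P ≠ 0 ∧
        ∀ f : (K.V × Bool) × Fin n → ℝ, MvPolynomial.eval f P = Matrix.det (Matrix.of fun a b =>
          (K.lin (g (t (e a).1)) *ᵥ (fun c => f ((r (t (e a).1), (e a).2), c))) b) := by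
    intro t e ht
    refine GenSec_poly (fun a => K.lin (g (t (e a).1))) (fun a => K.det_lin_ne_zero _)
      (fun a => (r (t (e a).1), (e a).2)) ?_
    intro a b hab
    simp only [Prod.mk.injEq] at hab
    refine e.injective (Prod.ext ?_ hab.2)
    refine ht.1.injective ?_
    have h1 := congrArg o.lab hab.1
    rw [hlab, hlab] at h1
    exact h1
  choose! P hP hPe using hpoly
  have hprod : ∏ t ∈ chamReps o R, ∏ e : Fin n ↪ Fin (n + 1) × Bool, P t e ≠ 0 := by
    refine Finset.prod_ne_zero_iff.2 fun t ht => Finset.prod_ne_zero_iff.2 fun e _ => ?_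
    exact hP t e (mem_chamReps.1 ht).1
  obtain ⟨f, hf⟩ : ∃ f, MvPolynomial.eval f
      (∏ t ∈ chamReps o R, ∏ e : Fin n ↪ Fin (n + 1) × Bool, P t e) ≠ 0 := by
    by_contra hcon
    push Not at hcon
    refine hprod (MvPolynomial.funext fun x => ?_)
    rw [hcon x, map_zero]
  rw [map_prod, Finset.prod_ne_zero_iff] at hf
  obtain ⟨s, hs⟩ : ∃ s : Bool → K.V → Fin n → ℝ, ∀ b v,
      s b v = K.lin (g v) *ᵥ (fun c => f ((r v, b), c)) := ⟨_, fun _ _ => rfl⟩
  have hequi : ∀ b, Equi K (s b) := by
    intro b γ v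
    rw [hs, hs, hg, hr, map_mul, Matrix.mulVec_mulVec]
  refine ⟨s false, s true, hequi false, hequi true, ?_⟩
  intro t ht e
  obtain ⟨γ, t', ht', rfl⟩ := exists_chamRep o hR ht
  have h1 := hf t' ht'
  rw [map_prod, Finset.prod_ne_zero_iff] at h1
  have h2 := h1 e (Finset.mem_univ _)
  rw [hPe t' e (mem_chamReps.1 ht').1] at h2
  have h3 : (Matrix.of fun a b => (if (e a).2 then s true (γ • t' (e a).1)
      else s false (γ • t' (e a).1)) b) =
      (Matrix.of fun a b => (K.lin (g (t' (e a).1)) *ᵥ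
        (fun c => f ((r (t' (e a).1), (e a).2), c))) b) * (K.lin γ)ᵀ := by
    ext a b
    have h4 : (if (e a).2 then s true (γ • t' (e a).1) else s false (γ • t' (e a).1)) =
        K.lin γ *ᵥ (K.lin (g (t' (e a).1)) *ᵥ
          (fun c => f ((r (t' (e a).1), (e a).2), c))) := by
      rw [hequi true γ, hequi false γ, hs, hs]
      cases (e a).2 <;> simp
    rw [Matrix.of_apply, h4, Matrix.mul_apply]
    simp only [Matrix.of_apply, Matrix.transpose_apply]
    generalize K.lin (g (t' (e a).1)) *ᵥ (fun c => f ((r (t' (e a).1), (e a).2), c)) = w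
    simp only [Matrix.mulVec, dotProduct]
    exact Finset.sum_congr rfl fun c _ => mul_comm _ _
  rw [h3, Matrix.det_mul, Matrix.det_transpose]
  exact mul_ne_zero h2 (K.det_lin_ne_zero γ)

end Pool.Agent.ChS
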