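import Pool.Agent.ChS.Defs

/-!
# Isotropic subspaces of diagonal quadratic forms

Let `p`, `q` be the numbers of positive and negative `w i`.  The coordinate projections of `U` to the
positive (resp. negative) coordinates are injective: if the positive coordinates of `x ∈ U` vanish,
then `∑ w i x i ^ 2` is a sum of terms `≤ 0`, so all coordinates vanish.  Hence
`finrank U ≤ min p q`, `p + q = card ι` and `∑ sign (w i) = p - q`.
-/

namespace Pool.Agent.ChS

private theorem IsoDim_aux {ι : Type*} [Fintype ι] (w : ι → ℝ) (hw : ∀ i, w i ≠ 0)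
    (U : Submodule ℝ (ι → ℝ)) (hU : ∀ x ∈ U, ∑ i, w i * x i ^ 2 = 0) :
    Module.finrank ℝ U ≤ Fintype.card {i // 0 < w i} := by
  have h1 : Module.finrank ℝ ({i // 0 < w i} → ℝ) = Fintype.card {i // 0 < w i} :=
    Module.finrank_fintype_fun_eq_card ℝ
  rw [← h1]
  apply LinearMap.finrank_le_finrank_of_injective
    (f := (LinearMap.funLeft ℝ ℝ (Subtype.val : {i // 0 < w i} → ι)).comp U.subtype)
  rw [← LinearMap.ker_eq_bot, LinearMap.ker_eq_bot']
  rintro ⟨x, hx⟩ h
  have h2 : ∀ i, 0 < w i → x i = 0 := by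
    intro i hi
    have := congrFun h ⟨i, hi⟩
    simpa [LinearMap.funLeft_apply] using this
  have h3 : ∀ i, w i * x i ^ 2 ≤ 0 := by
    intro i
    rcases lt_or_ge 0 (w i) with hi | hi
    · rw [h2 i hi]; simp
    · exact mul_nonpos_of_nonpos_of_nonneg hi (sq_nonneg _)
  have h4 : ∀ i, w i * x i ^ 2 = 0 := by
    have h5 := (Finset.sum_eq_zero_iff_of_nonpos (fun i (_ : i ∈ Finset.univ) => h3 i)).1 (hU x hx)
    intro i
    exact h5 i (Finset.mem_univ i)
  have h6 : x = 0 := by
    funext i
    rcases mul_eq_zero.1 (h4 i) with h | h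
    · exact absurd h (hw i)
    · simpa using h
  exact Subtype.ext h6

theorem isotropic_finrank {ι : Type*} [Fintype ι] (w : ι → ℝ) (hw : ∀ i, w i ≠ 0)
    (U : Submodule ℝ (ι → ℝ)) (hU : ∀ x ∈ U, ∑ i, w i * x i ^ 2 = 0) :
    2 * (Module.finrank ℝ U : ℝ) + |∑ i, Real.sign (w i)| ≤ Fintype.card ι := by
  have h1 := IsoDim_aux w hw U hU
  have h2 := IsoDim_aux (fun i => - w i) (fun i => neg_ne_zero.2 (hw i)) U (by
    intro x hx
    have := hU x hx
    simp only [neg_mul, Finset.sum_neg_distrib, this, neg_zero])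
  have h3 : ∀ i, Real.sign (w i) = (if 0 < w i then (1 : ℝ) else 0) -
      (if 0 < - w i then (1 : ℝ) else 0) := by
    intro i
    rcases lt_or_gt_of_ne (hw i) with h | h
    · rw [Real.sign_of_neg h, if_neg (by linarith), if_pos (by linarith)]
      norm_num
    · rw [Real.sign_of_pos h, if_pos h, if_neg (by linarith)]
      norm_num
  have h4 : ∀ i, (if 0 < w i then (1 : ℝ) else 0) + (if 0 < - w i then (1 : ℝ) else 0) = 1 := by
    intro i
    rcases lt_or_gt_of_ne (hw i) with h | h
    · rw [if_neg (by linarith), if_pos (by linarith)]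
      norm_num
    · rw [if_pos h, if_neg (by linarith)]
      norm_num
  have h5 : ∑ i, (if 0 < w i then (1 : ℝ) else 0) = Fintype.card {i // 0 < w i} := by
    rw [Finset.sum_boole, Fintype.card_subtype]
  have h6 : ∑ i, (if 0 < - w i then (1 : ℝ) else 0) = Fintype.card {i // 0 < - w i} := by
    rw [Finset.sum_boole, Fintype.card_subtype]
  have h7 : ∑ i, Real.sign (w i) = (Fintype.card {i // 0 < w i} : ℝ) -
      Fintype.card {i // 0 < - w i} := by
    rw [← h5, ← h6, ← Finset.sum_sub_distrib]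
    exact Finset.sum_congr rfl fun i _ => h3 i
  have h8 : (Fintype.card {i // 0 < w i} : ℝ) + Fintype.card {i // 0 < - w i} =
      Fintype.card ι := by
    rw [← h5, ← h6, ← Finset.sum_add_distrib, Finset.sum_congr rfl fun i _ => h4 i]
    simp
  have h9 : (Module.finrank ℝ U : ℝ) ≤ Fintype.card {i // 0 < w i} := by exact_mod_cast h1
  have h10 : (Module.finrank ℝ U : ℝ) ≤ Fintype.card {i // 0 < - w i} := by exact_mod_cast h2
  rw [h7]
  have h11 : |(Fintype.card {i // 0 < w i} : ℝ) - Fintype.card {i // 0 < - w i}| ≤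
      Fintype.card ι - 2 * (Module.finrank ℝ U : ℝ) := by
    rw [abs_le]
    constructor <;> linarith
  linarith

end Pool.Agent.ChS
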