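import Pool.Agent.ChS.Defs
import Pool.Agent.ChP.Star

/-!
# Invariant labellings

Let `R` be a set of representatives (`exists_reps`).  Every vertex is `γ • v` for exactly one
`γ` and one vertex `v` with `{v} ∈ R`; label it by the index of `v` in an enumeration of the finite set
of these `v`.  Two vertices of a simplex with the same label are in the same orbit, so equal by
`Proper`.
-/

namespace Pool.Agent.ChS

open Matrix Pool.Agent.ChP
open scoped Pointwise

variable {n : ℕ} (K : AffineTriangulation n)

theorem exists_lab (hp : Proper K) : Nonempty (Lab K) := by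
  classical
  have hfin : Finite (MulAction.orbitRel.Quotient K.Γ K.V) := by
    obtain ⟨F, hF⟩ := K.cocompact
    have hU : Finite {v : K.V // v ∈ F.biUnion id} := Finset.finite_toSet _ |>.to_subtype
    refine Finite.of_surjective
      (fun v : {v : K.V // v ∈ F.biUnion id} =>
        (Quotient.mk (MulAction.orbitRel K.Γ K.V) v.1 : MulAction.orbitRel.Quotient K.Γ K.V)) ?_
    intro q
    induction q using Quotient.inductionOn with
    | h v =>
      obtain ⟨γ, hγ⟩ := hF {v} (K.singleton_mem v)
      have hm : γ • v ∈ F.biUnion id := by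
        rw [Finset.mem_biUnion]
        refine ⟨_, hγ, ?_⟩
        rw [id, Finset.smul_finset_singleton]
        exact Finset.mem_singleton_self _
      refine ⟨⟨γ • v, hm⟩, ?_⟩
      apply Quotient.sound
      exact ⟨γ, rfl⟩
  obtain ⟨f, hf⟩ := exists_injective_nat (MulAction.orbitRel.Quotient K.Γ K.V)
  refine ⟨⟨fun v => f (Quotient.mk (MulAction.orbitRel K.Γ K.V) v), ?_, ?_⟩⟩
  · intro γ v
    have h : (Quotient.mk (MulAction.orbitRel K.Γ K.V) (γ • v)) =
        Quotient.mk (MulAction.orbitRel K.Γ K.V) v := Quotient.sound ⟨γ, rfl⟩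
    show f _ = f _
    rw [h]
  · intro σ hσ u hu v hv huv
    have h := Quotient.exact (hf huv)
    obtain ⟨γ, hγ⟩ := h
    have hγ' : γ • v = u := hγ
    have h1 : γ = 1 := hp σ hσ v hv γ (by rw [hγ']; exact hu)
    rw [← hγ', h1, one_smul]

end Pool.Agent.ChS
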