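import Pool.Agent.ChS.Main4
import Pool.Agent.ChS.Z1Dim
import Pool.Agent.ChS.OrdEx
import Pool.Agent.ChP.Restrict

/-!
# Finite coverings and the rank gradient
-/

namespace Pool.Agent.ChS

open Matrix Pool.Agent.ChP
open scoped Pointwise

variable (K : AffineTriangulation 4)

/-- an invariant labelling for a subgroup -/
def Lab.restrict {n : ℕ} {K : AffineTriangulation n} (o : Lab K) (H : Subgroup K.Γ)
    [H.FiniteIndex] : Lab (K.restrict H) where
  lab := o.lab
  smul := fun (γ : H) v => o.smul (γ : K.Γ) v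
  inj := o.inj

theorem restrict_lin {n : ℕ} (K : AffineTriangulation n) (H : Subgroup K.Γ) [H.FiniteIndex]
    (γ : H) : (K.restrict H).lin γ = K.lin (γ : K.Γ) := rfl

/-- The main inequality for a finite covering. -/
theorem main_cover (hc : Connected K) (h1 : H1Zero K) (o : Lab K) (H : Subgroup K.Γ)
    [H.FiniteIndex] (hZ : Module.Finite ℝ (Z1 (K.lin.comp H.subtype))) :
    16 * (H.index * |K.eulerChar|) + 12 ≤ 6 * (H.index * K.eulerChar) +
      2 * (Module.finrank ℝ (Z1 (K.lin.comp H.subtype)) : ℤ) := by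
  have h := main4 (K := K.restrict H) hc h1 (o.restrict H) hZ
  rw [K.restrict_eulerChar H, abs_mul, abs_of_nonneg (Int.natCast_nonneg _)] at h
  exact h

/-- The dimension of the space of crossed homomorphisms of a subgroup with given generators. -/
theorem z1_finrank_le' {G : Type*} [Group G] (ρ : G →* Matrix (Fin 4) (Fin 4) ℝ) (H : Subgroup G)
    (S : Finset G) (hS : Subgroup.closure (S : Set G) = H) :
    Module.Finite ℝ (Z1 (ρ.comp H.subtype)) ∧
      Module.finrank ℝ (Z1 (ρ.comp H.subtype)) ≤ 6 * S.card := by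
  classical
  have hsub : ∀ g ∈ S, g ∈ H := by
    intro g hg
    rw [← hS]
    exact Subgroup.subset_closure hg
  obtain ⟨S', hS'⟩ : ∃ S' : Finset H, S' = S.attach.image (fun g => (⟨g.1, hsub _ g.2⟩ : H)) :=
    ⟨_, rfl⟩
  have hcard : S'.card ≤ S.card := by
    rw [hS']
    exact Finset.card_image_le.trans_eq (Finset.card_attach)
  have himg : (H.subtype '' (S' : Set H)) = (S : Set G) := by
    ext g
    constructor
    · rintro ⟨x, hx, rfl⟩
      rw [Finset.mem_coe, hS', Finset.mem_image] at hx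
      obtain ⟨a, -, rfl⟩ := hx
      exact a.2
    · intro hg
      refine ⟨⟨g, hsub g hg⟩, ?_, rfl⟩
      rw [Finset.mem_coe, hS', Finset.mem_image]
      exact ⟨⟨g, hg⟩, Finset.mem_attach _ _, rfl⟩
  have hclos : Subgroup.closure (S' : Set H) = ⊤ := by
    apply Subgroup.map_injective H.subtype_injective
    rw [MonoidHom.map_closure, himg, hS, ← MonoidHom.range_eq_map, H.range_subtype]
  obtain ⟨hZ1, hZ2⟩ := z1_finrank_le (ρ.comp H.subtype) S' hclos
  exact ⟨hZ1, hZ2.trans (Nat.mul_le_mul_left 6 hcard)⟩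

/-- The inequality with the number of generators. -/
theorem main_gen (hc : Connected K) (h1 : H1Zero K) (o : Lab K) (H : Subgroup K.Γ)
    [H.FiniteIndex] (S : Finset K.Γ) (hS : Subgroup.closure (S : Set K.Γ) = H) :
    16 * (H.index * |K.eulerChar|) + 12 ≤ 6 * (H.index * K.eulerChar) + 12 * (S.card : ℤ) := by
  obtain ⟨hZ1, hZ2⟩ := z1_finrank_le' K.lin H S hS
  have h := main_cover K hc h1 o H hZ1
  have h2 : (Module.finrank ℝ (Z1 (K.lin.comp H.subtype)) : ℤ) ≤ 6 * S.card := by
    exact_mod_cast hZ2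
  omega

/-- Rank gradient zero. -/
theorem eulerChar_eq_zero_of_rank_gradient (hc : Connected K) (h1 : H1Zero K) (o : Lab K)
    (hr : ∀ ε : ℝ, 0 < ε → ∃ (H : Subgroup K.Γ) (S : Finset K.Γ), H.FiniteIndex ∧
      Subgroup.closure (S : Set K.Γ) = H ∧ (S.card : ℝ) ≤ ε * H.index) :
    K.eulerChar = 0 := by
  by_contra h0
  obtain ⟨H, S, hH, hS, hcard⟩ := hr (1 / 2) (by norm_num)
  have h := main_gen K hc h1 o H S hS
  have hx : (16 : ℝ) * (H.index * |(K.eulerChar : ℝ)|) + 12 ≤
      6 * (H.index * K.eulerChar) + 12 * (S.card : ℝ) := by exact_mod_cast h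
  have h2 : (1 : ℝ) ≤ |(K.eulerChar : ℝ)| := by
    have : (1 : ℤ) ≤ |K.eulerChar| := Int.one_le_abs h0
    exact_mod_cast this
  have h3 : (K.eulerChar : ℝ) ≤ |(K.eulerChar : ℝ)| := le_abs_self _
  have h4 : (0 : ℝ) ≤ H.index := Nat.cast_nonneg _
  have h5 : (H.index : ℝ) * K.eulerChar ≤ H.index * |(K.eulerChar : ℝ)| :=
    mul_le_mul_of_nonneg_left h3 h4
  have h6 : (H.index : ℝ) * 1 ≤ H.index * |(K.eulerChar : ℝ)| :=
    mul_le_mul_of_nonneg_left h2 h4
  nlinarith

end Pool.Agent.ChS
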