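import Pool.Agent.ChS.Defs
import Pool.Agent.ChP.EpsAlg

/-!
# Complete simplicial fans: basic facts

`exists_flip`: the wall `F = image w \ {w i}` has exactly two chambers `insert w₁ F`,
`insert w₂ F`, and `w i` is one of `w₁`, `w₂`; replace it by the other one.  The sign of the
determinant changes by `α • p w₁ + β • p w₂ ∈ span (p v, v ∈ F)`.

`fan_avoid`: proper subspaces have measure zero (or: are closed with empty interior).

`eps_neg_cons`: write `x = ∑ u_i p (w_i)` (`p ∘ w` is a basis) and use `eps_cons`.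
-/

namespace Pool.Agent.ChS

open Matrix Pool.Agent.ChP

variable {d : ℕ} {U : Type} [DecidableEq U] {cones : Finset (Finset U)} {p : U → Fin d → ℝ}

/-- ordered chambers of a fan -/
def FT (cones : Finset (Finset U)) (w : Fin d → U) : Prop :=
  Function.Injective w ∧ Finset.univ.image w ∈ cones

theorem finite_ft (cones : Finset (Finset U)) : {w : Fin d → U | FT cones w}.Finite := by
  classical
  refine Set.Finite.subset (Set.Finite.pi' (fun _ : Fin d =>
    (Finset.finite_toSet (cones.biUnion id)))) ?_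
  rintro t ⟨-, ht⟩ i
  simp only [Finset.mem_coe, Finset.mem_biUnion, id]
  exact ⟨_, ht, Finset.mem_image_of_mem t (Finset.mem_univ i)⟩

/-- the finite set of the ordered chambers of a fan -/
noncomputable def fts (d : ℕ) (cones : Finset (Finset U)) : Finset (Fin d → U) :=
  (finite_ft cones).toFinset

theorem mem_fts {w : Fin d → U} : w ∈ fts d cones ↔ FT cones w := by
  unfold fts
  rw [Set.Finite.mem_toFinset]
  rfl

/-- the orientation of an ordered chamber -/
noncomputable def fo (p : U → Fin d → ℝ) (w : Fin d → U) : ℝ :=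
  Real.sign (Matrix.det (Matrix.of fun a => p (w a)))

/-- the open cone of an ordered chamber -/
def ocone (p : U → Fin d → ℝ) (w : Fin d → U) : Set (Fin d → ℝ) :=
  {x | ∃ c : Fin d → ℝ, (∀ i, 0 < c i) ∧ ∑ i, c i • p (w i) = x}

private theorem FanBasic_indep (h : IsFan cones p) {w : Fin d → U} (hw : w ∈ fts d cones) :
    LinearIndependent ℝ (fun i => p (w i)) := by
  obtain ⟨h1, h2⟩ := mem_fts.1 hw
  have h3 := h.indep _ h2
  have h4 := h3.comp (fun i : Fin d => (⟨w i, Finset.mem_image_of_mem w (Finset.mem_univ i)⟩ :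
    {x // x ∈ Finset.univ.image w})) (by
      intro i j hij
      exact h1 (congrArg Subtype.val hij))
  exact h4

private theorem FanBasic_inj (h : IsFan cones p) {w : Fin d → U} (hw : w ∈ fts d cones) :
    Function.Injective (Fintype.linearCombination ℝ (fun i => p (w i))) :=
  linearIndependent_iff_injective_fintypeLinearCombination.1 (FanBasic_indep h hw)

private theorem FanBasic_surj (h : IsFan cones p) {w : Fin d → U} (hw : w ∈ fts d cones) :
    Function.Surjective (Fintype.linearCombination ℝ (fun i => p (w i))) :=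
  LinearMap.injective_iff_surjective.1 (FanBasic_inj h hw)

theorem fan_empty_mem (h : IsFan cones p) : (∅ : Finset U) ∈ cones := by
  obtain ⟨τ, ⟨hτ, -⟩, -⟩ := h.cover 0
  exact h.down τ hτ ∅ (Finset.empty_subset _)

theorem fan_det_ne_zero (h : IsFan cones p) {w : Fin d → U} (hw : w ∈ fts d cones) :
    Matrix.det (Matrix.of fun a => p (w a)) ≠ 0 := by
  have h1 : LinearIndependent ℝ (Matrix.of fun a => p (w a)).row := FanBasic_indep h hw
  rw [Matrix.linearIndependent_rows_iff_isUnit, Matrix.isUnit_iff_isUnit_det] at h1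
  exact h1.ne_zero

theorem fo_mul_self (h : IsFan cones p) {w : Fin d → U} (hw : w ∈ fts d cones) :
    fo p w * fo p w = 1 := by
  unfold fo
  rcases lt_or_gt_of_ne (fan_det_ne_zero h hw) with h1 | h1
  · rw [Real.sign_of_neg h1]; norm_num
  · rw [Real.sign_of_pos h1]; norm_num

theorem fts_card (h : IsFan cones p) {w : Fin d → U} (hw : w ∈ fts d cones) :
    Finset.univ.image w ∈ cones ∧ (Finset.univ.image w).card = d := by
  obtain ⟨h1, h2⟩ := mem_fts.1 hw
  exact ⟨h2, by rw [Finset.card_image_of_injective _ h1, Finset.card_univ, Fintype.card_fin]⟩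

theorem exists_fts (h : IsFan cones p) {σ : Finset U} (hσ : σ ∈ cones) (hc : σ.card = d) :
    ∃ w ∈ fts d cones, Finset.univ.image w = σ := by
  obtain ⟨e, -⟩ : ∃ e : σ ≃ Fin d, True := ⟨σ.equivFinOfCardEq hc, trivial⟩
  have h2 : Finset.univ.image (fun i => (e.symm i : U)) = σ := by
    ext v
    rw [Finset.mem_image]
    constructor
    · rintro ⟨i, -, rfl⟩
      exact (e.symm i).2
    · intro hv
      exact ⟨e ⟨v, hv⟩, Finset.mem_univ _, by rw [Equiv.symm_apply_apply]⟩
  refine ⟨fun i => (e.symm i : U), mem_fts.2 ⟨?_, ?_⟩, h2⟩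
  · intro i j hij
    exact e.symm.injective (Subtype.ext hij)
  · rw [h2]; exact hσ

private theorem FanBasic_sign_neg (x : ℝ) : Real.sign (-x) = -Real.sign x := by
  rcases lt_trichotomy x 0 with h | h | h
  · rw [Real.sign_of_neg h, Real.sign_of_pos (neg_pos.2 h), neg_neg]
  · rw [h, neg_zero, Real.sign_zero, neg_zero]
  · rw [Real.sign_of_pos h, Real.sign_of_neg (neg_neg_of_pos h)]

/-- swapping two vertices of an ordered chamber -/
theorem fts_swap {w : Fin d → U} (hw : w ∈ fts d cones) {i k : Fin d} (hik : i ≠ k) :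
    (fun j => w (Equiv.swap i k j)) ∈ fts d cones ∧
      fo p (fun j => w (Equiv.swap i k j)) = -fo p w := by
  obtain ⟨h1, h2⟩ := mem_fts.1 hw
  constructor
  · refine mem_fts.2 ⟨h1.comp (Equiv.swap i k).injective, ?_⟩
    have h3 : Finset.univ.image (fun j => w (Equiv.swap i k j)) = Finset.univ.image w := by
      ext v
      rw [Finset.mem_image, Finset.mem_image]
      constructor
      · rintro ⟨j, -, rfl⟩
        exact ⟨Equiv.swap i k j, Finset.mem_univ _, rfl⟩
      · rintro ⟨j, -, rfl⟩
        exact ⟨(Equiv.swap i k).symm j, Finset.mem_univ _, by rw [Equiv.apply_symm_apply]⟩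
    rw [h3]
    exact h2
  · unfold fo
    have h3 : (Matrix.of fun a => p (w (Equiv.swap i k a))) =
        (Matrix.of fun a => p (w a)).submatrix (Equiv.swap i k) id := by
      ext a b
      rfl
    rw [h3, Matrix.det_permute, Equiv.Perm.sign_swap hik]
    simp only [Units.val_neg, Units.val_one, Int.cast_neg, Int.cast_one, neg_mul, one_mul]
    exact FanBasic_sign_neg _

omit [DecidableEq U] in
private theorem FanBasic_det {w : Fin d → U} {i : Fin d} {u : U} {α β : ℝ} (hα : 0 < α)
    (hβ : 0 < β) {c : U → ℝ} {F : Finset U} (hF : ∀ v ∈ F, ∃ k, k ≠ i ∧ w k = v)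
    (hrel : α • p (w i) + β • p u = ∑ v ∈ F, c v • p v) :
    fo p (Function.update w i u) = -fo p w := by
  obtain ⟨L, hL⟩ : ∃ L : (Fin d → ℝ) →ₗ[ℝ] ℝ, ∀ x, L x =
      Matrix.det (Matrix.of (Function.update (fun a => p (w a)) i x)) :=
    ⟨(Matrix.detRowAlternating (n := Fin d) (R := ℝ)).toMultilinearMap.toLinearMap
      (fun a => p (w a)) i, fun x => rfl⟩
  have h1 : L (p (w i)) = Matrix.det (Matrix.of fun a => p (w a)) := by
    rw [hL]
    congr 2
    exact Function.update_eq_self i (fun a => p (w a))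
  have h2 : L (p u) = Matrix.det (Matrix.of fun a => p (Function.update w i u a)) := by
    rw [hL]
    congr 2
    funext a
    by_cases ha : a = i
    · subst ha; rw [Function.update_self, Function.update_self]
    · rw [Function.update_of_ne ha, Function.update_of_ne ha]
  have h3 : ∀ v ∈ F, L (p v) = 0 := by
    intro v hv
    obtain ⟨k, hk, rfl⟩ := hF v hv
    rw [hL]
    refine Matrix.det_zero_of_row_eq hk ?_
    show Function.update (fun a => p (w a)) i (p (w k)) k =
      Function.update (fun a => p (w a)) i (p (w k)) i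
    rw [Function.update_self, Function.update_of_ne hk]
  have h4 := congrArg L hrel
  rw [map_add, map_smul, map_smul, map_sum] at h4
  have h5 : ∑ x ∈ F, L (c x • p x) = 0 := Finset.sum_eq_zero fun v hv => by
    rw [map_smul, h3 v hv, smul_zero]
  rw [h5, h1, h2, smul_eq_mul, smul_eq_mul] at h4
  unfold fo
  obtain ⟨x, hx⟩ : ∃ x, x = Matrix.det (Matrix.of fun a => p (w a)) := ⟨_, rfl⟩
  obtain ⟨y, hy⟩ : ∃ y, y = Matrix.det (Matrix.of fun a => p (Function.update w i u a)) := ⟨_, rfl⟩
  rw [← hx, ← hy] at h4 ⊢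
  rcases lt_trichotomy x 0 with hx0 | hx0 | hx0
  · have h6 : 0 < y := by
      have h7 : α * x < 0 := mul_neg_of_pos_of_neg hα hx0
      have h8 : 0 < β * y := by linarith
      exact (pos_iff_pos_of_mul_pos h8).1 hβ
    rw [Real.sign_of_neg hx0, Real.sign_of_pos h6, neg_neg]
  · rw [hx0, mul_zero, zero_add] at h4
    have h6 : y = 0 := by
      rcases mul_eq_zero.1 h4 with h7 | h7
      · exact absurd h7 hβ.ne'
      · exact h7
    rw [hx0, h6, Real.sign_zero, neg_zero]
  · have h6 : y < 0 := by
      have h7 : 0 < α * x := mul_pos hα hx0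
      have h8 : β * y < 0 := by linarith
      by_contra h9
      exact absurd h8 (not_lt.2 (mul_nonneg hβ.le (not_lt.1 h9)))
    rw [Real.sign_of_pos hx0, Real.sign_of_neg h6]

private theorem FanBasic_wall (h : IsFan cones p) (i : Fin d) {w : Fin d → U}
    (hw : w ∈ fts d cones) :
    ∃ u : U, u ≠ w i ∧ Function.update w i u ∈ fts d cones ∧
      fo p (Function.update w i u) = -fo p w ∧
      (Finset.univ.image w ∩ Finset.univ.image (Function.update w i u)).card + 1 = d ∧
      ∀ w' ∈ fts d cones, (∀ k, k ≠ i → w' k = w k) → w' = w ∨ w' = Function.update w i u := by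
  obtain ⟨hinj, hcone⟩ := mem_fts.1 hw
  have hcard := (fts_card h hw).2
  obtain ⟨F, hF⟩ : ∃ F, F = (Finset.univ.image w).erase (w i) := ⟨_, rfl⟩
  have hwi : w i ∈ Finset.univ.image w := Finset.mem_image_of_mem w (Finset.mem_univ i)
  have hFc : F ∈ cones := h.down _ hcone F (by rw [hF]; exact Finset.erase_subset _ _)
  have hFd : F.card + 1 = d := by
    rw [hF, Finset.card_erase_add_one hwi, hcard]
  have hFm : ∀ v, v ∈ F ↔ ∃ k, k ≠ i ∧ w k = v := by
    intro v
    rw [hF, Finset.mem_erase, Finset.mem_image]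
    constructor
    · rintro ⟨h1, k, -, rfl⟩
      exact ⟨k, fun hk => h1 (by rw [hk]), rfl⟩
    · rintro ⟨k, hk, rfl⟩
      exact ⟨fun h1 => hk (hinj h1), k, Finset.mem_univ _, rfl⟩
  have hwiF : w i ∉ F := by rw [hF]; exact Finset.notMem_erase _ _
  have hins : insert (w i) F = Finset.univ.image w := by rw [hF]; exact Finset.insert_erase hwi
  -- the other vertex
  obtain ⟨u, hu1, hu2, hu3, hu4, α, β, c, hα, hβ, hrel⟩ : ∃ u : U, u ≠ w i ∧ u ∉ F ∧
      insert u F ∈ cones ∧ (∀ v, v ∉ F → insert v F ∈ cones → v = w i ∨ v = u) ∧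
      ∃ (α β : ℝ) (c : U → ℝ), 0 < α ∧ 0 < β ∧
        α • p (w i) + β • p u = ∑ v ∈ F, c v • p v := by
    obtain ⟨w₁, w₂, h1, h2, h3, h4, h5, h6, α, β, c, hα, hβ, hrel⟩ := h.wall F hFc hFd
    rcases h6 (w i) hwiF (by rw [hins]; exact hcone) with h7 | h7
    · refine ⟨w₂, fun h8 => h3 (by rw [← h7, h8]), h2, h5, fun v hv hv2 => ?_, α, β, c, hα, hβ, ?_⟩
      · rw [h7]; exact h6 v hv hv2
      · rw [h7]; exact hrel
    · refine ⟨w₁, fun h8 => h3 (by rw [← h7, h8]), h1, h4, fun v hv hv2 => ?_, β, α, c, hβ, hα, ?_⟩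
      · rw [h7]; exact (h6 v hv hv2).symm
      · rw [h7, add_comm]; exact hrel
  have huw : ∀ k, u ≠ w k := by
    intro k hk
    by_cases hki : k = i
    · exact hu1 (by rw [hk, hki])
    · exact hu2 ((hFm u).2 ⟨k, hki, hk.symm⟩)
  have himg : Finset.univ.image (Function.update w i u) = insert u F := by
    ext v
    rw [Finset.mem_image, Finset.mem_insert, hFm]
    constructor
    · rintro ⟨k, -, rfl⟩
      by_cases hk : k = i
      · left; rw [hk, Function.update_self]
      · right; exact ⟨k, hk, by rw [Function.update_of_ne hk]⟩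
    · rintro (rfl | ⟨k, hk, rfl⟩)
      · exact ⟨i, Finset.mem_univ _, by rw [Function.update_self]⟩
      · exact ⟨k, Finset.mem_univ _, by rw [Function.update_of_ne hk]⟩
  refine ⟨u, hu1, mem_fts.2 ⟨?_, by rw [himg]; exact hu3⟩, ?_, ?_, ?_⟩
  · intro a b hab
    by_cases ha : a = i
    · by_cases hb : b = i
      · rw [ha, hb]
      · rw [ha, Function.update_self, Function.update_of_ne hb] at hab
        exact absurd hab (huw b)
    · by_cases hb : b = i
      · rw [hb, Function.update_self, Function.update_of_ne ha] at hab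
        exact absurd hab.symm (huw a)
      · rw [Function.update_of_ne ha, Function.update_of_ne hb] at hab
        exact hinj hab
  · exact FanBasic_det hα hβ (fun v hv => (hFm v).1 hv) hrel
  · have h1 : Finset.univ.image w ∩ Finset.univ.image (Function.update w i u) = F := by
      rw [himg]
      ext v
      rw [Finset.mem_inter, Finset.mem_insert]
      constructor
      · rintro ⟨h1, h2 | h2⟩
        · exfalso
          obtain ⟨k, -, hk⟩ := Finset.mem_image.1 h1
          exact huw k (by rw [← h2, hk])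
        · exact h2
      · intro hv
        refine ⟨?_, Or.inr hv⟩
        rw [← hins]
        exact Finset.mem_insert_of_mem hv
    rw [h1]
    exact hFd
  · intro w' hw' hagree
    obtain ⟨hinj', hcone'⟩ := mem_fts.1 hw'
    have h1 : w' i ∉ F := by
      intro h2
      obtain ⟨k, hk, hk2⟩ := (hFm _).1 h2
      rw [← hagree k hk] at hk2
      exact hk (hinj' hk2)
    have h2 : insert (w' i) F = Finset.univ.image w' := by
      ext v
      rw [Finset.mem_image, Finset.mem_insert, hFm]
      constructor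
      · rintro (rfl | ⟨k, hk, rfl⟩)
        · exact ⟨i, Finset.mem_univ _, rfl⟩
        · exact ⟨k, Finset.mem_univ _, hagree k hk⟩
      · rintro ⟨k, -, rfl⟩
        by_cases hk : k = i
        · left; rw [hk]
        · right; exact ⟨k, hk, (hagree k hk).symm⟩
    rcases hu4 (w' i) h1 (by rw [h2]; exact hcone') with h3 | h3
    · left
      funext k
      by_cases hk : k = i
      · rw [hk, h3]
      · exact hagree k hk
    · right
      funext k
      by_cases hk : k = i
      · rw [hk, h3, Function.update_self]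
      · rw [Function.update_of_ne hk]
        exact hagree k hk

/-- replacing the `i`-th vertex of an ordered chamber by the other vertex of the opposite wall -/
theorem exists_flip (h : IsFan cones p) (i : Fin d) :
    ∃ F : (Fin d → U) → (Fin d → U), ∀ w ∈ fts d cones, F w ∈ fts d cones ∧ F (F w) = w ∧
      F w i ≠ w i ∧ (∀ k, k ≠ i → F w k = w k) ∧ fo p (F w) = -fo p w ∧
      (Finset.univ.image w ∩ Finset.univ.image (F w)).card + 1 = d ∧
      ∀ w' ∈ fts d cones, (∀ k, k ≠ i → w' k = w k) → w' = w ∨ w' = F w := by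
  classical
  have hex : ∀ w : Fin d → U, ∃ w₁ : Fin d → U, w ∈ fts d cones → w₁ ∈ fts d cones ∧
      w₁ i ≠ w i ∧ (∀ k, k ≠ i → w₁ k = w k) ∧ fo p w₁ = -fo p w ∧
      (Finset.univ.image w ∩ Finset.univ.image w₁).card + 1 = d ∧
      ∀ w' ∈ fts d cones, (∀ k, k ≠ i → w' k = w k) → w' = w ∨ w' = w₁ := by
    intro w
    by_cases hw : w ∈ fts d cones
    · obtain ⟨u, h1, h2, h3, h4, h5⟩ := FanBasic_wall h i hw
      refine ⟨Function.update w i u, fun _ => ⟨h2, ?_, ?_, h3, h4, h5⟩⟩
      · rw [Function.update_self]; exact h1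
      · intro k hk
        rw [Function.update_of_ne hk]
    · exact ⟨w, fun h' => absurd h' hw⟩
  choose F hF using hex
  refine ⟨F, fun w hw => ?_⟩
  obtain ⟨h1, h2, h3, h4, h5, h6⟩ := hF w hw
  obtain ⟨g1, g2, g3, g4, g5, g6⟩ := hF (F w) h1
  refine ⟨h1, ?_, h2, h3, h4, h5, h6⟩
  rcases g6 w hw (fun k hk => (h3 k hk).symm) with h7 | h7
  · exfalso
    exact h2 (by rw [← h7])
  · exact h7.symm

theorem fan_avoid {ι : Type*} [Finite ι] (S : ι → Submodule ℝ (Fin d → ℝ)) (hS : ∀ i, S i ≠ ⊤)
    (O : Set (Fin d → ℝ)) (hO : IsOpen O) (hne : O.Nonempty) : ∃ x ∈ O, ∀ i, x ∉ S i := by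
  by_contra hcon
  push Not at hcon
  have h1 : O ⊆ ⋃ i, (S i : Set (Fin d → ℝ)) := by
    intro x hx
    obtain ⟨i, hi⟩ := hcon x hx
    exact Set.mem_iUnion.2 ⟨i, hi⟩
  have h2 : MeasureTheory.volume (⋃ i, (S i : Set (Fin d → ℝ))) = 0 :=
    MeasureTheory.measure_iUnion_null fun i =>
      MeasureTheory.Measure.addHaar_submodule _ (S i) (hS i)
  have h3 : MeasureTheory.volume O = 0 := MeasureTheory.measure_mono_null h1 h2
  have h4 : 0 < MeasureTheory.volume O := hO.measure_pos _ hne
  rw [h3] at h4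
  exact lt_irrefl _ h4

theorem isOpen_ocone (h : IsFan cones p) {w : Fin d → U} (hw : w ∈ fts d cones) :
    IsOpen (ocone p w) := by
  have h1 : IsOpenMap (Fintype.linearCombination ℝ (fun i => p (w i))) :=
    LinearMap.isOpenMap_of_finiteDimensional _ (FanBasic_surj h hw)
  have h2 : IsOpen {c : Fin d → ℝ | ∀ i, 0 < c i} := by
    have : {c : Fin d → ℝ | ∀ i, 0 < c i} = ⋂ i, {c | 0 < c i} := by
      ext c; simp
    rw [this]
    exact isOpen_iInter_of_finite fun i => isOpen_lt continuous_const (continuous_apply i)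
  have h3 : ocone p w = Fintype.linearCombination ℝ (fun i => p (w i)) ''
      {c : Fin d → ℝ | ∀ i, 0 < c i} := by
    ext x
    constructor
    · rintro ⟨c, hc, rfl⟩
      exact ⟨c, hc, rfl⟩
    · rintro ⟨c, hc, rfl⟩
      exact ⟨c, hc, rfl⟩
  rw [h3]
  exact h1 _ h2

theorem eps_neg_cons (h : IsFan cones p) {w : Fin d → U} (hw : w ∈ fts d cones)
    (x : Fin d → ℝ) [Decidable (x ∈ ocone p w)] :
    eps (Fin.cons (-x) (fun i => p (w i)) : Fin (d + 1) → Fin d → ℝ) =
      if x ∈ ocone p w then fo p w else 0 := by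
  obtain ⟨u, hu⟩ := FanBasic_surj h hw x
  have hu' : ∑ i, u i • p (w i) = x := hu
  have h1 := eps_cons (fun i => p (w i)) u
  rw [hu'] at h1
  have h2 : x ∈ ocone p w ↔ ∀ i, 0 < u i := by
    constructor
    · rintro ⟨c, hc, hcx⟩
      have h3 : c = u := FanBasic_inj h hw (by rw [hu]; exact hcx)
      rw [← h3]
      exact hc
    · intro h3
      exact ⟨u, h3, hu'⟩
  rw [h1]
  by_cases h3 : ∀ i, 0 < u i
  · rw [if_pos h3, if_pos (h2.2 h3)]
    rfl
  · rw [if_neg h3, if_neg (fun h4 => h3 (h2.1 h4))]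

/-- a point lies in the open cones of at most one chamber -/
theorem ocone_unique (h : IsFan cones p) {w w' : Fin d → U} (hw : w ∈ fts d cones)
    (hw' : w' ∈ fts d cones) {x : Fin d → ℝ} (hx : x ∈ ocone p w) (hx' : x ∈ ocone p w') :
    Finset.univ.image w = Finset.univ.image w' := by
  have key : ∀ w : Fin d → U, w ∈ fts d cones → x ∈ ocone p w →
      Finset.univ.image w ∈ cones ∧ ∃ c : U → ℝ, (∀ v ∈ Finset.univ.image w, 0 < c v) ∧
        ∑ v ∈ Finset.univ.image w, c v • p v = x := by
    intro w hw hx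
    obtain ⟨hinj, hcone⟩ := mem_fts.1 hw
    obtain ⟨c, hc, hcx⟩ := hx
    refine ⟨hcone, Function.extend w c 0, ?_, ?_⟩
    · intro v hv
      obtain ⟨k, -, rfl⟩ := Finset.mem_image.1 hv
      rw [hinj.extend_apply]
      exact hc k
    · rw [Finset.sum_image fun a _ b _ hab => hinj hab, ← hcx]
      exact Finset.sum_congr rfl fun k _ => by rw [hinj.extend_apply]
  exact (h.cover x).unique (key w hw hx) (key w' hw' hx')

end Pool.Agent.ChS
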