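import Pool.Agent.ChS.Defs

/-!
# The cocycle identity for the quadratic form `BB`

`lagrange6`: the homogeneous Lagrange (residue) identity for six points of the projective line and
the square of the quadratic form `q(z) = ∑_{i<j} C_ij ℓ_i(z) ℓ_j(z)`, `ℓ_i(z) = x_i z_1 + y_i z_2`,
at `z = z_k = (y_k, -x_k)`.  (Every homogeneous polynomial `P(z_1, z_2)` of degree `4 = 6 - 2`
satisfies `∑_k P(z_k) / ∏_{i ≠ k} ℓ_i(z_k) = 0`; it is enough to treat the monomials
`z_1^a z_2^(4-a)`.  If all `x_k ≠ 0` divide by powers of the `x_k` and use the identity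
`∑_k r_k^a / ∏_{i ≠ k} (r_k - r_i) = 0`, `a ≤ 4`, for `r_k = y_k / x_k`; e.g. Lagrange interpolation,
leading coefficient.  At most one `x_k` vanishes; the general case follows by applying an invertible
linear map `(x, y) ↦ (x + c y, y)`, which does not change the brackets `x_i y_j - x_j y_i`, with `c`
avoiding finitely many values.)

`BB_cocycle`: let `M_ab`, `a < b`, be the determinant of the four vectors `s_i`, `i ≠ a, b`, in
increasing order, `N_ab = (-1)^(a+b) M_ab`, `N_ba = -N_ab`, `N_aa = 0`.  Then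
`tco (s ∘ k.succAbove) j' = (-1)^k N_jk` with `j = k.succAbove j'`.  One has `∑_j N_jk s_j = 0` for
all `k`, and the relations between the `s_j` form a space of dimension 2, which gives the Plücker
relations `N_01 N_ij = N_0i N_1j - N_0j N_1i`, i.e. `N_ij = x_i y_j - x_j y_i` with `x_i = N_i1`,
`y_j = N_0j / N_01` (`N_01 ≠ 0` by hypothesis).  Now apply `lagrange6`; the sign
`(-1)^k * ((-1)^k)^5` is `1`.
-/

namespace Pool.Agent.ChS

open Matrix Pool.Agent.ChP

private theorem Lagr_main (x y : Fin 6 → ℝ) (hx : ∀ k, x k ≠ 0)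
    (h : ∀ i j, i ≠ j → x i * y j - x j * y i ≠ 0) (C : Fin 6 → Fin 6 → ℝ) :
    ∑ k : Fin 6, (∑ i : Fin 6, ∑ j : Fin 6, if i < j then
        (x i * y k - x k * y i) * (x j * y k - x k * y j) * C i j else 0) ^ 2 /
      ∏ i ∈ Finset.univ.erase k, (x i * y k - x k * y i) = 0 := by
  classical
  set r : Fin 6 → ℝ := fun k => y k / x k with hr
  have hrk : ∀ k, y k = x k * r k := fun k => by
    rw [hr]; field_simp [hx k]
  have hinj : Set.InjOn r (Finset.univ : Finset (Fin 6)) := by
    intro i _ j _ hij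
    by_contra hne
    apply h i j hne
    rw [hrk i, hrk j]
    have : r i = r j := hij
    rw [this]; ring
  set Q : Polynomial ℝ := ∑ i : Fin 6, ∑ j : Fin 6, if i < j then
      (Polynomial.C (x i) * Polynomial.X - Polynomial.C (y i)) *
      (Polynomial.C (x j) * Polynomial.X - Polynomial.C (y j)) * Polynomial.C (C i j) else 0 with hQ
  have hl : ∀ i, (Polynomial.C (x i) * Polynomial.X - Polynomial.C (y i)).natDegree ≤ 1 := by
    intro i
    refine (Polynomial.natDegree_sub_le _ _).trans ?_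
    rw [Polynomial.natDegree_C]
    refine max_le ?_ (Nat.zero_le _)
    exact (Polynomial.natDegree_C_mul_le _ _).trans Polynomial.natDegree_X_le
  have hQd : Q.natDegree ≤ 2 := by
    rw [hQ]
    refine Polynomial.natDegree_sum_le_of_forall_le _ _ fun i _ => ?_
    refine Polynomial.natDegree_sum_le_of_forall_le _ _ fun j _ => ?_
    split_ifs with hij
    · refine (Polynomial.natDegree_mul_C_le _ _).trans ?_
      refine Polynomial.natDegree_mul_le.trans ?_
      have := hl i
      have := hl j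
      omega
    · simp
  have hQ2 : (Q ^ 2).natDegree ≤ 4 := by
    refine Polynomial.natDegree_pow_le.trans ?_
    omega
  have hdeg : (Q ^ 2).degree < (Finset.univ : Finset (Fin 6)).card := by
    rw [Finset.card_univ, Fintype.card_fin]
    refine Polynomial.degree_le_natDegree.trans_lt ?_
    exact_mod_cast lt_of_le_of_lt hQ2 (by norm_num)
  have hco := Lagrange.coeff_eq_sum hinj hdeg
  have hz : (Q ^ 2).coeff ((Finset.univ : Finset (Fin 6)).card - 1) = 0 := by
    apply Polynomial.coeff_eq_zero_of_natDegree_lt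
    rw [Finset.card_univ, Fintype.card_fin]
    omega
  rw [hz] at hco
  have hterm : ∀ k : Fin 6, (∑ i : Fin 6, ∑ j : Fin 6, if i < j then
        (x i * y k - x k * y i) * (x j * y k - x k * y j) * C i j else 0) ^ 2 /
      ∏ i ∈ Finset.univ.erase k, (x i * y k - x k * y i) =
      (∏ i, x i)⁻¹ * ((Q ^ 2).eval (r k) / ∏ i ∈ Finset.univ.erase k, (r k - r i)) := by
    intro k
    have h1 : (∑ i : Fin 6, ∑ j : Fin 6, if i < j then
        (x i * y k - x k * y i) * (x j * y k - x k * y j) * C i j else 0) =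
        x k ^ 2 * Q.eval (r k) := by
      rw [hQ, Polynomial.eval_finsetSum, Finset.mul_sum]
      refine Finset.sum_congr rfl fun i _ => ?_
      rw [Polynomial.eval_finsetSum, Finset.mul_sum]
      refine Finset.sum_congr rfl fun j _ => ?_
      split_ifs with hij
      · simp only [Polynomial.eval_mul, Polynomial.eval_sub, Polynomial.eval_C,
          Polynomial.eval_X]
        rw [hrk k]; ring
      · simp
    have h2 : ∏ i ∈ Finset.univ.erase k, (x i * y k - x k * y i) =
        x k ^ 4 * (∏ i, x i) * ∏ i ∈ Finset.univ.erase k, (r k - r i) := by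
      have h3 : ∀ i, x i * y k - x k * y i = x k * x i * (r k - r i) := by
        intro i
        rw [hrk i, hrk k]; ring
      rw [Finset.prod_congr rfl fun i _ => h3 i, Finset.prod_mul_distrib,
        Finset.prod_mul_distrib, Finset.prod_const, Finset.card_erase_of_mem (Finset.mem_univ k),
        Finset.card_univ, Fintype.card_fin, ← Finset.mul_prod_erase Finset.univ x
        (Finset.mem_univ k)]
      ring
    rw [h1, h2, Polynomial.eval_pow]
    have hp : ∏ i, x i ≠ 0 := Finset.prod_ne_zero_iff.2 fun i _ => hx i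
    have hp2 : ∏ i ∈ Finset.univ.erase k, (r k - r i) ≠ 0 := by
      refine Finset.prod_ne_zero_iff.2 fun i hi => ?_
      rw [sub_ne_zero]
      intro hki
      exact (Finset.ne_of_mem_erase hi) (hinj (by simp) (by simp) hki.symm)
    have hxk := hx k
    field_simp
  rw [Finset.sum_congr rfl fun k _ => hterm k, ← Finset.mul_sum, ← hco, mul_zero]

theorem lagrange6 (x y : Fin 6 → ℝ) (h : ∀ i j, i ≠ j → x i * y j - x j * y i ≠ 0)
    (C : Fin 6 → Fin 6 → ℝ) :
    ∑ k : Fin 6, (∑ i : Fin 6, ∑ j : Fin 6, if i < j then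
        (x i * y k - x k * y i) * (x j * y k - x k * y j) * C i j else 0) ^ 2 /
      ∏ i ∈ Finset.univ.erase k, (x i * y k - x k * y i) = 0 := by
  classical
  -- choose `c` with `x k + c * y k ≠ 0` for all `k`
  obtain ⟨c, hc⟩ : ∃ c : ℝ, ∀ k, x k + c * y k ≠ 0 := by
    obtain ⟨c, hc⟩ := ((Finset.univ.image fun k : Fin 6 => -(x k) / y k).finite_toSet
      |>.infinite_compl).nonempty
    refine ⟨c, fun k hk => ?_⟩
    by_cases hy : y k = 0
    · rw [hy, mul_zero, add_zero] at hk
      obtain ⟨j, hj⟩ : ∃ j : Fin 6, k ≠ j := ⟨k + 1, by simp⟩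
      apply h k j hj
      rw [hk, hy]; ring
    · apply hc
      simp only [Finset.coe_image, Finset.coe_univ, Set.image_univ, Set.mem_range]
      refine ⟨k, ?_⟩
      field_simp
      linarith
  have hbr : ∀ i j, (x i + c * y i) * y j - (x j + c * y j) * y i = x i * y j - x j * y i := by
    intro i j; ring
  have := Lagr_main (fun k => x k + c * y k) y hc (fun i j hij => by
    have := h i j hij
    rw [← hbr] at this
    exact this) C
  simp only [hbr] at this
  exact this

private theorem Lagr_rel (t : Fin 5 → Fin 4 → ℝ) (b : Fin 4) :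
    ∑ j, tco t j * t j b = 0 := by
  have h0 : Matrix.det (Matrix.of fun (i : Fin 5) (j : Fin 5) =>
      (Fin.cons (t i b) (t i) : Fin 5 → ℝ) j) = 0 := by
    refine Matrix.det_zero_of_column_eq (i := 0) (j := b.succ) (Fin.succ_ne_zero b).symm ?_
    intro k
    simp
  rw [Matrix.det_succ_column_zero] at h0
  rw [← h0]
  refine Finset.sum_congr rfl fun j _ => ?_
  unfold tco
  have : (Matrix.of fun (i : Fin 5) (j : Fin 5) =>
      (Fin.cons (t i b) (t i) : Fin 5 → ℝ) j).submatrix j.succAbove Fin.succ =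
      Matrix.of fun a b : Fin 4 => t (j.succAbove a) b := by
    ext a b'
    simp
  rw [this]
  simp only [Matrix.of_apply, Fin.cons_zero]
  ring

/-- the relation vector -/
private noncomputable def Lagr_u (s : Fin 6 → Fin 4 → ℝ) (k : Fin 6) : Fin 6 → ℝ :=
  Fin.insertNth (α := fun _ => ℝ) k 0 fun j' : Fin 5 =>
    (-1) ^ (k : ℕ) * tco (fun i => s (k.succAbove i)) j'

private theorem Lagr_u_self (s : Fin 6 → Fin 4 → ℝ) (k : Fin 6) : Lagr_u s k k = 0 := by
  unfold Lagr_u
  rw [Fin.insertNth_apply_same]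

private theorem Lagr_u_above (s : Fin 6 → Fin 4 → ℝ) (k : Fin 6) (j : Fin 5) :
    Lagr_u s k (k.succAbove j) = (-1) ^ (k : ℕ) * tco (fun i => s (k.succAbove i)) j := by
  unfold Lagr_u
  rw [Fin.insertNth_apply_succAbove]

private theorem Lagr_tco (s : Fin 6 → Fin 4 → ℝ) (k : Fin 6) (j : Fin 5) :
    tco (fun i => s (k.succAbove i)) j = (-1) ^ (k : ℕ) * Lagr_u s k (k.succAbove j) := by
  rw [Lagr_u_above, ← mul_assoc, ← mul_pow]
  norm_num

private theorem Lagr_u_rel (s : Fin 6 → Fin 4 → ℝ) (k : Fin 6) (b : Fin 4) :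
    ∑ j, Lagr_u s k j * s j b = 0 := by
  rw [Fin.sum_univ_succAbove _ k, Lagr_u_self, zero_mul, zero_add]
  have := Lagr_rel (fun i => s (k.succAbove i)) b
  rw [Finset.sum_congr rfl fun j _ => by
    rw [Lagr_u_above, mul_assoc], ← Finset.mul_sum, this, mul_zero]

private theorem Lagr_u_antisymm (s : Fin 6 → Fin 4 → ℝ) (k j : Fin 6) :
    Lagr_u s k j = - Lagr_u s j k := by
  by_cases hkj : j = k
  · subst hkj
    rw [Lagr_u_self, neg_zero]
  obtain ⟨j', rfl⟩ := Fin.exists_succAbove_eq hkj
  have hk : k = (k.succAbove j').succAbove (j'.predAbove k) := by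
    rw [Fin.succAbove_succAbove_predAbove]
  rw [Lagr_u_above]
  conv_rhs => rw [hk]
  conv_rhs => arg 1; arg 2; rw [← hk]
  rw [Lagr_u_above]
  unfold tco
  have hm : (Matrix.of fun a b : Fin 4 =>
      s ((k.succAbove j').succAbove ((j'.predAbove k).succAbove a)) b) =
      Matrix.of fun a b : Fin 4 => s (k.succAbove (j'.succAbove a)) b := by
    ext a b
    simp only [Matrix.of_apply]
    rw [Fin.succAbove_succAbove_succAbove_predAbove]
  rw [hm, ← mul_assoc, ← mul_assoc, ← pow_add, ← pow_add]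
  rw [Fin.neg_one_pow_succAbove_add_predAbove]
  ring

private theorem Lagr_uniq (s : Fin 6 → Fin 4 → ℝ)
    (h : Matrix.det (Matrix.of fun a b : Fin 4 => s a.succ.succ b) ≠ 0)
    (w : Fin 6 → ℝ) (hw : ∀ b, ∑ j, w j * s j b = 0) (h0 : w 0 = 0) (h1 : w 1 = 0) : w = 0 := by
  have hv : (fun a : Fin 4 => w a.succ.succ) ᵥ*
      (Matrix.of fun a b : Fin 4 => s a.succ.succ b) = 0 := by
    ext b
    have := hw b
    rw [Fin.sum_univ_succ, Fin.sum_univ_succ, h0, zero_mul, zero_add] at this
    have h1' : w (Fin.succ 0) = 0 := h1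
    rw [h1', zero_mul, zero_add] at this
    simpa [Matrix.vecMul, dotProduct] using this
  have hz := Matrix.eq_zero_of_vecMul_eq_zero h hv
  ext j
  refine Fin.cases h0 (fun j => ?_) j
  refine Fin.cases h1 (fun j => ?_) j
  exact congrFun hz j

theorem BB_cocycle (C : Fin 6 → Fin 6 → ℝ) (s : Fin 6 → Fin 4 → ℝ)
    (h : ∀ e : Fin 4 ↪o Fin 6, Matrix.det (Matrix.of fun a b => s (e a) b) ≠ 0) :
    ∑ k : Fin 6, (-1) ^ (k : ℕ) *
      BB (fun i j => C (k.succAbove i) (k.succAbove j)) (fun i => s (k.succAbove i)) = 0 := by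
  classical
  have hne : ∀ k j : Fin 6, j ≠ k → Lagr_u s k j ≠ 0 := by
    intro k j hkj
    obtain ⟨j', rfl⟩ := Fin.exists_succAbove_eq hkj
    rw [Lagr_u_above]
    unfold tco
    refine mul_ne_zero (pow_ne_zero _ (by norm_num)) (mul_ne_zero (pow_ne_zero _ (by norm_num)) ?_)
    exact h ((Fin.succAboveOrderEmb j').trans (Fin.succAboveOrderEmb k))
  have h01 : Lagr_u s 1 0 ≠ 0 := hne 1 0 (by decide)
  have h2 : Matrix.det (Matrix.of fun a b : Fin 4 => s a.succ.succ b) ≠ 0 :=
    h ((Fin.succOrderEmb 4).trans (Fin.succOrderEmb 5))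
  -- `N j k = Lagr_u s k j`
  have hpl : ∀ k j : Fin 6, Lagr_u s k j =
      Lagr_u s 1 j * (Lagr_u s k 0 / Lagr_u s 1 0) -
      Lagr_u s 1 k * (Lagr_u s j 0 / Lagr_u s 1 0) := by
    intro k j
    have hw := Lagr_uniq s h2 (fun j => Lagr_u s k j -
      (Lagr_u s k 0 / Lagr_u s 1 0) * Lagr_u s 1 j +
      (Lagr_u s k 1 / Lagr_u s 1 0) * Lagr_u s 0 j) (by
        intro b
        have e1 := Lagr_u_rel s k b
        have e2 := Lagr_u_rel s 1 b
        have e3 := Lagr_u_rel s 0 b
        calc ∑ j, (Lagr_u s k j - (Lagr_u s k 0 / Lagr_u s 1 0) * Lagr_u s 1 j +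
              (Lagr_u s k 1 / Lagr_u s 1 0) * Lagr_u s 0 j) * s j b
            = ∑ j, Lagr_u s k j * s j b -
              (Lagr_u s k 0 / Lagr_u s 1 0) * ∑ j, Lagr_u s 1 j * s j b +
              (Lagr_u s k 1 / Lagr_u s 1 0) * ∑ j, Lagr_u s 0 j * s j b := by
              rw [Finset.mul_sum, Finset.mul_sum, ← Finset.sum_sub_distrib,
                ← Finset.sum_add_distrib]
              refine Finset.sum_congr rfl fun j _ => ?_
              ring
          _ = 0 := by rw [e1, e2, e3]; ring)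
      (by
        rw [Lagr_u_self s 0]
        field_simp
        ring)
      (by
        rw [Lagr_u_self s 1, Lagr_u_antisymm s 0 1]
        field_simp
        ring)
    have := congrFun hw j
    simp only [Pi.zero_apply] at this
    rw [Lagr_u_antisymm s 1 k, Lagr_u_antisymm s j 0]
    have e : Lagr_u s k j = (Lagr_u s k 0 / Lagr_u s 1 0) * Lagr_u s 1 j -
      (Lagr_u s k 1 / Lagr_u s 1 0) * Lagr_u s 0 j := by linarith
    rw [e]
    ring
  set X : Fin 6 → ℝ := fun j => Lagr_u s 1 j with hX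
  set Y : Fin 6 → ℝ := fun j => Lagr_u s j 0 / Lagr_u s 1 0 with hY
  have hN : ∀ k j, Lagr_u s k j = X j * Y k - X k * Y j := fun k j => hpl k j
  have hL := lagrange6 X Y (fun i j hij => by
    rw [← hN j i]
    exact hne j i hij) C
  rw [← hL]
  refine Finset.sum_congr rfl fun k _ => ?_
  simp only [← hN]
  unfold BB LL
  have hsum : (∑ i : Fin 6, ∑ j : Fin 6, if i < j then
      Lagr_u s k i * Lagr_u s k j * C i j else 0) =
      ∑ i : Fin 5, ∑ j : Fin 5, if i < j then
        tco (fun i => s (k.succAbove i)) i * tco (fun i => s (k.succAbove i)) j *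
          C (k.succAbove i) (k.succAbove j) else 0 := by
    rw [Fin.sum_univ_succAbove _ k]
    have hz : (∑ j : Fin 6, if k < j then Lagr_u s k k * Lagr_u s k j * C k j else 0) = 0 := by
      refine Finset.sum_eq_zero fun j _ => ?_
      rw [Lagr_u_self]
      simp
    rw [hz, zero_add]
    refine Finset.sum_congr rfl fun i _ => ?_
    rw [Fin.sum_univ_succAbove _ k, Lagr_u_self]
    have hz2 : (if k.succAbove i < k then
        Lagr_u s k (k.succAbove i) * 0 * C (k.succAbove i) k else 0) = 0 := by simp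
    rw [hz2, zero_add]
    refine Finset.sum_congr rfl fun j _ => ?_
    by_cases hij : i < j
    · rw [if_pos hij, if_pos ((Fin.succAbove_lt_succAbove_iff).2 hij), Lagr_tco, Lagr_tco]
      have hs : ((-1 : ℝ) ^ (k : ℕ)) * ((-1 : ℝ) ^ (k : ℕ)) = 1 := by
        rw [← mul_pow]; norm_num
      calc Lagr_u s k (k.succAbove i) * Lagr_u s k (k.succAbove j) *
            C (k.succAbove i) (k.succAbove j)
          = (((-1 : ℝ) ^ (k : ℕ)) * ((-1 : ℝ) ^ (k : ℕ))) *
            (Lagr_u s k (k.succAbove i) * Lagr_u s k (k.succAbove j) *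
            C (k.succAbove i) (k.succAbove j)) := by rw [hs, one_mul]
        _ = _ := by ring
    · rw [if_neg hij, if_neg (fun h' => hij ((Fin.succAbove_lt_succAbove_iff).1 h'))]
  have hprod : ∏ i : Fin 5, tco (fun i => s (k.succAbove i)) i =
      (-1) ^ (k : ℕ) * ∏ i ∈ Finset.univ.erase k, Lagr_u s k i := by
    have he : Finset.univ.erase k = Finset.univ.map (Fin.succAboveEmb k) := by
      ext j
      simp only [Finset.mem_erase, Finset.mem_univ, and_true, Finset.mem_map, true_and,
        Fin.coe_succAboveEmb]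
      constructor
      · intro hj
        exact Fin.exists_succAbove_eq hj
      · rintro ⟨a, rfl⟩
        exact Fin.succAbove_ne k a
    rw [he, Finset.prod_map, Finset.prod_congr rfl fun i _ => Lagr_tco s k i,
      Finset.prod_mul_distrib, Finset.prod_const, Finset.card_univ, Fintype.card_fin]
    have hs : ((-1 : ℝ) ^ (k : ℕ)) ^ 5 = (-1) ^ (k : ℕ) := by
      have hs : ((-1 : ℝ) ^ (k : ℕ)) * ((-1 : ℝ) ^ (k : ℕ)) = 1 := by
        rw [← mul_pow]; norm_num
      calc ((-1 : ℝ) ^ (k : ℕ)) ^ 5 = (((-1 : ℝ) ^ (k : ℕ)) * ((-1 : ℝ) ^ (k : ℕ))) ^ 2 *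
            (-1 : ℝ) ^ (k : ℕ) := by ring
        _ = _ := by rw [hs]; ring
    rw [hs]
    rfl
  rw [hsum, hprod]
  have hs : ((-1 : ℝ) ^ (k : ℕ)) ≠ 0 := pow_ne_zero _ (by norm_num)
  have hp : ∏ i ∈ Finset.univ.erase k, Lagr_u s k i ≠ 0 :=
    Finset.prod_ne_zero_iff.2 fun i hi => hne k i (Finset.ne_of_mem_erase hi)
  field_simp

end Pool.Agent.ChS
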