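import Pool.Agent.ChS.Defs
import Pool.Agent.ChP.Star
import Pool.Agent.ChP.Facet

/-!
# The link of a simplex is a complete simplicial fan

Let `v₀ ∈ σ₀` and let `π : ℝ^n → ℝ^d` be a surjective linear map whose kernel is the span of the
vectors `dev u - dev v₀`, `u ∈ σ₀` (of dimension `σ₀.card - 1 = n - d`).  Put
`p w = π (dev w - dev v₀)` and let `cones` be the (finite, `star_finite`) set of the `τ \ σ₀`,
`σ₀ ⊆ τ ∈ K.faces`.

`indep`: affine independence of `τ`.  `cover`: for `y = π x` apply `local_homeo` to `σ₀` and `x`: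
`∑_{w ∈ τ} c_w dev w = ∑_{w ∈ τ \ σ₀} c_w (dev w - dev v₀) + ∑_{u ∈ σ₀} c_u (dev u - dev v₀)`
when `∑ c_w = 0`; conversely a representation of `y` can be lifted.  `pure`: `exists_top`.
`wall`: `facet` for `F ∪ σ₀` (if `d ≥ 1`).
-/

namespace Pool.Agent.ChS

open Matrix Pool.Agent.ChP
open scoped Pointwise

variable {n : ℕ} (K : AffineTriangulation n)

private theorem LinkFan_lift {v₀ : K.V} {τ : Finset K.V} (hv₀ : v₀ ∈ τ) (e : K.V → ℝ) :
    ∃ c : K.V → ℝ, (∀ v, v ≠ v₀ → c v = e v) ∧ ∑ v ∈ τ, c v = 0 ∧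
      ∑ v ∈ τ, c v • K.dev v = ∑ v ∈ τ, e v • (K.dev v - K.dev v₀) := by
  refine ⟨fun v => e v - if v = v₀ then ∑ u ∈ τ, e u else 0, ?_, ?_, ?_⟩
  · intro v hv
    simp [hv]
  · rw [Finset.sum_sub_distrib, Finset.sum_ite_eq' τ v₀, if_pos hv₀, sub_self]
  · have h1 : ∑ v ∈ τ, (if v = v₀ then ∑ u ∈ τ, e u else 0) • K.dev v =
        (∑ u ∈ τ, e u) • K.dev v₀ := by
      rw [Finset.sum_eq_single v₀]
      · rw [if_pos rfl]
      · intro b _ hb
        rw [if_neg hb, zero_smul]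
      · intro h
        exact absurd hv₀ h
    simp only [sub_smul, smul_sub]
    rw [Finset.sum_sub_distrib, Finset.sum_sub_distrib, h1, Finset.sum_smul]

private theorem LinkFan_indep {σ : Finset K.V} (hσ : σ ∈ K.faces) (c : K.V → ℝ)
    (h0 : ∑ v ∈ σ, c v = 0) (h1 : ∑ v ∈ σ, c v • K.dev v = 0) : ∀ v ∈ σ, c v = 0 := by
  intro v hv
  have h := (affineIndependent_iff.1 (K.indep σ hσ)) Finset.univ (fun e => c e) (by
    rw [← h0, ← Finset.sum_coe_sort σ c]) (by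
    rw [← h1, ← Finset.sum_coe_sort σ (fun v => c v • K.dev v)])
  exact h ⟨v, hv⟩ (Finset.mem_univ _)

private theorem LinkFan_proj {σ₀ : Finset K.V} (h : σ₀ ∈ K.faces) {d : ℕ}
    (hd : σ₀.card + d = n + 1) {v₀ : K.V} (hv₀ : v₀ ∈ σ₀) :
    ∃ π : (Fin n → ℝ) →ₗ[ℝ] (Fin d → ℝ), Function.Surjective π ∧
      ∀ x, π x = 0 ↔ ∃ e : K.V → ℝ, x = ∑ v ∈ σ₀, e v • (K.dev v - K.dev v₀) := by
  have hcard : Fintype.card σ₀ = (σ₀.card - 1) + 1 := by
    rw [Fintype.card_coe]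
    have := Finset.card_pos.2 ⟨v₀, hv₀⟩
    omega
  have h1 := (K.indep σ₀ h).finrank_vectorSpan hcard
  have h2 := Submodule.finrank_quotient_add_finrank
    (vectorSpan ℝ (Set.range fun v : σ₀ => K.dev v))
  rw [h1, Module.finrank_fin_fun] at h2
  have h3 : Module.finrank ℝ ((Fin n → ℝ) ⧸ vectorSpan ℝ (Set.range fun v : σ₀ => K.dev v)) =
      Module.finrank ℝ (Fin d → ℝ) := by
    rw [Module.finrank_fin_fun]
    have := Finset.card_pos.2 ⟨v₀, hv₀⟩
    omega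
  obtain ⟨E⟩ := FiniteDimensional.nonempty_linearEquiv_of_finrank_eq h3
  refine ⟨E.toLinearMap ∘ₗ Submodule.mkQ _, ?_, ?_⟩
  · exact E.surjective.comp (Submodule.mkQ_surjective _)
  · intro x
    have h4 : (E.toLinearMap ∘ₗ Submodule.mkQ _) x = 0 ↔
        x ∈ vectorSpan ℝ (Set.range fun v : σ₀ => K.dev v) := by
      rw [LinearMap.comp_apply, LinearEquiv.coe_coe, LinearEquiv.map_eq_zero_iff,
        Submodule.mkQ_apply, Submodule.Quotient.mk_eq_zero]
    rw [h4]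
    constructor
    · intro hx
      have hmem : K.dev v₀ ∈ Set.range fun v : σ₀ => K.dev v := ⟨⟨v₀, hv₀⟩, rfl⟩
      rw [vectorSpan_eq_span_vsub_set_right ℝ hmem] at hx
      rw [← Set.range_comp] at hx
      rw [Submodule.mem_span_range_iff_exists_fun] at hx
      obtain ⟨c, hc⟩ := hx
      refine ⟨fun v => if hv : v ∈ σ₀ then c ⟨v, hv⟩ else 0, ?_⟩
      rw [← hc, ← Finset.sum_coe_sort σ₀]
      refine Finset.sum_congr rfl fun v _ => ?_
      simp
    · rintro ⟨e, rfl⟩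
      refine Submodule.sum_mem _ fun v hv => Submodule.smul_mem _ _ ?_
      exact vsub_mem_vectorSpan ℝ ⟨⟨v, hv⟩, rfl⟩ ⟨⟨v₀, hv₀⟩, rfl⟩

theorem exists_link_fan {σ₀ : Finset K.V} (h : σ₀ ∈ K.faces) {d : ℕ} (hd : σ₀.card + d = n + 1) :
    ∃ (cones : Finset (Finset K.V)) (p : K.V → Fin d → ℝ), IsFan cones p ∧
      ∀ τ : Finset K.V, τ ∈ cones ↔ Disjoint τ σ₀ ∧ τ ∪ σ₀ ∈ K.faces := by
  obtain ⟨v₀, hv₀⟩ := K.nonempty_of_mem σ₀ h
  obtain ⟨π, hπ, hker⟩ := LinkFan_proj K h hd hv₀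
  obtain ⟨p, hp⟩ : ∃ p : K.V → Fin d → ℝ, ∀ w, p w = π (K.dev w - K.dev v₀) := ⟨_, fun _ => rfl⟩
  have hp0 : ∀ u ∈ σ₀, p u = 0 := by
    intro u hu
    rw [hp, hker]
    refine ⟨fun v => if v = u then 1 else 0, ?_⟩
    rw [Finset.sum_eq_single u]
    · simp
    · intro b _ hb
      simp [hb]
    · intro h'
      exact absurd hu h'
  -- projection of a sum
  have hsum : ∀ (τ : Finset K.V) (e : K.V → ℝ), Disjoint τ σ₀ →
      π (∑ v ∈ τ ∪ σ₀, e v • (K.dev v - K.dev v₀)) = ∑ v ∈ τ, e v • p v := by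
    intro τ e hτ
    rw [map_sum, Finset.sum_union hτ]
    have h1 : ∑ v ∈ σ₀, π (e v • (K.dev v - K.dev v₀)) = 0 := by
      refine Finset.sum_eq_zero fun v hv => ?_
      rw [map_smul, ← hp, hp0 v hv, smul_zero]
    rw [h1, add_zero]
    refine Finset.sum_congr rfl fun v _ => ?_
    rw [map_smul, hp]
  -- lifting of a combination
  have hlift : ∀ (τ : Finset K.V) (c : K.V → ℝ) (x : Fin n → ℝ), Disjoint τ σ₀ →
      ∑ v ∈ τ, c v • p v = π x → ∃ e : K.V → ℝ, (∀ v ∈ τ, e v = c v) ∧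
        ∑ v ∈ τ ∪ σ₀, e v = 0 ∧ ∑ v ∈ τ ∪ σ₀, e v • K.dev v = x := by
    intro τ c x hτ hx
    have h1 : π (x - ∑ v ∈ τ, c v • (K.dev v - K.dev v₀)) = 0 := by
      rw [map_sub, ← hx, map_sum, sub_eq_zero]
      refine Finset.sum_congr rfl fun v _ => ?_
      rw [map_smul, hp]
    obtain ⟨g, hg⟩ := (hker _).1 h1
    have hmem : v₀ ∈ τ ∪ σ₀ := Finset.mem_union_right _ hv₀
    obtain ⟨e, he1, he2, he3⟩ := LinkFan_lift K hmem (fun v => if v ∈ σ₀ then g v else c v)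
    refine ⟨e, ?_, he2, ?_⟩
    · intro v hv
      have h2 : v ∉ σ₀ := Finset.disjoint_left.1 hτ hv
      rw [he1 v (fun h3 => h2 (h3 ▸ hv₀)), if_neg h2]
    · rw [he3, Finset.sum_union hτ]
      have h2 : ∑ v ∈ τ, (if v ∈ σ₀ then g v else c v) • (K.dev v - K.dev v₀) =
          ∑ v ∈ τ, c v • (K.dev v - K.dev v₀) := by
        refine Finset.sum_congr rfl fun v hv => ?_
        rw [if_neg (Finset.disjoint_left.1 hτ hv)]
      have h3 : ∑ v ∈ σ₀, (if v ∈ σ₀ then g v else c v) • (K.dev v - K.dev v₀) =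
          ∑ v ∈ σ₀, g v • (K.dev v - K.dev v₀) := by
        refine Finset.sum_congr rfl fun v hv => ?_
        rw [if_pos hv]
      rw [h2, h3, ← hg]
      abel
  have hfin := K.star_finite h
  obtain ⟨cones, hcones⟩ : ∃ cones : Finset (Finset K.V), ∀ τ : Finset K.V,
      τ ∈ cones ↔ Disjoint τ σ₀ ∧ τ ∪ σ₀ ∈ K.faces := by
    refine ⟨hfin.toFinset.image (fun τ => τ \ σ₀), fun τ => ?_⟩
    rw [Finset.mem_image]
    constructor
    · rintro ⟨τ', h1, rfl⟩
      rw [Set.Finite.mem_toFinset] at h1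
      refine ⟨Finset.sdiff_disjoint, ?_⟩
      rw [Finset.sdiff_union_of_subset h1.2]
      exact h1.1
    · rintro ⟨h1, h2⟩
      refine ⟨τ ∪ σ₀, ?_, ?_⟩
      · rw [Set.Finite.mem_toFinset]
        exact ⟨h2, Finset.subset_union_right⟩
      · rw [Finset.union_sdiff_cancel_right h1]
  refine ⟨cones, p, ⟨?_, ?_, ?_, ?_, ?_⟩, hcones⟩
  · -- down
    intro σ hσ τ hτ
    rw [hcones] at hσ ⊢
    refine ⟨hσ.1.mono_left hτ, K.down_closed _ hσ.2 _ (Finset.union_subset_union_left hτ) ?_⟩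
    exact ⟨v₀, Finset.mem_union_right _ hv₀⟩
  · -- independence
    intro σ hσ
    rw [hcones] at hσ
    rw [Fintype.linearIndependent_iff]
    intro g hg i
    have h1 : ∑ v ∈ σ, (if hv : v ∈ σ then g ⟨v, hv⟩ else 0) • p v = π 0 := by
      rw [map_zero, ← hg, ← Finset.sum_coe_sort σ]
      refine Finset.sum_congr rfl fun v _ => ?_
      simp
    obtain ⟨e, he1, he2, he3⟩ := hlift σ _ 0 hσ.1 h1
    have h2 := LinkFan_indep K hσ.2 e he2 he3 i (Finset.mem_union_left _ i.2)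
    rw [he1 i i.2] at h2
    simpa using h2
  · -- cover
    intro x
    obtain ⟨x', rfl⟩ := hπ x
    obtain ⟨τ, ⟨hτ, hsub, c, hc0, hcpos, hcx⟩, huniq⟩ := K.local_homeo σ₀ h x'
    refine ⟨τ \ σ₀, ⟨?_, c, hcpos, ?_⟩, ?_⟩
    · rw [hcones]
      refine ⟨Finset.sdiff_disjoint, ?_⟩
      rw [Finset.sdiff_union_of_subset hsub]
      exact hτ
    · rw [← hsum _ _ Finset.sdiff_disjoint, Finset.sdiff_union_of_subset hsub]
      congr 1
      simp only [smul_sub]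
      rw [Finset.sum_sub_distrib, ← Finset.sum_smul, hc0, zero_smul, sub_zero, hcx]
    · rintro τ' ⟨hτ', c', hc'pos, hc'x⟩
      rw [hcones] at hτ'
      obtain ⟨e, he1, he2, he3⟩ := hlift τ' c' x' hτ'.1 hc'x
      have h1 : τ' ∪ σ₀ = τ := by
        refine huniq _ ⟨hτ'.2, Finset.subset_union_right, e, he2, ?_, he3⟩
        rw [Finset.union_sdiff_cancel_right hτ'.1]
        intro v hv
        rw [he1 v hv]
        exact hc'pos v hv
      rw [← h1, Finset.union_sdiff_cancel_right hτ'.1]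
  · -- pure
    intro σ hσ
    rw [hcones] at hσ
    obtain ⟨τ, hτ, hsub, hcard⟩ := K.exists_top hσ.2
    have hsub' : σ₀ ⊆ τ := Finset.subset_union_right.trans hsub
    refine ⟨τ \ σ₀, ?_, ?_, ?_⟩
    · rw [hcones]
      refine ⟨Finset.sdiff_disjoint, ?_⟩
      rw [Finset.sdiff_union_of_subset hsub']
      exact hτ
    · rw [Finset.subset_sdiff]
      exact ⟨Finset.subset_union_left.trans hsub, hσ.1⟩
    · rw [Finset.card_sdiff_of_subset hsub']
      omega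
  · -- wall
    intro F hF hFd
    rw [hcones] at hF
    have hc : (F ∪ σ₀).card = n := by
      rw [Finset.card_union_of_disjoint hF.1]
      omega
    obtain ⟨w₁, w₂, hw₁, hw₂, hne, hf₁, hf₂, huniq, α, β, c, hα, hβ, hc1, hc2⟩ :=
      K.facet hF.2 hc
    rw [Finset.mem_union, not_or] at hw₁ hw₂
    have hins : ∀ w, w ∉ σ₀ → (insert w F ∈ cones ↔ insert w (F ∪ σ₀) ∈ K.faces) := by
      intro w hw
      rw [hcones, Finset.insert_union, Finset.disjoint_insert_left]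
      exact ⟨fun h' => h'.2, fun h' => ⟨⟨hw, hF.1⟩, h'⟩⟩
    refine ⟨w₁, w₂, hw₁.1, hw₂.1, hne, (hins w₁ hw₁.2).2 hf₁, (hins w₂ hw₂.2).2 hf₂, ?_, α, β, c,
      hα, hβ, ?_⟩
    · intro w hw hwc
      have h1 : w ∉ σ₀ := by
        rw [hcones, Finset.disjoint_insert_left] at hwc
        exact hwc.1.1
      refine huniq w ?_ ((hins w h1).1 hwc)
      rw [Finset.mem_union, not_or]
      exact ⟨hw, h1⟩
    · rw [← hsum F c hF.1, hp, hp, ← map_smul, ← map_smul, ← map_add]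
      congr 1
      simp only [smul_sub]
      rw [Finset.sum_sub_distrib, ← Finset.sum_smul, hc1, ← hc2, add_smul]
      abel

end Pool.Agent.ChS
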