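import Pool.Agent.ChP.IndexZero
import Pool.Agent.ChP.LocIdx
import Pool.Agent.ChP.Prism

/-!
# The Euler characteristic as a sum of averaged Euler cocycles

Let `w` be as in `exists_generic` and `μ_r` the equivariant densities concentrated near `sec w`
constructed in the proof of `index_zero` (`ChP/IndexZero.lean`, with `κ = 1`; copy that proof, the
lemmas there are private).  By `CC_indep` and `wcycle_interval` the sums
`∑ mor t * CC (μ_r ∘ t)` are equal to `∑ mor t * CC (μ ∘ t)` for all `r > 0`, and they tend to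
`∑ mor t * eps (sec w ∘ t)` (`tendsto_CC_sg`, `zero_notMem_convexHull`).  By `local_index` (sum over
`σ ∈ R`; `chainReps` is the disjoint union of the `chainsFrom σ`) and `eulerChar_eq` this is
`∑_{σ ∈ R} (-1)^(n + 1 - σ.card) = (-1)^n * χ` (`card_le`).
-/

namespace Pool.Agent.ChS

open MeasureTheory Matrix Pool.Agent.ChP
open Pool.Agent.ChP.AffineTriangulation
open scoped Pointwise

variable {n : ℕ} (K : AffineTriangulation n)

private theorem ChiCC_section {R : Finset (Finset K.V)} (hR : K.Reps R) :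
    ∃ g : K.Iv → K.Γ, ∀ (γ : K.Γ) (x : K.Iv), g (γ • x) = γ * g x := by
  classical
  choose p hp huniq using hR.2
  refine ⟨fun x => (p x.1.2 x.2.2.2).1, fun γ x => ?_⟩
  have h1 := hp x.1.2 x.2.2.2
  have h2 := huniq (γ • x).1.2 (γ • x).2.2.2
    (γ * (p x.1.2 x.2.2.2).1, (p x.1.2 x.2.2.2).2) ⟨h1.1, by
      show (γ * (p x.1.2 x.2.2.2).1) • (p x.1.2 x.2.2.2).2 = (γ • x).1.2
      rw [mul_smul, h1.2, K.smul_upper]⟩
  exact (congrArg Prod.fst h2).symm

private theorem ChiCC_index (hn : 0 < n) {R : Finset (Finset K.V)} (hR : K.Reps R)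
    (w : Finset K.V → Fin n → ℝ)
    (hw : ∀ (γ : K.Γ), ∀ σ ∈ K.faces, w (γ • σ) = K.lin γ *ᵥ w σ)
    (hg : ∀ σ ∈ K.faces, K.Generic w σ)
    (μ : K.Iv → (Fin n → ℝ) → ℝ) (hi : ∀ x, Integrable (μ x)) (h1 : ∀ x, ∫ y, μ x y = 1)
    (he : ∀ (γ : K.Γ) (x : K.Iv), μ (γ • x) = push (K.lin γ) (μ x)) :
    ∑ t ∈ K.chainReps R, K.mor t * CC (fun i => μ (t i)) =
      ∑ t ∈ K.chainReps R, K.mor t * eps (fun i => K.sec w (t i)) := by
  classical
  obtain ⟨g, hgeq⟩ := ChiCC_section K hR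
  have hdet : ∀ γ, (K.lin γ).det ≠ 0 := K.det_lin_ne_zero
  obtain ⟨a, ha⟩ : ∃ a : K.Iv → Fin n → ℝ, a = fun x => K.lin (g x)⁻¹ *ᵥ K.sec w x := ⟨_, rfl⟩
  have haeq : ∀ (γ : K.Γ) (x : K.Iv), a (γ • x) = a x := by
    intro γ x
    rw [ha]
    show K.lin (g (γ • x))⁻¹ *ᵥ K.sec w (γ • x) = K.lin (g x)⁻¹ *ᵥ K.sec w x
    rw [hgeq, K.sec_smul hw, Matrix.mulVec_mulVec, ← map_mul]
    congr 2
    group
  have hAa : ∀ x, K.lin (g x) *ᵥ a x = K.sec w x := by
    intro x
    rw [ha]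
    show K.lin (g x) *ᵥ (K.lin (g x)⁻¹ *ᵥ K.sec w x) = K.sec w x
    rw [Matrix.mulVec_mulVec, ← map_mul, mul_inv_cancel, map_one, Matrix.one_mulVec]
  have hcyc := K.wcycle_interval hn hR
  have hsum : ∀ r : ℝ, 0 < r → ∑ k : {t // t ∈ K.chainReps R}, K.mor k *
      CC (fun i => push (K.lin (g (k.1 i))) (sg r (a (k.1 i)))) =
      ∑ k : {t // t ∈ K.chainReps R}, K.mor k * CC (fun i => μ (k.1 i)) := by
    intro r hr
    refine CC_indep K.lin
      (fun k : {t // t ∈ K.chainReps R} => (k : Fin (n + 1) → K.Iv)) (fun k => K.mor k) hcyc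
      (fun x => push (K.lin (g x)) (sg r (a x))) μ
      (fun x => integrable_push (hdet _) (integrable_sg hr _)) hi
      (fun x => by rw [integral_push (hdet _), integral_sg hr]) h1 (fun γ x => ?_) he
    rw [hgeq, haeq, map_mul, push_push]
  -- the limit
  have hlim : Filter.Tendsto (fun r : ℝ => ∑ k : {t // t ∈ K.chainReps R}, K.mor k *
      CC (fun i => push (K.lin (g (k.1 i))) (sg r (a (k.1 i))))) (nhdsWithin 0 (Set.Ioi 0))
      (nhds (∑ k : {t // t ∈ K.chainReps R}, K.mor k * eps (fun i => K.sec w (k.1 i)))) := by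
    refine tendsto_finsetSum _ fun k _ => ?_
    have hk := k.2
    unfold chainReps at hk
    rw [Finset.mem_biUnion] at hk
    obtain ⟨σ, hσ, hk⟩ := hk
    rw [K.mem_chainsFrom] at hk
    have hgen : K.Generic w (k.1 0).1.1 := by
      rw [hk.2]
      exact hg σ (hR.1 σ hσ)
    have hvec : (fun i => K.lin (g (k.1 i)) *ᵥ a (k.1 i)) =
        fun i => K.sec w (k.1 i) := by
      funext i
      rw [hAa]
    have hs : ∀ j, (0 : Fin n → ℝ) ∉
        convexHull ℝ ((fun i => K.lin (g (k.1 i)) *ᵥ a (k.1 i)) '' {i | i ≠ j}) := by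
      intro j
      rw [hvec]
      exact K.zero_notMem_convexHull hk.1 hgen j
    have ht := tendsto_CC_sg (fun i => K.lin (g (k.1 i))) (fun i => hdet _)
      (fun i => a (k.1 i)) hs
    rw [hvec] at ht
    exact ht.const_mul _
  have hconst : Filter.Tendsto (fun r : ℝ => ∑ k : {t // t ∈ K.chainReps R}, K.mor k *
      CC (fun i => push (K.lin (g (k.1 i))) (sg r (a (k.1 i))))) (nhdsWithin 0 (Set.Ioi 0))
      (nhds (∑ k : {t // t ∈ K.chainReps R}, K.mor k * CC (fun i => μ (k.1 i)))) := by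
    refine tendsto_const_nhds.congr' ?_
    filter_upwards [self_mem_nhdsWithin] with r hr
    exact (hsum r hr).symm
  have hfin := tendsto_nhds_unique hconst hlim
  rw [← Finset.sum_coe_sort (K.chainReps R)
    (fun t => K.mor t * eps (fun i => K.sec w (t i))),
    ← Finset.sum_coe_sort (K.chainReps R)
    (fun t => K.mor t * CC (fun i => μ (t i)))]
  exact hfin

theorem sum_CC_eq_eulerChar (hn : 0 < n) {R : Finset (Finset K.V)} (hR : K.Reps R)
    (μ : K.Iv → (Fin n → ℝ) → ℝ) (hi : ∀ x, Integrable (μ x)) (h1 : ∀ x, ∫ y, μ x y = 1)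
    (he : ∀ (γ : K.Γ) (x : K.Iv), μ (γ • x) = push (K.lin γ) (μ x)) :
    ∑ t ∈ K.chainReps R, K.mor t * CC (fun i => μ (t i)) = (-1) ^ n * (K.eulerChar : ℝ) := by
  classical
  obtain ⟨w, hw, hg⟩ := K.exists_generic hR
  rw [ChiCC_index K hn hR w hw hg μ hi h1 he]
  have hdisj : ∀ σ ∈ R, ∀ τ ∈ R, σ ≠ τ → Disjoint (K.chainsFrom σ) (K.chainsFrom τ) := by
    intro σ _ τ _ hne
    rw [Finset.disjoint_left]
    intro t ht ht'
    rw [K.mem_chainsFrom] at ht ht'
    exact hne (ht.2.symm.trans ht'.2)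
  rw [chainReps, Finset.sum_biUnion hdisj,
    Finset.sum_congr rfl (fun σ hσ => K.local_index (hR.1 σ hσ) (hg σ (hR.1 σ hσ)))]
  rw [K.eulerChar_eq hR]
  push_cast
  rw [Finset.mul_sum]
  refine Finset.sum_congr rfl fun σ hσ => ?_
  have hc := K.card_le (hR.1 σ hσ)
  rw [← pow_add]
  have h2 : (-1 : ℝ) ^ (n + (σ.card + 1)) * (-1) ^ (n + 1 - σ.card) = 1 := by
    rw [← pow_add]
    have : n + (σ.card + 1) + (n + 1 - σ.card) = 2 * (n + 1) := by omega
    rw [this, pow_mul]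
    simp
  have h3 : (-1 : ℝ) ^ (n + (σ.card + 1)) * (-1) ^ (n + (σ.card + 1)) = 1 := by
    rw [← pow_add, ← two_mul, pow_mul]
    simp
  have h4 : (-1 : ℝ) ^ (n + (σ.card + 1)) ≠ 0 := by simp
  exact mul_left_cancel₀ h4 (h2.trans h3.symm)

end Pool.Agent.ChS
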