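import Pool.Agent.ChS.ChamBasic
import Pool.Agent.ChP.WL

/-!
# From chains of intervals to chambers

Let `t` be a chain of intervals, `t_i = (L_i, U_i)`.  The labels of `lam o (t_i)` (the minimal
labels of the decreasing sets `L_i ⊆ U_n`) are increasing.  If they are all different then every `L_(i+1)`
is `L_i` minus its element of minimal label, so `L_0` has `n + 1` elements (`IsChain.card_last`),
`L_0 = U_0 = U_i` for all `i`, and with `t'_i = lam o (t_i)`, `L_i = {t'_i, ..., t'_n}`: this is exactly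
one chain for every ordered chamber `t'`, and it lies in `chainReps R` iff `image t' ∈ R`.  In this
case `mor t = orr t'`: `pos (t_i) - pos (t_0) = b_{L_i} - b_{L_0}`, and the matrix of the barycentric
coordinates of `b_{L_0}, ..., b_{L_n}` with respect to `t'_0, ..., t'_n` is triangular with positive
diagonal entries `1 / (n + 1 - i)`.
-/

namespace Pool.Agent.ChS

open Matrix Pool.Agent.ChP
open scoped Pointwise

variable {n : ℕ} {K : AffineTriangulation n}

private theorem LamSum_detD {n : ℕ} (x : Fin (n + 1) → Fin n → ℝ) :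
    Matrix.det (Matrix.of fun i => (Fin.cons 1 (x i) : Fin (n + 1) → ℝ)) =
      Matrix.det (Matrix.of fun a : Fin n => x a.succ - x 0) := by
  have h1 : Matrix.det (Matrix.of fun i => (Fin.cons 1 (x i) : Fin (n + 1) → ℝ)) =
      Matrix.det (Matrix.of fun i : Fin (n + 1) =>
        if i = 0 then (Fin.cons 1 (x 0) : Fin (n + 1) → ℝ) else Fin.cons 0 (x i - x 0)) := by
    refine Matrix.det_eq_of_forall_row_eq_smul_add_const (fun i => if i = 0 then 0 else 1) 0
      (if_pos rfl) ?_
    intro i j
    by_cases hi : i = 0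
    · subst hi
      simp
    · refine Fin.cases ?_ ?_ j
      · simp [hi]
      · intro j
        simp [hi]
  rw [h1, Matrix.det_succ_column_zero, Fin.sum_univ_succ, Finset.sum_eq_zero, add_zero]
  · have h2 : ((Matrix.of fun i : Fin (n + 1) =>
        if i = 0 then (Fin.cons 1 (x 0) : Fin (n + 1) → ℝ) else Fin.cons 0 (x i - x 0)).submatrix
        (0 : Fin (n + 1)).succAbove Fin.succ) = Matrix.of fun a : Fin n => x a.succ - x 0 := by
      ext a b
      simp [Fin.succ_ne_zero]
    rw [h2]
    simp
  · intro i _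
    simp [Fin.succ_ne_zero]

theorem lam_mem (o : Lab K) (x : K.Iv) : lam o x ∈ x.1.1 :=
  (Finset.exists_min_image x.1.1 o.lab x.2.1).choose_spec.1

theorem lam_le (o : Lab K) (x : K.Iv) {v : K.V} (hv : v ∈ x.1.1) : o.lab (lam o x) ≤ o.lab v :=
  (Finset.exists_min_image x.1.1 o.lab x.2.1).choose_spec.2 v hv

private theorem LamSum_lower (x : K.Iv) : x.1.1 ∈ K.faces :=
  K.down_closed _ x.2.2.2 _ x.2.2.1 x.2.1

private theorem LamSum_uniq (o : Lab K) (x : K.Iv) {v : K.V} (hv : v ∈ x.1.1)
    (h : ∀ u ∈ x.1.1, o.lab v ≤ o.lab u) : lam o x = v := by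
  have h1 := lam_mem o x
  exact o.inj _ (LamSum_lower x) h1 hv (le_antisymm (lam_le o x hv) (h _ h1))

theorem lam_smul (o : Lab K) (γ : K.Γ) (x : K.Iv) : lam o (γ • x) = γ • lam o x := by
  apply LamSum_uniq
  · rw [K.smul_lower]
    exact Finset.smul_mem_smul_finset (lam_mem o x)
  · intro u hu
    rw [K.smul_lower, Finset.mem_smul_finset] at hu
    obtain ⟨v, hv, rfl⟩ := hu
    rw [o.smul, o.smul]
    exact lam_le o x hv

private theorem LamSum_mem {R : Finset (Finset K.V)} {t : Fin (n + 1) → K.Iv} :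
    t ∈ K.chainReps R ↔ K.IsChain t ∧ (t 0).1.1 ∈ R := by
  classical
  unfold AffineTriangulation.chainReps
  rw [Finset.mem_biUnion]
  constructor
  · rintro ⟨σ, hσ, h⟩
    obtain ⟨h1, h2⟩ := K.mem_chainsFrom.1 h
    exact ⟨h1, h2 ▸ hσ⟩
  · rintro ⟨h1, h2⟩
    exact ⟨_, h2, K.mem_chainsFrom.2 ⟨h1, rfl⟩⟩

private theorem LamSum_mono (o : Lab K) {t : Fin (n + 1) → K.Iv} (ht : K.IsChain t) :
    Monotone (fun i => o.lab (lam o (t i))) := by
  intro i j hij
  exact lam_le o _ (ht.anti i j hij (lam_mem o (t j)))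

/-- the number of indices at least `i` -/
private theorem LamSum_card (i : Fin (n + 1)) :
    (Finset.univ.filter fun j : Fin (n + 1) => i ≤ j).card = n + 1 - i := by
  have : (Finset.univ.filter fun j : Fin (n + 1) => i ≤ j) = Finset.Ici i := by
    ext j
    simp
  rw [this, Fin.card_Ici]

/-- the chain of a chamber -/
private theorem LamSum_struct (o : Lab K) {t : Fin (n + 1) → K.Iv} (ht : K.IsChain t)
    (hinj : Function.Injective fun i => lam o (t i)) :
    (∀ i, (t i).1.2 = Finset.univ.image fun i => lam o (t i)) ∧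
    (∀ i, (t i).1.1 = (Finset.univ.filter fun j => i ≤ j).image fun i => lam o (t i)) := by
  classical
  have hc : (Finset.univ.image fun i => lam o (t i)).card = n + 1 := by
    rw [Finset.card_image_of_injective _ hinj, Finset.card_univ, Fintype.card_fin]
  have hsub : (Finset.univ.image fun i => lam o (t i)) ⊆ (t 0).1.1 := by
    intro v hv
    rw [Finset.mem_image] at hv
    obtain ⟨i, -, rfl⟩ := hv
    exact ht.anti 0 i (Fin.zero_le i) (lam_mem o (t i))
  have hU : ∀ i, (t i).1.2 = Finset.univ.image fun i => lam o (t i) := by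
    intro i
    symm
    apply Finset.eq_of_subset_of_card_le
    · intro v hv
      have h1 := hsub hv
      rw [ht.lower_zero] at h1
      exact ht.mono 0 i (Fin.zero_le i) h1
    · rw [hc]
      exact K.card_le (t i).2.2.2
  refine ⟨hU, fun i => ?_⟩
  symm
  apply Finset.eq_of_subset_of_card_le
  · intro v hv
    rw [Finset.mem_image] at hv
    obtain ⟨j, hj, rfl⟩ := hv
    rw [Finset.mem_filter] at hj
    exact ht.anti i j hj.2 (lam_mem o (t j))
  · rw [Finset.card_image_of_injective _ hinj, LamSum_card]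
    have h1 := ht.card i
    rw [hU, hc] at h1
    omega

private theorem LamSum_cham (o : Lab K) {t : Fin (n + 1) → K.Iv} (ht : K.IsChain t)
    (hinj : Function.Injective fun i => lam o (t i)) :
    Cham o (fun i => lam o (t i)) ∧ Finset.univ.image (fun i => lam o (t i)) = (t 0).1.1 := by
  have h1 : Finset.univ.image (fun i => lam o (t i)) = (t 0).1.1 := by
    rw [(LamSum_struct o ht hinj).2 0]
    congr 1
    ext j
    simp
  refine ⟨⟨?_, ?_⟩, h1⟩
  · refine (LamSum_mono o ht).strictMono_of_injective ?_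
    intro i j hij
    apply hinj
    refine o.inj _ (LamSum_lower (t 0)) ?_ ?_ hij
    · exact ht.anti 0 i (Fin.zero_le i) (lam_mem o (t i))
    · exact ht.anti 0 j (Fin.zero_le j) (lam_mem o (t j))
  · rw [h1]
    exact LamSum_lower (t 0)

/-- the intervals of a chamber -/
private def LamSum_ch (o : Lab K) (t : Fin (n + 1) → K.V) (ht : Cham o t) (i : Fin (n + 1)) :
    K.Iv :=
  ⟨((Finset.univ.filter fun j => i ≤ j).image t, Finset.univ.image t),
    ⟨t i, Finset.mem_image_of_mem t (by simp)⟩,
    Finset.image_subset_image (Finset.filter_subset _ _), ht.2⟩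

private theorem LamSum_inj {o : Lab K} {t : Fin (n + 1) → K.V} (ht : Cham o t) :
    Function.Injective t := by
  intro i j hij
  exact ht.1.injective (congrArg o.lab hij)

private theorem LamSum_isChain (o : Lab K) (t : Fin (n + 1) → K.V) (ht : Cham o t) :
    K.IsChain (LamSum_ch o t ht) := by
  have hinj := LamSum_inj ht
  refine ⟨fun i => ?_, fun i j hij => ?_, fun i j _ => le_rfl⟩
  · show (Finset.univ.image t).card = ((Finset.univ.filter fun j => i ≤ j).image t).card + i
    rw [Finset.card_image_of_injective _ hinj, Finset.card_image_of_injective _ hinj,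
      LamSum_card, Finset.card_univ, Fintype.card_fin]
    have := i.2
    omega
  · apply Finset.image_subset_image
    intro k hk
    rw [Finset.mem_filter] at hk ⊢
    exact ⟨hk.1, hij.trans hk.2⟩

private theorem LamSum_lam (o : Lab K) (t : Fin (n + 1) → K.V) (ht : Cham o t)
    (i : Fin (n + 1)) : lam o (LamSum_ch o t ht i) = t i := by
  apply LamSum_uniq
  · exact Finset.mem_image_of_mem t (by simp)
  · intro u hu
    have hu' : u ∈ (Finset.univ.filter fun j => i ≤ j).image t := hu
    rw [Finset.mem_image] at hu'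
    obtain ⟨j, hj, rfl⟩ := hu'
    rw [Finset.mem_filter] at hj
    exact ht.1.monotone hj.2

private theorem LamSum_bary (t : Fin (n + 1) → K.V) (ht : Function.Injective t)
    (i : Fin (n + 1)) :
    K.bary ((Finset.univ.filter fun j => i ≤ j).image t) =
      ∑ j, (if i ≤ j then ((n + 1 - i : ℕ) : ℝ)⁻¹ else 0) • K.dev (t j) := by
  unfold AffineTriangulation.bary
  rw [Finset.card_image_of_injective _ ht, LamSum_card, Finset.sum_image (fun a _ b _ h => ht h),
    Finset.smul_sum, Finset.sum_filter]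
  refine Finset.sum_congr rfl fun j _ => ?_
  by_cases h : i ≤ j
  · rw [if_pos h, if_pos h]
  · rw [if_neg h, if_neg h, zero_smul]

private theorem LamSum_mor (o : Lab K) {t : Fin (n + 1) → K.Iv} (ht : K.IsChain t)
    (hinj : Function.Injective fun i => lam o (t i)) :
    K.mor t = orr K (fun i => lam o (t i)) := by
  classical
  obtain ⟨hU, hL⟩ := LamSum_struct o ht hinj
  set s : Fin (n + 1) → K.V := fun i => lam o (t i) with hs
  have h1 : (Matrix.of fun a : Fin n => K.pos (t a.succ) - K.pos (t 0)) =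
      Matrix.of fun a : Fin n => K.bary (t a.succ).1.1 - K.bary (t 0).1.1 := by
    congr 1
    funext a
    unfold AffineTriangulation.pos
    rw [hU a.succ, hU 0]
    abel
  have h2 : ∀ i, K.bary (t i).1.1 =
      ∑ j, (if i ≤ j then ((n + 1 - i : ℕ) : ℝ)⁻¹ else 0) • K.dev (s j) := by
    intro i
    rw [hL i]
    exact LamSum_bary s hinj i
  set M : Matrix (Fin (n + 1)) (Fin (n + 1)) ℝ :=
    Matrix.of fun i j => if i ≤ j then ((n + 1 - i : ℕ) : ℝ)⁻¹ else 0 with hM
  have hMdet : 0 < M.det := by
    rw [Matrix.det_of_upperTriangular]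
    · refine Finset.prod_pos fun i _ => ?_
      rw [hM, Matrix.of_apply, if_pos le_rfl]
      have := i.2
      have h3 : 0 < n + 1 - (i : ℕ) := by omega
      exact inv_pos.2 (by exact_mod_cast h3)
    · intro i j hij
      rw [hM, Matrix.of_apply, if_neg]
      exact not_le.2 hij
  have hrow : ∀ i, ∑ j, M i j = 1 := by
    intro i
    have h3 : ∑ j, M i j = ∑ j ∈ Finset.univ.filter (fun j : Fin (n + 1) => i ≤ j),
        ((n + 1 - i : ℕ) : ℝ)⁻¹ := by
      rw [Finset.sum_filter]
      rfl
    rw [h3, Finset.sum_const, LamSum_card, nsmul_eq_mul]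
    have := i.2
    have h4 : 0 < n + 1 - (i : ℕ) := by omega
    have h5 : ((n + 1 - i : ℕ) : ℝ) ≠ 0 := by exact_mod_cast h4.ne'
    exact mul_inv_cancel₀ h5
  have h3 : (Matrix.of fun i => (Fin.cons 1 (K.bary (t i).1.1) : Fin (n + 1) → ℝ)) =
      M * (Matrix.of fun i => (Fin.cons 1 (K.dev (s i)) : Fin (n + 1) → ℝ)) := by
    ext i b
    rw [Matrix.mul_apply]
    refine Fin.cases ?_ (fun b => ?_) b
    · simp only [Matrix.of_apply, Fin.cons_zero, mul_one]
      exact (hrow i).symm
    · simp only [Matrix.of_apply, Fin.cons_succ]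
      rw [h2 i, Finset.sum_apply]
      rfl
  have h4 := congrArg Matrix.det h3
  rw [Matrix.det_mul, LamSum_detD, LamSum_detD] at h4
  unfold AffineTriangulation.mor orr
  rw [h1, h4]
  rcases lt_trichotomy (Matrix.det (Matrix.of fun a : Fin n => K.dev (s a.succ) - K.dev (s 0))) 0
    with h | h | h
  · rw [Real.sign_of_neg h, Real.sign_of_neg (mul_neg_of_pos_of_neg hMdet h)]
  · rw [h, mul_zero]
  · rw [Real.sign_of_pos h, Real.sign_of_pos (mul_pos hMdet h)]

theorem sum_lam (o : Lab K) {R : Finset (Finset K.V)} (hR : K.Reps R)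
    (Ψ : (Fin (n + 1) → K.V) → ℝ)
    (hΨ : ∀ t : Fin (n + 1) → K.V, (∃ σ ∈ K.faces, ∀ i, t i ∈ σ) →
      Monotone (fun i => o.lab (t i)) → ¬ Function.Injective t → Ψ t = 0) :
    ∑ t ∈ K.chainReps R, K.mor t * Ψ (fun i => lam o (t i)) =
      ∑ t ∈ chamReps o R, orr K t * Ψ t := by
  classical
  have h0 : ∑ t ∈ K.chainReps R, K.mor t * Ψ (fun i => lam o (t i)) =
      ∑ t ∈ (K.chainReps R).filter (fun t => Function.Injective fun i => lam o (t i)),
        K.mor t * Ψ (fun i => lam o (t i)) := by
    symm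
    apply Finset.sum_subset (Finset.filter_subset _ _)
    intro t ht hne
    have h1 : ¬ Function.Injective fun i => lam o (t i) := by
      intro h
      exact hne (Finset.mem_filter.2 ⟨ht, h⟩)
    obtain ⟨hc, -⟩ := LamSum_mem.1 ht
    rw [hΨ (fun i => lam o (t i)) ⟨(t 0).1.1, LamSum_lower (t 0), fun i =>
      hc.anti 0 i (Fin.zero_le i) (lam_mem o (t i))⟩ (LamSum_mono o hc) h1, mul_zero]
  rw [h0]
  refine Finset.sum_bij' (i := fun t _ => fun i => lam o (t i))
    (j := fun t ht => LamSum_ch o t (mem_chamReps.1 ht).1) ?_ ?_ ?_ ?_ ?_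
  · intro t ht
    rw [Finset.mem_filter, LamSum_mem] at ht
    obtain ⟨⟨hc, hR0⟩, hinj⟩ := ht
    obtain ⟨h1, h2⟩ := LamSum_cham o hc hinj
    rw [mem_chamReps]
    exact ⟨h1, by rw [h2]; exact hR0⟩
  · intro t ht
    have h1 := mem_chamReps.1 ht
    rw [Finset.mem_filter, LamSum_mem]
    refine ⟨⟨LamSum_isChain o t h1.1, ?_⟩, ?_⟩
    · have h2 : (LamSum_ch o t h1.1 0).1.1 = Finset.univ.image t := by
        show (Finset.univ.filter fun j => (0 : Fin (n + 1)) ≤ j).image t = Finset.univ.image t
        congr 1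
        ext j
        simp
      rw [h2]
      exact h1.2
    · have h2 : (fun i => lam o (LamSum_ch o t h1.1 i)) = t := by
        funext i
        exact LamSum_lam o t h1.1 i
      rw [h2]
      exact LamSum_inj h1.1
  · intro t ht
    rw [Finset.mem_filter, LamSum_mem] at ht
    obtain ⟨⟨hc, hR0⟩, hinj⟩ := ht
    obtain ⟨hU, hL⟩ := LamSum_struct o hc hinj
    funext i
    apply Subtype.ext
    exact Prod.ext (hL i).symm (hU i).symm
  · intro t ht
    funext i
    exact LamSum_lam o t _ i
  · intro t ht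
    rw [Finset.mem_filter, LamSum_mem] at ht
    obtain ⟨⟨hc, hR0⟩, hinj⟩ := ht
    rw [LamSum_mor o hc hinj]

end Pool.Agent.ChS
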