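import Pool.Agent.ChS.ChiCC
import Pool.Agent.ChS.LamSum

/-!
# The Euler characteristic as a sum over the chambers

Every vertex is `γ • v` for exactly one pair `γ`, `v` with `{v} ∈ R`; put `g (γ • v) = γ` (as
`IndexZero_section` in `ChP/IndexZero.lean`), `a x = (lin (g x))⁻¹ *ᵥ s x` (invariant) and
`μ_r x = push (lin (g x)) (sg r (a x))` for `r > 0`: equivariant probability densities on the vertices.
By `sum_CC_eq_eulerChar` for `x ↦ μ_r (lam o x)` and `sum_lam` for `Ψ t = CC (μ_r ∘ t)`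
(`CC_eq_zero_of_eq`), `∑_{t ∈ chamReps} orr t * CC (μ_r ∘ t) = (-1)^n χ`.  Let `r → 0`
(`tendsto_CC_sg`; `0` is not in the convex hull of `n` linearly independent vectors).
-/

namespace Pool.Agent.ChS

open MeasureTheory Matrix Pool.Agent.ChP
open scoped Pointwise

variable {n : ℕ} {K : AffineTriangulation n}

/-- the deck transformation belonging to a vertex -/
private theorem ChiEps_section {R : Finset (Finset K.V)} (hR : K.Reps R) :
    ∃ g : K.V → K.Γ, ∀ (γ : K.Γ) (x : K.V), g (γ • x) = γ * g x := by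
  classical
  choose p hp huniq using hR.2
  refine ⟨fun x => (p {x} (K.singleton_mem x)).1, fun γ x => ?_⟩
  have h1 := hp {x} (K.singleton_mem x)
  have h2 := huniq {γ • x} (K.singleton_mem (γ • x))
    (γ * (p {x} (K.singleton_mem x)).1, (p {x} (K.singleton_mem x)).2) ⟨h1.1, by
      show (γ * (p {x} (K.singleton_mem x)).1) • (p {x} (K.singleton_mem x)).2 = {γ • x}
      rw [mul_smul, h1.2, Finset.smul_finset_singleton]⟩
  exact (congrArg Prod.fst h2).symm

private theorem ChiEps_det {Γ : Type*} [Group Γ]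
    (ρ : Γ →* Matrix (Fin n) (Fin n) ℝ) (γ : Γ) : (ρ γ).det ≠ 0 := by
  intro h
  have h1 : ρ γ * ρ γ⁻¹ = 1 := by rw [← map_mul, mul_inv_cancel, map_one]
  have h2 := congrArg Matrix.det h1
  rw [Matrix.det_mul, h, zero_mul, Matrix.det_one] at h2
  exact zero_ne_one h2

/-- zero is not in the convex hull of `n` linearly independent vectors -/
private theorem ChiEps_hull {s : Fin (n + 1) → Fin n → ℝ} (h : ∀ j, tco s j ≠ 0)
    (j : Fin (n + 1)) : (0 : Fin n → ℝ) ∉ convexHull ℝ (s '' {i | i ≠ j}) := by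
  have hM : (Matrix.of fun a b : Fin n => s (j.succAbove a) b).det ≠ 0 := by
    intro h0
    apply h j
    unfold tco
    rw [h0, mul_zero]
  obtain ⟨M, hMdef⟩ : ∃ M : Matrix (Fin n) (Fin n) ℝ,
      M = Matrix.of fun a b : Fin n => s (j.succAbove a) b := ⟨_, rfl⟩
  rw [← hMdef] at hM
  obtain ⟨f, hf⟩ : ∃ f : Fin n → ℝ, f = M⁻¹ *ᵥ (fun _ => 1) := ⟨_, rfl⟩
  have hMf : ∀ a, s (j.succAbove a) ⬝ᵥ f = 1 := by
    intro a
    have h1 : (M *ᵥ f) a = 1 := by
      rw [hf, Matrix.mulVec_mulVec, Matrix.mul_nonsing_inv _ (isUnit_iff_ne_zero.2 hM),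
        Matrix.one_mulVec]
    rw [hMdef] at h1
    exact h1
  have hconv : Convex ℝ {x : Fin n → ℝ | x ⬝ᵥ f = 1} := by
    intro x hx y hy a b ha hb hab
    show (a • x + b • y) ⬝ᵥ f = 1
    have hx' : x ⬝ᵥ f = 1 := hx
    have hy' : y ⬝ᵥ f = 1 := hy
    rw [add_dotProduct, smul_dotProduct, smul_dotProduct, hx', hy', smul_eq_mul, smul_eq_mul,
      mul_one, mul_one, hab]
  have hsub : s '' {i | i ≠ j} ⊆ {x : Fin n → ℝ | x ⬝ᵥ f = 1} := by
    rintro _ ⟨i, hi, rfl⟩
    obtain ⟨a, rfl⟩ := Fin.exists_succAbove_eq hi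
    exact hMf a
  intro h0
  have h1 : (0 : Fin n → ℝ) ⬝ᵥ f = 1 := convexHull_min hsub hconv h0
  rw [zero_dotProduct] at h1
  exact zero_ne_one h1

theorem sum_eps_cham (hn : 0 < n) (o : Lab K) {R : Finset (Finset K.V)} (hR : K.Reps R)
    (s : K.V → Fin n → ℝ) (hs : Equi K s) (hg : GenPos o s) :
    ∑ t ∈ chamReps o R, orr K t * eps (fun i => s (t i)) = (-1) ^ n * (K.eulerChar : ℝ) := by
  classical
  obtain ⟨g, hgeq⟩ := ChiEps_section hR
  have hdet : ∀ γ, (K.lin γ).det ≠ 0 := ChiEps_det K.lin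
  obtain ⟨a, ha⟩ : ∃ a : K.V → Fin n → ℝ, a = fun x => K.lin (g x)⁻¹ *ᵥ s x := ⟨_, rfl⟩
  have haeq : ∀ (γ : K.Γ) (x : K.V), a (γ • x) = a x := by
    intro γ x
    rw [ha]
    show K.lin (g (γ • x))⁻¹ *ᵥ s (γ • x) = K.lin (g x)⁻¹ *ᵥ s x
    rw [hgeq, hs, Matrix.mulVec_mulVec, ← map_mul]
    congr 2
    group
  have hAa : ∀ x, K.lin (g x) *ᵥ a x = s x := by
    intro x
    rw [ha]
    show K.lin (g x) *ᵥ (K.lin (g x)⁻¹ *ᵥ s x) = s x
    rw [Matrix.mulVec_mulVec, ← map_mul, mul_inv_cancel, map_one, Matrix.one_mulVec]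
  -- the sum is constant in r
  have hsum : ∀ r : ℝ, 0 < r → ∑ t ∈ chamReps o R, orr K t *
      CC (fun i => push (K.lin (g (t i))) (sg r (a (t i)))) = (-1) ^ n * (K.eulerChar : ℝ) := by
    intro r hr
    have h1 := sum_CC_eq_eulerChar K hn hR
      (fun x => push (K.lin (g (lam o x))) (sg r (a (lam o x))))
      (fun x => integrable_push (hdet _) (integrable_sg hr _))
      (fun x => by rw [integral_push (hdet _), integral_sg hr])
      (fun γ x => by rw [lam_smul, hgeq, haeq, map_mul, push_push])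
    have h2 := sum_lam o hR (fun t => CC (fun i => push (K.lin (g (t i))) (sg r (a (t i))))) (by
      intro t _ _ hinj
      rw [Function.Injective] at hinj
      push Not at hinj
      obtain ⟨i, j, hij, hne⟩ := hinj
      exact CC_eq_zero_of_eq _ i j hne (by rw [hij]))
    rw [← h2]
    exact h1
  -- the limit
  have hlim : Filter.Tendsto (fun r : ℝ => ∑ t ∈ chamReps o R, orr K t *
      CC (fun i => push (K.lin (g (t i))) (sg r (a (t i))))) (nhdsWithin 0 (Set.Ioi 0))
      (nhds (∑ t ∈ chamReps o R, orr K t * eps (fun i => s (t i)))) := by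
    refine tendsto_finsetSum _ fun t ht => ?_
    rw [mem_chamReps] at ht
    have hvec : (fun i => K.lin (g (t i)) *ᵥ a (t i)) = fun i => s (t i) := by
      funext i
      rw [hAa]
    have hsj : ∀ j, (0 : Fin n → ℝ) ∉
        convexHull ℝ ((fun i => K.lin (g (t i)) *ᵥ a (t i)) '' {i | i ≠ j}) := by
      intro j
      rw [hvec]
      exact ChiEps_hull (hg t ht.1) j
    have h1 := tendsto_CC_sg (fun i => K.lin (g (t i))) (fun i => hdet _) (fun i => a (t i)) hsj
    rw [hvec] at h1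
    exact h1.const_mul _
  have hconst : Filter.Tendsto (fun r : ℝ => ∑ t ∈ chamReps o R, orr K t *
      CC (fun i => push (K.lin (g (t i))) (sg r (a (t i))))) (nhdsWithin 0 (Set.Ioi 0))
      (nhds ((-1) ^ n * (K.eulerChar : ℝ))) := by
    refine tendsto_const_nhds.congr' ?_
    filter_upwards [self_mem_nhdsWithin] with r hr
    exact (hsum r hr).symm
  exact tendsto_nhds_unique hlim hconst

end Pool.Agent.ChS
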