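import Pool.Agent.ChS.Flags
import Pool.Agent.ChS.StarEuler
import Pool.Agent.ChP.Facet

/-!
# The Dehn-Sommerville relation in dimension 4

With `f_i = numSimplices i`: (1) every `F ∈ K.faces` with `F.card = 4` lies in exactly two chambers
(`facet`), so `2 f_3 = 5 f_4` (`flag_count` with `j = 4`, `k = 5`).  (2) `star_euler` for the vertices,
summed over the `ρ ∈ R` with `ρ.card = 1`, and `flag_count` with `j = 1`: `∑_k (-1)^k k f_(k-1) = -f_0`,
i.e. `-f_0 + 2 f_1 - 3 f_2 + 4 f_3 - 5 f_4 = -f_0`.  (3) `χ = f_0 - f_1 + f_2 - f_3 + f_4`.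
Eliminate `f_2` and `f_3`.
-/

namespace Pool.Agent.ChS

open Matrix Pool.Agent.ChP

private theorem DS_two (K : AffineTriangulation 4) {ρ : Finset K.V} (hρ : ρ ∈ K.faces)
    (hc : ρ.card = 4) : {τ | τ ∈ K.faces ∧ ρ ⊆ τ ∧ τ.card = 5}.ncard = 2 := by
  classical
  obtain ⟨w₁, w₂, h1, h2, hne, hf1, hf2, huniq, -⟩ := K.facet hρ hc
  have hset : {τ | τ ∈ K.faces ∧ ρ ⊆ τ ∧ τ.card = 5} = {insert w₁ ρ, insert w₂ ρ} := by
    ext τ
    simp only [Set.mem_ofPred_eq, Set.mem_insert_iff, Set.mem_singleton_iff]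
    constructor
    · rintro ⟨hτ, hsub, hτc⟩
      obtain ⟨w, hw⟩ := Finset.card_eq_one.1
        (show (τ \ ρ).card = 1 by rw [Finset.card_sdiff_of_subset hsub]; omega)
      have hwτ : w ∈ τ \ ρ := by rw [hw]; exact Finset.mem_singleton_self w
      have hins : insert w ρ = τ := by
        rw [Finset.insert_eq, ← hw, Finset.sdiff_union_of_subset hsub]
      rw [Finset.mem_sdiff] at hwτ
      rcases huniq w hwτ.2 (by rw [hins]; exact hτ) with h | h
      · left; rw [← hins, h]
      · right; rw [← hins, h]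
    · rintro (rfl | rfl)
      · exact ⟨hf1, Finset.subset_insert _ _, by rw [Finset.card_insert_of_notMem h1, hc]⟩
      · exact ⟨hf2, Finset.subset_insert _ _, by rw [Finset.card_insert_of_notMem h2, hc]⟩
  rw [hset, Set.ncard_pair]
  intro h
  apply hne
  have h3 : w₁ ∈ insert w₂ ρ := by rw [← h]; exact Finset.mem_insert_self _ _
  rcases Finset.mem_insert.1 h3 with h4 | h4
  · exact h4
  · exact absurd h4 h1

private theorem DS_star (K : AffineTriangulation 4) {ρ : Finset K.V} (hρ : ρ ∈ K.faces) :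
    ∑ k ∈ Finset.range 6, (-1 : ℤ) ^ k *
      ({τ | τ ∈ K.faces ∧ ρ ⊆ τ ∧ τ.card = k}.ncard : ℤ) = -1 := by
  classical
  have h := star_euler K hρ
  have hmaps : ∀ τ ∈ (K.star_finite hρ).toFinset, τ.card ∈ Finset.range 6 := by
    intro τ hτ
    rw [Set.Finite.mem_toFinset] at hτ
    have := K.card_le hτ.1
    rw [Finset.mem_range]
    omega
  rw [← Finset.sum_fiberwise_of_maps_to hmaps] at h
  refine Eq.trans ?_ (h.trans (by norm_num))
  refine Finset.sum_congr rfl fun k _ => ?_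
  have hset : {τ | τ ∈ K.faces ∧ ρ ⊆ τ ∧ τ.card = k} =
      (((K.star_finite hρ).toFinset.filter fun τ => τ.card = k : Finset (Finset K.V)) :
        Set (Finset K.V)) := by
    ext τ
    rw [Finset.mem_coe, Finset.mem_filter, Set.Finite.mem_toFinset]
    simp only [Set.mem_ofPred_eq, and_assoc]
  rw [hset, Set.ncard_coe_finset]
  rw [Finset.sum_congr rfl (g := fun _ => (-1 : ℤ) ^ k)]
  · rw [Finset.sum_const, nsmul_eq_mul, mul_comm]
  · intro τ hτ
    rw [Finset.mem_filter] at hτ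
    rw [hτ.2]

theorem dehn_sommerville (K : AffineTriangulation 4) :
    (K.numSimplices 4 : ℤ) + 6 * K.numSimplices 0 = 2 * K.numSimplices 1 + 6 * K.eulerChar := by
  classical
  obtain ⟨R, hR⟩ := K.exists_reps
  have h1 : 2 * (R.filter fun σ => σ.card = 4).card = 5 * (R.filter fun σ => σ.card = 5).card := by
    have h := flag_count hR (j := 4) (by norm_num) 5
    rw [Finset.sum_congr rfl (g := fun _ => 2) (fun ρ hρ => ?_)] at h
    · rw [Finset.sum_const, smul_eq_mul, mul_comm] at h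
      exact h
    · rw [Finset.mem_filter] at hρ
      exact DS_two K (hR.1 ρ hρ.1) hρ.2
  have h2 : ∑ k ∈ Finset.range 6, (-1 : ℤ) ^ k * ((k.choose 1 : ℤ) *
      ((R.filter fun σ => σ.card = k).card : ℤ)) = -((R.filter fun σ => σ.card = 1).card : ℤ) := by
    have h : ∑ ρ ∈ R.filter (fun ρ => ρ.card = 1), ∑ k ∈ Finset.range 6, (-1 : ℤ) ^ k *
        ({τ | τ ∈ K.faces ∧ ρ ⊆ τ ∧ τ.card = k}.ncard : ℤ) =
        -((R.filter fun σ => σ.card = 1).card : ℤ) := by
      rw [Finset.sum_congr rfl (g := fun _ => (-1 : ℤ)) (fun ρ hρ => ?_)]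
      · rw [Finset.sum_const, nsmul_eq_mul, mul_neg, mul_one]
      · rw [Finset.mem_filter] at hρ
        exact DS_star K (hR.1 ρ hρ.1)
    rw [Finset.sum_comm] at h
    rw [← h]
    refine Finset.sum_congr rfl fun k _ => ?_
    rw [← Finset.mul_sum]
    congr 1
    have h3 := flag_count hR (j := 1) one_pos k
    rw [← Nat.cast_mul, ← h3, Nat.cast_sum]
  have h0 := numSimplices_eq hR 0
  have h3 := numSimplices_eq hR 1
  have h4 := numSimplices_eq hR 2
  have h5 := numSimplices_eq hR 3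
  have h6 := numSimplices_eq hR 4
  have hchi : K.eulerChar = ∑ k ∈ Finset.range (4 + 1), (-1 : ℤ) ^ k * (K.numSimplices k : ℤ) := rfl
  simp only [Finset.sum_range_succ, Finset.sum_range_zero] at hchi h2
  rw [h0, h3, h4, h5, h6] at hchi
  rw [h0, h3, h6, hchi]
  simp only [Nat.choose_one_right] at h2
  norm_num at h2 ⊢
  have h7 : (2 : ℤ) * ((R.filter fun σ => σ.card = 4).card : ℤ) =
      5 * ((R.filter fun σ => σ.card = 5).card : ℤ) := by exact_mod_cast h1
  linarith

end Pool.Agent.ChS
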