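import Pool.Agent.ChP.IvDefs

/-!
# Closed affine 4-manifolds and the rank gradient: definitions
-/

namespace Pool.Agent.ChS

open Matrix Pool.Agent.ChP
open scoped Pointwise

/-! ### Topology of the covering -/

section Top

variable {n : ℕ} (K : AffineTriangulation n)

/-- `|K|` is non-empty and connected: any two vertices are joined by an edge path. -/
def Connected : Prop :=
  Nonempty K.V ∧ ∀ u v : K.V,
    Relation.ReflTransGen (fun a b => ({a, b} : Finset K.V) ∈ K.faces) u v

/-- The first real cohomology of `|K|` vanishes (for instance `|K|` is simply connected): every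
function on oriented edges which is additive on triangles is a difference of values at the
vertices. -/
def H1Zero : Prop :=
  ∀ c : K.V → K.V → ℝ,
    (∀ u v w : K.V, ({u, v, w} : Finset K.V) ∈ K.faces → c u v + c v w = c u w) →
    ∃ f : K.V → ℝ, ∀ u v : K.V, ({u, v} : Finset K.V) ∈ K.faces → c u v = f v - f u

/-- The vertices of a simplex lie in different orbits of the group of deck transformations, i.e.
`K` descends to a triangulation of the quotient whose simplices have distinct vertices. -/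
def Proper : Prop :=
  ∀ σ ∈ K.faces, ∀ v ∈ σ, ∀ γ : K.Γ, γ • v ∈ σ → γ = 1

/-- The chambers (top-dimensional simplices). -/
def Chb (σ : Finset K.V) : Prop := σ ∈ K.faces ∧ σ.card = n + 1

/-- An invariant labelling of the vertices which is injective on the simplices. -/
structure Lab where
  /-- the label of a vertex -/
  lab : K.V → ℕ
  smul : ∀ (γ : K.Γ) (v : K.V), lab (γ • v) = lab v
  inj : ∀ σ ∈ K.faces, Set.InjOn lab (σ : Set K.V)

variable {K}

/-- The chambers with vertices ordered by the labelling. -/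
def Cham (o : Lab K) (t : Fin (n + 1) → K.V) : Prop :=
  StrictMono (fun i => o.lab (t i)) ∧ Finset.univ.image t ∈ K.faces

/-- The orientation sign of an ordered chamber. -/
noncomputable def orr (K : AffineTriangulation n) (t : Fin (n + 1) → K.V) : ℝ :=
  Real.sign (Matrix.det (Matrix.of fun a : Fin n => K.dev (t a.succ) - K.dev (t 0)))

/-- The vertex with the minimal label in the lower end of an interval. -/
noncomputable def lam (o : Lab K) (x : K.Iv) : K.V :=
  (Finset.exists_min_image x.1.1 o.lab x.2.1).choose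

/-- equivariant vector fields on the vertices -/
def Equi (K : AffineTriangulation n) (s : K.V → Fin n → ℝ) : Prop :=
  ∀ (γ : K.Γ) (v : K.V), s (γ • v) = K.lin γ *ᵥ s v

/-- vector fields with values in general position on the chambers -/
def GenPos (o : Lab K) (s : K.V → Fin n → ℝ) : Prop :=
  ∀ t : Fin (n + 1) → K.V, Cham o t → ∀ i, tco (fun j => s (t j)) i ≠ 0

/-- pairs of vector fields with values in general position on the chambers -/
def GenPos2 (o : Lab K) (s s' : K.V → Fin n → ℝ) : Prop :=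
  ∀ t : Fin (n + 1) → K.V, Cham o t → ∀ e : Fin n ↪ Fin (n + 1) × Bool,
    Matrix.det (Matrix.of fun a b => (if (e a).2 then s' (t (e a).1) else s (t (e a).1)) b) ≠ 0

/-- The product of the signs of the signed minors. -/
noncomputable def sgp (s : Fin (n + 1) → Fin n → ℝ) : ℝ := ∏ i, Real.sign (tco s i)

end Top

/-! ### Representatives of the chambers -/

section Reps

variable {n : ℕ} {K : AffineTriangulation n}

theorem finite_cham (o : Lab K) (R : Finset (Finset K.V)) :
    {t : Fin (n + 1) → K.V | Cham o t ∧ Finset.univ.image t ∈ R}.Finite := by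
  classical
  refine Set.Finite.subset (Set.Finite.pi' (fun _ : Fin (n + 1) =>
    (Finset.finite_toSet (R.biUnion id)))) ?_
  rintro t ⟨-, ht⟩ i
  simp only [Finset.mem_coe, Finset.mem_biUnion, id]
  exact ⟨_, ht, Finset.mem_image_of_mem t (Finset.mem_univ i)⟩

/-- The ordered chambers whose vertex set lies in `R`. -/
noncomputable def chamReps (o : Lab K) (R : Finset (Finset K.V)) : Finset (Fin (n + 1) → K.V) :=
  (finite_cham o R).toFinset

theorem mem_chamReps {o : Lab K} {R : Finset (Finset K.V)} {t : Fin (n + 1) → K.V} :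
    t ∈ chamReps o R ↔ Cham o t ∧ Finset.univ.image t ∈ R := by
  unfold chamReps
  rw [Set.Finite.mem_toFinset]
  rfl

end Reps

/-! ### Complete simplicial fans -/

/-- A complete simplicial fan in `ℝ^d`: the cones spanned by the vectors `p v`, `v ∈ σ`,
`σ ∈ cones`. -/
structure IsFan {d : ℕ} {U : Type} [DecidableEq U] (cones : Finset (Finset U))
    (p : U → Fin d → ℝ) : Prop where
  down : ∀ σ ∈ cones, ∀ τ ⊆ σ, τ ∈ cones
  indep : ∀ σ ∈ cones, LinearIndependent ℝ (fun v : σ => p v)
  cover : ∀ x : Fin d → ℝ, ∃! τ : Finset U, τ ∈ cones ∧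
    ∃ c : U → ℝ, (∀ v ∈ τ, 0 < c v) ∧ ∑ v ∈ τ, c v • p v = x
  pure : ∀ σ ∈ cones, ∃ τ ∈ cones, σ ⊆ τ ∧ τ.card = d
  wall : ∀ F ∈ cones, F.card + 1 = d → ∃ w₁ w₂ : U, w₁ ∉ F ∧ w₂ ∉ F ∧ w₁ ≠ w₂ ∧
    insert w₁ F ∈ cones ∧ insert w₂ F ∈ cones ∧
    (∀ w, w ∉ F → insert w F ∈ cones → w = w₁ ∨ w = w₂) ∧
    ∃ (α β : ℝ) (c : U → ℝ), 0 < α ∧ 0 < β ∧
      α • p w₁ + β • p w₂ = ∑ v ∈ F, c v • p v

/-! ### The quadratic cocycle in dimension 4 -/

/-- The linear form on symmetric functions of pairs given by five vectors of `ℝ^4`. -/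
noncomputable def LL (C : Fin 5 → Fin 5 → ℝ) (s : Fin 5 → Fin 4 → ℝ) : ℝ :=
  ∑ i : Fin 5, ∑ j : Fin 5, if i < j then tco s i * tco s j * C i j else 0

/-- The quadratic form given by five vectors of `ℝ^4`. -/
noncomputable def BB (C : Fin 5 → Fin 5 → ℝ) (s : Fin 5 → Fin 4 → ℝ) : ℝ :=
  LL C s ^ 2 / ∏ i, tco s i

/-- The action of the linear map `g` on bilinear forms, twisted by `|det g|^(1/2)`. -/
noncomputable def act (g A : Matrix (Fin 4) (Fin 4) ℝ) : Matrix (Fin 4) (Fin 4) ℝ :=
  Real.sqrt |g.det| • ((g⁻¹)ᵀ * A * g⁻¹)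

/-- The crossed homomorphisms of `G` with values in the alternating bilinear forms on `ℝ^4`,
twisted by `|det|^(1/2)`. -/
noncomputable def Z1 {G : Type*} [Group G] (ρ : G →* Matrix (Fin 4) (Fin 4) ℝ) :
    Submodule ℝ (G → Matrix (Fin 4) (Fin 4) ℝ) where
  carrier := {z | (∀ g, (z g)ᵀ = -z g) ∧ ∀ g h, z (g * h) = z g + act (ρ g) (z h)}
  add_mem' := by
    rintro a b ⟨ha, ha'⟩ ⟨hb, hb'⟩
    refine ⟨fun g => ?_, fun g h => ?_⟩
    · rw [Pi.add_apply, Matrix.transpose_add, ha, hb, neg_add]
    · simp only [Pi.add_apply]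
      rw [ha', hb']
      unfold act
      rw [Matrix.mul_add, Matrix.add_mul, smul_add]
      abel
  zero_mem' := by
    refine ⟨fun g => ?_, fun g h => ?_⟩
    · simp
    · simp [act]
  smul_mem' := by
    rintro c a ⟨ha, ha'⟩
    refine ⟨fun g => ?_, fun g h => ?_⟩
    · rw [Pi.smul_apply, Matrix.transpose_smul, ha, smul_neg]
    · simp only [Pi.smul_apply]
      rw [ha', smul_add]
      unfold act
      rw [Matrix.mul_smul, Matrix.smul_mul, smul_comm]

section Four

variable (K : AffineTriangulation 4)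

/-- The twisting factor. -/
noncomputable def kap (γ : K.Γ) : ℝ := Real.sqrt |(K.lin γ).det|

/-- The equivariant symmetric functions on the edges. -/
noncomputable def EdgeSp : Submodule ℝ (K.V → K.V → ℝ) where
  carrier := {C | (∀ x y, C x y = C y x) ∧
    (∀ x y, ¬ (x ≠ y ∧ ({x, y} : Finset K.V) ∈ K.faces) → C x y = 0) ∧
    ∀ (γ : K.Γ) (x y : K.V), C (γ • x) (γ • y) = kap K γ * C x y}
  add_mem' := by
    rintro a b ⟨ha, ha', ha''⟩ ⟨hb, hb', hb''⟩
    refine ⟨fun x y => ?_, fun x y h => ?_, fun γ x y => ?_⟩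
    · simp only [Pi.add_apply]; rw [ha, hb]
    · simp only [Pi.add_apply]; rw [ha' x y h, hb' x y h, add_zero]
    · simp only [Pi.add_apply]; rw [ha'', hb'', mul_add]
  zero_mem' := by
    refine ⟨fun x y => rfl, fun x y h => rfl, fun γ x y => ?_⟩
    simp
  smul_mem' := by
    rintro c a ⟨ha, ha', ha''⟩
    refine ⟨fun x y => ?_, fun x y h => ?_, fun γ x y => ?_⟩
    · simp only [Pi.smul_apply]; rw [ha]
    · simp only [Pi.smul_apply]; rw [ha' x y h, smul_zero]
    · simp only [Pi.smul_apply, smul_eq_mul]; rw [ha'']; ring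

/-- The equivariant families of covectors `β_v` at the vertices with `β_v (s_v) = 0`. -/
noncomputable def VertSp (s : K.V → Fin 4 → ℝ) : Submodule ℝ (K.V → Fin 4 → ℝ) where
  carrier := {β | (∀ v, β v ⬝ᵥ s v = 0) ∧
    ∀ (γ : K.Γ) (v : K.V), β (γ • v) = kap K γ • (((K.lin γ)⁻¹)ᵀ *ᵥ β v)}
  add_mem' := by
    rintro a b ⟨ha, ha'⟩ ⟨hb, hb'⟩
    refine ⟨fun v => ?_, fun γ v => ?_⟩
    · simp only [Pi.add_apply]; rw [add_dotProduct, ha, hb, add_zero]
    · simp only [Pi.add_apply]; rw [ha', hb', Matrix.mulVec_add, smul_add]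
  zero_mem' := by
    refine ⟨fun v => ?_, fun γ v => ?_⟩
    · simp
    · simp
  smul_mem' := by
    rintro c a ⟨ha, ha'⟩
    refine ⟨fun v => ?_, fun γ v => ?_⟩
    · simp only [Pi.smul_apply]; rw [smul_dotProduct, ha, smul_zero]
    · simp only [Pi.smul_apply]; rw [ha', Matrix.mulVec_smul, smul_comm]

/-- The coboundary map. -/
noncomputable def dd (s : K.V → Fin 4 → ℝ) (β : K.V → Fin 4 → ℝ) (x y : K.V) : ℝ :=
  β x ⬝ᵥ s y + β y ⬝ᵥ s x

variable {K}

/-- The kernel of the map from functions on the edges to functions on the chambers. -/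
noncomputable def KerSp (o : Lab K) (s : K.V → Fin 4 → ℝ) : Submodule ℝ (K.V → K.V → ℝ) where
  carrier := {C | C ∈ EdgeSp K ∧ ∀ t, Cham o t →
    LL (fun i j => C (t i) (t j)) (fun i => s (t i)) = 0}
  add_mem' := by
    rintro a b ⟨ha, ha'⟩ ⟨hb, hb'⟩
    refine ⟨Submodule.add_mem _ ha hb, fun t ht => ?_⟩
    have h1 := ha' t ht
    have h2 := hb' t ht
    have h3 : LL (fun i j => (a + b) (t i) (t j)) (fun i => s (t i)) =
        LL (fun i j => a (t i) (t j)) (fun i => s (t i)) +
        LL (fun i j => b (t i) (t j)) (fun i => s (t i)) := by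
      unfold LL
      rw [← Finset.sum_add_distrib]
      refine Finset.sum_congr rfl fun i _ => ?_
      rw [← Finset.sum_add_distrib]
      refine Finset.sum_congr rfl fun j _ => ?_
      split_ifs
      · simp only [Pi.add_apply]; ring
      · simp
    rw [h3, h1, h2, add_zero]
  zero_mem' := by
    refine ⟨Submodule.zero_mem _, fun t ht => ?_⟩
    simp [LL]
  smul_mem' := by
    rintro c a ⟨ha, ha'⟩
    refine ⟨Submodule.smul_mem _ _ ha, fun t ht => ?_⟩
    have h1 := ha' t ht
    have h3 : LL (fun i j => (c • a) (t i) (t j)) (fun i => s (t i)) =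
        c * LL (fun i j => a (t i) (t j)) (fun i => s (t i)) := by
      unfold LL
      rw [Finset.mul_sum]
      refine Finset.sum_congr rfl fun i _ => ?_
      rw [Finset.mul_sum]
      refine Finset.sum_congr rfl fun j _ => ?_
      split_ifs
      · simp only [Pi.smul_apply, smul_eq_mul]; ring
      · simp
    rw [h3, h1, mul_zero]

end Four

end Pool.Agent.ChS
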