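import Pool.Agent.ChS.ChamBasic

/-!
# The dimension of the space of equivariant functions on the edges

`kap` is multiplicative and positive.  Let `R` be a set of representatives and `R_1` the set of the
`σ ∈ R` with two elements.  A function `C ∈ EdgeSp K` is determined by its values on the edges in
`R_1`, and these are arbitrary: for `{x, y} = γ • σ`, `σ ∈ R_1`, `C x y = kap γ * c σ`.
`numSimplices 1 = R_1.card` (`numSimplices_eq`).
-/

namespace Pool.Agent.ChS

open Matrix Pool.Agent.ChP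
open scoped Pointwise

variable (K : AffineTriangulation 4)

theorem kap_mul (γ δ : K.Γ) : kap K (γ * δ) = kap K γ * kap K δ := by
  unfold kap
  rw [map_mul, Matrix.det_mul, abs_mul, Real.sqrt_mul (abs_nonneg _)]

theorem kap_pos (γ : K.Γ) : 0 < kap K γ := by
  unfold kap
  exact Real.sqrt_pos.mpr (abs_pos.mpr (K.det_lin_ne_zero γ))

private theorem EdgeDim_kap_one : kap K 1 = 1 := by
  have h1 := kap_mul K 1 1
  rw [mul_one] at h1
  have h2 := kap_pos K 1
  nlinarith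

private theorem EdgeDim_smul_mem_iff (γ : K.Γ) (σ : Finset K.V) :
    γ • σ ∈ K.faces ↔ σ ∈ K.faces := by
  constructor
  · intro h
    have := K.smul_mem γ⁻¹ _ h
    rwa [inv_smul_smul] at this
  · exact K.smul_mem γ σ

private theorem EdgeDim_smul_pair (γ : K.Γ) (x y : K.V) :
    γ • ({x, y} : Finset K.V) = {γ • x, γ • y} := by
  rw [Finset.smul_finset_insert, Finset.smul_finset_singleton]

private theorem EdgeDim_pair {x y a b : K.V} (h : ({x, y} : Finset K.V) = {a, b}) :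
    (x = a ∧ y = b) ∨ (x = b ∧ y = a) := by
  have hx : x = a ∨ x = b := by
    have : x ∈ ({a, b} : Finset K.V) := by rw [← h]; simp
    simpa using this
  have hy : y = a ∨ y = b := by
    have : y ∈ ({a, b} : Finset K.V) := by rw [← h]; simp
    simpa using this
  have ha : a = x ∨ a = y := by
    have : a ∈ ({x, y} : Finset K.V) := by rw [h]; simp
    simpa using this
  have hb : b = x ∨ b = y := by
    have : b ∈ ({x, y} : Finset K.V) := by rw [h]; simp
    simpa using this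
  clear h
  grind

theorem edgeSp_finrank :
    Module.Finite ℝ (EdgeSp K) ∧ Module.finrank ℝ (EdgeSp K) = K.numSimplices 1 := by
  classical
  obtain ⟨R, hR⟩ := K.exists_reps
  obtain ⟨R₁, hR₁⟩ : ∃ R₁ : Finset (Finset K.V), R₁ = R.filter fun σ => σ.card = 1 + 1 := ⟨_, rfl⟩
  have hnum : K.numSimplices 1 = R₁.card := by rw [hR₁]; exact numSimplices_eq hR 1
  have hmemR : ∀ τ, τ ∈ R₁ ↔ τ ∈ R ∧ τ.card = 1 + 1 := fun τ => by
    rw [hR₁, Finset.mem_filter]
  have hcard : ∀ σ : R₁, (σ : Finset K.V).card = 2 := fun σ => ((hmemR _).1 σ.2).2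
  have hR₁R : ∀ σ : R₁, (σ : Finset K.V) ∈ R := fun σ => ((hmemR _).1 σ.2).1
  choose a b hab hσ using fun σ : R₁ => Finset.card_eq_two.mp (hcard σ)
  obtain ⟨f, hf⟩ : ∃ f : EdgeSp K →ₗ[ℝ] (R₁ → ℝ),
      ∀ (C : EdgeSp K) (σ : R₁), f C σ = (C : K.V → K.V → ℝ) (a σ) (b σ) :=
    ⟨{ toFun := fun C σ => (C : K.V → K.V → ℝ) (a σ) (b σ)
       map_add' := fun C D => by ext σ; rfl
       map_smul' := fun r C => by ext σ; rfl }, fun C σ => rfl⟩
  have hinj : Function.Injective f := by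
    rw [← LinearMap.ker_eq_bot, LinearMap.ker_eq_bot']
    intro C hC
    apply Subtype.ext
    obtain ⟨hsym, hzero, hequi⟩ := C.2
    funext x y
    show (C : K.V → K.V → ℝ) x y = 0
    by_cases h : x ≠ y ∧ ({x, y} : Finset K.V) ∈ K.faces
    · obtain ⟨⟨γ, σ⟩, ⟨hσR, hγσ⟩, -⟩ := hR.2 _ h.2
      simp only at hσR hγσ
      have hc2 : σ.card = 1 + 1 := by
        rw [← Finset.card_smul_finset γ σ, hγσ]
        exact Finset.card_pair h.1
      have hmem : σ ∈ R₁ := (hmemR σ).2 ⟨hσR, hc2⟩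
      have h3 := hσ ⟨σ, hmem⟩
      simp only at h3
      have h4 := congrFun hC ⟨σ, hmem⟩
      rw [hf] at h4
      have h4' : (C : K.V → K.V → ℝ) (a ⟨σ, hmem⟩) (b ⟨σ, hmem⟩) = 0 := h4
      have h5 : ({γ • a ⟨σ, hmem⟩, γ • b ⟨σ, hmem⟩} : Finset K.V) = {x, y} := by
        rw [← EdgeDim_smul_pair, ← h3, hγσ]
      rcases EdgeDim_pair K h5 with ⟨h6, h7⟩ | ⟨h6, h7⟩
      · rw [← h6, ← h7, hequi, h4', mul_zero]
      · rw [← h6, ← h7, hsym, hequi, h4', mul_zero]
    · exact hzero x y h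
  have hsurj : Function.Surjective f := by
    intro c
    -- the chosen representatives
    have hp : ∀ τ : Finset K.V, ∃ p : K.Γ × Finset K.V, τ ∈ K.faces →
        (p.2 ∈ R ∧ p.1 • p.2 = τ) ∧ ∀ q : K.Γ × Finset K.V, q.2 ∈ R ∧ q.1 • q.2 = τ → q = p := by
      intro τ
      by_cases hτ : τ ∈ K.faces
      · obtain ⟨p, hp1, hp2⟩ := hR.2 τ hτ
        exact ⟨p, fun _ => ⟨hp1, hp2⟩⟩
      · exact ⟨(1, τ), fun h => absurd h hτ⟩
    choose p hp using hp
    obtain ⟨c', hc'⟩ : ∃ c' : Finset K.V → ℝ, ∀ σ : R₁, c' σ = c σ :=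
      ⟨fun σ => if h : σ ∈ R₁ then c ⟨σ, h⟩ else 0, fun σ => dif_pos σ.2⟩
    obtain ⟨W, hW⟩ : ∃ W : Finset K.V → ℝ, ∀ τ, W τ = kap K (p τ).1 * c' (p τ).2 :=
      ⟨_, fun τ => rfl⟩
    have hWsmul : ∀ (γ : K.Γ) (τ : Finset K.V), τ ∈ K.faces → W (γ • τ) = kap K γ * W τ := by
      intro γ τ hτ
      have h1 := hp τ hτ
      have h2 := hp (γ • τ) (K.smul_mem γ τ hτ)
      have h3 := h2.2 (γ * (p τ).1, (p τ).2) ⟨h1.1.1, by
        show (γ * (p τ).1) • (p τ).2 = γ • τ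
        rw [mul_smul, h1.1.2]⟩
      rw [hW, hW, ← h3]
      show kap K (γ * (p τ).1) * c' (p τ).2 = _
      rw [kap_mul, mul_assoc]
    have hW1 : ∀ σ : R₁, W σ = c σ := by
      intro σ
      have h1 := hp σ (hR.1 _ (hR₁R σ))
      have h2 := h1.2 (1, (σ : Finset K.V)) ⟨hR₁R σ, by
        show (1 : K.Γ) • (σ : Finset K.V) = σ
        rw [one_smul]⟩
      rw [hW, ← h2]
      show kap K 1 * c' σ = _
      rw [EdgeDim_kap_one, one_mul, hc']
    refine ⟨⟨fun x y => if x ≠ y ∧ ({x, y} : Finset K.V) ∈ K.faces then W {x, y} else 0,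
      ?_, ?_, ?_⟩, ?_⟩
    · intro x y
      simp only [Finset.pair_comm y x, ne_comm (a := y) (b := x)]
    · intro x y h
      simp only [if_neg h]
    · intro γ x y
      have h1 : (γ • x ≠ γ • y ∧ ({γ • x, γ • y} : Finset K.V) ∈ K.faces) ↔
          (x ≠ y ∧ ({x, y} : Finset K.V) ∈ K.faces) := by
        rw [← EdgeDim_smul_pair, EdgeDim_smul_mem_iff, Ne, Ne, (MulAction.injective γ).eq_iff]
      by_cases h : x ≠ y ∧ ({x, y} : Finset K.V) ∈ K.faces
      · simp only [if_pos h, if_pos (h1.2 h)]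
        rw [← EdgeDim_smul_pair]
        exact hWsmul γ _ h.2
      · simp only [if_neg h, if_neg (fun h' => h (h1.1 h')), mul_zero]
    · funext σ
      rw [hf]
      have h2 : a σ ≠ b σ ∧ ({a σ, b σ} : Finset K.V) ∈ K.faces :=
        ⟨hab σ, by rw [← hσ]; exact hR.1 _ (hR₁R σ)⟩
      simp only [if_pos h2]
      rw [← hσ, hW1]
  have e : EdgeSp K ≃ₗ[ℝ] (R₁ → ℝ) := LinearEquiv.ofBijective f ⟨hinj, hsurj⟩
  refine ⟨Module.Finite.equiv e.symm, ?_⟩
  rw [e.finrank_eq, Module.finrank_fintype_fun_eq_card, Fintype.card_coe, hnum]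

end Pool.Agent.ChS
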