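import Pool.Agent.ChS.FanBasic

/-!
# The chambers of a complete fan are connected through walls

For `x ∈ ℝ^d` put `m x = ∑_{w ∈ fts} fo p w * f (image w) * eps (-x, p w_0, ..., p w_(d-1))`.  By
`eps_neg_cons` and `ocone_unique`, `m x = N x * f σ` for `x` in the open cone of the chamber `σ`
(`N x` is the value of `m x` for `f = 1`).  Let `x`, `y` be in
general position (any `d` of the vectors `-x, -y, p v (v ∈ σ)` are linearly independent for every
chamber `σ`; such points exist in every pair of open cones by `fan_avoid`, applied first for `x` to the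
spans of `d - 1` vectors `p v`, then for `y` to these and to the spans of `x` and `d - 2` vectors `p v`).
Then `eps_cocycle` for `(-x, -y, p w_0, ..., p w_(d-1))` gives
`m y - m x + ∑_i (-1)^i ∑_w fo p w * f (image w) * eps (-x, -y, p w without w_i) = 0`, and every
inner sum vanishes: the involution `exists_flip i` preserves `f (image w)` and the vectors
without the `i`-th one and changes the sign of `fo p w`.  Hence `m x = m y`.
-/

namespace Pool.Agent.ChS

open Matrix Pool.Agent.ChP

variable {d : ℕ} {U : Type} [DecidableEq U] {cones : Finset (Finset U)} {p : U → Fin d → ℝ}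

private theorem FanConn_gp {d : ℕ} (A : Finset (Fin d → ℝ)) (O : Set (Fin d → ℝ)) (hO : IsOpen O)
    (hne : O.Nonempty) : ∃ x ∈ O, ∀ T : Finset (Fin d → ℝ), T ⊆ A → T.card < d →
      x ∉ Submodule.span ℝ (T : Set (Fin d → ℝ)) := by
  classical
  have hfin : Finite {T : Finset (Fin d → ℝ) // T ⊆ A ∧ T.card < d} := by
    refine Set.Finite.subset (A.powerset.finite_toSet) ?_
    rintro T ⟨hT, -⟩
    exact Finset.mem_coe.2 (Finset.mem_powerset.2 hT)
  have hS : ∀ T : {T : Finset (Fin d → ℝ) // T ⊆ A ∧ T.card < d},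
      Submodule.span ℝ ((T : Finset (Fin d → ℝ)) : Set (Fin d → ℝ)) ≠ ⊤ := by
    rintro ⟨T, hT, hT'⟩ h
    have h1 := finrank_span_finset_le_card (R := ℝ) T
    unfold Set.finrank at h1
    rw [h, finrank_top, Module.finrank_fin_fun] at h1
    omega
  obtain ⟨x, hx, hx'⟩ := fan_avoid
    (fun T : {T : Finset (Fin d → ℝ) // T ⊆ A ∧ T.card < d} =>
      Submodule.span ℝ ((T : Finset (Fin d → ℝ)) : Set (Fin d → ℝ))) hS O hO hne
  exact ⟨x, hx, fun T hT hT' => hx' ⟨T, hT, hT'⟩⟩

/-- the vectors of the cocycle identity -/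
private def FanConn_S {d : ℕ} {U : Type} (p : U → Fin d → ℝ) (x y : Fin d → ℝ) (w : Fin d → U) :
    Fin (d + 2) → Fin d → ℝ :=
  Fin.cons (-x) (Fin.cons (-y) (fun i => p (w i)) : Fin (d + 1) → Fin d → ℝ)

private theorem FanConn_det {d : ℕ} {U : Type} (p : U → Fin d → ℝ) (x y : Fin d → ℝ)
    (w : Fin d → U) (hdet : Matrix.det (Matrix.of fun a => p (w a)) ≠ 0)
    (A : Finset (Fin d → ℝ)) (hA : ∀ k, p (w k) ∈ A)
    (hx : ∀ T : Finset (Fin d → ℝ), T ⊆ A → T.card < d →
      x ∉ Submodule.span ℝ (T : Set (Fin d → ℝ)))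
    (hy : ∀ T : Finset (Fin d → ℝ), (∀ t ∈ T, t = x ∨ t ∈ A) → T.card < d →
      y ∉ Submodule.span ℝ (T : Set (Fin d → ℝ)))
    (e : Fin d ↪o Fin (d + 2)) :
    Matrix.det (Matrix.of fun a b => FanConn_S p x y w (e a) b) ≠ 0 := by
  classical
  intro h0
  obtain ⟨g, hg, hg'⟩ := Matrix.exists_vecMul_eq_zero_iff.2 h0
  set c : Fin (d + 2) → ℝ := fun j => ∑ a, if e a = j then g a else 0 with hc
  have hce : ∀ a, c (e a) = g a := by
    intro a
    rw [hc]
    simp only
    rw [Finset.sum_eq_single a]
    · rw [if_pos rfl]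
    · intro b _ hb
      rw [if_neg]
      intro h
      exact hb (e.injective h)
    · intro h
      exact absurd (Finset.mem_univ _) h
  have hcz : ∀ j, c j ≠ 0 → j ∈ Finset.univ.image e := by
    intro j hj
    by_contra h
    apply hj
    rw [hc]
    simp only
    refine Finset.sum_eq_zero fun a _ => if_neg ?_
    intro h'
    exact h (Finset.mem_image.2 ⟨a, Finset.mem_univ _, h'⟩)
  have hrel : ∑ j, c j • FanConn_S p x y w j = 0 := by
    have h1 : ∑ j, c j • FanConn_S p x y w j = ∑ a, g a • FanConn_S p x y w (e a) := by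
      rw [hc]
      simp only [Finset.sum_smul]
      rw [Finset.sum_comm]
      refine Finset.sum_congr rfl fun a _ => ?_
      rw [Finset.sum_eq_single (e a)]
      · rw [if_pos rfl]
      · intro j _ hj
        rw [if_neg (fun h => hj h.symm), zero_smul]
      · intro h
        exact absurd (Finset.mem_univ _) h
    rw [h1]
    ext b
    have h2 := congrFun hg' b
    simpa [Matrix.vecMul, dotProduct, Finset.sum_apply] using h2
  have hcard : ∑ j, (if c j ≠ 0 then 1 else 0) ≤ d := by
    rw [← Finset.card_filter]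
    calc (Finset.univ.filter fun j => c j ≠ 0).card ≤ (Finset.univ.image e).card := by
          refine Finset.card_le_card ?_
          intro j hj
          exact hcz j (Finset.mem_filter.1 hj).2
      _ ≤ (Finset.univ : Finset (Fin d)).card := Finset.card_image_le
      _ = d := by simp
  rw [Fin.sum_univ_succ, Fin.sum_univ_succ] at hrel hcard
  set J : Finset (Fin d) := Finset.univ.filter fun k : Fin d => c k.succ.succ ≠ 0 with hJ
  rw [← Finset.card_filter, ← hJ] at hcard
  have e0 : FanConn_S p x y w 0 = -x := rfl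
  have e1 : FanConn_S p x y w (Fin.succ 0) = -y := rfl
  have e2 : ∀ k : Fin d, FanConn_S p x y w k.succ.succ = p (w k) := fun k => rfl
  rw [e0, e1] at hrel
  simp only [e2] at hrel
  have hJc : (J.image fun k => p (w k)).card ≤ J.card := Finset.card_image_le
  have hmem : ∀ M : Submodule ℝ (Fin d → ℝ), (∀ k ∈ J, p (w k) ∈ M) →
      ∑ k : Fin d, c k.succ.succ • p (w k) ∈ M := by
    intro M hM
    refine Submodule.sum_mem _ fun k _ => ?_
    by_cases hk : c k.succ.succ = 0
    · rw [hk, zero_smul]
      exact Submodule.zero_mem _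
    · exact Submodule.smul_mem _ _ (hM k (Finset.mem_filter.2 ⟨Finset.mem_univ _, hk⟩))
  by_cases h1 : c (Fin.succ 0) = 0
  · rw [h1, zero_smul, zero_add] at hrel
    by_cases h2 : c 0 = 0
    · rw [h2, zero_smul, zero_add] at hrel
      have h3 : (fun k : Fin d => c k.succ.succ) ᵥ* (Matrix.of fun a => p (w a)) = 0 := by
        ext b
        have h4 := congrFun hrel b
        simpa [Matrix.vecMul, dotProduct, Finset.sum_apply] using h4
      have h4 := Matrix.eq_zero_of_vecMul_eq_zero hdet h3
      apply hg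
      ext a
      rw [← hce a, Pi.zero_apply]
      generalize e a = j
      refine Fin.cases h2 (fun j => ?_) j
      refine Fin.cases h1 (fun j => ?_) j
      exact congrFun h4 j
    · have h3 : c 0 • x = ∑ k : Fin d, c k.succ.succ • p (w k) := by
        rw [smul_neg] at hrel
        exact (neg_add_eq_zero.1 hrel)
      have h4 : x ∈ Submodule.span ℝ ((J.image fun k => p (w k) : Finset (Fin d → ℝ)) :
          Set (Fin d → ℝ)) := by
        rw [← Submodule.smul_mem_iff _ h2, h3]
        refine hmem _ fun k hk => Submodule.subset_span ?_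
        exact Finset.mem_coe.2 (Finset.mem_image_of_mem _ hk)
      refine hx _ ?_ ?_ h4
      · intro t ht
        obtain ⟨k, _, rfl⟩ := Finset.mem_image.1 ht
        exact hA k
      · rw [if_pos h2] at hcard
        omega
  · have h3 : c (Fin.succ 0) • y = c 0 • (-x) + ∑ k : Fin d, c k.succ.succ • p (w k) := by
      have h4 : c 0 • (-x) + (c (Fin.succ 0) • (-y) + ∑ k : Fin d, c k.succ.succ • p (w k)) =
        (c 0 • (-x) + ∑ k : Fin d, c k.succ.succ • p (w k)) - c (Fin.succ 0) • y := by
        rw [smul_neg (c (Fin.succ 0)) y]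
        abel
      rw [h4] at hrel
      exact (sub_eq_zero.1 hrel).symm
    set T : Finset (Fin d → ℝ) := (if c 0 ≠ 0 then {x} else ∅) ∪ (J.image fun k => p (w k)) with hT
    have h4 : y ∈ Submodule.span ℝ (T : Set (Fin d → ℝ)) := by
      rw [← Submodule.smul_mem_iff _ h1, h3]
      refine Submodule.add_mem _ ?_ (hmem _ fun k hk => Submodule.subset_span ?_)
      · by_cases h5 : c 0 = 0
        · rw [h5, zero_smul]
          exact Submodule.zero_mem _
        · refine Submodule.smul_mem _ _ (Submodule.neg_mem _ (Submodule.subset_span ?_))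
          rw [hT, if_pos h5]
          simp
      · rw [hT]
        exact Finset.mem_coe.2 (Finset.mem_union_right _ (Finset.mem_image_of_mem _ hk))
    refine hy T ?_ ?_ h4
    · intro t ht
      rw [hT] at ht
      rcases Finset.mem_union.1 ht with h5 | h5
      · left
        by_cases h6 : c 0 ≠ 0
        · rw [if_pos h6] at h5
          exact Finset.mem_singleton.1 h5
        · rw [if_neg h6] at h5
          exact absurd h5 (Finset.notMem_empty _)
      · right
        obtain ⟨k, _, rfl⟩ := Finset.mem_image.1 h5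
        exact hA k
    · rw [if_pos h1] at hcard
      have h5 : T.card ≤ (if c 0 ≠ 0 then 1 else 0) + J.card := by
        rw [hT]
        refine (Finset.card_union_le _ _).trans (Nat.add_le_add ?_ hJc)
        split_ifs <;> simp
      omega

private noncomputable def FanConn_m (p : U → Fin d → ℝ) (cones : Finset (Finset U))
    (f : Finset U → ℝ) (x : Fin d → ℝ) : ℝ :=
  ∑ w ∈ fts d cones, fo p w * f (Finset.univ.image w) *
    eps (Fin.cons (-x) (fun i => p (w i)) : Fin (d + 1) → Fin d → ℝ)

private theorem FanConn_eq (h : IsFan cones p) (f : Finset U → ℝ)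
    (hf : ∀ σ ∈ cones, ∀ σ' ∈ cones, σ.card = d → σ'.card = d → (σ ∩ σ').card + 1 = d →
      f σ = f σ') (x y : Fin d → ℝ)
    (hgen : ∀ w ∈ fts d cones, ∀ e : Fin d ↪o Fin (d + 2),
      Matrix.det (Matrix.of fun a b => FanConn_S p x y w (e a) b) ≠ 0) :
    FanConn_m p cones f x = FanConn_m p cones f y := by
  have h1 : ∀ w ∈ fts d cones, ∑ j : Fin (d + 2), (-1 : ℝ) ^ (j : ℕ) *
      (fo p w * f (Finset.univ.image w) *
        eps (fun i => FanConn_S p x y w (j.succAbove i))) = 0 := by
    intro w hw
    have h2 := eps_cocycle (FanConn_S p x y w) (hgen w hw)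
    have h3 : ∑ j : Fin (d + 2), (-1 : ℝ) ^ (j : ℕ) *
      (fo p w * f (Finset.univ.image w) *
        eps (fun i => FanConn_S p x y w (j.succAbove i))) = fo p w * f (Finset.univ.image w) *
        ∑ j : Fin (d + 2), (-1 : ℝ) ^ (j : ℕ) *
          eps (fun i => FanConn_S p x y w (j.succAbove i)) := by
      rw [Finset.mul_sum]
      exact Finset.sum_congr rfl fun j _ => by ring
    rw [h3, h2, mul_zero]
  have h2 : ∑ j : Fin (d + 2), (-1 : ℝ) ^ (j : ℕ) * ∑ w ∈ fts d cones,
      (fo p w * f (Finset.univ.image w) *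
        eps (fun i => FanConn_S p x y w (j.succAbove i))) = 0 := by
    simp only [Finset.mul_sum]
    rw [Finset.sum_comm]
    exact Finset.sum_eq_zero h1
  rw [Fin.sum_univ_succ, Fin.sum_univ_succ] at h2
  have h3 : ∀ i : Fin d, ∑ w ∈ fts d cones, (fo p w * f (Finset.univ.image w) *
        eps (fun k => FanConn_S p x y w ((i.succ.succ).succAbove k))) = 0 := by
    intro i
    obtain ⟨F, hF⟩ := exists_flip h i
    refine Finset.sum_involution (fun w _ => F w) ?_ ?_ ?_ ?_
    · intro w hw
      obtain ⟨f1, f2, f3, f4, f5, f6, -⟩ := hF w hw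
      have e1 : f (Finset.univ.image (F w)) = f (Finset.univ.image w) :=
        (hf _ (fts_card h hw).1 _ (fts_card h f1).1 (fts_card h hw).2 (fts_card h f1).2 f6).symm
      have e2 : (fun k => FanConn_S p x y (F w) ((i.succ.succ).succAbove k)) =
          fun k => FanConn_S p x y w ((i.succ.succ).succAbove k) := by
        ext k b
        have hne : (i.succ.succ).succAbove k ≠ i.succ.succ := Fin.succAbove_ne _ _
        generalize (i.succ.succ).succAbove k = j at hne
        revert hne
        refine Fin.cases (fun _ => rfl) (fun j => ?_) j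
        refine Fin.cases (fun _ => rfl) (fun j => ?_) j
        intro hne
        have hj : j ≠ i := fun h => hne (by rw [h])
        change p (F w j) b = p (w j) b
        rw [f4 j hj]
      rw [e1, e2, f5]
      ring
    · intro w hw _ hww
      obtain ⟨f1, f2, f3, -⟩ := hF w hw
      exact f3 (by rw [hww])
    · intro w hw
      exact (hF w hw).1
    · intro w hw
      exact (hF w hw).2.1
  simp only [h3, mul_zero, Finset.sum_const_zero, add_zero] at h2
  have e0 : ∀ w : Fin d → U, (fun i => FanConn_S p x y w ((0 : Fin (d + 2)).succAbove i)) =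
      (Fin.cons (-y) (fun i => p (w i)) : Fin (d + 1) → Fin d → ℝ) := by
    intro w
    ext i b
    rw [Fin.succAbove_zero]
    rfl
  have e1 : ∀ w : Fin d → U, (fun i => FanConn_S p x y w ((Fin.succ 0 : Fin (d + 2)).succAbove i)) =
      (Fin.cons (-x) (fun i => p (w i)) : Fin (d + 1) → Fin d → ℝ) := by
    intro w
    ext i b
    refine Fin.cases ?_ (fun i => ?_) i
    · rw [Fin.succ_succAbove_zero]
      rfl
    · rw [Fin.succ_succAbove_succ, Fin.succAbove_zero]
      rfl
  simp only [e0, e1] at h2
  unfold FanConn_m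
  simp only [Fin.val_zero, pow_zero, one_mul, Fin.val_succ, zero_add, pow_one] at h2
  linarith

open Classical in
private theorem FanConn_val (h : IsFan cones p) (f : Finset U → ℝ) {w₀ : Fin d → U}
    (hw₀ : w₀ ∈ fts d cones) {x : Fin d → ℝ} (hx : x ∈ ocone p w₀) :
    FanConn_m p cones f x = ((fts d cones).filter fun w => x ∈ ocone p w).card *
      f (Finset.univ.image w₀) := by
  unfold FanConn_m
  rw [← nsmul_eq_mul, ← Finset.sum_const, Finset.sum_filter]
  refine Finset.sum_congr rfl fun w hw => ?_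
  rw [eps_neg_cons h hw]
  by_cases h1 : x ∈ ocone p w
  · rw [if_pos h1, if_pos h1, ocone_unique h hw hw₀ h1 hx]
    calc fo p w * f (Finset.univ.image w₀) * fo p w =
        (fo p w * fo p w) * f (Finset.univ.image w₀) := by ring
      _ = f (Finset.univ.image w₀) := by rw [fo_mul_self h hw, one_mul]
  · rw [if_neg h1, if_neg h1, mul_zero]

theorem fan_connected (h : IsFan cones p) (f : Finset U → ℝ)
    (hf : ∀ σ ∈ cones, ∀ σ' ∈ cones, σ.card = d → σ'.card = d → (σ ∩ σ').card + 1 = d →
      f σ = f σ')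
    {σ σ' : Finset U} (hσ : σ ∈ cones) (hσ' : σ' ∈ cones) (hc : σ.card = d) (hc' : σ'.card = d) :
    f σ = f σ' := by
  classical
  obtain ⟨w₀, hw₀, rfl⟩ := exists_fts h hσ hc
  obtain ⟨w₁, hw₁, rfl⟩ := exists_fts h hσ' hc'
  have hne : ∀ w : Fin d → U, (ocone p w).Nonempty := fun w =>
    ⟨_, fun _ => 1, fun _ => one_pos, rfl⟩
  set A : Finset (Fin d → ℝ) :=
    (fts d cones).biUnion fun w => Finset.univ.image fun k => p (w k) with hA
  have hA' : ∀ w ∈ fts d cones, ∀ k, p (w k) ∈ A := by
    intro w hw k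
    rw [hA]
    exact Finset.mem_biUnion.2 ⟨w, hw, Finset.mem_image.2 ⟨k, Finset.mem_univ _, rfl⟩⟩
  obtain ⟨x, hx, hx'⟩ := FanConn_gp A (ocone p w₀) (isOpen_ocone h hw₀) (hne w₀)
  obtain ⟨y, hy, hy'⟩ := FanConn_gp (insert x A) (ocone p w₁) (isOpen_ocone h hw₁) (hne w₁)
  have hgen : ∀ w ∈ fts d cones, ∀ e : Fin d ↪o Fin (d + 2),
      Matrix.det (Matrix.of fun a b => FanConn_S p x y w (e a) b) ≠ 0 := by
    intro w hw e
    refine FanConn_det p x y w (fan_det_ne_zero h hw) A (hA' w hw) hx' ?_ e
    intro T hT hT'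
    refine hy' T ?_ hT'
    intro t ht
    rcases hT t ht with h1 | h1
    · rw [h1]
      exact Finset.mem_insert_self _ _
    · exact Finset.mem_insert_of_mem h1
  have h1 := FanConn_eq h f hf x y hgen
  have h2 := FanConn_eq h (fun _ => 1) (fun _ _ _ _ _ _ _ => rfl) x y hgen
  rw [FanConn_val h _ hw₀ hx, FanConn_val h _ hw₁ hy] at h1 h2
  rw [mul_one, mul_one] at h2
  rw [← h2] at h1
  have h3 : (((fts d cones).filter fun w => x ∈ ocone p w).card : ℝ) ≠ 0 := by
    have h4 : 0 < ((fts d cones).filter fun w => x ∈ ocone p w).card :=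
      Finset.card_pos.2 ⟨w₀, Finset.mem_filter.2 ⟨hw₀, hx⟩⟩
    exact_mod_cast h4.ne'
  exact mul_left_cancel₀ h3 h1

end Pool.Agent.ChS
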