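import Pool.Agent.ChS.FanBasic

/-!
# Dual 1-cocycles of a complete fan are coboundaries

For `d = 2` take `τ = ∅` in `ha`.  Let `d ≥ 2` in general.  Note `a σ σ' = -a σ' σ` for adjacent
chambers (take `τ ⊆ σ ∩ σ'` with `d - 2` elements in `ha`).  For `w ∈ fts` and `i : Fin d` let
`w^i = F_i w` be the flip (`exists_flip`) and write `p w\i` for the vectors `p w_k`, `k ≠ i`, in order.

Fix a point `x₀`.  All points below are in general position: any `d` of the vectors
`x₀, x, y, p v (v ∈ σ)` are linearly independent for every chamber `σ` (possible by `fan_avoid`).  Put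
`f x = ∑_w fo p w * ∑_i (-1)^i * a (im w) (im w^i) * eps (-x₀, -x, p w\i)`.

(1) `f y - f x = ∑_w fo p w * ∑_i (-1)^i * a (im w) (im w^i) * eps (-x, -y, p w\i)`.
Apply `eps_cocycle` to `(-x₀, -x, -y, p w\i)`: it remains to see that
`E = ∑_w fo p w * ∑_i (-1)^i * a (im w) (im w^i) * ∑_j (-1)^j * eps (-x₀, -x, -y, p w\{i,k})` vanishes,
where `k = i.succAbove j`.  Up to a sign depending only on `(i, k)` the `(i, k)` term is
`∑_w fo p w * a (im w) (im w^i) * G w`, `G w = eps (-x₀, -x, -y, p w\{i,k})`.  Let `τ = im w \ {w_i, w_k}`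
and `g = g_τ` as in `ha` (depends only on `τ`).  Then `a (im w) (im w^i) = g (im w) - g (im w^i)`; the
involution `F_i` (which preserves `τ` and `G` and changes the sign of `fo`) gives
`∑_w fo p w * g (im w^i) * G w = -∑_w fo p w * g (im w) * G w`, and
`∑_w fo p w * g (im w) * G w = 0` by the swap of `w_i` and `w_k` (`fts_swap`).

(2) If `eps (-x, -y, p w\i) ≠ 0` then `α x + β y = ∑_{k ≠ i} c_k p w_k` with all `α, β, c_k > 0`.
So if `x, y` lie in the open cone of the same chamber the right hand side of (1) vanishes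
(uniqueness in `IsFan.cover`): `f x` depends only on the chamber of `x`.

(3) Let `σ, σ'` be adjacent, `F = σ ∩ σ'`, `σ = insert w₁ F`, `σ' = insert w₂ F`, and `q = ∑_{v ∈ F} p v`.
The union of the open cones of `σ`, `σ'` and the relatively open cone of `F` is a neighbourhood of
`q` (use the coordinates with respect to `σ` and `α • p w₁ + β • p w₂ ∈ span F`) and is stable under
positive multiples.  Choose `x` near `q` in the open cone of `σ`, `y` near `q` in the open cone of `σ'`, such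
that all `α x + β y` (`α, β ≥ 0`, not both 0) are in this union (convexity of a ball around `q`).
Then in (1) only terms with `im w ∈ {σ, σ'}` and `im w \ {w_i} = F` contribute.  If `im w = σ`,
`w_i = w₁`, then `eps (-x, -y, p w\i) = (-1)^i fo p w` (`tco` at the index of `-y` is
`-det (-x, p w\i) = det (x, p w\i)`, of sign `(-1)^i fo p w`; not zero since `αx + βy` lies in the
relatively open cone of `F` for suitable `α, β > 0`), contribution `a σ σ'`.  If `im w = σ'`, `w_i = w₂`,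
the value is `-(-1)^i fo p w` and the contribution is `-a σ' σ = a σ σ'`.  There are `d!` terms of
each kind, so `f y - f x = 2 d! a σ σ'`.  Take `-f / (2 d!)`.
-/

namespace Pool.Agent.ChS

open Matrix Pool.Agent.ChP

variable {d : ℕ} {U : Type} [DecidableEq U] {cones : Finset (Finset U)} {p : U → Fin d → ℝ}

/-- the right hand side of the difference formula -/
noncomputable def rhsF (p : U → Fin d → ℝ) (cones : Finset (Finset U))
    (a : Finset U → Finset U → ℝ) (Fl : Fin d → (Fin d → U) → (Fin d → U))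
    (e : Fin d → (Fin d → U) → ℝ) : ℝ :=
  ∑ w ∈ fts d cones, fo p w * ∑ i : Fin d, (-1) ^ (i : ℕ) *
    a (Finset.univ.image w) (Finset.univ.image (Fl i w)) * e i w

private theorem FanH1_sign_mul (a b : ℝ) : Real.sign (a * b) = Real.sign a * Real.sign b := by
  rcases lt_trichotomy a 0 with ha | ha | ha <;> rcases lt_trichotomy b 0 with hb | hb | hb
  · rw [Real.sign_of_pos (mul_pos_of_neg_of_neg ha hb), Real.sign_of_neg ha, Real.sign_of_neg hb]
    norm_num
  · subst hb; simp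
  · rw [Real.sign_of_neg (mul_neg_of_neg_of_pos ha hb), Real.sign_of_neg ha, Real.sign_of_pos hb]
    norm_num
  · subst ha; simp
  · subst ha; simp
  · subst ha; simp
  · rw [Real.sign_of_neg (mul_neg_of_pos_of_neg ha hb), Real.sign_of_pos ha, Real.sign_of_neg hb]
    norm_num
  · subst hb; simp
  · rw [Real.sign_of_pos (mul_pos ha hb), Real.sign_of_pos ha, Real.sign_of_pos hb]
    norm_num

/-! ### General position -/

/-- any `m` of the vectors are linearly independent -/
private def FanH1_Pos {m N : ℕ} (s : Fin N → Fin m → ℝ) : Prop :=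
  ∀ k ≤ m, ∀ e : Fin k ↪o Fin N, LinearIndependent ℝ (fun a => s (e a))

private theorem FanH1_det_ne {m : ℕ} {s : Fin m → Fin m → ℝ} (h : LinearIndependent ℝ s) :
    Matrix.det (Matrix.of s) ≠ 0 := by
  have h1 : IsUnit (Matrix.of s) := Matrix.linearIndependent_rows_iff_isUnit.1 h
  exact ((Matrix.isUnit_iff_isUnit_det _).1 h1).ne_zero

private theorem FanH1_indep {m : ℕ} {s : Fin m → Fin m → ℝ} (h : Matrix.det (Matrix.of s) ≠ 0) :
    LinearIndependent ℝ s :=
  Matrix.linearIndependent_rows_iff_isUnit.2 ((Matrix.isUnit_iff_isUnit_det _).2 h.isUnit)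

private theorem FanH1_pos_of_indep {m N : ℕ} {s : Fin N → Fin m → ℝ} (h : LinearIndependent ℝ s) :
    FanH1_Pos s := fun _ _ e => h.comp e e.injective

private theorem FanH1_pos_cons {m N : ℕ} {s : Fin N → Fin m → ℝ} (hs : FanH1_Pos s)
    (z : Fin m → ℝ) (hz : ∀ k : Fin m, ∀ g : Fin (k : ℕ) → Fin N,
      z ∉ Submodule.span ℝ (Set.range fun a => s (g a))) :
    FanH1_Pos (Fin.cons z s : Fin (N + 1) → Fin m → ℝ) := by
  intro k hk e
  rcases Nat.eq_zero_or_pos k with rfl | hk0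
  · exact linearIndependent_empty_type
  obtain ⟨k', rfl⟩ : ∃ k', k = k' + 1 := ⟨k - 1, by omega⟩
  by_cases h0 : e 0 = 0
  · have hne : ∀ j : Fin k', e j.succ ≠ 0 := by
      intro j hj
      rw [← h0] at hj
      exact Fin.succ_ne_zero j (e.injective hj)
    set e' : Fin k' ↪o Fin N := OrderEmbedding.ofStrictMono (fun j => (e j.succ).pred (hne j)) (by
      intro i j hij
      exact Fin.pred_lt_pred_iff.2 (e.strictMono (Fin.succ_lt_succ_iff.2 hij))) with he'
    have h1 : (fun a => (Fin.cons z s : Fin (N + 1) → Fin m → ℝ) (e a)) =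
        (Fin.cons z (fun j => s (e' j)) : Fin (k' + 1) → Fin m → ℝ) := by
      funext a
      refine Fin.cases ?_ (fun j => ?_) a
      · rw [h0, Fin.cons_zero, Fin.cons_zero]
      · rw [Fin.cons_succ]
        have h2 : e j.succ = (e' j).succ := (Fin.succ_pred (e j.succ) (hne j)).symm
        rw [h2, Fin.cons_succ]
    rw [h1, linearIndependent_finCons]
    exact ⟨hs k' (by omega) e', hz ⟨k', by omega⟩ e'⟩
  · have hne : ∀ j : Fin (k' + 1), e j ≠ 0 := by
      intro j hj
      have h2 : e 0 ≤ e j := e.monotone (Fin.zero_le j)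
      rw [hj] at h2
      exact h0 (Fin.le_zero_iff.1 h2)
    set e' : Fin (k' + 1) ↪o Fin N := OrderEmbedding.ofStrictMono (fun j => (e j).pred (hne j)) (by
      intro i j hij
      exact Fin.pred_lt_pred_iff.2 (e.strictMono hij)) with he'
    have h1 : (fun a => (Fin.cons z s : Fin (N + 1) → Fin m → ℝ) (e a)) =
        (fun j => s (e' j)) := by
      funext j
      have h2 : e j = (e' j).succ := (Fin.succ_pred (e j) (hne j)).symm
      rw [h2, Fin.cons_succ]
    rw [h1]
    exact hs (k' + 1) hk e'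

private theorem FanH1_exists_pos {m N : ℕ} {ι : Type*} [Finite ι] (s : ι → Fin N → Fin m → ℝ)
    (hs : ∀ i, FanH1_Pos (s i)) (O : Set (Fin m → ℝ)) (hO : IsOpen O) (hne : O.Nonempty) :
    ∃ z ∈ O, ∀ i, FanH1_Pos (Fin.cons (-z) (s i) : Fin (N + 1) → Fin m → ℝ) := by
  have h1 := fan_avoid (ι := ι × (Σ k : Fin m, (Fin (k : ℕ) → Fin N)))
    (fun q => Submodule.span ℝ (Set.range fun a => s q.1 (q.2.2 a))) (by
      rintro ⟨i, k, g⟩ htop
      have h2 : Module.finrank ℝ (Submodule.span ℝ (Set.range fun a => s i (g a))) ≤ (k : ℕ) := by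
        have := finrank_range_le_card (R := ℝ) (fun a => s i (g a))
        rw [Fintype.card_fin] at this
        exact this
      have h3 : Submodule.span ℝ (Set.range fun a => s i (g a)) = ⊤ := htop
      rw [h3, finrank_top, Module.finrank_fin_fun] at h2
      exact absurd k.isLt (by omega))
    O hO hne
  obtain ⟨z, hz, hz'⟩ := h1
  refine ⟨z, hz, fun i => FanH1_pos_cons (hs i) (-z) fun k g => ?_⟩
  rw [Submodule.neg_mem_iff]
  exact hz' (i, ⟨k, g⟩)

/-! ### The cocycle identity -/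

private theorem FanH1_cons_sa {m : ℕ} {α : Type*} (a : α) (t : Fin (m + 1) → α) (j : Fin (m + 1)) :
    (fun i' : Fin (m + 1) => (Fin.cons a t : Fin (m + 2) → α) (j.succ.succAbove i')) =
      (Fin.cons a (fun i' : Fin m => t (j.succAbove i')) : Fin (m + 1) → α) := by
  funext i'
  refine Fin.cases ?_ (fun l => ?_) i'
  · rw [Fin.succ_succAbove_zero, Fin.cons_zero, Fin.cons_zero]
  · rw [Fin.succ_succAbove_succ, Fin.cons_succ, Fin.cons_succ]

private theorem FanH1_cons_sa0 {m : ℕ} {α : Type*} (a : α) (t : Fin m → α) :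
    (fun i' : Fin m => (Fin.cons a t : Fin (m + 1) → α) ((0 : Fin (m + 1)).succAbove i')) =
      t := by
  funext i'
  rw [Fin.zero_succAbove, Fin.cons_succ]

private theorem FanH1_pos_drop {m N : ℕ} {s : Fin N → Fin m → ℝ} {A B : Fin m → ℝ}
    (h : FanH1_Pos (Fin.cons A (Fin.cons B s) : Fin (N + 2) → Fin m → ℝ)) :
    FanH1_Pos (Fin.cons A s : Fin (N + 1) → Fin m → ℝ) := by
  intro k hk e
  have h1 := h k hk (e.trans (Fin.succAboveOrderEmb (Fin.succ 0)))
  have h2 : (fun a => (Fin.cons A (Fin.cons B s) : Fin (N + 2) → Fin m → ℝ)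
      ((e.trans (Fin.succAboveOrderEmb (Fin.succ 0))) a)) =
      fun a => (Fin.cons A s : Fin (N + 1) → Fin m → ℝ) (e a) := by
    funext a
    have h3 := congrFun (FanH1_cons_sa A (Fin.cons B s : Fin (N + 1) → Fin m → ℝ) 0) (e a)
    rw [FanH1_cons_sa0] at h3
    exact h3
  rw [h2] at h1
  exact h1

private theorem FanH1_four {n : ℕ} (X Y Z : Fin (n + 2) → ℝ) (v : Fin (n + 1) → Fin (n + 2) → ℝ)
    (h : FanH1_Pos (Fin.cons X (Fin.cons Y (Fin.cons Z v)) : Fin (n + 4) → Fin (n + 2) → ℝ)) :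
    eps (Fin.cons X (Fin.cons Y v) : Fin (n + 3) → Fin (n + 2) → ℝ) =
      eps (Fin.cons X (Fin.cons Z v) : Fin (n + 3) → Fin (n + 2) → ℝ) -
      eps (Fin.cons Y (Fin.cons Z v) : Fin (n + 3) → Fin (n + 2) → ℝ) +
      ∑ k : Fin (n + 1), (-1) ^ (k : ℕ) *
        eps (Fin.cons X (Fin.cons Y (Fin.cons Z fun j => v (k.succAbove j))) :
          Fin (n + 3) → Fin (n + 2) → ℝ) := by
  have h1 := eps_cocycle (n := n + 2)
    (Fin.cons X (Fin.cons Y (Fin.cons Z v)) : Fin (n + 4) → Fin (n + 2) → ℝ)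
    (fun e => FanH1_det_ne (h (n + 2) le_rfl e))
  rw [Fin.sum_univ_succ, Fin.sum_univ_succ, Fin.sum_univ_succ] at h1
  rw [FanH1_cons_sa0, FanH1_cons_sa, FanH1_cons_sa0, FanH1_cons_sa, FanH1_cons_sa,
    FanH1_cons_sa0] at h1
  have h2 : ∀ k : Fin (n + 1), (-1 : ℝ) ^ (k.succ.succ.succ : ℕ) * eps (fun i' : Fin (n + 3) =>
      (Fin.cons X (Fin.cons Y (Fin.cons Z v)) : Fin (n + 4) → Fin (n + 2) → ℝ)
        (k.succ.succ.succ.succAbove i')) = -((-1) ^ (k : ℕ) *
        eps (Fin.cons X (Fin.cons Y (Fin.cons Z fun j => v (k.succAbove j))) :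
          Fin (n + 3) → Fin (n + 2) → ℝ)) := by
    intro k
    rw [FanH1_cons_sa, FanH1_cons_sa, FanH1_cons_sa]
    simp only [Fin.val_succ, pow_succ]
    ring
  rw [Finset.sum_congr rfl fun k _ => h2 k, Finset.sum_neg_distrib] at h1
  simp only [Fin.val_succ, Fin.val_zero] at h1
  rw [pow_zero, zero_add, pow_one, show ((-1 : ℝ)) ^ (1 + 1) = 1 by norm_num] at h1
  linarith

/-! ### The involutions -/

private theorem FanH1_sum_swap {n : ℕ} {cones : Finset (Finset U)} {p : U → Fin (n + 2) → ℝ}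
    (i k : Fin (n + 2)) (hik : i ≠ k) (G : (Fin (n + 2) → U) → ℝ)
    (hG : ∀ w, G (fun j => w (Equiv.swap i k j)) = G w) :
    ∑ w ∈ fts (n + 2) cones, fo p w * G w = 0 := by
  have h1 : ∑ w ∈ fts (n + 2) cones, fo p w * G w =
      ∑ w ∈ fts (n + 2) cones, -(fo p w * G w) := by
    refine Finset.sum_bij' (fun w _ => fun j => w (Equiv.swap i k j))
      (fun w _ => fun j => w (Equiv.swap i k j)) ?_ ?_ ?_ ?_ ?_
    · exact fun w hw => (fts_swap (p := p) hw hik).1
    · exact fun w hw => (fts_swap (p := p) hw hik).1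
    · intro w _
      funext j
      simp
    · intro w _
      funext j
      simp
    · intro w hw
      rw [(fts_swap (p := p) hw hik).2, hG]
      ring
  rw [Finset.sum_neg_distrib] at h1
  linarith

private theorem FanH1_sum_flip {n : ℕ} {cones : Finset (Finset U)} {p : U → Fin (n + 2) → ℝ}
    (F : (Fin (n + 2) → U) → (Fin (n + 2) → U))
    (hF : ∀ w ∈ fts (n + 2) cones, F w ∈ fts (n + 2) cones ∧ F (F w) = w ∧ fo p (F w) = -fo p w)
    (G : (Fin (n + 2) → U) → ℝ) :
    ∑ w ∈ fts (n + 2) cones, fo p w * G (F w) = -∑ w ∈ fts (n + 2) cones, fo p w * G w := by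
  rw [← Finset.sum_neg_distrib]
  refine Finset.sum_bij' (fun w _ => F w) (fun w _ => F w) ?_ ?_ ?_ ?_ ?_
  · exact fun w hw => (hF w hw).1
  · exact fun w hw => (hF w hw).1
  · exact fun w hw => (hF w hw).2.1
  · exact fun w hw => (hF w hw).2.1
  · intro w hw
    rw [(hF w hw).2.2]
    ring

private theorem FanH1_sum_zero {n : ℕ} {cones : Finset (Finset U)} {p : U → Fin (n + 2) → ℝ}
    (h : IsFan cones p) (a : Finset U → Finset U → ℝ)
    (gg : Finset U → Finset U → ℝ)
    (hg : ∀ τ ∈ cones, τ.card + 2 = n + 2 → ∀ σ ∈ cones, ∀ σ' ∈ cones,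
      σ.card = n + 2 → σ'.card = n + 2 → τ ⊆ σ → τ ⊆ σ' → a σ σ' = gg τ σ - gg τ σ')
    (i : Fin (n + 2)) (k : Fin (n + 1)) (F : (Fin (n + 2) → U) → (Fin (n + 2) → U))
    (hF : ∀ w ∈ fts (n + 2) cones, F w ∈ fts (n + 2) cones ∧ F (F w) = w ∧
      (∀ k, k ≠ i → F w k = w k) ∧ fo p (F w) = -fo p w)
    (Γ : (Fin n → U) → ℝ) :
    ∑ w ∈ fts (n + 2) cones, fo p w * (a (Finset.univ.image w) (Finset.univ.image (F w)) *
      Γ (fun j => w (i.succAbove (k.succAbove j)))) = 0 := by
  set τ : (Fin (n + 2) → U) → Finset U :=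
    fun w => Finset.univ.image fun j : Fin n => w (i.succAbove (k.succAbove j)) with hτ
  have hsub : ∀ w, τ w ⊆ Finset.univ.image w := by
    intro w x hx
    rw [hτ, Finset.mem_image] at hx
    obtain ⟨j, _, rfl⟩ := hx
    exact Finset.mem_image_of_mem _ (Finset.mem_univ _)
  have hcard : ∀ w ∈ fts (n + 2) cones, (τ w).card + 2 = n + 2 := by
    intro w hw
    have hinj := (mem_fts.1 hw).1
    have h1 : Function.Injective fun j : Fin n => w (i.succAbove (k.succAbove j)) :=
      hinj.comp (Fin.succAbove_right_injective.comp Fin.succAbove_right_injective)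
    rw [hτ]
    dsimp only
    rw [Finset.card_image_of_injective _ h1, Finset.card_univ, Fintype.card_fin]
  have hτF : ∀ w ∈ fts (n + 2) cones,
      (fun j : Fin n => F w (i.succAbove (k.succAbove j))) =
        fun j => w (i.succAbove (k.succAbove j)) := by
    intro w hw
    funext j
    exact (hF w hw).2.2.1 _ (Fin.succAbove_ne i _)
  have hτF' : ∀ w ∈ fts (n + 2) cones, τ (F w) = τ w := by
    intro w hw
    rw [hτ]
    dsimp only
    rw [hτF w hw]
  have h1 : ∀ w ∈ fts (n + 2) cones,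
      fo p w * (a (Finset.univ.image w) (Finset.univ.image (F w)) *
        Γ (fun j => w (i.succAbove (k.succAbove j)))) =
      fo p w * (gg (τ w) (Finset.univ.image w) * Γ (fun j => w (i.succAbove (k.succAbove j)))) -
      fo p w * (gg (τ (F w)) (Finset.univ.image (F w)) *
        Γ (fun j => F w (i.succAbove (k.succAbove j)))) := by
    intro w hw
    have h2 := fts_card h hw
    have h3 := fts_card h (hF w hw).1
    rw [hτF' w hw, hτF w hw, hg (τ w) (h.down _ h2.1 _ (hsub w)) (hcard w hw) _ h2.1 _ h3.1 h2.2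
      h3.2 (hsub w) (by rw [← hτF' w hw]; exact hsub _)]
    ring
  rw [Finset.sum_congr rfl h1, Finset.sum_sub_distrib]
  have h2 : ∑ w ∈ fts (n + 2) cones, fo p w * (gg (τ w) (Finset.univ.image w) *
      Γ (fun j => w (i.succAbove (k.succAbove j)))) = 0 := by
    refine FanH1_sum_swap (p := p) i (i.succAbove k) (Fin.succAbove_ne i k).symm
      (fun w => gg (τ w) (Finset.univ.image w) * Γ (fun j => w (i.succAbove (k.succAbove j)))) ?_
    intro w
    have h3 : (fun j : Fin n => w (Equiv.swap i (i.succAbove k) (i.succAbove (k.succAbove j)))) =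
        fun j => w (i.succAbove (k.succAbove j)) := by
      funext j
      rw [Equiv.swap_apply_of_ne_of_ne (Fin.succAbove_ne i _)]
      intro h4
      exact Fin.succAbove_ne k j (Fin.succAbove_right_injective h4)
    have h4 : Finset.univ.image (fun j => w (Equiv.swap i (i.succAbove k) j)) =
        Finset.univ.image w := by
      ext x
      simp only [Finset.mem_image, Finset.mem_univ, true_and]
      constructor
      · rintro ⟨j, rfl⟩
        exact ⟨_, rfl⟩
      · rintro ⟨j, rfl⟩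
        exact ⟨Equiv.swap i (i.succAbove k) j, by simp⟩
    rw [hτ]
    dsimp only
    rw [h3, h4]
  have h3 := FanH1_sum_flip (p := p) F (fun w hw => ⟨(hF w hw).1, (hF w hw).2.1, (hF w hw).2.2.2⟩)
    (fun w => gg (τ w) (Finset.univ.image w) * Γ (fun j => w (i.succAbove (k.succAbove j))))
  rw [h3, h2]
  simp

/-! ### The difference formula -/

private noncomputable def FanH1_v {n : ℕ} (p : U → Fin (n + 2) → ℝ) (i : Fin (n + 2))
    (w : Fin (n + 2) → U) : Fin (n + 1) → Fin (n + 2) → ℝ := fun j => p (w (i.succAbove j))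

private noncomputable def FanH1_E {n : ℕ} (p : U → Fin (n + 2) → ℝ) (x y : Fin (n + 2) → ℝ)
    (i : Fin (n + 2)) (w : Fin (n + 2) → U) : ℝ :=
  eps (Fin.cons (-x) (Fin.cons (-y) (FanH1_v p i w)) : Fin (n + 3) → Fin (n + 2) → ℝ)

private theorem FanH1_diff {n : ℕ} {cones : Finset (Finset U)} {p : U → Fin (n + 2) → ℝ}
    (h : IsFan cones p) (a : Finset U → Finset U → ℝ)
    (gg : Finset U → Finset U → ℝ)
    (hg : ∀ τ ∈ cones, τ.card + 2 = n + 2 → ∀ σ ∈ cones, ∀ σ' ∈ cones,
      σ.card = n + 2 → σ'.card = n + 2 → τ ⊆ σ → τ ⊆ σ' → a σ σ' = gg τ σ - gg τ σ')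
    (Fl : Fin (n + 2) → (Fin (n + 2) → U) → (Fin (n + 2) → U))
    (hF : ∀ i, ∀ w ∈ fts (n + 2) cones, Fl i w ∈ fts (n + 2) cones ∧ Fl i (Fl i w) = w ∧
      (∀ k, k ≠ i → Fl i w k = w k) ∧ fo p (Fl i w) = -fo p w)
    (x₀ x y : Fin (n + 2) → ℝ)
    (hP : ∀ w ∈ fts (n + 2) cones, ∀ i, FanH1_Pos (Fin.cons (-y) (Fin.cons (-x)
      (Fin.cons (-x₀) (FanH1_v p i w))) : Fin (n + 4) → Fin (n + 2) → ℝ)) :
    rhsF p cones a Fl (FanH1_E p y x) =
      rhsF p cones a Fl (FanH1_E p y x₀) - rhsF p cones a Fl (FanH1_E p x x₀) := by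
  obtain ⟨Γ, hΓ⟩ : ∃ Γ : (Fin n → U) → ℝ, ∀ g : Fin n → U, Γ g =
      eps (Fin.cons (-y) (Fin.cons (-x) (Fin.cons (-x₀) fun j => p (g j))) :
        Fin (n + 3) → Fin (n + 2) → ℝ) := ⟨_, fun _ => rfl⟩
  have h1 : rhsF p cones a Fl (FanH1_E p y x) - (rhsF p cones a Fl (FanH1_E p y x₀) -
      rhsF p cones a Fl (FanH1_E p x x₀)) =
      ∑ w ∈ fts (n + 2) cones, ∑ i : Fin (n + 2), ∑ k : Fin (n + 1),
        (-1) ^ (i : ℕ) * (-1) ^ (k : ℕ) *
        (fo p w * (a (Finset.univ.image w) (Finset.univ.image (Fl i w)) *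
          Γ (fun j => w (i.succAbove (k.succAbove j))))) := by
    unfold rhsF
    rw [← Finset.sum_sub_distrib, ← Finset.sum_sub_distrib]
    refine Finset.sum_congr rfl fun w hw => ?_
    rw [← mul_sub, ← mul_sub, ← Finset.sum_sub_distrib, ← Finset.sum_sub_distrib, Finset.mul_sum]
    refine Finset.sum_congr rfl fun i _ => ?_
    have h2 := FanH1_four (-y) (-x) (-x₀) (FanH1_v p i w) (hP w hw i)
    have h3 : ∀ k : Fin (n + 1), Γ (fun j => w (i.succAbove (k.succAbove j))) =
        eps (Fin.cons (-y) (Fin.cons (-x) (Fin.cons (-x₀) fun j => FanH1_v p i w (k.succAbove j)))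
          : Fin (n + 3) → Fin (n + 2) → ℝ) := fun k => hΓ _
    simp only [← h3] at h2
    unfold FanH1_E
    rw [h2]
    have h4 : ∀ A B C D F S : ℝ, A * (B * C * (D - F + S) - (B * C * D - B * C * F)) =
        (A * B * C) * S := by intros; ring
    rw [h4, Finset.mul_sum]
    refine Finset.sum_congr rfl fun k _ => ?_
    ring
  have h2 : ∑ w ∈ fts (n + 2) cones, ∑ i : Fin (n + 2), ∑ k : Fin (n + 1),
        (-1) ^ (i : ℕ) * (-1) ^ (k : ℕ) *
        (fo p w * (a (Finset.univ.image w) (Finset.univ.image (Fl i w)) *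
          Γ (fun j => w (i.succAbove (k.succAbove j))))) = (0 : ℝ) := by
    rw [Finset.sum_comm]
    refine Finset.sum_eq_zero fun i _ => ?_
    rw [Finset.sum_comm]
    refine Finset.sum_eq_zero fun k _ => ?_
    have h3 := FanH1_sum_zero h a gg hg i k (Fl i) (hF i) Γ
    rw [← Finset.mul_sum, h3, mul_zero]
  rw [h2] at h1
  linarith

/-! ### Signs -/

private theorem FanH1_solve {m : ℕ} (s : Fin m → Fin m → ℝ) (hs : Matrix.det (Matrix.of s) ≠ 0)
    (x : Fin m → ℝ) : ∑ a, (x ᵥ* (Matrix.of s)⁻¹) a • s a = x := by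
  have h1 : (x ᵥ* (Matrix.of s)⁻¹) ᵥ* (Matrix.of s) = x := by
    rw [Matrix.vecMul_vecMul, Matrix.nonsing_inv_mul _ hs.isUnit, Matrix.vecMul_one]
  rw [Matrix.vecMul_eq_sum] at h1
  exact h1

private theorem FanH1_coord {m : ℕ} (s : Fin m → Fin m → ℝ) (hs : Matrix.det (Matrix.of s) ≠ 0)
    (c : Fin m → ℝ) : (∑ a, c a • s a) ᵥ* (Matrix.of s)⁻¹ = c := by
  have h1 : c ᵥ* (Matrix.of s) = ∑ a, c a • s a := Matrix.vecMul_eq_sum _ _
  rw [← h1, Matrix.vecMul_vecMul, Matrix.mul_nonsing_inv _ hs.isUnit, Matrix.vecMul_one]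

private theorem FanH1_eps_of {n : ℕ} (x y : Fin (n + 2) → ℝ) (v : Fin (n + 1) → Fin (n + 2) → ℝ)
    (β : ℝ) (hβ : 0 < β) (c : Fin (n + 1) → ℝ) (hc : ∀ j, 0 < c j)
    (hz : x + β • y = ∑ j, c j • v j) :
    eps (Fin.cons (-x) (Fin.cons (-y) v) : Fin (n + 3) → Fin (n + 2) → ℝ) =
      Real.sign (Matrix.det (Matrix.of (Fin.cons (-y) v : Fin (n + 2) → Fin (n + 2) → ℝ))) := by
  have h1 := eps_cons (Fin.cons (-y) v : Fin (n + 2) → Fin (n + 2) → ℝ)
    (Fin.cons β c : Fin (n + 2) → ℝ)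
  have h2 : ∑ i, (Fin.cons β c : Fin (n + 2) → ℝ) i •
      (Fin.cons (-y) v : Fin (n + 2) → Fin (n + 2) → ℝ) i = x := by
    rw [Fin.sum_univ_succ]
    simp only [Fin.cons_zero, Fin.cons_succ]
    rw [← hz, smul_neg]
    abel
  rw [h2, if_pos] at h1
  · exact h1
  · intro i
    refine Fin.cases ?_ (fun j => ?_) i
    · rw [Fin.cons_zero]; exact hβ
    · rw [Fin.cons_succ]; exact hc j

private theorem FanH1_of_eps {n : ℕ} (x y : Fin (n + 2) → ℝ) (v : Fin (n + 1) → Fin (n + 2) → ℝ)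
    (h : eps (Fin.cons (-x) (Fin.cons (-y) v) : Fin (n + 3) → Fin (n + 2) → ℝ) ≠ 0) :
    ∃ β : ℝ, 0 < β ∧ ∃ c : Fin (n + 1) → ℝ, (∀ j, 0 < c j) ∧ x + β • y = ∑ j, c j • v j := by
  have hD : Matrix.det (Matrix.of (Fin.cons (-y) v : Fin (n + 2) → Fin (n + 2) → ℝ)) ≠ 0 := by
    intro hD
    exact h (eps_cons_of_det_eq_zero _ _ hD)
  set s : Fin (n + 2) → Fin (n + 2) → ℝ := Fin.cons (-y) v with hs
  have h1 := FanH1_solve s hD x
  set u := x ᵥ* (Matrix.of s)⁻¹ with hu
  have h2 := eps_cons s u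
  rw [h1] at h2
  rw [h2] at h
  have h3 : ∀ i, 0 < u i := by
    by_contra hn
    rw [if_neg hn] at h
    exact h rfl
  refine ⟨u 0, h3 0, fun j => u j.succ, fun j => h3 _, ?_⟩
  rw [Fin.sum_univ_succ] at h1
  have h4 : s 0 = -y := by rw [hs, Fin.cons_zero]
  have h5 : ∀ j : Fin (n + 1), s j.succ = v j := fun j => by rw [hs, Fin.cons_succ]
  rw [h4] at h1
  simp only [h5] at h1
  rw [← h1, smul_neg]
  abel

private theorem FanH1_det_cons {m : ℕ} (A : Matrix (Fin (m + 1)) (Fin (m + 1)) ℝ) (i : Fin (m + 1))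
    (x : Fin (m + 1) → ℝ) :
    Matrix.det (Matrix.of (Fin.cons x (fun j : Fin m => A (i.succAbove j)) :
      Fin (m + 1) → Fin (m + 1) → ℝ)) = (-1) ^ (i : ℕ) * Matrix.det (A.updateRow i x) := by
  rw [Matrix.det_succ_row_zero, Matrix.det_succ_row _ i, Finset.mul_sum]
  refine Finset.sum_congr rfl fun b _ => ?_
  have h1 : (Matrix.of (Fin.cons x (fun j : Fin m => A (i.succAbove j)) :
      Fin (m + 1) → Fin (m + 1) → ℝ)).submatrix Fin.succ b.succAbove =
      (A.updateRow i x).submatrix i.succAbove b.succAbove := by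
    ext r c
    rw [Matrix.submatrix_apply, Matrix.submatrix_apply,
      Matrix.updateRow_ne (Fin.succAbove_ne i r), Matrix.of_apply, Fin.cons_succ]
  have h2 : (Matrix.of (Fin.cons x (fun j : Fin m => A (i.succAbove j)) :
      Fin (m + 1) → Fin (m + 1) → ℝ)) 0 b = x b := by
    rw [Matrix.of_apply, Fin.cons_zero]
  have h3 : (A.updateRow i x) i b = x b := by
    rw [Matrix.updateRow_self]
  rw [h1, h2, h3]
  have h4 : ((-1 : ℝ)) ^ (i : ℕ) * (-1) ^ (i : ℕ) = 1 := by
    rw [← mul_pow]; norm_num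
  rw [pow_add]
  calc (-1 : ℝ) ^ (b : ℕ) * x b * ((A.updateRow i x).submatrix i.succAbove b.succAbove).det
      = ((-1 : ℝ) ^ (i : ℕ) * (-1) ^ (i : ℕ)) * ((-1 : ℝ) ^ (b : ℕ) * x b *
        ((A.updateRow i x).submatrix i.succAbove b.succAbove).det) := by rw [h4, one_mul]
    _ = _ := by ring

/-! ### Relatively open cones -/

/-- `z` lies in the relatively open cone of `τ` -/
private def FanH1_M (cones : Finset (Finset U)) (p : U → Fin d → ℝ) (τ : Finset U)
    (z : Fin d → ℝ) : Prop :=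
  τ ∈ cones ∧ ∃ c : U → ℝ, (∀ v ∈ τ, 0 < c v) ∧ ∑ v ∈ τ, c v • p v = z

private theorem FanH1_M_of {k : ℕ} (w : Fin k → U) (hw : Function.Injective w)
    (hτ : Finset.univ.image w ∈ cones) (c : Fin k → ℝ) (hc : ∀ j, 0 < c j) (z : Fin d → ℝ)
    (hz : z = ∑ j, c j • p (w j)) : FanH1_M cones p (Finset.univ.image w) z := by
  refine ⟨hτ, Function.extend w c 0, ?_, ?_⟩
  · intro v hv
    rw [Finset.mem_image] at hv
    obtain ⟨j, _, rfl⟩ := hv
    rw [hw.extend_apply]
    exact hc j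
  · rw [Finset.sum_image (fun _ _ _ _ h => hw h), hz]
    refine Finset.sum_congr rfl fun j _ => ?_
    rw [hw.extend_apply]

private theorem FanH1_of_M {k : ℕ} (w : Fin k → U) (hw : Function.Injective w) {z : Fin d → ℝ}
    (hz : FanH1_M cones p (Finset.univ.image w) z) :
    ∃ c : Fin k → ℝ, (∀ j, 0 < c j) ∧ z = ∑ j, c j • p (w j) := by
  obtain ⟨_, c, hc, h1⟩ := hz
  refine ⟨fun j => c (w j), fun j => hc _ (Finset.mem_image_of_mem _ (Finset.mem_univ _)), ?_⟩
  rw [← h1, Finset.sum_image (fun _ _ _ _ h => hw h)]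

private theorem FanH1_uniq (h : IsFan cones p) {τ τ' : Finset U} {z : Fin d → ℝ}
    (h1 : FanH1_M cones p τ z) (h2 : FanH1_M cones p τ' z) : τ = τ' :=
  (h.cover z).unique h1 h2

private theorem FanH1_M_ocone {w : Fin d → U} (hw : w ∈ fts d cones)
    (z : Fin d → ℝ) : FanH1_M cones p (Finset.univ.image w) z ↔ z ∈ ocone p w := by
  constructor
  · intro h1
    obtain ⟨c, hc, h2⟩ := FanH1_of_M w (mem_fts.1 hw).1 h1
    exact ⟨c, hc, h2.symm⟩
  · rintro ⟨c, hc, h2⟩
    exact FanH1_M_of w (mem_fts.1 hw).1 (mem_fts.1 hw).2 c hc z h2.symm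

private theorem FanH1_wall (h : IsFan cones p) {F σ₁ σ₂ σ₃ : Finset U} (hF : F ∈ cones)
    (hc : F.card + 1 = d) (h1 : σ₁ ∈ cones) (c1 : σ₁.card = d) (s1 : F ⊆ σ₁)
    (h2 : σ₂ ∈ cones) (c2 : σ₂.card = d) (s2 : F ⊆ σ₂)
    (h3 : σ₃ ∈ cones) (c3 : σ₃.card = d) (s3 : F ⊆ σ₃) (hne : σ₁ ≠ σ₂) : σ₃ = σ₁ ∨ σ₃ = σ₂ := by
  obtain ⟨w₁, w₂, -, -, -, -, -, hu, -⟩ := h.wall F hF hc
  obtain ⟨u₁, hu₁, rfl⟩ := Finset.exists_eq_insert_iff.2 ⟨s1, by rw [hc, c1]⟩
  obtain ⟨u₂, hu₂, rfl⟩ := Finset.exists_eq_insert_iff.2 ⟨s2, by rw [hc, c2]⟩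
  obtain ⟨u₃, hu₃, rfl⟩ := Finset.exists_eq_insert_iff.2 ⟨s3, by rw [hc, c3]⟩
  have e12 : u₁ ≠ u₂ := by
    rintro rfl
    exact hne rfl
  rcases hu u₁ hu₁ h1 with a1 | a1 <;> rcases hu u₂ hu₂ h2 with a2 | a2 <;>
    rcases hu u₃ hu₃ h3 with a3 | a3
  · exact absurd (a1.trans a2.symm) e12
  · exact absurd (a1.trans a2.symm) e12
  · left; rw [a1, a3]
  · right; rw [a2, a3]
  · right; rw [a2, a3]
  · left; rw [a1, a3]
  · exact absurd (a1.trans a2.symm) e12
  · exact absurd (a1.trans a2.symm) e12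

/-- points of one chamber -/
private theorem FanH1_same {n : ℕ} {cones : Finset (Finset U)} {p : U → Fin (n + 2) → ℝ}
    (h : IsFan cones p) (a : Finset U → Finset U → ℝ)
    (Fl : Fin (n + 2) → (Fin (n + 2) → U) → (Fin (n + 2) → U)) {σ : Finset U}
    (hσ : σ.card = n + 2) (x y : Fin (n + 2) → ℝ) (hx : FanH1_M cones p σ x)
    (hy : FanH1_M cones p σ y) : rhsF p cones a Fl (FanH1_E p y x) = 0 := by
  unfold rhsF
  refine Finset.sum_eq_zero fun w hw => ?_
  rw [Finset.sum_eq_zero, mul_zero]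
  intro i _
  by_cases hE : FanH1_E p y x i w = 0
  · rw [hE, mul_zero]
  exfalso
  obtain ⟨β, hβ, c, hc, hz⟩ := FanH1_of_eps y x (FanH1_v p i w) hE
  have hinj := (mem_fts.1 hw).1
  have hinj' : Function.Injective fun j : Fin (n + 1) => w (i.succAbove j) :=
    hinj.comp Fin.succAbove_right_injective
  have hsub : (Finset.univ.image fun j : Fin (n + 1) => w (i.succAbove j)) ⊆
      Finset.univ.image w := by
    intro v hv
    rw [Finset.mem_image] at hv
    obtain ⟨j, _, rfl⟩ := hv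
    exact Finset.mem_image_of_mem _ (Finset.mem_univ _)
  have h1 : FanH1_M cones p (Finset.univ.image fun j : Fin (n + 1) => w (i.succAbove j))
      (y + β • x) :=
    FanH1_M_of _ hinj' (h.down _ (mem_fts.1 hw).2 _ hsub) c hc _ hz
  have h2 : FanH1_M cones p σ (y + β • x) := by
    obtain ⟨h3, c1, hc1, e1⟩ := hx
    obtain ⟨-, c2, hc2, e2⟩ := hy
    refine ⟨h3, fun v => c2 v + β * c1 v, fun v hv => ?_, ?_⟩
    · exact add_pos (hc2 v hv) (mul_pos hβ (hc1 v hv))
    · rw [← e1, ← e2, Finset.smul_sum, ← Finset.sum_add_distrib]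
      refine Finset.sum_congr rfl fun v _ => ?_
      rw [add_smul, smul_smul]
  have h3 := FanH1_uniq h h1 h2
  have h4 : (Finset.univ.image fun j : Fin (n + 1) => w (i.succAbove j)).card = n + 1 := by
    rw [Finset.card_image_of_injective _ hinj', Finset.card_univ, Fintype.card_fin]
  rw [h3, hσ] at h4
  omega

/-- coordinates near a wall -/
private theorem FanH1_near {n : ℕ} {cones : Finset (Finset U)} {p : U → Fin (n + 2) → ℝ}
    (h : IsFan cones p) {w w₂ : Fin (n + 2) → U} (hw : w ∈ fts (n + 2) cones)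
    (hw₂ : w₂ ∈ fts (n + 2) cones) (i : Fin (n + 2)) (hww : ∀ k, k ≠ i → w₂ k = w k)
    (hfo : fo p w₂ = -fo p w) :
    ∃ (ψ : (Fin (n + 2) → ℝ) → ℝ) (W : Set (Fin (n + 2) → ℝ)),
      (∀ z z' : Fin (n + 2) → ℝ, ∀ β : ℝ, ψ (z + β • z') = ψ z + β * ψ z') ∧
      (∀ z ∈ W, ∀ z' ∈ W, ∀ β : ℝ, 0 < β → z + β • z' ∈ W) ∧
      (∀ z ∈ W, 0 < ψ z → FanH1_M cones p (Finset.univ.image w) z) ∧
      (∀ z ∈ W, ψ z = 0 →
        FanH1_M cones p (Finset.univ.image fun j : Fin (n + 1) => w (i.succAbove j)) z) ∧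
      (∀ z ∈ W, ψ z < 0 → FanH1_M cones p (Finset.univ.image w₂) z) ∧
      IsOpen (W ∩ {z | 0 < ψ z}) ∧ (W ∩ {z | 0 < ψ z}).Nonempty ∧
      IsOpen (W ∩ {z | ψ z < 0}) ∧ (W ∩ {z | ψ z < 0}).Nonempty := by
  have hD : Matrix.det (Matrix.of fun a => p (w a)) ≠ 0 := fan_det_ne_zero h hw
  set φ : (Fin (n + 2) → ℝ) → Fin (n + 2) → ℝ :=
    fun z => z ᵥ* (Matrix.of fun a => p (w a))⁻¹ with hφ
  have c1 : ∀ z, ∑ a, φ z a • p (w a) = z := fun z => FanH1_solve (fun a => p (w a)) hD z
  have c2 : ∀ c : Fin (n + 2) → ℝ, φ (∑ a, c a • p (w a)) = c :=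
    fun c => FanH1_coord (fun a => p (w a)) hD c
  have c3 : ∀ z z' : Fin (n + 2) → ℝ, ∀ β : ℝ, φ (z + β • z') = φ z + β • φ z' := by
    intro z z' β
    simp only [hφ]
    rw [Matrix.add_vecMul, Matrix.smul_vecMul]
  have c4 : ∀ a, Continuous fun z => φ z a := by
    intro a
    simp only [hφ, Matrix.vecMul, dotProduct]
    fun_prop
  set u : Fin (n + 2) → ℝ := φ (p (w₂ i)) with hu
  have c5 : u i < 0 := by
    have h1 : (Matrix.of fun a => p (w₂ a)) =
        (Matrix.of fun a => p (w a)).updateRow i (∑ a, u a • (Matrix.of fun a => p (w a)) a) := by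
      have h2 : ∑ a, u a • (Matrix.of fun a => p (w a)) a = p (w₂ i) := c1 (p (w₂ i))
      rw [h2]
      ext r c
      by_cases hr : r = i
      · subst hr
        rw [Matrix.updateRow_self]
        rfl
      · rw [Matrix.updateRow_ne hr, Matrix.of_apply, Matrix.of_apply, hww r hr]
    have h2 : Matrix.det (Matrix.of fun a => p (w₂ a)) =
        u i * Matrix.det (Matrix.of fun a => p (w a)) := by
      rw [h1, Matrix.det_updateRow_sum, smul_eq_mul]
    have h3 : fo p w₂ = Real.sign (u i) * fo p w := by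
      unfold fo
      rw [h2, FanH1_sign_mul]
    rw [hfo] at h3
    have h4 : fo p w * fo p w = 1 := fo_mul_self h hw
    have h5 : Real.sign (u i) = -1 := by
      have h6 : -fo p w * fo p w = Real.sign (u i) * fo p w * fo p w := by rw [← h3]
      rw [mul_assoc, h4] at h6
      linarith
    by_contra hn
    rcases (not_lt.1 hn).eq_or_lt with h6 | h6
    · rw [← h6, Real.sign_zero] at h5
      norm_num at h5
    · rw [Real.sign_of_pos h6] at h5
      norm_num at h5
  set W : Set (Fin (n + 2) → ℝ) := {z | ∀ j : Fin (n + 1), 0 < φ z (i.succAbove j) ∧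
    0 < φ z (i.succAbove j) - φ z i / u i * u (i.succAbove j)} with hW
  have hWo : IsOpen W := by
    have h1 : W = ⋂ j : Fin (n + 1), ({z | 0 < φ z (i.succAbove j)} ∩
        {z | 0 < φ z (i.succAbove j) - φ z i / u i * u (i.succAbove j)}) := by
      ext z
      rw [Set.mem_iInter]
      exact Iff.rfl
    rw [h1]
    refine isOpen_iInter_of_finite fun j => ?_
    refine IsOpen.inter (isOpen_lt continuous_const (c4 _)) (isOpen_lt continuous_const ?_)
    exact (c4 _).sub (((c4 i).div_const _).mul_const _)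
  have hinj := (mem_fts.1 hw).1
  have hinj2 := (mem_fts.1 hw₂).1
  have hinj' : Function.Injective fun j : Fin (n + 1) => w (i.succAbove j) :=
    hinj.comp Fin.succAbove_right_injective
  have hsub : (Finset.univ.image fun j : Fin (n + 1) => w (i.succAbove j)) ⊆
      Finset.univ.image w := by
    intro v hv
    rw [Finset.mem_image] at hv
    obtain ⟨j, _, rfl⟩ := hv
    exact Finset.mem_image_of_mem _ (Finset.mem_univ _)
  have hex : ∀ ε : ℝ, ∃ z ∈ W, φ z i = ε := by
    intro ε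
    set N : ℝ := 1 + ∑ a, |ε / u i * u a| with hN
    have hN1 : ∀ a, ε / u i * u a < N := by
      intro a
      have h1 : |ε / u i * u a| ≤ ∑ a, |ε / u i * u a| :=
        Finset.single_le_sum (f := fun a => |ε / u i * u a|) (fun a _ => abs_nonneg _)
          (Finset.mem_univ a)
      have h2 := le_abs_self (ε / u i * u a)
      linarith
    have hN0 : 0 < N := by
      have h1 : 0 ≤ ∑ a, |ε / u i * u a| := Finset.sum_nonneg fun a _ => abs_nonneg _
      linarith
    have h1 := c2 (fun a => if a = i then ε else N)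
    refine ⟨∑ a, (if a = i then ε else N) • p (w a), ?_, ?_⟩
    · rw [hW]
      intro j
      rw [h1]
      simp only [if_neg (Fin.succAbove_ne i j), if_true]
      exact ⟨hN0, by linarith [hN1 (i.succAbove j)]⟩
    · rw [h1]
      simp
  refine ⟨fun z => φ z i, W, ?_, ?_, ?_, ?_, ?_, ?_, ?_, ?_, ?_⟩
  · intro z z' β
    simp only [c3, Pi.add_apply, Pi.smul_apply, smul_eq_mul]
  · intro z hz z' hz' β hβ j
    simp only [c3, Pi.add_apply, Pi.smul_apply, smul_eq_mul]
    refine ⟨add_pos (hz j).1 (mul_pos hβ (hz' j).1), ?_⟩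
    have h1 := add_pos (hz j).2 (mul_pos hβ (hz' j).2)
    have h2 : φ z (i.succAbove j) + β * φ z' (i.succAbove j) -
        (φ z i + β * φ z' i) / u i * u (i.succAbove j) =
        φ z (i.succAbove j) - φ z i / u i * u (i.succAbove j) +
          β * (φ z' (i.succAbove j) - φ z' i / u i * u (i.succAbove j)) := by ring
    rw [h2]
    exact h1
  · intro z hz hz0
    refine FanH1_M_of w hinj (mem_fts.1 hw).2 (φ z) ?_ z (c1 z).symm
    intro a
    by_cases ha : a = i
    · rw [ha]; exact hz0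
    · obtain ⟨j, rfl⟩ := Fin.exists_succAbove_eq ha
      exact (hz j).1
  · intro z hz hz0
    refine FanH1_M_of _ hinj' (h.down _ (mem_fts.1 hw).2 _ hsub) (fun j => φ z (i.succAbove j))
      (fun j => (hz j).1) z ?_
    have h1 := c1 z
    rw [Fin.sum_univ_succAbove _ i] at h1
    simp only at hz0
    rw [hz0, zero_smul, zero_add] at h1
    exact h1.symm
  · intro z hz hz0
    have h1 := c1 z
    have h2 := c1 (p (w₂ i))
    rw [Fin.sum_univ_succAbove _ i] at h1 h2
    simp only at hz0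
    have h3 : z = ∑ a, (fun a => if a = i then φ z i / u i else φ z a - φ z i / u i * u a) a •
        p (w₂ a) := by
      rw [Fin.sum_univ_succAbove _ i]
      simp only [if_true, if_neg (Fin.succAbove_ne i _)]
      have h4 : ∀ j : Fin (n + 1), w₂ (i.succAbove j) = w (i.succAbove j) :=
        fun j => hww _ (Fin.succAbove_ne i j)
      simp only [h4]
      have h5 : φ z i / u i * u i = φ z i := div_mul_cancel₀ _ c5.ne
      calc z = φ z i • p (w i) + ∑ j : Fin (n + 1), φ z (i.succAbove j) • p (w (i.succAbove j)) :=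
            h1.symm
        _ = (φ z i / u i) • (u i • p (w i) +
              ∑ j : Fin (n + 1), u (i.succAbove j) • p (w (i.succAbove j))) +
            ∑ j : Fin (n + 1), (φ z (i.succAbove j) - φ z i / u i * u (i.succAbove j)) •
              p (w (i.succAbove j)) := by
            rw [smul_add, smul_smul, h5, Finset.smul_sum, add_assoc, ← Finset.sum_add_distrib]
            congr 1
            refine Finset.sum_congr rfl fun j _ => ?_
            rw [smul_smul, ← add_smul]
            congr 1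
            ring
        _ = _ := by rw [h2]
    refine FanH1_M_of w₂ hinj2 (mem_fts.1 hw₂).2 _ ?_ z h3
    intro a
    by_cases ha : a = i
    · simp only [if_pos ha]
      exact div_pos_of_neg_of_neg hz0 c5
    · simp only [if_neg ha]
      obtain ⟨j, rfl⟩ := Fin.exists_succAbove_eq ha
      exact (hz j).2
  · exact hWo.inter (isOpen_lt continuous_const (c4 i))
  · obtain ⟨z, hz, hz1⟩ := hex 1
    refine ⟨z, hz, ?_⟩
    show 0 < φ z i
    rw [hz1]
    exact one_pos
  · exact hWo.inter (isOpen_lt (c4 i) continuous_const)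
  · obtain ⟨z, hz, hz1⟩ := hex (-1)
    refine ⟨z, hz, ?_⟩
    show φ z i < 0
    rw [hz1]
    norm_num

private theorem FanH1_count {m : ℕ} {cones : Finset (Finset U)} {w : Fin m → U}
    (hw : w ∈ fts m cones) :
    ((fts m cones).filter fun w' => Finset.univ.image w' = Finset.univ.image w).card =
      Nat.factorial m := by
  have hinj := (mem_fts.1 hw).1
  have h1 : (Finset.univ : Finset (Equiv.Perm (Fin m))).card = Nat.factorial m := by
    rw [Finset.card_univ, Fintype.card_perm, Fintype.card_fin]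
  rw [← h1]
  symm
  refine Finset.card_bij (fun e _ => fun k => w (e k)) ?_ ?_ ?_
  · intro e _
    have h2 : Finset.univ.image (fun k => w (e k)) = Finset.univ.image w := by
      ext v
      simp only [Finset.mem_image, Finset.mem_univ, true_and]
      constructor
      · rintro ⟨j, rfl⟩
        exact ⟨_, rfl⟩
      · rintro ⟨j, rfl⟩
        exact ⟨e.symm j, by simp⟩
    rw [Finset.mem_filter, mem_fts]
    refine ⟨⟨hinj.comp e.injective, ?_⟩, h2⟩
    show Finset.univ.image (fun k => w (e k)) ∈ cones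
    rw [h2]
    exact (mem_fts.1 hw).2
  · intro e _ e' _ hee
    ext k
    exact congrArg Fin.val (hinj (congrFun hee k))
  · intro w' hw'
    rw [Finset.mem_filter] at hw'
    have h3 : ∀ k, ∃ j, w j = w' k := by
      intro k
      have h4 : w' k ∈ Finset.univ.image w := by
        rw [← hw'.2]
        exact Finset.mem_image_of_mem _ (Finset.mem_univ _)
      rw [Finset.mem_image] at h4
      obtain ⟨j, _, hj⟩ := h4
      exact ⟨j, hj⟩
    choose e he using h3
    have hei : Function.Injective e := by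
      intro k l hkl
      refine (mem_fts.1 hw'.1).1 ?_
      rw [← he k, ← he l, hkl]
    refine ⟨Equiv.ofBijective e (Finite.injective_iff_bijective.1 hei), Finset.mem_univ _, ?_⟩
    funext k
    exact he k

private theorem FanH1_erase {m : ℕ} {w : Fin (m + 1) → U} (hw : Function.Injective w)
    (i : Fin (m + 1)) : (Finset.univ.image fun j : Fin m => w (i.succAbove j)) =
      (Finset.univ.image w).erase (w i) := by
  ext v
  rw [Finset.mem_erase, Finset.mem_image, Finset.mem_image]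
  constructor
  · rintro ⟨j, _, rfl⟩
    exact ⟨fun h => Fin.succAbove_ne i j (hw h), _, Finset.mem_univ _, rfl⟩
  · rintro ⟨h1, a, _, rfl⟩
    obtain ⟨j, rfl⟩ := Fin.exists_succAbove_eq (fun h => h1 (by rw [h]) : a ≠ i)
    exact ⟨j, Finset.mem_univ _, rfl⟩

/-- the difference across a wall -/
private theorem FanH1_adj {n : ℕ} {cones : Finset (Finset U)} {p : U → Fin (n + 2) → ℝ}
    (h : IsFan cones p) (a : Finset U → Finset U → ℝ)
    (Fl : Fin (n + 2) → (Fin (n + 2) → U) → (Fin (n + 2) → U))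
    (hF : ∀ i, ∀ w ∈ fts (n + 2) cones, Fl i w ∈ fts (n + 2) cones ∧ Fl i (Fl i w) = w ∧
      (∀ k, k ≠ i → Fl i w k = w k) ∧ fo p (Fl i w) = -fo p w)
    (hF' : ∀ i, ∀ w ∈ fts (n + 2) cones,
      (Finset.univ.image w ∩ Finset.univ.image (Fl i w)).card + 1 = n + 2)
    {w : Fin (n + 2) → U} (hw : w ∈ fts (n + 2) cones) (i : Fin (n + 2))
    (ha : a (Finset.univ.image (Fl i w)) (Finset.univ.image w) =
      -a (Finset.univ.image w) (Finset.univ.image (Fl i w)))
    (ψ : (Fin (n + 2) → ℝ) → ℝ) (W : Set (Fin (n + 2) → ℝ))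
    (k1 : ∀ z z' : Fin (n + 2) → ℝ, ∀ β : ℝ, ψ (z + β • z') = ψ z + β * ψ z')
    (k2 : ∀ z ∈ W, ∀ z' ∈ W, ∀ β : ℝ, 0 < β → z + β • z' ∈ W)
    (k3 : ∀ z ∈ W, 0 < ψ z → FanH1_M cones p (Finset.univ.image w) z)
    (k4 : ∀ z ∈ W, ψ z = 0 →
      FanH1_M cones p (Finset.univ.image fun j : Fin (n + 1) => w (i.succAbove j)) z)
    (k5 : ∀ z ∈ W, ψ z < 0 → FanH1_M cones p (Finset.univ.image (Fl i w)) z)
    (x y : Fin (n + 2) → ℝ) (hx : x ∈ W) (hx0 : 0 < ψ x) (hy : y ∈ W) (hy0 : ψ y < 0) :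
    rhsF p cones a Fl (FanH1_E p y x) =
      -(2 * (Nat.factorial (n + 2) : ℝ) *
        a (Finset.univ.image w) (Finset.univ.image (Fl i w))) := by
  set σ := Finset.univ.image w with hσ
  set σ' := Finset.univ.image (Fl i w) with hσ'
  set F := Finset.univ.image fun j : Fin (n + 1) => w (i.succAbove j) with hFd
  have hcσ : σ.card = n + 2 := (fts_card h hw).2
  have hcσ' : σ'.card = n + 2 := (fts_card h (hF i w hw).1).2
  have hmσ : σ ∈ cones := (fts_card h hw).1
  have hmσ' : σ' ∈ cones := (fts_card h (hF i w hw).1).1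
  have hinj := fun w' (hw' : w' ∈ fts (n + 2) cones) => (mem_fts.1 hw').1
  have hcF : ∀ w' ∈ fts (n + 2) cones, ∀ i' : Fin (n + 2),
      (Finset.univ.image fun j : Fin (n + 1) => w' (i'.succAbove j)).card = n + 1 := by
    intro w' hw' i'
    have h1 : Function.Injective fun j : Fin (n + 1) => w' (i'.succAbove j) :=
      (hinj w' hw').comp Fin.succAbove_right_injective
    rw [Finset.card_image_of_injective _ h1, Finset.card_univ, Fintype.card_fin]
  have hsF : ∀ w' ∈ fts (n + 2) cones, ∀ i' : Fin (n + 2),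
      (Finset.univ.image fun j : Fin (n + 1) => w' (i'.succAbove j)) ⊆
        Finset.univ.image w' := by
    intro w' hw' i'
    rw [FanH1_erase (hinj w' hw')]
    exact Finset.erase_subset _ _
  have hvF : ∀ w' ∈ fts (n + 2) cones, ∀ i' : Fin (n + 2),
      FanH1_v p i' (Fl i' w') = FanH1_v p i' w' := by
    intro w' hw' i'
    funext j
    unfold FanH1_v
    rw [(hF i' w' hw').2.2.1 _ (Fin.succAbove_ne i' j)]
  have hFF : ∀ w' ∈ fts (n + 2) cones, ∀ i' : Fin (n + 2),
      (Finset.univ.image fun j : Fin (n + 1) => Fl i' w' (i'.succAbove j)) =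
        Finset.univ.image fun j : Fin (n + 1) => w' (i'.succAbove j) := by
    intro w' hw' i'
    congr 1
    funext j
    exact (hF i' w' hw').2.2.1 _ (Fin.succAbove_ne i' j)
  have hneF : ∀ w' ∈ fts (n + 2) cones, ∀ i' : Fin (n + 2),
      Finset.univ.image w' ≠ Finset.univ.image (Fl i' w') := by
    intro w' hw' i' he
    have h1 := hF' i' w' hw'
    rw [← he, Finset.inter_self, (fts_card h hw').2] at h1
    omega
  have hFm : F ∈ cones := h.down _ hmσ _ (hsF w hw i)
  have hFc : F.card + 1 = n + 2 := by rw [hFd, hcF w hw i]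
  have hFσ : F ⊆ σ := hsF w hw i
  have hFσ' : F ⊆ σ' := by
    have h1 := hsF (Fl i w) (hF i w hw).1 i
    rw [hFF w hw i] at h1
    exact h1
  have hne : σ ≠ σ' := hneF w hw i
  -- the walls with a contribution
  have e1 : ∀ w' ∈ fts (n + 2) cones, ∀ i' : Fin (n + 2), FanH1_E p y x i' w' ≠ 0 →
      (Finset.univ.image fun j : Fin (n + 1) => w' (i'.succAbove j)) = F := by
    intro w' hw' i' hE
    obtain ⟨β, hβ, c, hc, hz⟩ := FanH1_of_eps y x (FanH1_v p i' w') hE
    have h1 : FanH1_M cones p (Finset.univ.image fun j : Fin (n + 1) => w' (i'.succAbove j))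
        (y + β • x) :=
      FanH1_M_of _ ((hinj w' hw').comp Fin.succAbove_right_injective)
        (h.down _ (mem_fts.1 hw').2 _ (hsF w' hw' i')) c hc _ hz
    have h2 := k2 y hy x hx β hβ
    rcases lt_trichotomy (ψ (y + β • x)) 0 with h3 | h3 | h3
    · have h4 := congrArg Finset.card (FanH1_uniq h h1 (k5 _ h2 h3))
      rw [hcF w' hw' i'] at h4
      omega
    · exact FanH1_uniq h h1 (k4 _ h2 h3)
    · have h4 := congrArg Finset.card (FanH1_uniq h h1 (k3 _ h2 h3))
      rw [hcF w' hw' i'] at h4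
      omega
  have e2 : ∀ w' ∈ fts (n + 2) cones, ∀ i' : Fin (n + 2), Finset.univ.image w' = σ →
      (Finset.univ.image fun j : Fin (n + 1) => w' (i'.succAbove j)) = F →
      FanH1_E p y x i' w' = -((-1) ^ (i' : ℕ) * fo p w') := by
    intro w' hw' i' hs hf
    have hβ : 0 < -ψ y / ψ x := div_pos (by linarith) hx0
    have h1 := k2 y hy x hx _ hβ
    have h2 : ψ (y + (-ψ y / ψ x) • x) = 0 := by
      rw [k1, div_mul_cancel₀ _ hx0.ne']
      ring
    have h3 := k4 _ h1 h2
    rw [← hf] at h3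
    obtain ⟨c, hc, hz⟩ := FanH1_of_M _ ((hinj w' hw').comp Fin.succAbove_right_injective) h3
    have h4 := FanH1_eps_of y x (FanH1_v p i' w') _ hβ c hc hz
    have h5 := k3 x hx hx0
    rw [← hs] at h5
    obtain ⟨b, hb, hxb⟩ := FanH1_of_M w' (hinj w' hw') h5
    have h6 : Matrix.det (Matrix.of (Fin.cons (-x) (FanH1_v p i' w') :
        Fin (n + 2) → Fin (n + 2) → ℝ)) =
        (-1) ^ (i' : ℕ) * (-b i' * Matrix.det (Matrix.of fun a => p (w' a))) := by
      have h7 := FanH1_det_cons (Matrix.of fun a => p (w' a)) i' (-x)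
      have h8 : -x = ∑ a, (-b a) • (Matrix.of fun a => p (w' a)) a := by
        rw [hxb, ← Finset.sum_neg_distrib]
        refine Finset.sum_congr rfl fun a _ => ?_
        rw [neg_smul]
        rfl
      have h9 : Matrix.det ((Matrix.of fun a => p (w' a)).updateRow i' (-x)) =
          -b i' * Matrix.det (Matrix.of fun a => p (w' a)) := by
        rw [h8, Matrix.det_updateRow_sum, smul_eq_mul]
      rw [h9] at h7
      exact h7
    have h7 : Real.sign ((-1 : ℝ) ^ (i' : ℕ)) = (-1) ^ (i' : ℕ) := by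
      rcases neg_one_pow_eq_or ℝ (i' : ℕ) with h8 | h8
      · rw [h8, Real.sign_one]
      · rw [h8, Real.sign_neg, Real.sign_one]
    have h8 : Real.sign (-b i') = -1 := Real.sign_of_neg (by linarith [hb i'])
    unfold FanH1_E
    rw [h4, h6, FanH1_sign_mul, FanH1_sign_mul, h7, h8]
    unfold fo
    ring
  have e4 : ∀ w' ∈ fts (n + 2) cones, ∀ i' : Fin (n + 2), Finset.univ.image w' = σ →
      (Finset.univ.image fun j : Fin (n + 1) => w' (i'.succAbove j)) = F →
      Finset.univ.image (Fl i' w') = σ' := by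
    intro w' hw' i' hs hf
    have h1 := hsF _ (hF i' w' hw').1 i'
    rw [hFF w' hw' i', hf] at h1
    rcases FanH1_wall h hFm hFc hmσ hcσ hFσ hmσ' hcσ' hFσ' (fts_card h (hF i' w' hw').1).1
      (fts_card h (hF i' w' hw').1).2 h1 hne with h2 | h2
    · exact absurd (hs.trans h2.symm) (hneF w' hw' i')
    · exact h2
  have e5 : ∀ w' ∈ fts (n + 2) cones, ∀ i' : Fin (n + 2), Finset.univ.image w' = σ' →
      (Finset.univ.image fun j : Fin (n + 1) => w' (i'.succAbove j)) = F →
      Finset.univ.image (Fl i' w') = σ := by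
    intro w' hw' i' hs hf
    have h1 := hsF _ (hF i' w' hw').1 i'
    rw [hFF w' hw' i', hf] at h1
    rcases FanH1_wall h hFm hFc hmσ hcσ hFσ hmσ' hcσ' hFσ' (fts_card h (hF i' w' hw').1).1
      (fts_card h (hF i' w' hw').1).2 h1 hne with h2 | h2
    · exact h2
    · exact absurd (hs.trans h2.symm) (hneF w' hw' i')
  have e3 : ∀ w' ∈ fts (n + 2) cones, ∀ i' : Fin (n + 2), Finset.univ.image w' = σ' →
      (Finset.univ.image fun j : Fin (n + 1) => w' (i'.succAbove j)) = F →
      FanH1_E p y x i' w' = (-1) ^ (i' : ℕ) * fo p w' := by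
    intro w' hw' i' hs hf
    have h1 := e2 (Fl i' w') (hF i' w' hw').1 i' (e5 w' hw' i' hs hf)
      (by rw [hFF w' hw' i', hf])
    have h2 : FanH1_E p y x i' (Fl i' w') = FanH1_E p y x i' w' := by
      unfold FanH1_E
      rw [hvF w' hw' i']
    rw [h2, (hF i' w' hw').2.2.2] at h1
    rw [h1]
    ring
  have e6 : ∀ w' ∈ fts (n + 2) cones, F ⊆ Finset.univ.image w' → ∃ i' : Fin (n + 2),
      (Finset.univ.image fun j : Fin (n + 1) => w' (i'.succAbove j)) = F ∧
      ∀ i'' : Fin (n + 2), i'' ≠ i' →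
        (Finset.univ.image fun j : Fin (n + 1) => w' (i''.succAbove j)) ≠ F := by
    intro w' hw' hs
    obtain ⟨v, hv, hv'⟩ := Finset.exists_eq_insert_iff.2
      ⟨hs, by rw [hFc, (fts_card h hw').2]⟩
    have h1 : v ∈ Finset.univ.image w' := by
      rw [← hv']
      exact Finset.mem_insert_self _ _
    rw [Finset.mem_image] at h1
    obtain ⟨i', _, hi'⟩ := h1
    refine ⟨i', ?_, ?_⟩
    · rw [FanH1_erase (hinj w' hw'), hi', ← hv', Finset.erase_insert hv]
    · intro i'' hi'' he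
      rw [FanH1_erase (hinj w' hw')] at he
      have h2 : v ∈ F := by
        rw [← he, Finset.mem_erase, ← hi']
        exact ⟨fun h3 => hi'' (hinj w' hw' h3).symm, Finset.mem_image_of_mem _ (Finset.mem_univ _)⟩
      exact hv h2
  have hfo2 : ∀ w' ∈ fts (n + 2) cones, ∀ c : ℝ, ∀ i' : Fin (n + 2),
      fo p w' * ((-1) ^ (i' : ℕ) * c * ((-1) ^ (i' : ℕ) * fo p w')) = c := by
    intro w' hw' c i'
    have h1 := fo_mul_self h hw'
    have h2 : ((-1 : ℝ)) ^ (i' : ℕ) * (-1) ^ (i' : ℕ) = 1 := by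
      rw [← mul_pow]; norm_num
    calc fo p w' * ((-1) ^ (i' : ℕ) * c * ((-1) ^ (i' : ℕ) * fo p w'))
        = (fo p w' * fo p w') * ((-1) ^ (i' : ℕ) * (-1) ^ (i' : ℕ)) * c := by ring
      _ = c := by rw [h1, h2]; ring
  have e7 : ∀ w' ∈ fts (n + 2) cones, fo p w' * ∑ i' : Fin (n + 2), (-1) ^ (i' : ℕ) *
      a (Finset.univ.image w') (Finset.univ.image (Fl i' w')) * FanH1_E p y x i' w' =
      (if Finset.univ.image w' = σ then -a σ σ' else 0) +
        (if Finset.univ.image w' = σ' then -a σ σ' else 0) := by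
    intro w' hw'
    by_cases hs : Finset.univ.image w' = σ
    · obtain ⟨i', h1, h2⟩ := e6 w' hw' (by rw [hs]; exact hFσ)
      rw [if_pos hs, if_neg (by rw [hs]; exact hne), add_zero, Finset.sum_eq_single i']
      · rw [e2 w' hw' i' hs h1, e4 w' hw' i' hs h1, hs]
        have h3 := hfo2 w' hw' (-a σ σ') i'
        rw [← h3]
        ring
      · intro i'' _ hi''
        by_cases hE : FanH1_E p y x i'' w' = 0
        · rw [hE, mul_zero]
        · exact absurd (e1 w' hw' i'' hE) (h2 i'' hi'')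
      · exact fun h3 => absurd (Finset.mem_univ _) h3
    · by_cases hs' : Finset.univ.image w' = σ'
      · obtain ⟨i', h1, h2⟩ := e6 w' hw' (by rw [hs']; exact hFσ')
        rw [if_neg hs, if_pos hs', zero_add, Finset.sum_eq_single i']
        · rw [e3 w' hw' i' hs' h1, e5 w' hw' i' hs' h1, hs', ha]
          exact hfo2 w' hw' (-a σ σ') i'
        · intro i'' _ hi''
          by_cases hE : FanH1_E p y x i'' w' = 0
          · rw [hE, mul_zero]
          · exact absurd (e1 w' hw' i'' hE) (h2 i'' hi'')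
        · exact fun h3 => absurd (Finset.mem_univ _) h3
      · rw [if_neg hs, if_neg hs', add_zero, Finset.sum_eq_zero, mul_zero]
        intro i' _
        by_cases hE : FanH1_E p y x i' w' = 0
        · rw [hE, mul_zero]
        · exfalso
          have h1 := e1 w' hw' i' hE
          have h2 := hsF w' hw' i'
          rw [h1] at h2
          rcases FanH1_wall h hFm hFc hmσ hcσ hFσ hmσ' hcσ' hFσ' (fts_card h hw').1
            (fts_card h hw').2 h2 hne with h3 | h3
          · exact hs h3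
          · exact hs' h3
  unfold rhsF
  rw [Finset.sum_congr rfl e7, Finset.sum_add_distrib, ← Finset.sum_filter, ← Finset.sum_filter,
    Finset.sum_const, Finset.sum_const, FanH1_count hw, FanH1_count (hF i w hw).1, nsmul_eq_mul]
  ring

theorem fan_h1 (h : IsFan cones p) (hd : 2 ≤ d) (a : Finset U → Finset U → ℝ)
    (ha : ∀ τ ∈ cones, τ.card + 2 = d → ∃ g : Finset U → ℝ, ∀ σ ∈ cones, ∀ σ' ∈ cones,
      σ.card = d → σ'.card = d → τ ⊆ σ → τ ⊆ σ' → a σ σ' = g σ - g σ') :
    ∃ f : Finset U → ℝ, ∀ σ ∈ cones, ∀ σ' ∈ cones, σ.card = d → σ'.card = d →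
      (σ ∩ σ').card + 1 = d → a σ σ' = f σ - f σ' := by
  obtain ⟨n, rfl⟩ : ∃ n, d = n + 2 := ⟨d - 2, by omega⟩
  have hflip := fun i : Fin (n + 2) => exists_flip h i
  choose Fl hFl using hflip
  have hF : ∀ i, ∀ w ∈ fts (n + 2) cones, Fl i w ∈ fts (n + 2) cones ∧ Fl i (Fl i w) = w ∧
      (∀ k, k ≠ i → Fl i w k = w k) ∧ fo p (Fl i w) = -fo p w := by
    intro i w hw
    obtain ⟨h1, h2, -, h4, h5, -, -⟩ := hFl i w hw
    exact ⟨h1, h2, h4, h5⟩
  have hF' : ∀ i, ∀ w ∈ fts (n + 2) cones,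
      (Finset.univ.image w ∩ Finset.univ.image (Fl i w)).card + 1 = n + 2 := by
    intro i w hw
    exact (hFl i w hw).2.2.2.2.2.1
  obtain ⟨gg, hg⟩ : ∃ gg : Finset U → Finset U → ℝ, ∀ τ ∈ cones, τ.card + 2 = n + 2 →
      ∀ σ ∈ cones, ∀ σ' ∈ cones,
      σ.card = n + 2 → σ'.card = n + 2 → τ ⊆ σ → τ ⊆ σ' → a σ σ' = gg τ σ - gg τ σ' := by
    have h1 : ∀ τ : Finset U, ∃ g : Finset U → ℝ, τ ∈ cones → τ.card + 2 = n + 2 →
        ∀ σ ∈ cones, ∀ σ' ∈ cones,
        σ.card = n + 2 → σ'.card = n + 2 → τ ⊆ σ → τ ⊆ σ' → a σ σ' = g σ - g σ' := by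
      intro τ
      by_cases h2 : τ ∈ cones ∧ τ.card + 2 = n + 2
      · obtain ⟨g, hg⟩ := ha τ h2.1 h2.2
        exact ⟨g, fun _ _ => hg⟩
      · exact ⟨0, fun h3 h4 => absurd ⟨h3, h4⟩ h2⟩
    choose gg hgg using h1
    exact ⟨gg, hgg⟩
  -- general position
  let J : Type := {w : Fin (n + 2) → U // w ∈ fts (n + 2) cones} × Fin (n + 2)
  have : Finite {w : Fin (n + 2) → U // w ∈ fts (n + 2) cones} :=
    Finite.of_fintype (fts (n + 2) cones)
  have : Finite J := Finite.instProd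
  have hbase : ∀ q : J, FanH1_Pos (FanH1_v p q.2 q.1.1) := by
    intro q
    refine FanH1_pos_of_indep ?_
    have h1 := FanH1_indep (fan_det_ne_zero h q.1.2)
    exact h1.comp _ Fin.succAbove_right_injective
  obtain ⟨x₀, -, hx₀⟩ := FanH1_exists_pos (fun q : J => FanH1_v p q.2 q.1.1) hbase Set.univ
    isOpen_univ Set.univ_nonempty
  set G2 : (Fin (n + 2) → ℝ) → Prop := fun x => ∀ q : J,
    FanH1_Pos (Fin.cons (-x) (Fin.cons (-x₀) (FanH1_v p q.2 q.1.1)) :
      Fin (n + 3) → Fin (n + 2) → ℝ) with hG2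
  -- independence of the point
  have hopen : ∀ σ ∈ cones, σ.card = n + 2 → IsOpen {z | FanH1_M cones p σ z} ∧
      {z | FanH1_M cones p σ z}.Nonempty := by
    intro σ hσ hc
    obtain ⟨w, hw, rfl⟩ := exists_fts h hσ hc
    have h1 : {z | FanH1_M cones p (Finset.univ.image w) z} = ocone p w :=
      Set.ext fun z => FanH1_M_ocone hw z
    rw [h1]
    exact ⟨isOpen_ocone h hw, ⟨∑ i, (1 : ℝ) • p (w i), fun _ => 1, fun _ => one_pos, rfl⟩⟩
  have hinv : ∀ σ ∈ cones, σ.card = n + 2 → ∀ x x' : Fin (n + 2) → ℝ, FanH1_M cones p σ x →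
      FanH1_M cones p σ x' → G2 x → G2 x' →
      rhsF p cones a Fl (FanH1_E p x x₀) = rhsF p cones a Fl (FanH1_E p x' x₀) := by
    intro σ hσ hc x x' hx hx' hgx hgx'
    obtain ⟨z, hz, hz'⟩ := FanH1_exists_pos
      (fun q : J × Bool => (Fin.cons (-(if q.2 then x else x'))
        (Fin.cons (-x₀) (FanH1_v p q.1.2 q.1.1.1)) : Fin (n + 3) → Fin (n + 2) → ℝ))
      (by
        rintro ⟨q, b⟩
        cases b
        · exact hgx' q
        · exact hgx q) _ (hopen σ hσ hc).1 (hopen σ hσ hc).2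
    have h1 := FanH1_diff h a gg hg Fl hF x₀ x z (fun w hw i => hz' ((⟨w, hw⟩, i), true))
    have h2 := FanH1_diff h a gg hg Fl hF x₀ x' z (fun w hw i => hz' ((⟨w, hw⟩, i), false))
    rw [FanH1_same h a Fl hc x z hx hz] at h1
    rw [FanH1_same h a Fl hc x' z hx' hz] at h2
    linarith
  have hX : ∀ σ : Finset U, ∃ x : Fin (n + 2) → ℝ, σ ∈ cones → σ.card = n + 2 →
      FanH1_M cones p σ x ∧ G2 x := by
    intro σ
    by_cases h1 : σ ∈ cones ∧ σ.card = n + 2
    · obtain ⟨z, hz, hz'⟩ := FanH1_exists_pos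
        (fun q : J => (Fin.cons (-x₀) (FanH1_v p q.2 q.1.1) : Fin (n + 2) → Fin (n + 2) → ℝ))
        hx₀ _ (hopen σ h1.1 h1.2).1 (hopen σ h1.1 h1.2).2
      exact ⟨z, fun _ _ => ⟨hz, hz'⟩⟩
    · exact ⟨0, fun h2 h3 => absurd ⟨h2, h3⟩ h1⟩
  choose X hX using hX
  have hfac : (0 : ℝ) < 2 * (Nat.factorial (n + 2) : ℝ) := by
    have := Nat.factorial_pos (n + 2)
    positivity
  refine ⟨fun σ => rhsF p cones a Fl (FanH1_E p (X σ) x₀) / (2 * (Nat.factorial (n + 2) : ℝ)), ?_⟩
  intro σ hσ σ' hσ' hc hc' hi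
  obtain ⟨w, hw, rfl⟩ := exists_fts h hσ hc
  have hinj := (mem_fts.1 hw).1
  -- the wall
  obtain ⟨v, hv, hv'⟩ := Finset.exists_eq_insert_iff.2
    ⟨(Finset.inter_subset_left : Finset.univ.image w ∩ σ' ⊆ Finset.univ.image w), by
      rw [hi, hc]⟩
  have h1 : v ∈ Finset.univ.image w := by
    rw [← hv']
    exact Finset.mem_insert_self _ _
  rw [Finset.mem_image] at h1
  obtain ⟨i, _, hi'⟩ := h1
  have hFe : (Finset.univ.image fun j : Fin (n + 1) => w (i.succAbove j)) =
      Finset.univ.image w ∩ σ' := by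
    rw [FanH1_erase hinj, hi']
    conv_lhs => rw [← hv']
    rw [Finset.erase_insert hv]
  have hne : Finset.univ.image w ≠ σ' := by
    intro he
    rw [he, Finset.inter_self, hc'] at hi
    omega
  have hsub2 : Finset.univ.image w ∩ σ' ⊆ Finset.univ.image (Fl i w) := by
    rw [← hFe]
    intro u hu
    rw [Finset.mem_image] at hu
    obtain ⟨j, _, rfl⟩ := hu
    rw [← (hF i w hw).2.2.1 _ (Fin.succAbove_ne i j)]
    exact Finset.mem_image_of_mem _ (Finset.mem_univ _)
  have hσ2 : Finset.univ.image (Fl i w) = σ' := by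
    rcases FanH1_wall h (h.down _ hσ _ Finset.inter_subset_left) hi hσ hc
      Finset.inter_subset_left hσ' hc' Finset.inter_subset_right
      (fts_card h (hF i w hw).1).1 (fts_card h (hF i w hw).1).2 hsub2 hne with h2 | h2
    · exfalso
      have h3 := hF' i w hw
      rw [h2, Finset.inter_self, hc] at h3
      omega
    · exact h2
  subst hσ2
  have hanti : a (Finset.univ.image (Fl i w)) (Finset.univ.image w) =
      -a (Finset.univ.image w) (Finset.univ.image (Fl i w)) := by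
    set τ := Finset.univ.image fun j : Fin n => w (i.succAbove ((0 : Fin (n + 1)).succAbove j))
      with hτ
    have s1 : τ ⊆ Finset.univ.image w := by
      intro u hu
      rw [hτ, Finset.mem_image] at hu
      obtain ⟨j, _, rfl⟩ := hu
      exact Finset.mem_image_of_mem _ (Finset.mem_univ _)
    have s2 : τ ⊆ Finset.univ.image (Fl i w) := by
      intro u hu
      rw [hτ, Finset.mem_image] at hu
      obtain ⟨j, _, rfl⟩ := hu
      rw [← (hF i w hw).2.2.1 _ (Fin.succAbove_ne i _)]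
      exact Finset.mem_image_of_mem _ (Finset.mem_univ _)
    have s3 : τ.card + 2 = n + 2 := by
      have s4 : Function.Injective fun j : Fin n =>
          w (i.succAbove ((0 : Fin (n + 1)).succAbove j)) :=
        hinj.comp (Fin.succAbove_right_injective.comp Fin.succAbove_right_injective)
      rw [hτ, Finset.card_image_of_injective _ s4, Finset.card_univ, Fintype.card_fin]
    have s5 := h.down _ hσ _ s1
    rw [hg τ s5 s3 _ hσ' _ hσ hc' hc s2 s1, hg τ s5 s3 _ hσ _ hσ' hc hc' s1 s2]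
    ring
  obtain ⟨ψ, W, k1, k2, k3, k4, k5, k6, k7, k8, k9⟩ :=
    FanH1_near h hw (hF i w hw).1 i (hF i w hw).2.2.1 (hF i w hw).2.2.2
  obtain ⟨x, hxW, hx⟩ := FanH1_exists_pos
    (fun q : J => (Fin.cons (-x₀) (FanH1_v p q.2 q.1.1) : Fin (n + 2) → Fin (n + 2) → ℝ))
    hx₀ _ k6 k7
  obtain ⟨y, hyW, hy⟩ := FanH1_exists_pos
    (fun q : J => (Fin.cons (-x) (Fin.cons (-x₀) (FanH1_v p q.2 q.1.1)) :
      Fin (n + 3) → Fin (n + 2) → ℝ)) hx _ k8 k9
  have hgy : G2 y := fun q => FanH1_pos_drop (hy q)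
  have h2 := FanH1_diff h a gg hg Fl hF x₀ x y (fun w hw i => hy (⟨w, hw⟩, i))
  rw [FanH1_adj h a Fl hF hF' hw i hanti ψ W k1 k2 k3 k4 k5 x y hxW.1 hxW.2 hyW.1 hyW.2] at h2
  have h3 := hinv _ hσ hc (X _) x (hX _ hσ hc).1 (k3 x hxW.1 hxW.2) (hX _ hσ hc).2 hx
  have h4 := hinv _ hσ' hc' (X _) y (hX _ hσ' hc').1 (k5 y hyW.1 hyW.2) (hX _ hσ' hc').2 hgy
  beta_reduce
  rw [h3, h4, ← sub_div, eq_div_iff hfac.ne']
  linarith

end Pool.Agent.ChS
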