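import Pool.Agent.ChS.StarConn
import Pool.Agent.ChS.FanH1

/-!
# Dual 1-cocycles are coboundaries

For every vertex `v` apply `fan_h1` to the link fan of `{v}` (`exists_link_fan`, `d = n`): there is
`f_v` with `a σ σ' = f_v σ - f_v σ'` for all adjacent chambers `σ, σ' ∋ v` (adjacent:
`(σ ∩ σ').card = n`).  For an edge `{u, v} ∈ K.faces` the function `f_u - f_v` is constant on the
chambers containing `u` and `v` (`star_connected` for `{u, v}`), say `c u v` (take `c u v = 0` for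
non-edges; `c u u = 0`).  For `{u, v, w} ∈ K.faces` evaluate on a chamber containing `u, v, w`
(`exists_top`): `c u v + c v w = c u w`.  By `H1Zero` there is `g` with `c u v = g v - g u`; so
`f_v + g_v` on a chamber `σ` does not depend on `v ∈ σ`.  Put `f σ = f_v σ + g v` for any `v ∈ σ`.
For adjacent `σ, σ'` take `v ∈ σ ∩ σ'` (`n > 0`).
-/

namespace Pool.Agent.ChS

open Matrix Pool.Agent.ChP
open scoped Pointwise

variable {n : ℕ} (K : AffineTriangulation n)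

/-- The cocycle is a coboundary on the star of a vertex. -/
private theorem H1Cham_vertex (hn : 2 ≤ n) (a : Finset K.V → Finset K.V → ℝ)
    (ha : ∀ τ ∈ K.faces, τ.card + 1 = n → ∃ g : Finset K.V → ℝ, ∀ σ σ', Chb K σ → Chb K σ' →
      τ ⊆ σ → τ ⊆ σ' → a σ σ' = g σ - g σ') (v : K.V) :
    ∃ f : Finset K.V → ℝ, ∀ σ σ', Chb K σ → Chb K σ' → v ∈ σ → v ∈ σ' → (σ ∩ σ').card = n →
      a σ σ' = f σ - f σ' := by
  obtain ⟨cones, p, hfan, hmem⟩ := exists_link_fan K (K.singleton_mem v) (d := n)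
    (by rw [Finset.card_singleton]; omega)
  have hch : ∀ σ ∈ cones, σ.card = n → Chb K (σ ∪ {v}) := by
    intro σ hσ hc
    obtain ⟨hd, hf⟩ := (hmem σ).1 hσ
    exact ⟨hf, by rw [Finset.card_union_of_disjoint hd, Finset.card_singleton, hc]⟩
  obtain ⟨f, hf⟩ := fan_h1 hfan hn (fun σ σ' => a (σ ∪ {v}) (σ' ∪ {v})) (by
    intro τ hτ hτc
    obtain ⟨hd, hτf⟩ := (hmem τ).1 hτ
    obtain ⟨g, hg⟩ := ha (τ ∪ {v}) hτf (by
      rw [Finset.card_union_of_disjoint hd, Finset.card_singleton]; omega)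
    refine ⟨fun σ => g (σ ∪ {v}), ?_⟩
    intro σ hσ σ' hσ' hc hc' hs hs'
    exact hg _ _ (hch σ hσ hc) (hch σ' hσ' hc') (Finset.union_subset_union_left hs)
      (Finset.union_subset_union_left hs'))
  refine ⟨fun σ => f (σ.erase v), ?_⟩
  intro σ σ' hσ hσ' hv hv' hc
  have key : ∀ ρ : Finset K.V, v ∈ ρ → ρ.erase v ∪ {v} = ρ := by
    intro ρ hρ
    rw [Finset.union_comm, ← Finset.insert_eq, Finset.insert_erase hρ]
  have hin : ∀ ρ : Finset K.V, Chb K ρ → v ∈ ρ → ρ.erase v ∈ cones ∧ (ρ.erase v).card = n := by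
    intro ρ hρ hvρ
    refine ⟨(hmem _).2 ⟨?_, ?_⟩, ?_⟩
    · rw [Finset.disjoint_singleton_right]
      exact Finset.notMem_erase v ρ
    · rw [key ρ hvρ]; exact hρ.1
    · rw [Finset.card_erase_of_mem hvρ, hρ.2]; rfl
  obtain ⟨h1, h2⟩ := hin σ hσ hv
  obtain ⟨h3, h4⟩ := hin σ' hσ' hv'
  have h5 : (σ.erase v ∩ σ'.erase v).card + 1 = n := by
    have h6 : σ.erase v ∩ σ'.erase v = (σ ∩ σ').erase v := by
      ext x
      simp only [Finset.mem_inter, Finset.mem_erase]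
      tauto
    rw [h6, Finset.card_erase_of_mem (Finset.mem_inter.2 ⟨hv, hv'⟩), hc]
    omega
  have h7 := hf _ h1 _ h3 h2 h4 h5
  simp only [key σ hv, key σ' hv'] at h7
  exact h7

theorem h1_chambers (h1 : H1Zero K) (hn : 2 ≤ n) (a : Finset K.V → Finset K.V → ℝ)
    (ha : ∀ τ ∈ K.faces, τ.card + 1 = n → ∃ g : Finset K.V → ℝ, ∀ σ σ', Chb K σ → Chb K σ' →
      τ ⊆ σ → τ ⊆ σ' → a σ σ' = g σ - g σ') :
    ∃ f : Finset K.V → ℝ, ∀ σ σ', Chb K σ → Chb K σ' → (σ ∩ σ').card = n →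
      a σ σ' = f σ - f σ' := by
  classical
  choose F hF using H1Cham_vertex K hn a ha
  have hpair : ∀ (u v : K.V) (σ σ' : Finset K.V), Chb K σ → Chb K σ' → u ∈ σ → v ∈ σ → u ∈ σ' →
      v ∈ σ' → F u σ - F v σ = F u σ' - F v σ' := by
    intro u v σ σ' hσ hσ' hu hv hu' hv'
    have hsub : ({u, v} : Finset K.V) ⊆ σ := by
      intro x hx
      rw [Finset.mem_insert, Finset.mem_singleton] at hx
      rcases hx with rfl | rfl
      · exact hu
      · exact hv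
    have hsub' : ({u, v} : Finset K.V) ⊆ σ' := by
      intro x hx
      rw [Finset.mem_insert, Finset.mem_singleton] at hx
      rcases hx with rfl | rfl
      · exact hu'
      · exact hv'
    have hface : ({u, v} : Finset K.V) ∈ K.faces :=
      K.down_closed σ hσ.1 _ hsub ⟨u, Finset.mem_insert_self _ _⟩
    refine star_connected K hface (fun ρ => F u ρ - F v ρ) ?_ hσ hσ' hsub hsub'
    intro ρ ρ' hρ hρ' hs hs' hc
    have hu1 : u ∈ ρ := hs (Finset.mem_insert_self _ _)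
    have hu2 : u ∈ ρ' := hs' (Finset.mem_insert_self _ _)
    have hv1 : v ∈ ρ := hs (Finset.mem_insert_of_mem (Finset.mem_singleton_self _))
    have hv2 : v ∈ ρ' := hs' (Finset.mem_insert_of_mem (Finset.mem_singleton_self _))
    have e1 := hF u ρ ρ' hρ hρ' hu1 hu2 hc
    have e2 := hF v ρ ρ' hρ hρ' hv1 hv2 hc
    show F u ρ - F v ρ = F u ρ' - F v ρ'
    linarith
  have hex : ∀ u v : K.V, ∃ c : ℝ, ∀ σ, Chb K σ → u ∈ σ → v ∈ σ → c = F u σ - F v σ := by
    intro u v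
    by_cases h : ∃ σ, Chb K σ ∧ u ∈ σ ∧ v ∈ σ
    · obtain ⟨σ₀, hσ₀, hu₀, hv₀⟩ := h
      exact ⟨F u σ₀ - F v σ₀, fun σ hσ hu hv => hpair u v σ₀ σ hσ₀ hσ hu₀ hv₀ hu hv⟩
    · exact ⟨0, fun σ hσ hu hv => absurd ⟨σ, hσ, hu, hv⟩ h⟩
  choose c hc using hex
  obtain ⟨g, hg⟩ := h1 c (by
    intro u v w hface
    obtain ⟨σ, hσ, hsub, hcard⟩ := K.exists_top hface
    have hu : u ∈ σ := hsub (by simp)
    have hv : v ∈ σ := hsub (by simp)
    have hw : w ∈ σ := hsub (by simp)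
    rw [hc u v σ ⟨hσ, hcard⟩ hu hv, hc v w σ ⟨hσ, hcard⟩ hv hw, hc u w σ ⟨hσ, hcard⟩ hu hw]
    ring)
  have hindep : ∀ σ, Chb K σ → ∀ u ∈ σ, ∀ v ∈ σ, F u σ + g u = F v σ + g v := by
    intro σ hσ u hu v hv
    have hface : ({u, v} : Finset K.V) ∈ K.faces := by
      refine K.down_closed σ hσ.1 _ ?_ ⟨u, Finset.mem_insert_self _ _⟩
      intro x hx
      rw [Finset.mem_insert, Finset.mem_singleton] at hx
      rcases hx with rfl | rfl
      · exact hu
      · exact hv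
    have e1 := hg u v hface
    rw [hc u v σ hσ hu hv] at e1
    linarith
  have hexf : ∀ σ : Finset K.V, ∃ x : ℝ, Chb K σ → ∀ v ∈ σ, x = F v σ + g v := by
    intro σ
    by_cases h : Chb K σ ∧ σ.Nonempty
    · obtain ⟨hσ, u, hu⟩ := h
      exact ⟨F u σ + g u, fun _ v hv => hindep σ hσ u hu v hv⟩
    · exact ⟨0, fun hσ v hv => absurd ⟨hσ, ⟨v, hv⟩⟩ h⟩
  choose f hf using hexf
  refine ⟨f, ?_⟩
  intro σ σ' hσ hσ' hcard
  have hne : (σ ∩ σ').Nonempty := by
    rw [← Finset.card_pos, hcard]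
    omega
  obtain ⟨v, hv⟩ := hne
  rw [Finset.mem_inter] at hv
  rw [hF v σ σ' hσ hσ' hv.1 hv.2 hcard, hf σ hσ v hv.1, hf σ' hσ' v hv.2]
  ring

end Pool.Agent.ChS
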