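import Pool.Agent.ChS.WCham
import Pool.Agent.ChS.Scal
import Pool.Agent.ChS.Lagr
import Pool.Agent.ChP.Prism

/-!
# The edge functions give an isotropic subspace

Let `X = K.V × Bool`, `s (x, false) = s x`, `s (x, true) = s' x`, `C ((x, false), (y, false)) = C x y`
and `C = 0` for all other pairs.  For `y : Fin 5 → X` let `F y = BB (C ∘ y) (s ∘ y)`;
`F (γ • y) = chi lin γ * F y` by `BB_mulVec` (`ChS/Scal.lean`).  For `x : Fin 4 → K.V` let
`φ x = ∑_j (-1)^j F (x_0^false, ..., x_j^false, x_j^true, ..., x_3^true)`.  The prism identity (see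
`ChP/Prism.lean`, `prism`; there the cocycle identity is assumed for all tuples, here only the ones for
`(t_0^false, ..., t_j^false, t_j^true, ..., t_4^true)` are available and needed, by `BB_cocycle` and
`GenPos2`) gives `∑_j (-1)^j φ (t ∘ j.succAbove) = F (t^true) - F (t^false) = -F (t^false)` for
`t ∈ chamReps o R` (up to a global sign), and the claim follows from `wcycle_cham`.
-/

namespace Pool.Agent.ChS

open Matrix Pool.Agent.ChP
open scoped Pointwise

variable {K : AffineTriangulation 4}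

/-- The map `succAbove` on natural numbers. -/
private def Isot_sA (j x : ℕ) : ℕ := if x < j then x else x + 1

private theorem Isot_sA_eq {n : ℕ} (j : Fin (n + 1)) (x : Fin n) :
    ((j.succAbove x : Fin (n + 1)) : ℕ) = Isot_sA j x := by
  unfold Isot_sA
  by_cases h : (x : ℕ) < j
  · rw [if_pos h, Fin.succAbove_of_castSucc_lt _ _ (by rw [Fin.lt_def]; exact h)]
    rfl
  · rw [if_neg h, Fin.succAbove_of_le_castSucc _ _ (by rw [Fin.le_def]; simpa using h)]
    rfl

/-- The tuple `t`, extended to natural numbers. -/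
private def Isot_tN {n : ℕ} {X : Type*} (t : Fin (n + 1) → X) (k : ℕ) : X :=
  if h : k < n + 1 then t ⟨k, h⟩ else t 0

private theorem Isot_tN_coe {n : ℕ} {X : Type*} (t : Fin (n + 1) → X) (k : Fin (n + 1)) :
    Isot_tN t k = t k := by
  unfold Isot_tN
  rw [dif_pos k.2]

private theorem Isot_tN_succAbove {n : ℕ} {X : Type*} (t : Fin (n + 1) → X) (j : Fin (n + 1))
    (x : ℕ) (hx : x < n) : t (j.succAbove ⟨x, hx⟩) = Isot_tN t (Isot_sA j x) := by
  rw [← Isot_tN_coe t, Isot_sA_eq]

/-- The tuple `(a t_0, ..., a t_i, b t_i, ..., b t_n)`. -/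
private def Isot_T {n : ℕ} {X Y : Type*} (a b : X → Y) (t : Fin (n + 1) → X) (i : ℕ) (k : ℕ) :
    Y :=
  if k ≤ i then a (Isot_tN t k) else b (Isot_tN t (k - 1))

private theorem Isot_phi {n : ℕ} {X Y : Type*} (c : (Fin (n + 1) → Y) → ℝ) (a b : X → Y)
    (t : Fin (n + 1) → X) (j : Fin (n + 1)) :
    prismPhi c a b (fun i => t (j.succAbove i)) = ∑ i : Fin n, (-1) ^ (i : ℕ) *
      c (fun k : Fin (n + 1) => if (k : ℕ) ≤ i then a (Isot_tN t (Isot_sA j k))
        else b (Isot_tN t (Isot_sA j (k - 1)))) := by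
  unfold prismPhi
  refine Finset.sum_congr rfl fun i _ => ?_
  congr 2
  funext k
  by_cases h : (k : ℕ) ≤ i
  · rw [dif_pos h, if_pos h]
    exact congrArg a (Isot_tN_succAbove t j k _)
  · rw [dif_neg h, if_neg h]
    exact congrArg b (Isot_tN_succAbove t j ((k : ℕ) - 1) _)

private theorem Isot_key {n : ℕ} {X Y : Type*} (c : (Fin (n + 1) → Y) → ℝ) (a b : X → Y)
    (t : Fin (n + 1) → X) (i : Fin (n + 1)) (q : Fin n) :
    (-1) ^ (i : ℕ) * ((-1) ^ ((i.castSucc.succAbove (i.succAbove q) : Fin (n + 2)) : ℕ) *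
      c (fun k => Isot_T a b t i ((i.castSucc.succAbove (i.succAbove q)).succAbove k))) =
    -((-1) ^ ((i.succAbove q : Fin (n + 1)) : ℕ) * ((-1) ^ ((q.predAbove i : Fin n) : ℕ) *
      c (fun k : Fin (n + 1) => if (k : ℕ) ≤ (q.predAbove i : Fin n) then
          a (Isot_tN t (Isot_sA (i.succAbove q : Fin (n + 1)) k))
        else b (Isot_tN t (Isot_sA (i.succAbove q : Fin (n + 1)) (k - 1)))))) := by
  by_cases h : (q : ℕ) < i
  · have e1 : ((i.succAbove q : Fin (n + 1)) : ℕ) = q := by
      rw [Isot_sA_eq, Isot_sA, if_pos h]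
    have e2 : ((i.castSucc.succAbove (i.succAbove q) : Fin (n + 2)) : ℕ) = q := by
      rw [Isot_sA_eq, e1, Isot_sA, Fin.val_castSucc, if_pos h]
    have e3 : ((q.predAbove i : Fin n) : ℕ) = (i : ℕ) - 1 := by
      rw [Fin.predAbove_of_castSucc_lt _ _ (by rw [Fin.lt_def]; exact h), Fin.val_pred]
    have e4 : (fun k : Fin (n + 1) => Isot_T a b t i
        (((i.castSucc.succAbove (i.succAbove q)).succAbove k : Fin (n + 2)) : ℕ)) =
        (fun k : Fin (n + 1) => if (k : ℕ) ≤ (q.predAbove i : Fin n) then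
          a (Isot_tN t (Isot_sA (i.succAbove q : Fin (n + 1)) k))
        else b (Isot_tN t (Isot_sA (i.succAbove q : Fin (n + 1)) (k - 1)))) := by
      funext k
      rw [Isot_sA_eq, e1, e2, e3]
      unfold Isot_T Isot_sA
      by_cases h1 : (k : ℕ) < q
      · rw [if_pos h1, if_pos (by omega), if_pos (by omega)]
      · rw [if_neg h1]
        by_cases h2 : (k : ℕ) + 1 ≤ i
        · rw [if_pos h2, if_pos (by omega)]
        · rw [if_neg h2, if_neg (by omega)]
          have h3 : ¬ ((k : ℕ) - 1 < q) := by omega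
          rw [if_neg h3]
          congr 2
          omega
    rw [e4, e1, e2, e3]
    obtain ⟨m, hm⟩ : ∃ m, (i : ℕ) = m + 1 := ⟨(i : ℕ) - 1, by omega⟩
    rw [hm, Nat.add_sub_cancel, pow_succ]
    ring
  · have e1 : ((i.succAbove q : Fin (n + 1)) : ℕ) = q + 1 := by
      rw [Isot_sA_eq, Isot_sA, if_neg h]
    have e2 : ((i.castSucc.succAbove (i.succAbove q) : Fin (n + 2)) : ℕ) = q + 2 := by
      rw [Isot_sA_eq, e1, Isot_sA, Fin.val_castSucc, if_neg (by omega)]
    have e3 : ((q.predAbove i : Fin n) : ℕ) = (i : ℕ) := by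
      rw [Fin.predAbove_of_le_castSucc _ _ (by rw [Fin.le_def]; simpa using h)]
      rfl
    have e4 : (fun k : Fin (n + 1) => Isot_T a b t i
        (((i.castSucc.succAbove (i.succAbove q)).succAbove k : Fin (n + 2)) : ℕ)) =
        (fun k : Fin (n + 1) => if (k : ℕ) ≤ (q.predAbove i : Fin n) then
          a (Isot_tN t (Isot_sA (i.succAbove q : Fin (n + 1)) k))
        else b (Isot_tN t (Isot_sA (i.succAbove q : Fin (n + 1)) (k - 1)))) := by
      funext k
      rw [Isot_sA_eq, e1, e2, e3]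
      unfold Isot_T Isot_sA
      by_cases h1 : (k : ℕ) < q + 2
      · rw [if_pos h1]
        by_cases h2 : (k : ℕ) ≤ i
        · rw [if_pos h2, if_pos h2, if_pos (by omega)]
        · rw [if_neg h2, if_neg h2, if_pos (by omega)]
      · rw [if_neg h1, if_neg (by omega), if_neg (by omega), if_neg (by omega)]
        congr 2
        omega
    rw [e4, e1, e2, e3, pow_succ, pow_succ]
    ring

/-- The prism identity, using the cocycle identity for the tuples
`(a t_0, ..., a t_i, b t_i, ..., b t_n)` only. -/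
private theorem Isot_prism {n : ℕ} {X Y : Type*} (c : (Fin (n + 1) → Y) → ℝ)
    (a b : X → Y) (t : Fin (n + 1) → X)
    (hT : ∀ i : Fin (n + 1), ∑ j : Fin (n + 2), (-1) ^ (j : ℕ) *
      c (fun k => Isot_T a b t i ((j.succAbove k : Fin (n + 2)) : ℕ)) = 0) :
    ∑ j : Fin (n + 1), (-1) ^ (j : ℕ) * prismPhi c a b (fun i => t (j.succAbove i)) =
      c (fun i => b (t i)) - c (fun i => a (t i)) := by
  -- the tuples `E_i = (a t_0, ..., a t_{i-1}, b t_i, ..., b t_n)`
  let E : ℕ → Fin (n + 1) → Y := fun i k => if (k : ℕ) < i then a (t k) else b (t k)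
  have hE0 : E 0 = fun i => b (t i) := by
    funext k
    simp [E]
  have hE1 : E (n + 1) = fun i => a (t i) := by
    funext k
    simp [E, k.2]
  have hsplit : ∀ i : Fin (n + 1), (-1 : ℝ) ^ (i : ℕ) * (∑ j : Fin (n + 2), (-1) ^ (j : ℕ) *
      c (fun k => Isot_T a b t i ((j.succAbove k : Fin (n + 2)) : ℕ))) =
      (c (E i) - c (E (i + 1))) + ∑ q : Fin n, (-1) ^ (i : ℕ) *
        ((-1) ^ ((i.castSucc.succAbove (i.succAbove q) : Fin (n + 2)) : ℕ) *
      c (fun k => Isot_T a b t i ((i.castSucc.succAbove (i.succAbove q)).succAbove k))) := by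
    intro i
    rw [Fin.sum_univ_succAbove _ i.castSucc, Fin.sum_univ_succAbove _ i]
    have e0 : (i.castSucc.succAbove i : Fin (n + 2)) = i.succ := by
      rw [Fin.succAbove_castSucc_self]
    have e1 : (fun k : Fin (n + 1) => Isot_T a b t i
        ((i.castSucc.succAbove k : Fin (n + 2)) : ℕ)) = E i := by
      funext k
      rw [Isot_sA_eq]
      simp only [E, Isot_T, Isot_sA, Fin.val_castSucc]
      by_cases h : (k : ℕ) < i
      · rw [if_pos h, if_pos h, if_pos (by omega), Isot_tN_coe]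
      · rw [if_neg h, if_neg h, if_neg (by omega), Nat.add_sub_cancel, Isot_tN_coe]
    have e2 : (fun k : Fin (n + 1) => Isot_T a b t i
        ((i.succ.succAbove k : Fin (n + 2)) : ℕ)) = E (i + 1) := by
      funext k
      rw [Isot_sA_eq]
      simp only [E, Isot_T, Isot_sA, Fin.val_succ]
      by_cases h : (k : ℕ) < (i : ℕ) + 1
      · rw [if_pos h, if_pos h, if_pos (by omega), Isot_tN_coe]
      · rw [if_neg h, if_neg h, if_neg (by omega), Nat.add_sub_cancel, Isot_tN_coe]
    rw [e0, e1, e2, Fin.val_castSucc, Fin.val_succ, mul_add, mul_add, Finset.mul_sum, pow_succ]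
    have hs : ((-1 : ℝ) ^ (i : ℕ)) * (-1) ^ (i : ℕ) = 1 := by
      rw [← mul_pow]
      norm_num
    linear_combination (c (E i) - c (E (i + 1))) * hs
  have htel : ∑ i : Fin (n + 1), (c (E i) - c (E (i + 1))) = c (E 0) - c (E (n + 1)) := by
    rw [Fin.sum_univ_eq_sum_range (fun i => c (E i) - c (E (i + 1))) (n + 1),
      Finset.sum_range_sub']
  have hsum : ∑ i : Fin (n + 1), ((c (E i) - c (E (i + 1))) + ∑ q : Fin n, (-1) ^ (i : ℕ) *
        ((-1) ^ ((i.castSucc.succAbove (i.succAbove q) : Fin (n + 2)) : ℕ) *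
      c (fun k => Isot_T a b t i ((i.castSucc.succAbove (i.succAbove q)).succAbove k)))) = 0 := by
    rw [← Finset.sum_congr rfl fun i _ => hsplit i]
    refine Finset.sum_eq_zero fun i _ => ?_
    rw [hT i, mul_zero]
  rw [Finset.sum_add_distrib, htel, hE0, hE1] at hsum
  have hre : ∑ i : Fin (n + 1), ∑ q : Fin n, (-1) ^ (i : ℕ) *
        ((-1) ^ ((i.castSucc.succAbove (i.succAbove q) : Fin (n + 2)) : ℕ) *
      c (fun k => Isot_T a b t i ((i.castSucc.succAbove (i.succAbove q)).succAbove k))) =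
      -∑ j : Fin (n + 1), (-1) ^ (j : ℕ) * prismPhi c a b (fun i => t (j.succAbove i)) := by
    simp_rw [Isot_phi, Finset.mul_sum, ← Finset.sum_neg_distrib]
    rw [← Finset.sum_product', ← Finset.sum_product']
    refine Finset.sum_bij' (fun x _ => (x.1.succAbove x.2, x.2.predAbove x.1))
      (fun x _ => (x.1.succAbove x.2, x.2.predAbove x.1)) (fun x _ => by simp) (fun x _ => by simp)
      ?_ ?_ ?_
    · rintro ⟨i, q⟩ _
      simp only [Fin.succAbove_succAbove_predAbove, Fin.predAbove_predAbove_succAbove]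
    · rintro ⟨i, q⟩ _
      simp only [Fin.succAbove_succAbove_predAbove, Fin.predAbove_predAbove_succAbove]
    · rintro ⟨i, q⟩ _
      exact Isot_key c a b t i q
  rw [hre] at hsum
  linarith

private theorem Isot_det_ne {n : ℕ} {Γ : Type*} [Group Γ]
    (ρ : Γ →* Matrix (Fin n) (Fin n) ℝ) (γ : Γ) : (ρ γ).det ≠ 0 := by
  have h : (ρ γ).det * (ρ γ⁻¹).det = 1 := by
    rw [← Matrix.det_mul, ← map_mul, mul_inv_cancel, map_one, Matrix.det_one]
  exact left_ne_zero_of_mul_eq_one h

/-- the vector field on the doubled vertex set -/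
private def Isot_S (s s' : K.V → Fin 4 → ℝ) (x : K.V × Bool) : Fin 4 → ℝ :=
  if x.2 then s' x.1 else s x.1

/-- the edge function on the doubled vertex set -/
private def Isot_C (C : K.V → K.V → ℝ) (x y : K.V × Bool) : ℝ :=
  if x.2 then 0 else if y.2 then 0 else C x.1 y.1

/-- the quadratic cocycle on the doubled vertex set -/
private noncomputable def Isot_F (s s' : K.V → Fin 4 → ℝ) (C : K.V → K.V → ℝ)
    (y : Fin 5 → K.V × Bool) : ℝ :=
  BB (fun i j => Isot_C C (y i) (y j)) (fun i => Isot_S s s' (y i))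

private theorem Isot_F_smul (s s' : K.V → Fin 4 → ℝ) (hs : Equi K s) (hs' : Equi K s')
    (C : K.V → K.V → ℝ)
    (hC : ∀ (γ : K.Γ) (x y : K.V), C (γ • x) (γ • y) = kap K γ * C x y)
    (γ : K.Γ) (y : Fin 5 → K.V × Bool) :
    Isot_F s s' C (fun i => (γ • (y i).1, (y i).2)) = chi K.lin γ * Isot_F s s' C y := by
  unfold Isot_F chi
  rw [← BB_mulVec _ _ _ (Isot_det_ne K.lin γ)]
  congr 1
  · funext i j
    unfold Isot_C
    simp only
    split_ifs
    · rw [mul_zero]
    · rw [mul_zero]
    · exact hC γ _ _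
  · funext i
    unfold Isot_S
    simp only
    split_ifs
    · exact hs' γ _
    · exact hs γ _

private theorem Isot_cocycle {o : Lab K} {s s' : K.V → Fin 4 → ℝ} (hg : GenPos2 o s s')
    (C : K.V → K.V → ℝ) {t : Fin 5 → K.V} (ht : Cham o t) (i : Fin 5) :
    ∑ j : Fin 6, (-1) ^ (j : ℕ) *
      Isot_F s s' C (fun k => Isot_T (fun v => (v, false)) (fun v => (v, true)) t i
        ((j.succAbove k : Fin 6) : ℕ)) = 0 := by
  unfold Isot_F
  refine BB_cocycle (fun k l => Isot_C C
    (Isot_T (fun v => (v, false)) (fun v => (v, true)) t i (k : ℕ))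
    (Isot_T (fun v => (v, false)) (fun v => (v, true)) t i (l : ℕ)))
    (fun k => Isot_S s s' (Isot_T (fun v => (v, false)) (fun v => (v, true)) t i (k : ℕ))) ?_
  intro e
  -- the embedding of the six vertices of the prism simplex in `Fin 5 × Bool`
  let f : Fin 6 → Fin 5 × Bool := fun k =>
    if h : (k : ℕ) ≤ i then (⟨k, by omega⟩, false) else (⟨k - 1, by omega⟩, true)
  have hf : Function.Injective f := by
    intro k l hkl
    by_cases hk : (k : ℕ) ≤ i <;> by_cases hl : (l : ℕ) ≤ i
    · simp only [f, dif_pos hk, dif_pos hl, Prod.mk.injEq, Fin.mk.injEq, and_true] at hkl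
      exact Fin.ext hkl
    · simp [f, dif_pos hk, dif_neg hl] at hkl
    · simp [f, dif_neg hk, dif_pos hl] at hkl
    · simp only [f, dif_neg hk, dif_neg hl, Prod.mk.injEq, Fin.mk.injEq, and_true] at hkl
      exact Fin.ext (by omega)
  have h := hg t ht ⟨fun a => f (e a), hf.comp e.injective⟩
  have e1 : (Matrix.of fun a b : Fin 4 => Isot_S s s' (Isot_T (fun v => (v, false))
      (fun v => (v, true)) t i ((e a : Fin 6) : ℕ)) b) =
      (Matrix.of fun a b : Fin 4 => (if (f (e a)).2 then s' (t (f (e a)).1)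
        else s (t (f (e a)).1)) b) := by
    ext a b
    simp only [Matrix.of_apply]
    unfold Isot_S Isot_T
    by_cases hk : ((e a : Fin 6) : ℕ) ≤ i
    · have h2 : f (e a) = (⟨(e a : Fin 6), by omega⟩, false) := by
        simp only [f, dif_pos hk]
      rw [if_pos hk, h2]
      simp only
      rw [← Isot_tN_coe t]
    · have h2 : f (e a) = (⟨(e a : Fin 6) - 1, by omega⟩, true) := by
        simp only [f, dif_neg hk]
      rw [if_neg hk, h2]
      simp only
      rw [← Isot_tN_coe t]
  rw [e1]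
  exact h

theorem isotropic (o : Lab K) {R : Finset (Finset K.V)} (hR : K.Reps R)
    (s s' : K.V → Fin 4 → ℝ) (hs : Equi K s) (hs' : Equi K s') (hg : GenPos2 o s s')
    (C : K.V → K.V → ℝ)
    (hC : ∀ (γ : K.Γ) (x y : K.V), C (γ • x) (γ • y) = kap K γ * C x y) :
    ∑ t ∈ chamReps o R, orr K t * BB (fun i j => C (t i) (t j)) (fun i => s (t i)) = 0 := by
  have hφ : ∀ (γ : K.Γ) (y : Fin 4 → K.V),
      prismPhi (Isot_F s s' C) (fun v => (v, false)) (fun v => (v, true)) (fun i => γ • y i) =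
      chi K.lin γ *
        prismPhi (Isot_F s s' C) (fun v => (v, false)) (fun v => (v, true)) y := by
    intro γ y
    unfold prismPhi
    rw [Finset.mul_sum]
    refine Finset.sum_congr rfl fun i _ => ?_
    have e := Isot_F_smul s s' hs hs' C hC γ (fun k : Fin 5 =>
      if h : (k : ℕ) ≤ i then (y ⟨k, lt_of_le_of_lt h i.2⟩, false)
      else (y ⟨k - 1, by omega⟩, true))
    have e2 : (fun k : Fin 5 =>
        (γ • ((if h : (k : ℕ) ≤ i then (y ⟨k, lt_of_le_of_lt h i.2⟩, false)
          else (y ⟨k - 1, by omega⟩, true)) : K.V × Bool).1,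
        ((if h : (k : ℕ) ≤ i then (y ⟨k, lt_of_le_of_lt h i.2⟩, false)
          else (y ⟨k - 1, by omega⟩, true)) : K.V × Bool).2)) = (fun k : Fin 5 =>
        if h : (k : ℕ) ≤ i then (γ • y ⟨k, lt_of_le_of_lt h i.2⟩, false)
        else (γ • y ⟨k - 1, by omega⟩, true)) := by
      funext k
      by_cases hk : (k : ℕ) ≤ i
      · simp only [dif_pos hk]
      · simp only [dif_neg hk]
    rw [e2] at e
    rw [e]
    ring
  have key := wcycle_cham (by norm_num) o hR _ hφ
  have h1 : ∀ k : {t // t ∈ chamReps o R},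
      ∑ j : Fin 5, (-1) ^ (j : ℕ) * prismPhi (Isot_F s s' C) (fun v => (v, false))
        (fun v => (v, true)) (fun i => (k : Fin 5 → K.V) (j.succAbove i)) =
      -BB (fun i j => C ((k : Fin 5 → K.V) i) ((k : Fin 5 → K.V) j))
        (fun i => s ((k : Fin 5 → K.V) i)) := by
    intro k
    have ht := (mem_chamReps.1 k.2).1
    rw [Isot_prism (Isot_F s s' C) (fun v => (v, false)) (fun v => (v, true)) (k : Fin 5 → K.V)
      (Isot_cocycle hg C ht)]
    have e1 : Isot_F s s' C (fun i => ((k : Fin 5 → K.V) i, true)) = 0 := by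
      unfold Isot_F BB LL Isot_C
      simp
    have e2 : Isot_F s s' C (fun i => ((k : Fin 5 → K.V) i, false)) =
        BB (fun i j => C ((k : Fin 5 → K.V) i) ((k : Fin 5 → K.V) j))
        (fun i => s ((k : Fin 5 → K.V) i)) := by
      unfold Isot_F Isot_C Isot_S
      simp
    rw [e1, e2, zero_sub]
  simp_rw [h1] at key
  rw [← Finset.sum_coe_sort (chamReps o R)
    (fun t => orr K t * BB (fun i j => C (t i) (t j)) (fun i => s (t i)))]
  rw [← neg_eq_zero, ← Finset.sum_neg_distrib]
  rw [← key]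
  refine Finset.sum_congr rfl fun t _ => ?_
  rw [mul_neg]

end Pool.Agent.ChS
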