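import Pool.Agent.ChS.Defs

/-!
# Uniqueness of local solutions up to alternating forms

Let `J ⊆ I` have `min |I| 4` elements and extend `(s v)_{v ∈ J}` to a basis of `ℝ^4` by one vector
`e` if `|J| = 3`.  There is exactly one alternating form with `⟨s v, A s w⟩ = -⟨s w, A s v⟩`
prescribed: `A` is determined by `A (s v) = β v`, i.e. by the numbers `⟨s w, A s v⟩ = ⟨s w, β v⟩`
(alternating in `v, w` by `h0`, `h1`) and `⟨e, A s v⟩ = ⟨e, β v⟩ = -⟨s v, A e⟩`, `⟨e, A e⟩ = 0`;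
conversely these numbers define an alternating form.  For `v ∈ I \ J` (then `J` is a basis) the
covector `β v - A s v` vanishes on `s w`, `w ∈ J`: `⟨s w, β v⟩ = -⟨s v, β w⟩ = -⟨s v, A s w⟩
= ⟨s w, A s v⟩`.
-/

namespace Pool.Agent.ChS

open Matrix Pool.Agent.ChP

/-- `x · (A y) = -(A x) · y` for alternating `A`. -/
theorem locUniq_dot {A : Matrix (Fin 4) (Fin 4) ℝ} (hA : Aᵀ = -A) (x y : Fin 4 → ℝ) :
    x ⬝ᵥ (A *ᵥ y) = -((A *ᵥ x) ⬝ᵥ y) := by
  have h1 : A = -Aᵀ := by rw [hA, neg_neg]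
  rw [Matrix.dotProduct_mulVec]
  conv_lhs => rw [h1]
  rw [Matrix.vecMul_neg, Matrix.vecMul_transpose, neg_dotProduct]

theorem locUniq_mulVec_eq {R : Matrix (Fin 4) (Fin 4) ℝ} (hR : IsUnit R) {x y : Fin 4 → ℝ}
    (h : ∀ j, R j ⬝ᵥ x = R j ⬝ᵥ y) : x = y := by
  have h1 : R *ᵥ x = R *ᵥ y := funext h
  have hdet := (Matrix.isUnit_iff_isUnit_det R).mp hR
  have h2 := congrArg (fun z => R⁻¹ *ᵥ z) h1
  simpa [Matrix.mulVec_mulVec, Matrix.nonsing_inv_mul R hdet] using h2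

theorem locUniq_basis {R S : Matrix (Fin 4) (Fin 4) ℝ} (hR : IsUnit R)
    (h : ∀ i j, R i ⬝ᵥ S j = -(R j ⬝ᵥ S i)) :
    ∃ A : Matrix (Fin 4) (Fin 4) ℝ, Aᵀ = -A ∧ ∀ j, A *ᵥ R j = S j := by
  have hdet := (Matrix.isUnit_iff_isUnit_det R).mp hR
  have hdetT : IsUnit (Rᵀ).det := by rwa [Matrix.det_transpose]
  have hanti : S * Rᵀ = -(R * Sᵀ) := by
    ext i j
    have h1 := h i j
    rw [Matrix.neg_apply, Matrix.mul_apply, Matrix.mul_apply]
    have e1 : ∑ k, S i k * Rᵀ k j = R j ⬝ᵥ S i := by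
      unfold dotProduct
      exact Finset.sum_congr rfl fun k _ => by rw [Matrix.transpose_apply, mul_comm]
    have e2 : ∑ k, R i k * Sᵀ k j = R i ⬝ᵥ S j := by
      unfold dotProduct
      exact Finset.sum_congr rfl fun k _ => by rw [Matrix.transpose_apply]
    rw [e1, e2, h1, neg_neg]
  refine ⟨Sᵀ * (Rᵀ)⁻¹, ?_, ?_⟩
  · rw [Matrix.transpose_mul, Matrix.transpose_nonsing_inv, Matrix.transpose_transpose,
      Matrix.transpose_transpose]
    calc R⁻¹ * S = R⁻¹ * (S * Rᵀ) * (Rᵀ)⁻¹ := by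
          rw [Matrix.mul_assoc, Matrix.mul_assoc S, Matrix.mul_nonsing_inv _ hdetT, Matrix.mul_one]
      _ = R⁻¹ * (-(R * Sᵀ)) * (Rᵀ)⁻¹ := by rw [hanti]
      _ = -(R⁻¹ * R * Sᵀ * (Rᵀ)⁻¹) := by
          rw [Matrix.mul_neg, Matrix.neg_mul, Matrix.mul_assoc R⁻¹ R Sᵀ]
      _ = -(Sᵀ * (Rᵀ)⁻¹) := by rw [Matrix.nonsing_inv_mul R hdet, Matrix.one_mul]
  · intro j
    have h1 : Sᵀ * (Rᵀ)⁻¹ * Rᵀ = Sᵀ := by
      rw [Matrix.mul_assoc, Matrix.nonsing_inv_mul _ hdetT, Matrix.mul_one]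
    ext i
    have h2 := congrFun (congrFun h1 i) j
    rw [Matrix.mul_apply] at h2
    exact h2

theorem locUniq_four {ι : Type*} [DecidableEq ι] (I : Finset ι) (s : ι → Fin 4 → ℝ)
    (β : ι → Fin 4 → ℝ) (h0 : ∀ v ∈ I, β v ⬝ᵥ s v = 0)
    (h1 : ∀ v ∈ I, ∀ w ∈ I, v ≠ w → β v ⬝ᵥ s w + β w ⬝ᵥ s v = 0)
    (b : Fin 4 → ι) (hb : ∀ j, b j ∈ I) (hli : LinearIndependent ℝ (fun j => s (b j))) :
    ∃! A : Matrix (Fin 4) (Fin 4) ℝ, Aᵀ = -A ∧ ∀ v ∈ I, β v = A *ᵥ s v := by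
  have hcomm : ∀ v ∈ I, ∀ w ∈ I, β v ⬝ᵥ s w = -(β w ⬝ᵥ s v) := by
    intro v hv w hw
    by_cases h : v = w
    · subst h; rw [h0 v hv, neg_zero]
    · have := h1 v hv w hw h; linarith
  set R : Matrix (Fin 4) (Fin 4) ℝ := fun j => s (b j) with hRdef
  set S : Matrix (Fin 4) (Fin 4) ℝ := fun j => β (b j) with hSdef
  have hR : IsUnit R := by
    rw [← Matrix.linearIndependent_rows_iff_isUnit]
    exact hli
  obtain ⟨A, hA, hAS⟩ := locUniq_basis (R := R) (S := S) hR (fun i j => by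
    have := hcomm (b j) (hb j) (b i) (hb i)
    show s (b i) ⬝ᵥ β (b j) = -(s (b j) ⬝ᵥ β (b i))
    rw [dotProduct_comm, this, dotProduct_comm])
  refine ⟨A, ⟨hA, fun v hv => ?_⟩, fun A' hA' => ?_⟩
  · apply locUniq_mulVec_eq hR
    intro j
    rw [locUniq_dot hA, hAS j]
    show s (b j) ⬝ᵥ β v = -(β (b j) ⬝ᵥ s v)
    rw [dotProduct_comm]
    exact hcomm v hv (b j) (hb j)
  · have hAA : ∀ x, A' *ᵥ x = A *ᵥ x := by
      intro x
      apply locUniq_mulVec_eq hR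
      intro j
      rw [locUniq_dot hA, locUniq_dot hA'.1, hAS j]
      show -((A' *ᵥ s (b j)) ⬝ᵥ x) = -(β (b j) ⬝ᵥ x)
      rw [hA'.2 (b j) (hb j)]
    exact Matrix.ext_of_mulVec_single fun i => hAA _

theorem locUniq_three {ι : Type*} [DecidableEq ι] (I : Finset ι) (s : ι → Fin 4 → ℝ)
    (β : ι → Fin 4 → ℝ) (h0 : ∀ v ∈ I, β v ⬝ᵥ s v = 0)
    (h1 : ∀ v ∈ I, ∀ w ∈ I, v ≠ w → β v ⬝ᵥ s w + β w ⬝ᵥ s v = 0)
    (b : Fin 3 → ι) (hb : ∀ j, b j ∈ I) (hbs : ∀ v ∈ I, ∃ j, b j = v)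
    (hli : LinearIndependent ℝ (fun j => s (b j))) :
    ∃! A : Matrix (Fin 4) (Fin 4) ℝ, Aᵀ = -A ∧ ∀ v ∈ I, β v = A *ᵥ s v := by
  have hcomm : ∀ v ∈ I, ∀ w ∈ I, β v ⬝ᵥ s w = -(β w ⬝ᵥ s v) := by
    intro v hv w hw
    by_cases h : v = w
    · subst h; rw [h0 v hv, neg_zero]
    · have := h1 v hv w hw h; linarith
  obtain ⟨e, he⟩ := exists_linearIndependent_snoc_of_lt_finrank hli (by simp)
  set R : Matrix (Fin 4) (Fin 4) ℝ := Fin.snoc (fun j => s (b j)) e with hRdef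
  have hR : IsUnit R := by
    rw [← Matrix.linearIndependent_rows_iff_isUnit]
    exact he
  have hdet := (Matrix.isUnit_iff_isUnit_det R).mp hR
  have hRc : ∀ j : Fin 3, R j.castSucc = s (b j) := fun j => by
    rw [hRdef]; exact Fin.snoc_castSucc (α := fun _ => Fin 4 → ℝ) _ _ _
  have hRl : R (Fin.last 3) = e := by
    rw [hRdef]; exact Fin.snoc_last (α := fun _ => Fin 4 → ℝ) _ _
  -- the last covector
  set ρ : Fin 4 → ℝ := Fin.snoc (fun j : Fin 3 => -(β (b j) ⬝ᵥ e)) 0 with hρ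
  have hρc : ∀ j : Fin 3, ρ j.castSucc = -(β (b j) ⬝ᵥ e) := fun j => by
    rw [hρ]; exact Fin.snoc_castSucc (α := fun _ => ℝ) _ _ _
  have hρl : ρ (Fin.last 3) = 0 := by
    rw [hρ]; exact Fin.snoc_last (α := fun _ => ℝ) _ _
  set β' : Fin 4 → ℝ := R⁻¹ *ᵥ ρ with hβ'
  have hRβ : ∀ j, R j ⬝ᵥ β' = ρ j := by
    intro j
    have : R *ᵥ β' = ρ := by
      rw [hβ', Matrix.mulVec_mulVec, Matrix.mul_nonsing_inv R hdet, Matrix.one_mulVec]
    exact congrFun this j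
  set S : Matrix (Fin 4) (Fin 4) ℝ := Fin.snoc (fun j => β (b j)) β' with hSdef
  have hSc : ∀ j : Fin 3, S j.castSucc = β (b j) := fun j => by
    rw [hSdef]; exact Fin.snoc_castSucc (α := fun _ => Fin 4 → ℝ) _ _ _
  have hSl : S (Fin.last 3) = β' := by
    rw [hSdef]; exact Fin.snoc_last (α := fun _ => Fin 4 → ℝ) _ _
  have hanti : ∀ i j, R i ⬝ᵥ S j = -(R j ⬝ᵥ S i) := by
    intro i j
    induction i using Fin.lastCases with
    | last =>
      induction j using Fin.lastCases with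
      | last => rw [hSl, hRβ, hρl, neg_zero]
      | cast j => rw [hSl, hSc, hRβ, hρc, hRl, neg_neg, dotProduct_comm]
    | cast i =>
      induction j using Fin.lastCases with
      | last => rw [hSl, hSc, hRβ, hρc, hRl, dotProduct_comm]
      | cast j =>
        rw [hSc, hSc, hRc, hRc, dotProduct_comm, hcomm (b j) (hb j) (b i) (hb i), dotProduct_comm]
  obtain ⟨A, hA, hAS⟩ := locUniq_basis hR hanti
  refine ⟨A, ⟨hA, fun v hv => ?_⟩, fun A' hA' => ?_⟩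
  · obtain ⟨j, rfl⟩ := hbs v hv
    have := hAS j.castSucc
    rw [hRc, hSc] at this
    exact this.symm
  · have hAe : A' *ᵥ e = β' := by
      apply locUniq_mulVec_eq hR
      intro j
      rw [locUniq_dot hA'.1, hRβ]
      induction j using Fin.lastCases with
      | last =>
        rw [hRl, hρl, neg_eq_zero]
        have h2 := locUniq_dot hA'.1 e e
        rw [dotProduct_comm] at h2
        linarith
      | cast j => rw [hRc, hρc, ← hA'.2 (b j) (hb j)]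
    have hAA : ∀ x, A' *ᵥ x = A *ᵥ x := by
      intro x
      apply locUniq_mulVec_eq hR
      intro j
      rw [locUniq_dot hA, locUniq_dot hA'.1, hAS j]
      induction j using Fin.lastCases with
      | last => rw [hRl, hSl, hAe]
      | cast j => rw [hRc, hSc, hA'.2 (b j) (hb j)]
    exact Matrix.ext_of_mulVec_single fun i => hAA _

theorem local_uniq {ι : Type*} [DecidableEq ι] (I : Finset ι) (hI : 3 ≤ I.card)
    (s : ι → Fin 4 → ℝ)
    (hs : ∀ J ⊆ I, J.card ≤ 4 → LinearIndependent ℝ (fun v : J => s v))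
    (β : ι → Fin 4 → ℝ) (h0 : ∀ v ∈ I, β v ⬝ᵥ s v = 0)
    (h1 : ∀ v ∈ I, ∀ w ∈ I, v ≠ w → β v ⬝ᵥ s w + β w ⬝ᵥ s v = 0) :
    ∃! A : Matrix (Fin 4) (Fin 4) ℝ, Aᵀ = -A ∧ ∀ v ∈ I, β v = A *ᵥ s v := by
  obtain hlt | hge := Nat.lt_or_ge I.card 4
  · have hc : I.card = 3 := by omega
    set f := Finset.equivFinOfCardEq hc with hf
    refine locUniq_three I s β h0 h1 (fun j => (f.symm j : ι)) (fun j => (f.symm j).2)
      (fun v hv => ⟨f ⟨v, hv⟩, by simp⟩) ?_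
    have h2 := hs I (Finset.Subset.refl _) (by omega)
    exact h2.comp f.symm f.symm.injective
  · obtain ⟨J, hJI, hJc⟩ := Finset.exists_subset_card_eq hge
    set f := Finset.equivFinOfCardEq hJc with hf
    refine locUniq_four I s β h0 h1 (fun j => (f.symm j : ι)) (fun j => hJI (f.symm j).2) ?_
    have h2 := hs J hJI (by omega)
    exact h2.comp f.symm f.symm.injective

end Pool.Agent.ChS
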