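import Pool.Agent.ChS.StarConn
import Pool.Agent.ChS.ChamBasic
import Pool.Agent.ChS.LocUniq

/-!
# Global uniqueness up to alternating forms

For every chamber `σ` there is a unique alternating `A σ` with `β v = A σ *ᵥ s v` for `v ∈ σ`
(`local_uniq`, `genPos_lin`); `A σ = A σ'` if `(σ ∩ σ').card = 4` (uniqueness for `σ ∩ σ'`), so `A` is
constant (`chambers_connected`).  Every vertex lies in a chamber (`exists_top`), and there is a
chamber as `K.V` is not empty.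
-/

namespace Pool.Agent.ChS

open Matrix Pool.Agent.ChP
open scoped Pointwise

variable {K : AffineTriangulation 4}

private theorem KerUniq_face {I : Finset K.V} {σ : Finset K.V} (hσ : σ ∈ K.faces) (hI : I ⊆ σ)
    (s : K.V → Fin 4 → ℝ) (β : K.V → Fin 4 → ℝ)
    (h1 : ∀ x y, x ≠ y → ({x, y} : Finset K.V) ∈ K.faces → dd K s β x y = 0) :
    ∀ v ∈ I, ∀ w ∈ I, v ≠ w → β v ⬝ᵥ s w + β w ⬝ᵥ s v = 0 := by
  intro v hv w hw hvw
  refine h1 v w hvw (K.down_closed σ hσ _ ?_ ⟨v, by simp⟩)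
  intro x hx
  rw [Finset.mem_insert, Finset.mem_singleton] at hx
  rcases hx with rfl | rfl
  · exact hI hv
  · exact hI hw

private theorem KerUniq_chb (o : Lab K) (s : K.V → Fin 4 → ℝ) (hg : GenPos o s)
    (β : K.V → Fin 4 → ℝ) (h0 : ∀ v, β v ⬝ᵥ s v = 0)
    (h1 : ∀ x y, x ≠ y → ({x, y} : Finset K.V) ∈ K.faces → dd K s β x y = 0)
    {I : Finset K.V} {σ : Finset K.V} (hσ : Chb K σ) (hI : I ⊆ σ) (h3 : 3 ≤ I.card) :
    ∃! A : Matrix (Fin 4) (Fin 4) ℝ, Aᵀ = -A ∧ ∀ v ∈ I, β v = A *ᵥ s v :=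
  local_uniq I h3 s (fun J hJ hJc => genPos_lin hg hσ J (hJ.trans hI) hJc) β
    (fun v _ => h0 v) (KerUniq_face hσ.1 hI s β h1)

theorem ker_uniq (hc : Connected K) (o : Lab K) (s : K.V → Fin 4 → ℝ) (hg : GenPos o s)
    (β : K.V → Fin 4 → ℝ) (h0 : ∀ v, β v ⬝ᵥ s v = 0)
    (h1 : ∀ x y, x ≠ y → ({x, y} : Finset K.V) ∈ K.faces → dd K s β x y = 0) :
    ∃! A : Matrix (Fin 4) (Fin 4) ℝ, Aᵀ = -A ∧ ∀ v, β v = A *ᵥ s v := by
  classical
  have hex : ∀ σ : Finset K.V, Chb K σ →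
      ∃! A : Matrix (Fin 4) (Fin 4) ℝ, Aᵀ = -A ∧ ∀ v ∈ σ, β v = A *ᵥ s v := fun σ hσ =>
    KerUniq_chb o s hg β h0 h1 hσ (Finset.Subset.refl _) (by rw [hσ.2]; norm_num)
  set f : Finset K.V → Matrix (Fin 4) (Fin 4) ℝ := fun σ =>
    if h : Chb K σ then (hex σ h).choose else 0 with hf
  have hfs : ∀ σ, Chb K σ → (f σ)ᵀ = -(f σ) ∧ ∀ v ∈ σ, β v = f σ *ᵥ s v := by
    intro σ hσ
    have : f σ = (hex σ hσ).choose := by
      rw [hf]
      exact dif_pos hσ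
    rw [this]
    exact (hex σ hσ).choose_spec.1
  have hconst : ∀ σ σ', Chb K σ → Chb K σ' → (σ ∩ σ').card = 4 → f σ = f σ' := by
    intro σ σ' hσ hσ' hc4
    have hu := KerUniq_chb o s hg β h0 h1 hσ (Finset.inter_subset_left (s₂ := σ'))
      (by rw [hc4]; norm_num)
    refine hu.unique ⟨(hfs σ hσ).1, fun v hv => (hfs σ hσ).2 v (Finset.mem_inter.1 hv).1⟩
      ⟨(hfs σ' hσ').1, fun v hv => (hfs σ' hσ').2 v (Finset.mem_inter.1 hv).2⟩
  obtain ⟨v₀⟩ := hc.1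
  obtain ⟨σ₀, hσ₀, hv₀, hσ₀c⟩ := K.exists_top (K.singleton_mem v₀)
  have hch₀ : Chb K σ₀ := ⟨hσ₀, hσ₀c⟩
  refine ⟨f σ₀, ⟨(hfs σ₀ hch₀).1, fun v => ?_⟩, ?_⟩
  · obtain ⟨σ, hσ, hv, hσc⟩ := K.exists_top (K.singleton_mem v)
    have hch : Chb K σ := ⟨hσ, hσc⟩
    rw [chambers_connected K hc f hconst hch₀ hch]
    exact (hfs σ hch).2 v (hv (Finset.mem_singleton_self v))
  · rintro A ⟨hA, hA'⟩
    exact (hex σ₀ hch₀).unique ⟨hA, fun v _ => hA' v⟩ (hfs σ₀ hch₀)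

/-- the vectors in general position determine an alternating form -/
theorem alt_eq_zero (hc : Connected K) (o : Lab K) (s : K.V → Fin 4 → ℝ) (hg : GenPos o s)
    (A : Matrix (Fin 4) (Fin 4) ℝ) (hA : ∀ v, A *ᵥ s v = 0) : A = 0 := by
  classical
  obtain ⟨v₀⟩ := hc.1
  obtain ⟨σ, hσ, -, hσc⟩ := K.exists_top (K.singleton_mem v₀)
  have hch : Chb K σ := ⟨hσ, hσc⟩
  obtain ⟨J, hJσ, hJ⟩ := Finset.exists_subset_card_eq (s := σ) (n := 4) (by rw [hσc]; norm_num)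
  have hlin := genPos_lin hg hch J hJσ hJ.le
  have hspan : Submodule.span ℝ (Set.range fun v : J => s v) = ⊤ :=
    hlin.span_eq_top_of_card_eq_finrank' (by rw [Fintype.card_coe, hJ]; simp)
  have hker : ∀ x : Fin 4 → ℝ, A *ᵥ x = 0 := by
    intro x
    have hx : x ∈ Submodule.span ℝ (Set.range fun v : J => s v) := by
      rw [hspan]
      exact Submodule.mem_top
    induction hx using Submodule.span_induction with
    | mem x h =>
      obtain ⟨v, rfl⟩ := h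
      exact hA v
    | zero => exact Matrix.mulVec_zero A
    | add x y _ _ hx hy => rw [Matrix.mulVec_add, hx, hy, add_zero]
    | smul a x _ hx => rw [Matrix.mulVec_smul, hx, smul_zero]
  ext i j
  have := congrFun (hker (Pi.single j 1)) i
  rw [Matrix.mulVec_single_one] at this
  exact this

end Pool.Agent.ChS
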