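import Pool.Agent.ChS.EdgeDim

/-!
# The dimension of the space of equivariant covectors at the vertices

`β ∈ VertSp K s` is determined by its values at the `v` with `{v} ∈ R`, which are arbitrary covectors
vanishing on `s v ≠ 0` (3-dimensional): `β (γ • v) = kap γ • ((lin γ)⁻¹)ᵀ *ᵥ β v`, compatible with the
condition `β v ⬝ᵥ s v = 0` by `Equi`.
-/

namespace Pool.Agent.ChS

open Matrix Pool.Agent.ChP
open scoped Pointwise

variable (K : AffineTriangulation 4)

/-- The evaluation of covectors at a vector. -/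
private noncomputable def VertDim_f (x : Fin 4 → ℝ) : (Fin 4 → ℝ) →ₗ[ℝ] ℝ where
  toFun b := b ⬝ᵥ x
  map_add' a b := add_dotProduct a b x
  map_smul' c a := smul_dotProduct c a x

private theorem VertDim_f_apply (x b : Fin 4 → ℝ) : VertDim_f x b = b ⬝ᵥ x := rfl

private theorem VertDim_ker {x : Fin 4 → ℝ} (hx : x ≠ 0) :
    Module.finrank ℝ (LinearMap.ker (VertDim_f x)) = 3 := by
  have hne : VertDim_f x ≠ 0 := by
    intro h
    have h1 : VertDim_f x x = 0 := by rw [h]; rfl
    rw [VertDim_f_apply] at h1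
    exact hx (dotProduct_self_eq_zero.1 h1)
  have h2 := Module.Dual.finrank_ker_add_one_of_ne_zero (f := VertDim_f x) hne
  rw [Module.finrank_fin_fun] at h2
  omega

private theorem VertDim_inv (γ : K.Γ) : (K.lin γ)⁻¹ * K.lin γ = 1 := by
  have h : K.lin γ * K.lin γ⁻¹ = 1 := by rw [← map_mul, mul_inv_cancel, map_one]
  exact Matrix.nonsing_inv_mul _ (Matrix.isUnit_det_of_right_inverse h)

private theorem VertDim_dot (M : Matrix (Fin 4) (Fin 4) ℝ) (b y : Fin 4 → ℝ) :
    (Mᵀ *ᵥ b) ⬝ᵥ y = b ⬝ᵥ (M *ᵥ y) := by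
  rw [Matrix.mulVec_transpose, Matrix.dotProduct_mulVec]

theorem vertSp_finrank (s : K.V → Fin 4 → ℝ) (hs : Equi K s) (h0 : ∀ v, s v ≠ 0) :
    Module.Finite ℝ (VertSp K s) ∧ Module.finrank ℝ (VertSp K s) = 3 * K.numSimplices 0 := by
  classical
  obtain ⟨R, hR⟩ := K.exists_reps
  -- representatives of the vertices
  have hex : ∀ u : K.V, ∃ γ : K.Γ, ∃ w : K.V, ({w} : Finset K.V) ∈ R ∧ γ • w = u := by
    intro u
    obtain ⟨⟨γ, σ⟩, ⟨h1, h2⟩, -⟩ := hR.2 {u} (K.singleton_mem u)
    simp only at h1 h2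
    refine ⟨γ, γ⁻¹ • u, ?_, smul_inv_smul γ u⟩
    have h3 : σ = {γ⁻¹ • u} := by
      rw [← Finset.smul_finset_singleton, ← h2, inv_smul_smul]
    rw [← h3]
    exact h1
  have huniq : ∀ (γ γ' : K.Γ) (w w' : K.V), ({w} : Finset K.V) ∈ R → ({w'} : Finset K.V) ∈ R →
      γ • w = γ' • w' → γ = γ' ∧ w = w' := by
    intro γ γ' w w' hw hw' h
    have h1 := (hR.2 {γ • w} (K.singleton_mem _)).unique (y₁ := (γ, {w})) (y₂ := (γ', {w'}))
      ⟨hw, Finset.smul_finset_singleton _⟩
      ⟨hw', by rw [h]; exact Finset.smul_finset_singleton _⟩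
    exact ⟨congrArg Prod.fst h1, Finset.singleton_injective (congrArg Prod.snd h1)⟩
  choose g w hw hgw using hex
  have hsm : ∀ (δ : K.Γ) (u : K.V), g (δ • u) = δ * g u ∧ w (δ • u) = w u := by
    intro δ u
    exact huniq _ _ _ _ (hw _) (hw _) (by rw [hgw, mul_smul, hgw])
  have hrep : ∀ u : K.V, ({u} : Finset K.V) ∈ R → g u = 1 ∧ w u = u := by
    intro u hu
    exact huniq _ _ _ _ (hw _) hu (by rw [hgw, one_smul])
  -- the finite set of representatives
  set W : Finset K.V := (R.filter fun σ => σ.card = 0 + 1).biUnion id with hWdef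
  have memW : ∀ u, u ∈ W ↔ ({u} : Finset K.V) ∈ R := by
    intro u
    rw [hWdef, Finset.mem_biUnion]
    constructor
    · rintro ⟨σ, hσ, hu⟩
      obtain ⟨h1, h2⟩ := Finset.mem_filter.1 hσ
      rw [zero_add, Finset.card_eq_one] at h2
      obtain ⟨a, rfl⟩ := h2
      rw [id, Finset.mem_singleton] at hu
      rw [hu]
      exact h1
    · intro h
      exact ⟨{u}, Finset.mem_filter.2 ⟨h, by rw [Finset.card_singleton]⟩,
        Finset.mem_singleton_self u⟩
  have hWcard : W.card = K.numSimplices 0 := by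
    rw [numSimplices_eq hR 0, ← Finset.card_image_of_injective W Finset.singleton_injective]
    congr 1
    ext σ
    rw [Finset.mem_image, Finset.mem_filter]
    constructor
    · rintro ⟨u, hu, rfl⟩
      exact ⟨(memW u).1 hu, by rw [Finset.card_singleton]⟩
    · rintro ⟨h1, h2⟩
      rw [zero_add, Finset.card_eq_one] at h2
      obtain ⟨a, rfl⟩ := h2
      exact ⟨a, (memW a).2 h1, rfl⟩
  -- the evaluation map
  let F : VertSp K s →ₗ[ℝ] ((u : W) → LinearMap.ker (VertDim_f (s u))) :=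
    { toFun := fun β u => ⟨β.1 u, by
        rw [LinearMap.mem_ker, VertDim_f_apply]
        exact β.2.1 u⟩
      map_add' := fun a b => rfl
      map_smul' := fun c a => rfl }
  have hinj : Function.Injective F := by
    rw [injective_iff_map_eq_zero]
    intro β hβ
    have h1 : ∀ u, ({u} : Finset K.V) ∈ R → β.1 u = 0 := by
      intro u hu
      have h2 := congrFun hβ ⟨u, (memW u).2 hu⟩
      exact congrArg Subtype.val h2
    apply Subtype.ext
    funext u
    have h3 := β.2.2 (g u) (w u)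
    rw [hgw, h1 (w u) (hw u), Matrix.mulVec_zero, smul_zero] at h3
    exact h3
  have hsurj : Function.Surjective F := by
    intro b
    have hmem : (fun u => kap K (g u) •
        (((K.lin (g u))⁻¹)ᵀ *ᵥ (b ⟨w u, (memW _).2 (hw u)⟩ : Fin 4 → ℝ))) ∈ VertSp K s := by
      refine ⟨fun u => ?_, fun γ u => ?_⟩
      · have h1 : s u = K.lin (g u) *ᵥ s (w u) := by rw [← hs, hgw]
        have h2 : (b ⟨w u, (memW _).2 (hw u)⟩ : Fin 4 → ℝ) ⬝ᵥ s (w u) = 0 := by
          have h3 := (b ⟨w u, (memW _).2 (hw u)⟩).2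
          rw [LinearMap.mem_ker, VertDim_f_apply] at h3
          exact h3
        rw [smul_dotProduct, VertDim_dot, h1, Matrix.mulVec_mulVec, VertDim_inv,
          Matrix.one_mulVec, h2, smul_zero]
      · have h1 := (hsm γ u).1
        have h2 : (b ⟨w (γ • u), (memW _).2 (hw (γ • u))⟩ : Fin 4 → ℝ) =
            (b ⟨w u, (memW _).2 (hw u)⟩ : Fin 4 → ℝ) := by
          have h3 : (⟨w (γ • u), (memW _).2 (hw (γ • u))⟩ : W) = ⟨w u, (memW _).2 (hw u)⟩ :=
            Subtype.ext (hsm γ u).2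
          exact congrArg (fun z : W => (b z : Fin 4 → ℝ)) h3
        beta_reduce
        rw [h1, h2, kap_mul, map_mul, Matrix.mul_inv_rev, Matrix.transpose_mul,
          ← Matrix.mulVec_mulVec, Matrix.mulVec_smul, smul_smul]
    refine ⟨⟨_, hmem⟩, ?_⟩
    funext u
    apply Subtype.ext
    have hu := (memW u.1).1 u.2
    have h1 := hrep u.1 hu
    show kap K (g u.1) •
        (((K.lin (g u.1))⁻¹)ᵀ *ᵥ (b ⟨w u.1, (memW _).2 (hw u.1)⟩ : Fin 4 → ℝ)) = (b u).1
    have h2 : (b ⟨w u.1, (memW _).2 (hw u.1)⟩ : Fin 4 → ℝ) = (b u).1 := by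
      have h3 : (⟨w u.1, (memW _).2 (hw u.1)⟩ : W) = u := Subtype.ext h1.2
      exact congrArg (fun z : W => (b z : Fin 4 → ℝ)) h3
    have hk : kap K 1 = 1 := by
      unfold kap
      rw [map_one, Matrix.det_one, abs_one, Real.sqrt_one]
    rw [h2, h1.1, hk, map_one, inv_one, Matrix.transpose_one, Matrix.one_mulVec, one_smul]
  let e := LinearEquiv.ofBijective F ⟨hinj, hsurj⟩
  refine ⟨Module.Finite.equiv e.symm, ?_⟩
  rw [e.finrank_eq, Module.finrank_pi_fintype,
    Finset.sum_congr rfl (fun u _ => VertDim_ker (h0 u.1)), Finset.sum_const, Finset.card_univ,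
    Fintype.card_coe, hWcard, smul_eq_mul, mul_comm]

end Pool.Agent.ChS
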