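import Pool.Agent.ChS.KerSol
import Pool.Agent.ChS.KerUniq
import Pool.Agent.ChS.VertDim

/-!
# The dimension of the kernel

Write `(γ ⋆ β) v = kap γ • (((lin γ)⁻¹)ᵀ *ᵥ β (γ⁻¹ • v))` for families of covectors; then
`dd s (γ ⋆ β) (γ x) (γ y) = kap γ * dd s β x y`, and for alternating `A` the family `β v = A *ᵥ s v`
satisfies `(γ ⋆ β) v = act (lin γ) A *ᵥ s v` (`Equi`).  Let `B` be the space of the pairs `(β, z)`,
`β : K.V → ℝ^4` with `β v ⬝ᵥ s v = 0`, `z ∈ Z1 K.lin`, such that `(γ ⋆ β) v - β v = z γ *ᵥ s v` for all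
`γ, v`.  The kernel of `(β, z) ↦ z` is `VertSp K s` (`z = 0`: `β` is equivariant), so `B` is finite
dimensional and `finrank B ≤ 3 * numSimplices 0 + finrank Z1` (`vertSp_finrank`; `s v ≠ 0` by general
position).  The map `(β, z) ↦ C`, `C x y = dd s β x y` on edges and `0` otherwise, sends `B` onto
`KerSp o s`: equivariance of `C` from the condition on `(β, z)` (`dd` of `v ↦ z γ *ᵥ s v` vanishes as `z γ` is
alternating), the condition on chambers from `LL_dd`; surjectivity: for `C ∈ KerSp` let `β` be as in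
`ker_solution`; `γ ⋆ β - β` solves the homogeneous equation, so it is `v ↦ z γ *ᵥ s v` for a unique
alternating `z γ` (`ker_uniq`), and `z` is a crossed homomorphism by uniqueness.  The kernel of this map
contains all `(v ↦ A *ᵥ s v, γ ↦ act (lin γ) A - A)`, `A` alternating, a space of dimension 6
(injective by `alt_eq_zero`).  Hence `finrank KerSp + 6 ≤ finrank B`.
-/

namespace Pool.Agent.ChS

open Matrix Pool.Agent.ChP
open scoped Pointwise

variable {K : AffineTriangulation 4}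

private theorem KerDim_inv_mul (γ : K.Γ) : (K.lin γ)⁻¹ * K.lin γ = 1 :=
  Matrix.nonsing_inv_mul _ (isUnit_iff_ne_zero.2 (K.det_lin_ne_zero γ))

private theorem KerDim_lin_inv (γ : K.Γ) : (K.lin γ)⁻¹ = K.lin γ⁻¹ := by
  refine Matrix.inv_eq_right_inv ?_
  rw [← map_mul, mul_inv_cancel, map_one]

private theorem KerDim_dot (M : Matrix (Fin 4) (Fin 4) ℝ) (b y : Fin 4 → ℝ) :
    (Mᵀ *ᵥ b) ⬝ᵥ y = b ⬝ᵥ (M *ᵥ y) := by
  rw [Matrix.mulVec_transpose, Matrix.dotProduct_mulVec]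

/-- the action on families of covectors -/
private noncomputable def KerDim_st (γ : K.Γ) (b : Fin 4 → ℝ) : Fin 4 → ℝ :=
  kap K γ • (((K.lin γ)⁻¹)ᵀ *ᵥ b)

private theorem KerDim_st_add (γ : K.Γ) (b c : Fin 4 → ℝ) :
    KerDim_st γ (b + c) = KerDim_st γ b + KerDim_st γ c := by
  unfold KerDim_st
  rw [Matrix.mulVec_add, smul_add]

private theorem KerDim_st_smul (γ : K.Γ) (r : ℝ) (b : Fin 4 → ℝ) :
    KerDim_st γ (r • b) = r • KerDim_st γ b := by
  unfold KerDim_st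
  rw [Matrix.mulVec_smul, smul_comm]

private theorem KerDim_st_zero (γ : K.Γ) : KerDim_st γ (0 : Fin 4 → ℝ) = 0 := by
  unfold KerDim_st
  rw [Matrix.mulVec_zero, smul_zero]

private theorem KerDim_st_mul (γ δ : K.Γ) (b : Fin 4 → ℝ) :
    KerDim_st (γ * δ) b = KerDim_st γ (KerDim_st δ b) := by
  unfold KerDim_st
  rw [kap_mul, map_mul, Matrix.mul_inv_rev, Matrix.transpose_mul, ← Matrix.mulVec_mulVec,
    Matrix.mulVec_smul, smul_smul]

private theorem KerDim_st_dot (γ : K.Γ) (b y : Fin 4 → ℝ) :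
    KerDim_st γ b ⬝ᵥ (K.lin γ *ᵥ y) = kap K γ * (b ⬝ᵥ y) := by
  unfold KerDim_st
  rw [smul_dotProduct, KerDim_dot, Matrix.mulVec_mulVec, KerDim_inv_mul, Matrix.one_mulVec,
    smul_eq_mul]

private theorem KerDim_st_act (γ : K.Γ) (A : Matrix (Fin 4) (Fin 4) ℝ) (y : Fin 4 → ℝ) :
    KerDim_st γ (A *ᵥ y) = act (K.lin γ) A *ᵥ (K.lin γ *ᵥ y) := by
  unfold KerDim_st act kap
  rw [Matrix.smul_mulVec, Matrix.mulVec_mulVec, Matrix.mulVec_mulVec, Matrix.mul_assoc,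
    KerDim_inv_mul, Matrix.mul_one]

private theorem KerDim_act_transpose (g A : Matrix (Fin 4) (Fin 4) ℝ) (hA : Aᵀ = -A) :
    (act g A)ᵀ = - act g A := by
  unfold act
  rw [Matrix.transpose_smul, Matrix.transpose_mul, Matrix.transpose_mul, Matrix.transpose_transpose,
    hA, Matrix.neg_mul, Matrix.mul_neg, smul_neg, Matrix.mul_assoc]

/-- The pairs of a family of covectors and a crossed homomorphism measuring its deviation from
equivariance. -/
private noncomputable def KerDim_B (s : K.V → Fin 4 → ℝ) :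
    Submodule ℝ ((K.V → Fin 4 → ℝ) × (K.Γ → Matrix (Fin 4) (Fin 4) ℝ)) where
  carrier := {p | (∀ v, p.1 v ⬝ᵥ s v = 0) ∧ p.2 ∈ Z1 K.lin ∧
    ∀ (γ : K.Γ) (v : K.V), KerDim_st γ (p.1 v) - p.1 (γ • v) = p.2 γ *ᵥ s (γ • v)}
  add_mem' := by
    rintro ⟨a, z⟩ ⟨b, w⟩ ⟨ha, hz, ha'⟩ ⟨hb, hw, hb'⟩
    refine ⟨fun v => ?_, Submodule.add_mem _ hz hw, fun γ v => ?_⟩
    · show (a v + b v) ⬝ᵥ s v = 0
      rw [add_dotProduct, ha, hb, add_zero]
    · have h1 : KerDim_st γ (a v) - a (γ • v) = z γ *ᵥ s (γ • v) := ha' γ v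
      have h2 : KerDim_st γ (b v) - b (γ • v) = w γ *ᵥ s (γ • v) := hb' γ v
      show KerDim_st γ (a v + b v) - (a (γ • v) + b (γ • v)) = (z γ + w γ) *ᵥ s (γ • v)
      rw [KerDim_st_add, Matrix.add_mulVec, ← h1, ← h2]
      abel
  zero_mem' := by
    refine ⟨fun v => ?_, Submodule.zero_mem _, fun γ v => ?_⟩
    · show (0 : Fin 4 → ℝ) ⬝ᵥ s v = 0
      rw [zero_dotProduct]
    · show KerDim_st γ (0 : Fin 4 → ℝ) - 0 = (0 : Matrix (Fin 4) (Fin 4) ℝ) *ᵥ s (γ • v)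
      rw [KerDim_st_zero, Matrix.zero_mulVec, sub_zero]
  smul_mem' := by
    rintro c ⟨a, z⟩ ⟨ha, hz, ha'⟩
    refine ⟨fun v => ?_, Submodule.smul_mem _ _ hz, fun γ v => ?_⟩
    · show (c • a v) ⬝ᵥ s v = 0
      rw [smul_dotProduct, ha, smul_zero]
    · have h1 : KerDim_st γ (a v) - a (γ • v) = z γ *ᵥ s (γ • v) := ha' γ v
      show KerDim_st γ (c • a v) - c • a (γ • v) = (c • z γ) *ᵥ s (γ • v)
      rw [KerDim_st_smul, Matrix.smul_mulVec, ← h1, smul_sub]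

/-- the projection to the crossed homomorphisms -/
private noncomputable def KerDim_pi (s : K.V → Fin 4 → ℝ) : KerDim_B s →ₗ[ℝ] Z1 K.lin where
  toFun p := ⟨p.1.2, p.2.2.1⟩
  map_add' _ _ := rfl
  map_smul' _ _ := rfl

/-- the kernel of the projection embeds into `VertSp` -/
private noncomputable def KerDim_ker (s : K.V → Fin 4 → ℝ) :
    LinearMap.ker (KerDim_pi s) →ₗ[ℝ] VertSp K s where
  toFun p := ⟨p.1.1.1, by
    have h0 : p.1.1.2 = 0 := congrArg Subtype.val (LinearMap.mem_ker.1 p.2)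
    refine ⟨p.1.2.1, fun γ v => ?_⟩
    have h1 := p.1.2.2.2 γ v
    rw [h0] at h1
    have h2 : KerDim_st γ (p.1.1.1 v) - p.1.1.1 (γ • v) = 0 := by
      rw [h1]
      show (0 : Matrix (Fin 4) (Fin 4) ℝ) *ᵥ s (γ • v) = 0
      rw [Matrix.zero_mulVec]
    exact (sub_eq_zero.1 h2).symm⟩
  map_add' _ _ := rfl
  map_smul' _ _ := rfl

private theorem KerDim_ker_inj (s : K.V → Fin 4 → ℝ) : Function.Injective (KerDim_ker s) := by
  intro p q h
  have h1 : p.1.1.1 = q.1.1.1 := congrArg Subtype.val h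
  have h2 : p.1.1.2 = 0 := congrArg Subtype.val (LinearMap.mem_ker.1 p.2)
  have h3 : q.1.1.2 = 0 := congrArg Subtype.val (LinearMap.mem_ker.1 q.2)
  apply Subtype.ext
  apply Subtype.ext
  exact Prod.ext h1 (h2.trans h3.symm)

private theorem KerDim_ne_zero (o : Lab K) (s : K.V → Fin 4 → ℝ) (hg : GenPos o s) (v : K.V) :
    s v ≠ 0 := by
  obtain ⟨σ, h1, h2, h3⟩ := K.exists_top (K.singleton_mem v)
  have h := genPos_lin hg (σ := σ) ⟨h1, h3⟩ {v} h2 (by rw [Finset.card_singleton]; norm_num)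
  exact h.ne_zero ⟨v, Finset.mem_singleton_self v⟩

private theorem KerDim_B_le (o : Lab K) (s : K.V → Fin 4 → ℝ) (hs : Equi K s) (hg : GenPos o s)
    (hZ : Module.Finite ℝ (Z1 K.lin)) :
    Module.Finite ℝ (KerDim_B s) ∧ Module.finrank ℝ (KerDim_B s) ≤
      3 * K.numSimplices 0 + Module.finrank ℝ (Z1 K.lin) := by
  obtain ⟨hV1, hV2⟩ := vertSp_finrank K s hs (KerDim_ne_zero o s hg)
  have hk : Module.Finite ℝ (LinearMap.ker (KerDim_pi s)) :=
    Module.Finite.of_injective (KerDim_ker s) (KerDim_ker_inj s)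
  have hq : Module.Finite ℝ (KerDim_B s ⧸ LinearMap.ker (KerDim_pi s)) :=
    Module.Finite.equiv (KerDim_pi s).quotKerEquivRange.symm
  have hB : Module.Finite ℝ (KerDim_B s) :=
    Module.Finite.of_submodule_quotient (LinearMap.ker (KerDim_pi s))
  refine ⟨hB, ?_⟩
  have h1 := LinearMap.finrank_range_add_finrank_ker (KerDim_pi s)
  have h2 := LinearMap.finrank_le_finrank_of_injective (KerDim_ker_inj s)
  have h3 : Module.finrank ℝ (LinearMap.range (KerDim_pi s)) ≤ Module.finrank ℝ (Z1 K.lin) :=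
    Submodule.finrank_le _
  omega

/-- the map to the functions on the edges -/
private noncomputable def KerDim_Phi (s : K.V → Fin 4 → ℝ) :
    KerDim_B s →ₗ[ℝ] (K.V → K.V → ℝ) where
  toFun p := by
    classical
    exact fun x y => if x ≠ y ∧ ({x, y} : Finset K.V) ∈ K.faces then dd K s p.1.1 x y else 0
  map_add' p q := by
    funext x y
    simp only [Pi.add_apply]
    split_ifs
    · show (p.1.1 x + q.1.1 x) ⬝ᵥ s y + (p.1.1 y + q.1.1 y) ⬝ᵥ s x = _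
      unfold dd
      rw [add_dotProduct, add_dotProduct]
      ring
    · rw [add_zero]
  map_smul' c p := by
    funext x y
    simp only [Pi.smul_apply, RingHom.id_apply, smul_eq_mul]
    split_ifs
    · show (c • p.1.1 x) ⬝ᵥ s y + (c • p.1.1 y) ⬝ᵥ s x = _
      unfold dd
      rw [smul_dotProduct, smul_dotProduct, smul_eq_mul, smul_eq_mul]
      ring
    · rw [mul_zero]

private theorem KerDim_Phi_apply (s : K.V → Fin 4 → ℝ) (p : KerDim_B s) (x y : K.V)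
    (h : x ≠ y ∧ ({x, y} : Finset K.V) ∈ K.faces) :
    KerDim_Phi s p x y = dd K s p.1.1 x y := if_pos h

private theorem KerDim_Phi_apply_neg (s : K.V → Fin 4 → ℝ) (p : KerDim_B s) (x y : K.V)
    (h : ¬ (x ≠ y ∧ ({x, y} : Finset K.V) ∈ K.faces)) :
    KerDim_Phi s p x y = 0 := if_neg h

/-- the alternating matrices -/
private noncomputable def KerDim_A (c : Fin 6 → ℝ) : Matrix (Fin 4) (Fin 4) ℝ :=
  !![0, c 0, c 1, c 2; -c 0, 0, c 3, c 4; -c 1, -c 3, 0, c 5; -c 2, -c 4, -c 5, 0]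

private theorem KerDim_A_alt (c : Fin 6 → ℝ) : (KerDim_A c)ᵀ = -KerDim_A c := by
  ext i j
  fin_cases i <;> fin_cases j <;> simp [KerDim_A]

private theorem KerDim_A_add (c d : Fin 6 → ℝ) : KerDim_A (c + d) = KerDim_A c + KerDim_A d := by
  ext i j
  fin_cases i <;> fin_cases j <;> simp [KerDim_A] <;> ring

private theorem KerDim_A_smul (r : ℝ) (c : Fin 6 → ℝ) : KerDim_A (r • c) = r • KerDim_A c := by
  ext i j
  fin_cases i <;> fin_cases j <;> simp [KerDim_A]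

private theorem KerDim_A_zero (c : Fin 6 → ℝ) (h : KerDim_A c = 0) : c = 0 := by
  have h0 := congrFun (congrFun h 0) 1
  have h1 := congrFun (congrFun h 0) 2
  have h2 := congrFun (congrFun h 0) 3
  have h3 := congrFun (congrFun h 1) 2
  have h4 := congrFun (congrFun h 1) 3
  have h5 := congrFun (congrFun h 2) 3
  funext i
  fin_cases i
  · simpa [KerDim_A] using h0
  · simpa [KerDim_A] using h1
  · simpa [KerDim_A] using h2
  · simpa [KerDim_A] using h3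
  · simpa [KerDim_A] using h4
  · simpa [KerDim_A] using h5

private theorem KerDim_alt_dd {A : Matrix (Fin 4) (Fin 4) ℝ} (hA : Aᵀ = -A) (x y : Fin 4 → ℝ) :
    (A *ᵥ x) ⬝ᵥ y + (A *ᵥ y) ⬝ᵥ x = 0 := by
  have h1 : (A *ᵥ x) ⬝ᵥ y = - ((A *ᵥ y) ⬝ᵥ x) := by
    have h2 : (A *ᵥ x) ⬝ᵥ y = x ⬝ᵥ (Aᵀ *ᵥ y) := by
      rw [Matrix.dotProduct_mulVec, Matrix.vecMul_transpose]
    rw [h2, hA, Matrix.neg_mulVec, dotProduct_neg, dotProduct_comm]
  rw [h1]
  ring

private theorem KerDim_act_sub_mem (A : Matrix (Fin 4) (Fin 4) ℝ) (hA : Aᵀ = -A) :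
    (fun γ : K.Γ => act (K.lin γ) A - A) ∈ Z1 K.lin := by
  refine ⟨fun γ => ?_, fun γ δ => ?_⟩
  · show (act (K.lin γ) A - A)ᵀ = -(act (K.lin γ) A - A)
    rw [Matrix.transpose_sub, KerDim_act_transpose _ _ hA, hA]
    abel
  · show act (K.lin (γ * δ)) A - A = (act (K.lin γ) A - A) + act (K.lin γ) (act (K.lin δ) A - A)
    have h1 : act (K.lin (γ * δ)) A = act (K.lin γ) (act (K.lin δ) A) := by
      unfold act
      rw [map_mul, Matrix.det_mul, abs_mul, Real.sqrt_mul (abs_nonneg _), Matrix.mul_inv_rev,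
        Matrix.transpose_mul, Matrix.mul_smul, Matrix.smul_mul, smul_smul]
      congr 1
      simp only [Matrix.mul_assoc]
    have h2 : act (K.lin γ) (act (K.lin δ) A - A) =
        act (K.lin γ) (act (K.lin δ) A) - act (K.lin γ) A := by
      unfold act
      rw [Matrix.mul_sub, Matrix.sub_mul, smul_sub]
    rw [h1, h2]
    abel

private theorem KerDim_triv_mem (s : K.V → Fin 4 → ℝ) (hs : Equi K s)
    (A : Matrix (Fin 4) (Fin 4) ℝ) (hA : Aᵀ = -A) :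
    ((fun v => A *ᵥ s v, fun γ : K.Γ => act (K.lin γ) A - A) :
      (K.V → Fin 4 → ℝ) × (K.Γ → Matrix (Fin 4) (Fin 4) ℝ)) ∈ KerDim_B s := by
  refine ⟨fun v => ?_, KerDim_act_sub_mem A hA, fun γ v => ?_⟩
  · have h := KerDim_alt_dd hA (s v) (s v)
    show (A *ᵥ s v) ⬝ᵥ s v = 0
    linarith
  · show KerDim_st γ (A *ᵥ s v) - A *ᵥ s (γ • v) = (act (K.lin γ) A - A) *ᵥ s (γ • v)
    rw [KerDim_st_act, ← hs γ v, Matrix.sub_mulVec]

/-- the six dimensional space of trivial elements -/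
private noncomputable def KerDim_triv (s : K.V → Fin 4 → ℝ) (hs : Equi K s) :
    (Fin 6 → ℝ) →ₗ[ℝ] LinearMap.ker (KerDim_Phi s) where
  toFun c := ⟨⟨_, KerDim_triv_mem s hs (KerDim_A c) (KerDim_A_alt c)⟩, by
    rw [LinearMap.mem_ker]
    funext x y
    by_cases h : x ≠ y ∧ ({x, y} : Finset K.V) ∈ K.faces
    · rw [KerDim_Phi_apply _ _ _ _ h]
      exact KerDim_alt_dd (KerDim_A_alt c) (s x) (s y)
    · rw [KerDim_Phi_apply_neg _ _ _ _ h]
      rfl⟩
  map_add' c d := by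
    apply Subtype.ext
    apply Subtype.ext
    refine Prod.ext ?_ ?_
    · funext v
      show KerDim_A (c + d) *ᵥ s v = KerDim_A c *ᵥ s v + KerDim_A d *ᵥ s v
      rw [KerDim_A_add, Matrix.add_mulVec]
    · funext γ
      show act (K.lin γ) (KerDim_A (c + d)) - KerDim_A (c + d) =
        (act (K.lin γ) (KerDim_A c) - KerDim_A c) + (act (K.lin γ) (KerDim_A d) - KerDim_A d)
      rw [KerDim_A_add]
      unfold act
      rw [Matrix.mul_add, Matrix.add_mul, smul_add]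
      abel
  map_smul' r c := by
    apply Subtype.ext
    apply Subtype.ext
    refine Prod.ext ?_ ?_
    · funext v
      show KerDim_A (r • c) *ᵥ s v = r • (KerDim_A c *ᵥ s v)
      rw [KerDim_A_smul, Matrix.smul_mulVec]
    · funext γ
      show act (K.lin γ) (KerDim_A (r • c)) - KerDim_A (r • c) =
        r • (act (K.lin γ) (KerDim_A c) - KerDim_A c)
      rw [KerDim_A_smul]
      unfold act
      rw [Matrix.mul_smul, Matrix.smul_mul, smul_sub, smul_comm]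

private theorem KerDim_triv_inj (hc : Connected K) (o : Lab K) (s : K.V → Fin 4 → ℝ)
    (hs : Equi K s) (hg : GenPos o s) : Function.Injective (KerDim_triv s hs) := by
  rw [injective_iff_map_eq_zero]
  intro c hc0
  have h1 : (fun v => KerDim_A c *ᵥ s v) = 0 :=
    congrArg (fun p : LinearMap.ker (KerDim_Phi s) => p.1.1.1) hc0
  exact KerDim_A_zero c (alt_eq_zero hc o s hg _ fun v => congrFun h1 v)

private theorem KerDim_surj (hc : Connected K) (h1 : H1Zero K) (o : Lab K) (s : K.V → Fin 4 → ℝ)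
    (hs : Equi K s) (hg : GenPos o s) : KerSp o s ≤ LinearMap.range (KerDim_Phi s) := by
  rintro C ⟨⟨hsym, hzero, hequi⟩, hLL⟩
  obtain ⟨β, hβ0, hβ1⟩ := ker_solution h1 o s hg C hsym hLL
  have hsi : ∀ (γ : K.Γ) (v : K.V), s v = K.lin γ *ᵥ s (γ⁻¹ • v) := by
    intro γ v
    rw [← hs, smul_inv_smul]
  -- the deviation from equivariance
  obtain ⟨δ, hδ⟩ : ∃ δ : K.Γ → K.V → Fin 4 → ℝ, ∀ γ v,
      δ γ v = KerDim_st γ (β (γ⁻¹ • v)) - β v := ⟨_, fun _ _ => rfl⟩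
  have hδ0 : ∀ γ v, δ γ v ⬝ᵥ s v = 0 := by
    intro γ v
    rw [hδ, sub_dotProduct, hβ0, sub_zero]
    nth_rewrite 1 [hsi γ v]
    rw [KerDim_st_dot, hβ0, mul_zero]
  have hδ1 : ∀ γ x y, x ≠ y → ({x, y} : Finset K.V) ∈ K.faces → dd K s (δ γ) x y = 0 := by
    intro γ x y hxy hf
    have hf' : ({γ⁻¹ • x, γ⁻¹ • y} : Finset K.V) ∈ K.faces := by
      have := K.smul_mem γ⁻¹ _ hf
      rwa [Finset.smul_finset_insert, Finset.smul_finset_singleton] at this
    have hxy' : γ⁻¹ • x ≠ γ⁻¹ • y := fun h => hxy (MulAction.injective γ⁻¹ h)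
    have e1 := hβ1 x y hxy hf
    have e2 := hβ1 _ _ hxy' hf'
    have e3 := hequi γ (γ⁻¹ • x) (γ⁻¹ • y)
    rw [smul_inv_smul, smul_inv_smul] at e3
    unfold dd at e1 e2 ⊢
    rw [hδ, hδ, sub_dotProduct, sub_dotProduct]
    have e4 : KerDim_st γ (β (γ⁻¹ • x)) ⬝ᵥ s y = kap K γ * (β (γ⁻¹ • x) ⬝ᵥ s (γ⁻¹ • y)) := by
      rw [hsi γ y, KerDim_st_dot]
    have e5 : KerDim_st γ (β (γ⁻¹ • y)) ⬝ᵥ s x = kap K γ * (β (γ⁻¹ • y) ⬝ᵥ s (γ⁻¹ • x)) := by
      rw [hsi γ x, KerDim_st_dot]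
    rw [e4, e5]
    have e6 : kap K γ * (β (γ⁻¹ • x) ⬝ᵥ s (γ⁻¹ • y)) - β x ⬝ᵥ s y +
        (kap K γ * (β (γ⁻¹ • y) ⬝ᵥ s (γ⁻¹ • x)) - β y ⬝ᵥ s x) =
        kap K γ * (β (γ⁻¹ • x) ⬝ᵥ s (γ⁻¹ • y) + β (γ⁻¹ • y) ⬝ᵥ s (γ⁻¹ • x)) -
          (β x ⬝ᵥ s y + β y ⬝ᵥ s x) := by ring
    rw [e6, e2, e1, e3, sub_self]
  have hz : ∀ γ, ∃ A : Matrix (Fin 4) (Fin 4) ℝ, Aᵀ = -A ∧ ∀ v, δ γ v = A *ᵥ s v := by
    intro γ
    obtain ⟨A, hA, -⟩ := ker_uniq hc o s hg (δ γ) (hδ0 γ) (hδ1 γ)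
    exact ⟨A, hA⟩
  choose z hz1 hz2 using hz
  have hcross : ∀ g h, z (g * h) = z g + act (K.lin g) (z h) := by
    intro g h
    refine sub_eq_zero.1 (alt_eq_zero hc o s hg _ fun v => ?_)
    rw [Matrix.sub_mulVec, Matrix.add_mulVec, ← hz2, ← hz2, sub_eq_zero]
    have e1 : act (K.lin g) (z h) *ᵥ s v = KerDim_st g (δ h (g⁻¹ • v)) := by
      rw [hz2 h, KerDim_st_act, ← hsi]
    have e2 : (g * h)⁻¹ • v = h⁻¹ • g⁻¹ • v := by rw [_root_.mul_inv_rev, mul_smul]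
    rw [e1, hδ, hδ, hδ, e2, KerDim_st_mul]
    have e3 : KerDim_st g (KerDim_st h (β (h⁻¹ • g⁻¹ • v)) - β (g⁻¹ • v)) =
        KerDim_st g (KerDim_st h (β (h⁻¹ • g⁻¹ • v))) - KerDim_st g (β (g⁻¹ • v)) := by
      have := KerDim_st_add g (KerDim_st h (β (h⁻¹ • g⁻¹ • v)) - β (g⁻¹ • v)) (β (g⁻¹ • v))
      rw [sub_add_cancel] at this
      rw [this]
      abel
    rw [e3]
    abel
  have hmem : ((β, z) : (K.V → Fin 4 → ℝ) × (K.Γ → Matrix (Fin 4) (Fin 4) ℝ)) ∈ KerDim_B s := by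
    refine ⟨hβ0, ⟨hz1, hcross⟩, fun γ v => ?_⟩
    show KerDim_st γ (β v) - β (γ • v) = z γ *ᵥ s (γ • v)
    rw [← hz2, hδ, inv_smul_smul]
  refine ⟨⟨_, hmem⟩, ?_⟩
  funext x y
  by_cases h : x ≠ y ∧ ({x, y} : Finset K.V) ∈ K.faces
  · rw [KerDim_Phi_apply _ _ _ _ h]
    exact hβ1 x y h.1 h.2
  · rw [KerDim_Phi_apply_neg _ _ _ _ h, hzero x y h]

theorem ker_dim (hc : Connected K) (h1 : H1Zero K) (o : Lab K) (s : K.V → Fin 4 → ℝ)
    (hs : Equi K s) (hg : GenPos o s) (hZ : Module.Finite ℝ (Z1 K.lin)) :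
    Module.finrank ℝ (KerSp o s) + 6 ≤
      3 * K.numSimplices 0 + Module.finrank ℝ (Z1 K.lin) := by
  obtain ⟨hB1, hB2⟩ := KerDim_B_le o s hs hg hZ
  have h2 := LinearMap.finrank_range_add_finrank_ker (KerDim_Phi s)
  have h3 : Module.finrank ℝ (KerSp o s) ≤ Module.finrank ℝ (LinearMap.range (KerDim_Phi s)) :=
    Submodule.finrank_mono (KerDim_surj hc h1 o s hs hg)
  have h4 := LinearMap.finrank_le_finrank_of_injective (KerDim_triv_inj hc o s hs hg)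
  rw [Module.finrank_fin_fun] at h4
  omega

end Pool.Agent.ChS
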