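import Pool.Agent.ChS.Defs

/-!
# Local solutions of the coboundary equation

`tco_rel`: Cramer's rule, `∑ t_i s_i = 0`.

`LL_dd`: `∑_{i<j} t_i t_j (β_i(s_j) + β_j(s_i)) = ∑_{i ≠ j} t_i t_j β_i(s_j)
= ∑_i t_i β_i (∑_{j ≠ i} t_j s_j) = -∑_i t_i^2 β_i(s_i) = 0`.

`local_solution`: `s_1, ..., s_4` is a basis because `t_0 ≠ 0`.  For `i ≥ 1` let `β_i` be the
covector with `β_i(s_j) = C_ij / 2` for `j ≥ 1`, `j ≠ i`, and `β_i(s_i) = 0`.  Let `β_0` be the
covector with `β_0(s_i) = C_0i - β_i(s_0)`, `i ≥ 1`.  By `s_0 = -∑_{i ≥ 1} (t_i / t_0) s_i`,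
`β_0(s_0) = -(1/t_0) ∑_i t_i (C_0i + (1/t_0) ∑_{j ≥ 1, j ≠ i} t_j C_ij / 2) = -LL C s / t_0^2 = 0`.
-/

namespace Pool.Agent.ChS

open Matrix Pool.Agent.ChP

theorem tco_rel {n : ℕ} (s : Fin (n + 1) → Fin n → ℝ) : ∑ i, tco s i • s i = 0 := by
  funext c
  rw [Finset.sum_apply, Pi.zero_apply]
  have h0 : Matrix.det (Matrix.of fun i : Fin (n + 1) =>
      (Fin.cons (s i c) (s i) : Fin (n + 1) → ℝ)) = 0 := by
    refine Matrix.det_zero_of_column_eq (i := 0) (j := c.succ) (Fin.succ_ne_zero c).symm ?_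
    intro k
    rw [Matrix.of_apply, Matrix.of_apply, Fin.cons_zero, Fin.cons_succ]
  rw [Matrix.det_succ_column_zero] at h0
  rw [← h0]
  refine Finset.sum_congr rfl fun i _ => ?_
  have h1 : (Matrix.of fun i : Fin (n + 1) =>
      (Fin.cons (s i c) (s i) : Fin (n + 1) → ℝ)).submatrix i.succAbove Fin.succ =
      Matrix.of fun a b : Fin n => s (i.succAbove a) b := by
    ext a b
    rw [Matrix.submatrix_apply, Matrix.of_apply, Matrix.of_apply, Fin.cons_succ]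
  rw [h1, Matrix.of_apply, Fin.cons_zero, Pi.smul_apply, smul_eq_mul]
  unfold tco
  ring

private theorem LocSol_rel (s : Fin 5 → Fin 4 → ℝ) (b : Fin 4 → ℝ) :
    ∑ j, tco s j * (b ⬝ᵥ s j) = 0 := by
  have h := congrArg (fun v => b ⬝ᵥ v) (tco_rel s)
  simp only [dotProduct_zero] at h
  rw [← h, dotProduct_sum]
  refine Finset.sum_congr rfl fun j _ => ?_
  rw [dotProduct_smul, smul_eq_mul]

private theorem LocSol_LL (s : Fin 5 → Fin 4 → ℝ) (β : Fin 5 → Fin 4 → ℝ) :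
    LL (fun i j => β i ⬝ᵥ s j + β j ⬝ᵥ s i) s = - ∑ i, tco s i ^ 2 * (β i ⬝ᵥ s i) := by
  have h : ∀ i, ∑ j, tco s j * (β i ⬝ᵥ s j) = 0 := fun i => LocSol_rel s (β i)
  have h0 := h 0
  have h1 := h 1
  have h2 := h 2
  have h3 := h 3
  have h4 := h 4
  rw [Fin.sum_univ_five] at h0 h1 h2 h3 h4
  have e : ∑ i, tco s i ^ 2 * (β i ⬝ᵥ s i) = tco s 0 ^ 2 * (β 0 ⬝ᵥ s 0) +
      tco s 1 ^ 2 * (β 1 ⬝ᵥ s 1) + tco s 2 ^ 2 * (β 2 ⬝ᵥ s 2) + tco s 3 ^ 2 * (β 3 ⬝ᵥ s 3) +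
      tco s 4 ^ 2 * (β 4 ⬝ᵥ s 4) := Fin.sum_univ_five _
  rw [e]
  unfold LL
  simp only [Fin.sum_univ_five]
  rw [if_neg (show ¬ (0 : Fin 5) < 0 by decide), if_pos (show (0 : Fin 5) < 1 by decide),
    if_pos (show (0 : Fin 5) < 2 by decide), if_pos (show (0 : Fin 5) < 3 by decide),
    if_pos (show (0 : Fin 5) < 4 by decide), if_neg (show ¬ (1 : Fin 5) < 0 by decide),
    if_neg (show ¬ (1 : Fin 5) < 1 by decide), if_pos (show (1 : Fin 5) < 2 by decide),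
    if_pos (show (1 : Fin 5) < 3 by decide), if_pos (show (1 : Fin 5) < 4 by decide),
    if_neg (show ¬ (2 : Fin 5) < 0 by decide), if_neg (show ¬ (2 : Fin 5) < 1 by decide),
    if_neg (show ¬ (2 : Fin 5) < 2 by decide), if_pos (show (2 : Fin 5) < 3 by decide),
    if_pos (show (2 : Fin 5) < 4 by decide), if_neg (show ¬ (3 : Fin 5) < 0 by decide),
    if_neg (show ¬ (3 : Fin 5) < 1 by decide), if_neg (show ¬ (3 : Fin 5) < 2 by decide),
    if_neg (show ¬ (3 : Fin 5) < 3 by decide), if_pos (show (3 : Fin 5) < 4 by decide),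
    if_neg (show ¬ (4 : Fin 5) < 0 by decide), if_neg (show ¬ (4 : Fin 5) < 1 by decide),
    if_neg (show ¬ (4 : Fin 5) < 2 by decide), if_neg (show ¬ (4 : Fin 5) < 3 by decide),
    if_neg (show ¬ (4 : Fin 5) < 4 by decide)]
  linear_combination tco s 0 * h0 + tco s 1 * h1 + tco s 2 * h2 + tco s 3 * h3 + tco s 4 * h4

theorem LL_dd (s : Fin 5 → Fin 4 → ℝ) (β : Fin 5 → Fin 4 → ℝ) (h : ∀ i, β i ⬝ᵥ s i = 0) :
    LL (fun i j => β i ⬝ᵥ s j + β j ⬝ᵥ s i) s = 0 := by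
  rw [LocSol_LL, Finset.sum_eq_zero, neg_zero]
  intro i _
  rw [h i, mul_zero]

private theorem LocSol_solve (s : Fin 5 → Fin 4 → ℝ) (h0 : tco s 0 ≠ 0) (w : Fin 4 → ℝ) :
    ∃ b : Fin 4 → ℝ, ∀ a : Fin 4, b ⬝ᵥ s a.succ = w a := by
  have hdet : (Matrix.of fun a b : Fin 4 => s a.succ b).det ≠ 0 := by
    have h1 : tco s 0 = (Matrix.of fun a b : Fin 4 => s a.succ b).det := by
      unfold tco
      rw [Fin.val_zero, pow_zero, one_mul]
      simp only [Fin.zero_succAbove]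
    rwa [← h1]
  have hu : IsUnit (Matrix.of fun a b : Fin 4 => s a.succ b).det := isUnit_iff_ne_zero.2 hdet
  refine ⟨(Matrix.of fun a b : Fin 4 => s a.succ b)⁻¹ *ᵥ w, fun a => ?_⟩
  have h2 : (Matrix.of fun a b : Fin 4 => s a.succ b) *ᵥ
      ((Matrix.of fun a b : Fin 4 => s a.succ b)⁻¹ *ᵥ w) = w := by
    rw [Matrix.mulVec_mulVec, Matrix.mul_nonsing_inv _ hu, Matrix.one_mulVec]
  have h3 := congrFun h2 a
  rw [dotProduct_comm]
  exact h3

theorem local_solution (s : Fin 5 → Fin 4 → ℝ) (hs : ∀ i, tco s i ≠ 0) (C : Fin 5 → Fin 5 → ℝ)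
    (hC : ∀ i j, C i j = C j i) (h : LL C s = 0) :
    ∃ β : Fin 5 → Fin 4 → ℝ, (∀ i, β i ⬝ᵥ s i = 0) ∧
      ∀ i j, i ≠ j → β i ⬝ᵥ s j + β j ⬝ᵥ s i = C i j := by
  choose b hb using fun i : Fin 4 => LocSol_solve s (hs 0)
    (fun a => if a = i then 0 else C i.succ a.succ / 2)
  obtain ⟨b0, hb0⟩ := LocSol_solve s (hs 0) (fun a => C 0 a.succ - b a ⬝ᵥ s 0)
  have hβ : ∀ i j : Fin 5, i ≠ j →
      (Fin.cons b0 b : Fin 5 → Fin 4 → ℝ) i ⬝ᵥ s j +
        (Fin.cons b0 b : Fin 5 → Fin 4 → ℝ) j ⬝ᵥ s i = C i j := by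
    intro i j hij
    induction i using Fin.cases with
    | zero =>
      induction j using Fin.cases with
      | zero => exact absurd rfl hij
      | succ j =>
        rw [Fin.cons_zero, Fin.cons_succ, hb0]
        ring
    | succ i =>
      induction j using Fin.cases with
      | zero =>
        rw [Fin.cons_zero, Fin.cons_succ, hb0, hC i.succ 0]
        ring
      | succ j =>
        have hij' : j ≠ i := fun h => hij (by rw [h])
        rw [Fin.cons_succ, Fin.cons_succ, hb, hb, if_neg hij', if_neg hij'.symm,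
          hC j.succ i.succ]
        ring
  have hd : ∀ i : Fin 4, (Fin.cons b0 b : Fin 5 → Fin 4 → ℝ) i.succ ⬝ᵥ s i.succ = 0 := by
    intro i
    rw [Fin.cons_succ, hb, if_pos rfl]
  refine ⟨Fin.cons b0 b, ?_, hβ⟩
  intro i
  induction i using Fin.cases with
  | succ i => exact hd i
  | zero =>
    have h1 : LL C s = LL (fun i j => (Fin.cons b0 b : Fin 5 → Fin 4 → ℝ) i ⬝ᵥ s j +
        (Fin.cons b0 b : Fin 5 → Fin 4 → ℝ) j ⬝ᵥ s i) s := by
      unfold LL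
      refine Finset.sum_congr rfl fun i _ => Finset.sum_congr rfl fun j _ => ?_
      beta_reduce
      split_ifs with hij
      · rw [hβ i j (ne_of_lt hij)]
      · rfl
    rw [LocSol_LL, Fin.sum_univ_succ, Finset.sum_eq_zero (s := Finset.univ)
      (f := fun i : Fin 4 => tco s i.succ ^ 2 *
        ((Fin.cons b0 b : Fin 5 → Fin 4 → ℝ) i.succ ⬝ᵥ s i.succ)), add_zero, h] at h1
    · have h2 : tco s 0 ^ 2 ≠ 0 := pow_ne_zero _ (hs 0)
      have h3 : tco s 0 ^ 2 * ((Fin.cons b0 b : Fin 5 → Fin 4 → ℝ) 0 ⬝ᵥ s 0) = 0 := by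
        linarith
      rcases mul_eq_zero.1 h3 with h4 | h4
      · exact absurd h4 h2
      · exact h4
    · intro i _
      rw [hd i, mul_zero]

end Pool.Agent.ChS
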