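import Pool.Agent.ChS.H1Cham
import Pool.Agent.ChS.ChamBasic
import Pool.Agent.ChS.LocSol
import Pool.Agent.ChS.LocUniq

/-!
# Global solutions of the coboundary equation

For every chamber `σ` (written as an ordered chamber, `exists_cham`) `local_solution` gives covectors
`β^σ_v`, `v ∈ σ`, with `β^σ_v (s v) = 0`, `β^σ_v (s w) + β^σ_w (s v) = C v w`.  For a face `τ` with three
elements and chambers `σ, σ₀ ⊇ τ` there is a unique alternating `G_τ(σ)` with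
`β^σ_v - β^{σ₀}_v = G_τ(σ) *ᵥ s v` for `v ∈ τ` (`local_uniq`, `genPos_lin`).  For chambers with
`3 ≤ (σ ∩ σ').card` let `A σ σ'` be the unique alternating matrix with
`β^σ_v - β^{σ'}_v = A σ σ' *ᵥ s v` for `v ∈ σ ∩ σ'` (and `0` otherwise); if `τ ⊆ σ ∩ σ'` then
`A σ σ' = G_τ(σ) - G_τ(σ')` (uniqueness on `τ`).  So `h1_chambers` applies to all entries of `A`: there is a
matrix-valued `f` with `A σ σ' = f σ - f σ'` for adjacent chambers, and replacing `f` by `(f - fᵀ)/2`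
it is alternating.  Then `β^σ_v - f σ *ᵥ s v` is the same for adjacent chambers containing `v`, so for
all chambers containing `v` (`star_connected` for `{v}`): this is `β v`.  Every edge and every vertex is
contained in a chamber (`exists_top`).
-/

namespace Pool.Agent.ChS

open Matrix Pool.Agent.ChP
open scoped Pointwise

variable {K : AffineTriangulation 4}

private theorem KerSol_alt {A : Matrix (Fin 4) (Fin 4) ℝ} (hA : Aᵀ = -A) (x y : Fin 4 → ℝ) :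
    (A *ᵥ x) ⬝ᵥ y + (A *ᵥ y) ⬝ᵥ x = 0 := by
  have h1 : (A *ᵥ x) ⬝ᵥ y = - ((A *ᵥ y) ⬝ᵥ x) := by
    have h2 : (A *ᵥ x) ⬝ᵥ y = x ⬝ᵥ (Aᵀ *ᵥ y) := by
      rw [Matrix.dotProduct_mulVec, Matrix.vecMul_transpose]
    rw [h2, hA, Matrix.neg_mulVec, dotProduct_neg, dotProduct_comm]
  rw [h1]
  ring

private theorem KerSol_alt0 {A : Matrix (Fin 4) (Fin 4) ℝ} (hA : Aᵀ = -A) (x : Fin 4 → ℝ) :
    (A *ᵥ x) ⬝ᵥ x = 0 := by
  have h := KerSol_alt hA x x
  linarith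

private theorem KerSol_loc (o : Lab K) (s : K.V → Fin 4 → ℝ) (hg : GenPos o s)
    (C : K.V → K.V → ℝ) (hC : ∀ x y, C x y = C y x)
    (h0 : ∀ t, Cham o t → LL (fun i j => C (t i) (t j)) (fun i => s (t i)) = 0)
    (σ : Finset K.V) : ∃ B : K.V → Fin 4 → ℝ, Chb K σ → (∀ v ∈ σ, B v ⬝ᵥ s v = 0) ∧
      ∀ v ∈ σ, ∀ w ∈ σ, v ≠ w → B v ⬝ᵥ s w + B w ⬝ᵥ s v = C v w := by
  classical
  by_cases hσ : Chb K σ
  · obtain ⟨t, ht, him⟩ := exists_cham o hσ
    obtain ⟨β, hb0, hb1⟩ := local_solution (fun i => s (t i)) (hg t ht)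
      (fun i j => C (t i) (t j)) (fun i j => hC _ _) (h0 t ht)
    have hinj := ht.injective
    refine ⟨Function.extend t β 0, fun _ => ⟨?_, ?_⟩⟩
    · intro v hv
      rw [← him, Finset.mem_image] at hv
      obtain ⟨i, _, rfl⟩ := hv
      rw [hinj.extend_apply]
      exact hb0 i
    · intro v hv w hw hvw
      rw [← him, Finset.mem_image] at hv hw
      obtain ⟨i, _, rfl⟩ := hv
      obtain ⟨j, _, rfl⟩ := hw
      rw [hinj.extend_apply, hinj.extend_apply]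
      exact hb1 i j (fun hij => hvw (by rw [hij]))
  · exact ⟨0, fun h => absurd h hσ⟩

theorem ker_solution (h1 : H1Zero K) (o : Lab K) (s : K.V → Fin 4 → ℝ) (hg : GenPos o s)
    (C : K.V → K.V → ℝ) (hC : ∀ x y, C x y = C y x)
    (h0 : ∀ t, Cham o t → LL (fun i j => C (t i) (t j)) (fun i => s (t i)) = 0) :
    ∃ β : K.V → Fin 4 → ℝ, (∀ v, β v ⬝ᵥ s v = 0) ∧
      ∀ x y, x ≠ y → ({x, y} : Finset K.V) ∈ K.faces → dd K s β x y = C x y := by
  classical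
  choose B hB using KerSol_loc o s hg C hC h0
  -- uniqueness on a common face
  have huniq : ∀ σ σ' : Finset K.V, Chb K σ → Chb K σ' → ∀ τ : Finset K.V, τ ⊆ σ → τ ⊆ σ' →
      3 ≤ τ.card → ∃! A : Matrix (Fin 4) (Fin 4) ℝ, Aᵀ = -A ∧
        ∀ v ∈ τ, B σ v - B σ' v = A *ᵥ s v := by
    intro σ σ' hσ hσ' τ h1 h2 h3
    refine local_uniq τ h3 s (fun J hJ hJ4 => genPos_lin hg hσ J (hJ.trans h1) hJ4)
      (fun v => B σ v - B σ' v) ?_ ?_
    · intro v hv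
      rw [sub_dotProduct, (hB σ hσ).1 v (h1 hv), (hB σ' hσ').1 v (h2 hv), sub_zero]
    · intro v hv w hw hvw
      have e1 := (hB σ hσ).2 v (h1 hv) w (h1 hw) hvw
      have e2 := (hB σ' hσ').2 v (h2 hv) w (h2 hw) hvw
      rw [sub_dotProduct, sub_dotProduct]
      linarith
  have hex : ∀ σ σ' : Finset K.V, ∃ A : Matrix (Fin 4) (Fin 4) ℝ, Chb K σ → Chb K σ' →
      3 ≤ (σ ∩ σ').card → Aᵀ = -A ∧ ∀ v ∈ σ ∩ σ', B σ v - B σ' v = A *ᵥ s v := by
    intro σ σ'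
    by_cases h : Chb K σ ∧ Chb K σ' ∧ 3 ≤ (σ ∩ σ').card
    · obtain ⟨A, hA, _⟩ := huniq σ σ' h.1 h.2.1 (σ ∩ σ') Finset.inter_subset_left
        Finset.inter_subset_right h.2.2
      exact ⟨A, fun _ _ _ => hA⟩
    · exact ⟨0, fun h1 h2 h3 => absurd ⟨h1, h2, h3⟩ h⟩
  choose A hA using hex
  have hcoc : ∀ τ ∈ K.faces, τ.card + 1 = 4 → ∀ σ₀ σ σ' : Finset K.V, Chb K σ₀ → Chb K σ →
      Chb K σ' → τ ⊆ σ₀ → τ ⊆ σ → τ ⊆ σ' → A σ σ' = A σ σ₀ - A σ' σ₀ := by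
    intro τ _ hc σ₀ σ σ' h₀ h h' t₀ t1 t'
    have hcard : ∀ a b : Finset K.V, τ ⊆ a → τ ⊆ b → 3 ≤ (a ∩ b).card := by
      intro a b ha hb
      have := Finset.card_le_card (Finset.subset_inter ha hb)
      omega
    obtain ⟨a1, a2⟩ := hA σ σ' h h' (hcard _ _ t1 t')
    obtain ⟨b1, b2⟩ := hA σ σ₀ h h₀ (hcard _ _ t1 t₀)
    obtain ⟨c1, c2⟩ := hA σ' σ₀ h' h₀ (hcard _ _ t' t₀)
    refine (huniq σ σ' h h' τ t1 t' (by omega)).unique
      ⟨a1, fun v hv => a2 v (Finset.mem_inter.2 ⟨t1 hv, t' hv⟩)⟩ ⟨?_, fun v hv => ?_⟩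
    · rw [Matrix.transpose_sub, b1, c1]
      abel
    · rw [Matrix.sub_mulVec, ← b2 v (Finset.mem_inter.2 ⟨t1 hv, t₀ hv⟩),
        ← c2 v (Finset.mem_inter.2 ⟨t' hv, t₀ hv⟩)]
      abel
  have hf : ∀ i j : Fin 4, ∃ f : Finset K.V → ℝ, ∀ σ σ', Chb K σ → Chb K σ' →
      (σ ∩ σ').card = 4 → A σ σ' i j = f σ - f σ' := by
    intro i j
    refine h1_chambers K h1 (by norm_num) (fun σ σ' => A σ σ' i j) ?_
    intro τ hτ hc
    obtain ⟨σ₀, h₀, hsub, hcard⟩ := K.exists_top hτ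
    refine ⟨fun σ => A σ σ₀ i j, fun σ σ' h h' t1 t' => ?_⟩
    show A σ σ' i j = A σ σ₀ i j - A σ' σ₀ i j
    rw [hcoc τ hτ hc σ₀ σ σ' ⟨h₀, hcard⟩ h h' hsub t1 t', Matrix.sub_apply]
  choose f hf using hf
  obtain ⟨F, hF⟩ : ∃ F : Finset K.V → Matrix (Fin 4) (Fin 4) ℝ, F = fun σ =>
    (1 / 2 : ℝ) • ((Matrix.of fun i j => f i j σ) - (Matrix.of fun i j => f i j σ)ᵀ) := ⟨_, rfl⟩
  have hFt : ∀ σ, (F σ)ᵀ = -F σ := by
    intro σ
    rw [hF]
    ext i j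
    simp only [Matrix.transpose_apply, Matrix.neg_apply, Matrix.smul_apply, Matrix.sub_apply,
      Matrix.of_apply, smul_eq_mul]
    ring
  have hFA : ∀ σ σ', Chb K σ → Chb K σ' → (σ ∩ σ').card = 4 → A σ σ' = F σ - F σ' := by
    intro σ σ' h h' hc
    have ht := (hA σ σ' h h' (by omega)).1
    rw [hF]
    ext i j
    have e1 : A σ σ' j i = - A σ σ' i j := by
      have := congrFun (congrFun ht i) j
      simpa using this
    have e2 := hf i j σ σ' h h' hc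
    have e3 := hf j i σ σ' h h' hc
    simp only [Matrix.transpose_apply, Matrix.smul_apply, Matrix.sub_apply,
      Matrix.of_apply, smul_eq_mul]
    linarith
  -- the value at a vertex
  have hadj : ∀ v : K.V, ∀ σ σ', Chb K σ → Chb K σ' → v ∈ σ → v ∈ σ' →
      B σ v - F σ *ᵥ s v = B σ' v - F σ' *ᵥ s v := by
    intro v
    have key : ∀ σ σ', Chb K σ → Chb K σ' → ({v} : Finset K.V) ⊆ σ → ({v} : Finset K.V) ⊆ σ' →
        (σ ∩ σ').card = 4 → (fun σ => B σ v - F σ *ᵥ s v) σ = (fun σ => B σ v - F σ *ᵥ s v) σ' := by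
      intro σ σ' h h' t1 t' hc
      have hv : v ∈ σ ∩ σ' := Finset.mem_inter.2
        ⟨Finset.singleton_subset_iff.1 t1, Finset.singleton_subset_iff.1 t'⟩
      have e1 := (hA σ σ' h h' (by omega)).2 v hv
      rw [hFA σ σ' h h' hc, Matrix.sub_mulVec] at e1
      show B σ v - F σ *ᵥ s v = B σ' v - F σ' *ᵥ s v
      have e2 : B σ v = (F σ *ᵥ s v - F σ' *ᵥ s v) + B σ' v := by
        rw [← e1]
        abel
      rw [e2]
      abel
    intro σ σ' h h' hv hv'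
    exact star_connected K (K.singleton_mem v) (fun σ => B σ v - F σ *ᵥ s v) key h h'
      (Finset.singleton_subset_iff.2 hv) (Finset.singleton_subset_iff.2 hv')
  have htop : ∀ v : K.V, ∃ σ : Finset K.V, Chb K σ ∧ v ∈ σ := by
    intro v
    obtain ⟨σ, h1, h2, h3⟩ := K.exists_top (K.singleton_mem v)
    exact ⟨σ, ⟨h1, h3⟩, Finset.singleton_subset_iff.1 h2⟩
  choose S hS hSv using htop
  refine ⟨fun v => B (S v) v - F (S v) *ᵥ s v, fun v => ?_, fun x y hxy hface => ?_⟩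
  · show (B (S v) v - F (S v) *ᵥ s v) ⬝ᵥ s v = 0
    rw [sub_dotProduct, (hB _ (hS v)).1 v (hSv v), KerSol_alt0 (hFt _), sub_zero]
  · obtain ⟨σ, g1, g2, g3⟩ := K.exists_top hface
    have hσ : Chb K σ := ⟨g1, g3⟩
    have hx : x ∈ σ := g2 (Finset.mem_insert_self _ _)
    have hy : y ∈ σ := g2 (Finset.mem_insert_of_mem (Finset.mem_singleton_self _))
    show (B (S x) x - F (S x) *ᵥ s x) ⬝ᵥ s y + (B (S y) y - F (S y) *ᵥ s y) ⬝ᵥ s x = C x y
    rw [hadj x (S x) σ (hS x) hσ (hSv x) hx, hadj y (S y) σ (hS y) hσ (hSv y) hy]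
    have e1 := (hB σ hσ).2 x hx y hy hxy
    have e2 := KerSol_alt (hFt σ) (s x) (s y)
    rw [sub_dotProduct, sub_dotProduct]
    linarith

end Pool.Agent.ChS
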