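import Pool.Agent.ChS.Isot
import Pool.Agent.ChS.ChiSign
import Pool.Agent.ChS.GenSec
import Pool.Agent.ChS.IsoDim
import Pool.Agent.ChS.DS
import Pool.Agent.ChS.KerDim

/-!
# The main inequality
-/

namespace Pool.Agent.ChS

open Matrix Pool.Agent.ChP
open scoped Pointwise

variable {K : AffineTriangulation 4}

/-- the map from functions on edges to functions on chambers -/
noncomputable def Phi (o : Lab K) (R : Finset (Finset K.V)) (s : K.V → Fin 4 → ℝ) :
    EdgeSp K →ₗ[ℝ] ({t // t ∈ chamReps o R} → ℝ) where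
  toFun C t := LL (fun i j => C.1 (t.1 i) (t.1 j)) (fun i => s (t.1 i))
  map_add' C D := by
    funext t
    exact LL_add (fun i j => C.1 (t.1 i) (t.1 j)) (fun i j => D.1 (t.1 i) (t.1 j)) _
  map_smul' c C := by
    funext t
    exact LL_smul c (fun i j => C.1 (t.1 i) (t.1 j)) _

theorem main4 (hc : Connected K) (h1 : H1Zero K) (o : Lab K)
    (hZ : Module.Finite ℝ (Z1 K.lin)) :
    16 * |K.eulerChar| + 12 ≤ 6 * K.eulerChar + 2 * (Module.finrank ℝ (Z1 K.lin) : ℤ) := by
  classical
  obtain ⟨R, hR⟩ := K.exists_reps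
  obtain ⟨s, s', hs, hs', hg2⟩ := exists_genPos2 o
  have hg := genPos_left hg2
  have hsgp := sum_sgp_cham (by norm_num) (by decide) o hR s hs hg
  have hprod : ∀ t : {t // t ∈ chamReps o R}, ∏ i, tco (fun i => s (t.1 i)) i ≠ 0 := by
    intro t
    rw [Finset.prod_ne_zero_iff]
    intro i _
    exact hg t.1 (mem_chamReps.1 t.2).1 i
  have horr : ∀ t : {t // t ∈ chamReps o R}, orr K t.1 ≠ 0 := fun t =>
    orr_ne_zero (mem_chamReps.1 t.2).1
  obtain ⟨w, hw⟩ : ∃ w : {t // t ∈ chamReps o R} → ℝ,
      w = fun t => orr K t.1 / ∏ i, tco (fun i => s (t.1 i)) i := ⟨_, rfl⟩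
  have hw0 : ∀ t, w t ≠ 0 := by
    intro t
    rw [hw]
    exact div_ne_zero (horr t) (hprod t)
  -- the signs
  have hsign : ∀ t, Real.sign (w t) = orr K t.1 * sgp (fun i => s (t.1 i)) := by
    intro t
    have e1 : Real.sign (orr K t.1) = orr K t.1 := by
      unfold orr
      rcases lt_trichotomy (Matrix.det (Matrix.of fun a : Fin 4 =>
        K.dev (t.1 a.succ) - K.dev (t.1 0))) 0 with h | h | h
      · rw [Real.sign_of_neg h, Real.sign_of_neg (by norm_num)]
      · rw [h, Real.sign_zero, Real.sign_zero]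
      · rw [Real.sign_of_pos h, Real.sign_of_pos (by norm_num)]
    have e2 : ∀ a b : ℝ, Real.sign (a * b) = Real.sign a * Real.sign b := by
      intro a b
      rcases lt_trichotomy a 0 with h | h | h <;> rcases lt_trichotomy b 0 with h' | h' | h'
      · rw [Real.sign_of_neg h, Real.sign_of_neg h', Real.sign_of_pos (mul_pos_of_neg_of_neg h h')]
        norm_num
      · rw [h']; simp
      · rw [Real.sign_of_neg h, Real.sign_of_pos h', Real.sign_of_neg (mul_neg_of_neg_of_pos h h')]
        norm_num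
      · rw [h]; simp
      · rw [h]; simp
      · rw [h]; simp
      · rw [Real.sign_of_pos h, Real.sign_of_neg h', Real.sign_of_neg (mul_neg_of_pos_of_neg h h')]
        norm_num
      · rw [h']; simp
      · rw [Real.sign_of_pos h, Real.sign_of_pos h', Real.sign_of_pos (mul_pos h h')]
        norm_num
    have e3 : ∀ a : ℝ, Real.sign a⁻¹ = Real.sign a := fun a => Real.sign_inv a
    have e4 : ∀ f : Fin 5 → ℝ, Real.sign (∏ i, f i) = ∏ i, Real.sign (f i) := by
      intro f
      have : ∀ S : Finset (Fin 5), Real.sign (∏ i ∈ S, f i) = ∏ i ∈ S, Real.sign (f i) := by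
        intro S
        induction S using Finset.induction_on with
        | empty => simp
        | insert a S ha ih => rw [Finset.prod_insert ha, Finset.prod_insert ha, e2, ih]
      exact this Finset.univ
    rw [hw]
    show Real.sign (orr K t.1 / ∏ i, tco (fun i => s (t.1 i)) i) = _
    rw [div_eq_mul_inv, e2, e3, e1, e4]
    rfl
  have hsum : ∑ t, Real.sign (w t) = 16 * (K.eulerChar : ℝ) := by
    simp_rw [hsign]
    rw [Finset.sum_coe_sort (chamReps o R) (fun t => orr K t * sgp (fun i => s (t i))), hsgp]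
    norm_num
  -- isotropy
  have hiso : ∀ x ∈ LinearMap.range (Phi o R s), ∑ t, w t * x t ^ 2 = 0 := by
    rintro _ ⟨C, rfl⟩
    have h2 := isotropic o hR s s' hs hs' hg2 C.1 C.2.2.2
    rw [← h2, ← Finset.sum_coe_sort (chamReps o R)
      (fun t => orr K t * BB (fun i j => C.1 (t i) (t j)) (fun i => s (t i)))]
    refine Finset.sum_congr rfl fun t _ => ?_
    rw [hw]
    show orr K t.1 / _ * LL (fun i j => C.1 (t.1 i) (t.1 j)) (fun i => s (t.1 i)) ^ 2 = _
    unfold BB
    ring
  have hdim := isotropic_finrank w hw0 (LinearMap.range (Phi o R s)) hiso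
  rw [hsum, Fintype.card_coe, card_chamReps o hR, abs_mul, abs_of_pos (by norm_num : (0:ℝ) < 16)]
    at hdim
  -- rank-nullity
  obtain ⟨hE1, hE2⟩ := edgeSp_finrank K
  have hrn := LinearMap.finrank_range_add_finrank_ker (Phi o R s)
  rw [hE2] at hrn
  have hker : Module.finrank ℝ (LinearMap.ker (Phi o R s)) = Module.finrank ℝ (KerSp o s) := by
    have hmap : (LinearMap.ker (Phi o R s)).map (EdgeSp K).subtype = KerSp o s := by
      ext C
      constructor
      · rintro ⟨D, hD, rfl⟩
        refine ⟨D.2, fun t ht => ?_⟩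
        obtain ⟨γ, t', ht', rfl⟩ := exists_chamRep o hR ht
        have h3 : LL (fun i j => D.1 (t' i) (t' j)) (fun i => s (t' i)) = 0 := by
          have h4 : Phi o R s D = 0 := hD
          exact congrFun h4 ⟨t', ht'⟩
        have h5 : LL (fun i j => D.1 (γ • t' i) (γ • t' j)) (fun i => s (γ • t' i)) =
            kap K γ * (K.lin γ).det ^ 2 * LL (fun i j => D.1 (t' i) (t' j))
              (fun i => s (t' i)) := by
          rw [← LL_mulVec]
          congr 1
          · funext i j
            exact D.2.2.2 γ _ _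
          · funext i
            exact hs γ _
        show LL (fun i j => D.1 (γ • t' i) (γ • t' j)) (fun i => s (γ • t' i)) = 0
        rw [h5, h3, mul_zero]
      · rintro ⟨hC, hC'⟩
        refine ⟨⟨C, hC⟩, ?_, rfl⟩
        show Phi o R s ⟨C, hC⟩ = 0
        funext t
        exact hC' t.1 (mem_chamReps.1 t.2).1
    rw [← hmap]
    exact (Submodule.finrank_map_subtype_eq (EdgeSp K) _).symm
  have hkd := ker_dim hc h1 o s hs hg hZ
  have hds := dehn_sommerville K
  rw [hker] at hrn
  have hdim' : 2 * (Module.finrank ℝ (LinearMap.range (Phi o R s)) : ℤ) + 16 * |K.eulerChar| ≤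
      (K.numSimplices 4 : ℤ) := by
    have h6 : ((2 * (Module.finrank ℝ (LinearMap.range (Phi o R s)) : ℤ) +
        16 * |K.eulerChar| : ℤ) : ℝ) ≤ ((K.numSimplices 4 : ℤ) : ℝ) := by
      push_cast
      exact hdim
    exact_mod_cast h6
  have hrn' : (Module.finrank ℝ (LinearMap.range (Phi o R s)) : ℤ) +
      Module.finrank ℝ (KerSp o s) = K.numSimplices 1 := by exact_mod_cast hrn
  have hkd' : (Module.finrank ℝ (KerSp o s) : ℤ) + 6 ≤
      3 * K.numSimplices 0 + Module.finrank ℝ (Z1 K.lin) := by exact_mod_cast hkd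
  omega

end Pool.Agent.ChS
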