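import Mathlib

/-!
# Barycentric coordinates of chains of finite sets

`bc c a` is the coefficient vector of `∑_{σ ∈ c} a σ • (barycentre of σ)`.

`bc_injective`: the indicator functions of the elements of a chain are linearly independent
(triangular: look at an element of `σ` not in the smaller members of the chain).

`sd_comb`: the members of `c'` are the sets `S` which are non-empty, contained in `τ`, comparable with all
members of `c`, and such that `y v < y u` whenever `u ∈ S`, `v ∈ τ \ S` are contained in the same members of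
`c`.
-/

namespace Pool.Agent.ChS

/-- the coefficient vector of a combination of barycentres -/
noncomputable def bc {V : Type*} [DecidableEq V] (c : Finset (Finset V)) (a : Finset V → ℝ)
    (v : V) : ℝ :=
  ∑ σ ∈ c, if v ∈ σ then a σ / (σ.card : ℝ) else 0

theorem sum_bc {V : Type*} [DecidableEq V] (c : Finset (Finset V)) (hc : ∀ σ ∈ c, σ.Nonempty)
    (τ : Finset V) (hτ : ∀ σ ∈ c, σ ⊆ τ) (a : Finset V → ℝ) :
    ∑ v ∈ τ, bc c a v = ∑ σ ∈ c, a σ := by
  unfold bc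
  rw [Finset.sum_comm]
  refine Finset.sum_congr rfl fun σ hσ => ?_
  rw [← Finset.sum_filter]
  have h1 : τ.filter (fun v => v ∈ σ) = σ := by
    ext v
    rw [Finset.mem_filter]
    exact ⟨fun h => h.2, fun h => ⟨hτ σ hσ h, h⟩⟩
  rw [h1, Finset.sum_const, nsmul_eq_mul]
  have h2 : (σ.card : ℝ) ≠ 0 := by
    exact_mod_cast (Finset.card_pos.2 (hc σ hσ)).ne'
  field_simp

/-- An element of a member of a chain which is in no smaller member. -/
theorem sdComb_exists_low {V : Type*} [DecidableEq V] (c : Finset (Finset V))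
    (hch : ∀ σ ∈ c, ∀ ρ ∈ c, σ ⊆ ρ ∨ ρ ⊆ σ) (S : Finset V) (hS : S.Nonempty) :
    ∃ u ∈ S, ∀ ρ ∈ c, ρ ⊂ S → u ∉ ρ := by
  classical
  set d := c.filter fun ρ => ρ ⊂ S with hd
  rcases d.eq_empty_or_nonempty with h | h
  · obtain ⟨u, hu⟩ := hS
    refine ⟨u, hu, fun ρ hρ hρS => ?_⟩
    have : ρ ∈ d := Finset.mem_filter.2 ⟨hρ, hρS⟩
    rw [h] at this
    exact absurd this (Finset.notMem_empty ρ)
  · obtain ⟨M, hM, hmax⟩ := d.exists_max_image Finset.card h
    obtain ⟨hMc, hMS⟩ := Finset.mem_filter.1 hM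
    obtain ⟨u, huS, huM⟩ := Finset.exists_of_ssubset hMS
    refine ⟨u, huS, fun ρ hρ hρS huρ => ?_⟩
    have hρd : ρ ∈ d := Finset.mem_filter.2 ⟨hρ, hρS⟩
    have hsub : ρ ⊆ M := by
      rcases hch ρ hρ M hMc with h1 | h1
      · exact h1
      · exact (Finset.eq_of_subset_of_card_le h1 (hmax ρ hρd)).ge
    exact huM (hsub huρ)

/-- An element outside of `S` which is in all larger members of a chain. -/
theorem sdComb_exists_high {V : Type*} [DecidableEq V] (c : Finset (Finset V))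
    (hch : ∀ σ ∈ c, ∀ ρ ∈ c, σ ⊆ ρ ∨ ρ ⊆ σ) (S τ : Finset V) (hS : S ⊂ τ)
    (hτ : ∀ ρ ∈ c, ρ ⊆ τ) :
    ∃ v ∈ τ, v ∉ S ∧ ∀ ρ ∈ c, S ⊂ ρ → v ∈ ρ := by
  classical
  set d := c.filter fun ρ => S ⊂ ρ with hd
  rcases d.eq_empty_or_nonempty with h | h
  · obtain ⟨v, hv, hvS⟩ := Finset.exists_of_ssubset hS
    refine ⟨v, hv, hvS, fun ρ hρ hρS => ?_⟩
    have : ρ ∈ d := Finset.mem_filter.2 ⟨hρ, hρS⟩
    rw [h] at this
    exact absurd this (Finset.notMem_empty ρ)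
  · obtain ⟨M, hM, hmin⟩ := d.exists_min_image Finset.card h
    obtain ⟨hMc, hMS⟩ := Finset.mem_filter.1 hM
    obtain ⟨v, hvM, hvS⟩ := Finset.exists_of_ssubset hMS
    refine ⟨v, hτ M hMc hvM, hvS, fun ρ hρ hρS => ?_⟩
    have hρd : ρ ∈ d := Finset.mem_filter.2 ⟨hρ, hρS⟩
    have hsub : M ⊆ ρ := by
      rcases hch ρ hρ M hMc with h1 | h1
      · exact (Finset.eq_of_subset_of_card_le h1 (hmin ρ hρd)).ge
      · exact h1
    exact hsub hvM

theorem sdComb_sub_eq {V : Type*} [DecidableEq V] (c : Finset (Finset V)) (a : Finset V → ℝ)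
    {σ : Finset V} (hσ : σ ∈ c) {u v : V} (hu : u ∈ σ) (hv : v ∉ σ)
    (h : ∀ ρ ∈ c, ρ ≠ σ → (u ∈ ρ ↔ v ∈ ρ)) : bc c a u - bc c a v = a σ / (σ.card : ℝ) := by
  unfold bc
  rw [← Finset.sum_sub_distrib, Finset.sum_eq_single σ]
  · rw [if_pos hu, if_neg hv, sub_zero]
  · intro ρ hρ hne
    have := h ρ hρ hne
    by_cases h1 : u ∈ ρ
    · rw [if_pos h1, if_pos (this.1 h1), sub_self]
    · rw [if_neg h1, if_neg (fun h2 => h1 (this.2 h2)), sub_self]
  · intro h1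
    exact absurd hσ h1

theorem bc_injective {V : Type*} [DecidableEq V] (c : Finset (Finset V))
    (hc : ∀ σ ∈ c, σ.Nonempty) (hch : ∀ σ ∈ c, ∀ ρ ∈ c, σ ⊆ ρ ∨ ρ ⊆ σ) (a : Finset V → ℝ)
    (h : ∀ v, bc c a v = 0) : ∀ σ ∈ c, a σ = 0 := by
  classical
  by_contra hcon
  push Not at hcon
  obtain ⟨σ₁, hσ₁, hne₁⟩ := hcon
  obtain ⟨σ, hσ, hmax⟩ := (c.filter fun σ => a σ ≠ 0).exists_max_image Finset.card
    ⟨σ₁, Finset.mem_filter.2 ⟨hσ₁, hne₁⟩⟩
  obtain ⟨hσc, hσa⟩ := Finset.mem_filter.1 hσ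
  obtain ⟨u, hu, hlow⟩ := sdComb_exists_low c hch σ (hc σ hσc)
  have h1 := h u
  unfold bc at h1
  rw [Finset.sum_eq_single σ, if_pos hu] at h1
  · have h2 : (σ.card : ℝ) ≠ 0 := by
      exact_mod_cast (Finset.card_pos.2 (hc σ hσc)).ne'
    rw [div_eq_zero_iff] at h1
    rcases h1 with h1 | h1
    · exact hσa h1
    · exact h2 h1
  · intro ρ hρ hne
    by_cases h3 : a ρ = 0
    · rw [h3]; simp
    · have h4 := hmax ρ (Finset.mem_filter.2 ⟨hρ, h3⟩)
      have h5 : ρ ⊆ σ := by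
        rcases hch ρ hρ σ hσc with h6 | h6
        · exact h6
        · exact (Finset.eq_of_subset_of_card_le h6 h4).ge
      rw [if_neg (hlow ρ hρ (Finset.ssubset_iff_subset_ne.2 ⟨h5, hne⟩))]
  · intro h3
    exact absurd hσc h3

/-- A function which is constant on the classes of a chain is a combination of indicators. -/
theorem sdComb_exists_bc {V : Type*} [DecidableEq V] (m : ℕ) : ∀ (c : Finset (Finset V)),
    c.card = m → (∀ σ ∈ c, σ.Nonempty) → (∀ σ ∈ c, ∀ ρ ∈ c, σ ⊆ ρ ∨ ρ ⊆ σ) →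
    ∀ y : V → ℝ, (∀ v, (∀ σ ∈ c, v ∉ σ) → y v = 0) →
    (∀ u v, (∀ σ ∈ c, u ∈ σ ↔ v ∈ σ) → y u = y v) → ∃ a : Finset V → ℝ, ∀ v, y v = bc c a v := by
  classical
  induction m with
  | zero =>
    intro c hcard hc hch y h0 h1
    rw [Finset.card_eq_zero] at hcard
    subst hcard
    refine ⟨fun _ => 0, fun v => ?_⟩
    rw [h0 v (by simp)]
    simp [bc]
  | succ m ih =>
    intro c hcard hc hch y h0 h1
    have hne : c.Nonempty := Finset.card_pos.1 (by omega)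
    obtain ⟨M, hM, hmax⟩ := c.exists_max_image Finset.card hne
    have hsub : ∀ ρ ∈ c, ρ ⊆ M := by
      intro ρ hρ
      rcases hch ρ hρ M hM with h6 | h6
      · exact h6
      · exact (Finset.eq_of_subset_of_card_le h6 (hmax ρ hρ)).ge
    obtain ⟨u, hu, hlow⟩ := sdComb_exists_low c hch M (hc M hM)
    have hu' : ∀ ρ ∈ c, ρ ≠ M → u ∉ ρ := fun ρ hρ hne' =>
      hlow ρ hρ (Finset.ssubset_iff_subset_ne.2 ⟨hsub ρ hρ, hne'⟩)
    set y' : V → ℝ := fun v => y v - if v ∈ M then y u else 0 with hy'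
    obtain ⟨a', ha'⟩ := ih (c.erase M) (by rw [Finset.card_erase_of_mem hM, hcard]; rfl)
      (fun σ hσ => hc σ (Finset.mem_of_mem_erase hσ))
      (fun σ hσ ρ hρ => hch σ (Finset.mem_of_mem_erase hσ) ρ (Finset.mem_of_mem_erase hρ))
      y' (fun v hv => by
        by_cases hvM : v ∈ M
        · have : y v = y u := h1 v u (fun σ hσ => by
            by_cases hσM : σ = M
            · rw [hσM]; exact ⟨fun _ => hu, fun _ => hvM⟩
            · exact ⟨fun h' => absurd h' (hv σ (Finset.mem_erase.2 ⟨hσM, hσ⟩)),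
                fun h' => absurd h' (hu' σ hσ hσM)⟩)
          simp only [hy', if_pos hvM, this, sub_self]
        · have : y v = 0 := h0 v (fun σ hσ hvσ => hvM (hsub σ hσ hvσ))
          simp only [hy', if_neg hvM, this, sub_zero])
      (fun v w hvw => by
        by_cases hex : ∃ σ ∈ c.erase M, v ∈ σ
        · obtain ⟨σ, hσ, hvσ⟩ := hex
          have hwσ := (hvw σ hσ).1 hvσ
          have hvM := hsub σ (Finset.mem_of_mem_erase hσ) hvσ
          have hwM := hsub σ (Finset.mem_of_mem_erase hσ) hwσ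
          have : y v = y w := h1 v w (fun ρ hρ => by
            by_cases hρM : ρ = M
            · rw [hρM]; exact ⟨fun _ => hwM, fun _ => hvM⟩
            · exact hvw ρ (Finset.mem_erase.2 ⟨hρM, hρ⟩))
          simp only [hy', if_pos hvM, if_pos hwM, this]
        · push Not at hex
          have hex' : ∀ σ ∈ c.erase M, w ∉ σ := fun σ hσ h' => hex σ hσ ((hvw σ hσ).2 h')
          have key : ∀ x, (∀ σ ∈ c.erase M, x ∉ σ) → y' x = 0 := by
            intro x hx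
            by_cases hvM : x ∈ M
            · have : y x = y u := h1 x u (fun σ hσ => by
                by_cases hσM : σ = M
                · rw [hσM]; exact ⟨fun _ => hu, fun _ => hvM⟩
                · exact ⟨fun h' => absurd h' (hx σ (Finset.mem_erase.2 ⟨hσM, hσ⟩)),
                    fun h' => absurd h' (hu' σ hσ hσM)⟩)
              simp only [hy', if_pos hvM, this, sub_self]
            · have : y x = 0 := h0 x (fun σ hσ hvσ => hvM (hsub σ hσ hvσ))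
              simp only [hy', if_neg hvM, this, sub_zero]
          rw [key v hex, key w hex'])
    refine ⟨Function.update a' M (y u * (M.card : ℝ)), fun v => ?_⟩
    have hMc : (M.card : ℝ) ≠ 0 := by
      exact_mod_cast (Finset.card_pos.2 (hc M hM)).ne'
    have h2 : bc c (Function.update a' M (y u * (M.card : ℝ))) v
        = (if v ∈ M then y u else 0) + bc (c.erase M) a' v := by
      unfold bc
      rw [← Finset.add_sum_erase c _ hM]
      congr 1
      · rw [Function.update_self, mul_div_cancel_right₀ _ hMc]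
      · refine Finset.sum_congr rfl fun ρ hρ => ?_
        rw [Function.update_of_ne (Finset.ne_of_mem_erase hρ)]
    rw [h2, ← ha' v]
    simp only [hy']
    ring

theorem sd_comb {V : Type*} [DecidableEq V] (c : Finset (Finset V))
    (hc : ∀ σ ∈ c, σ.Nonempty) (hch : ∀ σ ∈ c, ∀ ρ ∈ c, σ ⊆ ρ ∨ ρ ⊆ σ)
    (σ₀ : Finset V) (h0 : σ₀ ∈ c) (hmax : ∀ σ ∈ c, σ ⊆ σ₀) (τ : Finset V) (hτ : σ₀ ⊆ τ)
    (y : V → ℝ) (hy : ∀ v ∈ τ \ σ₀, 0 < y v) (hy0 : ∀ v, v ∉ τ → y v = 0) :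
    ∃! c' : Finset (Finset V), c ⊆ c' ∧ (∀ σ ∈ c', σ.Nonempty ∧ σ ⊆ τ) ∧
      (∀ σ ∈ c', ∀ ρ ∈ c', σ ⊆ ρ ∨ ρ ⊆ σ) ∧
      ∃ a : Finset V → ℝ, (∀ σ ∈ c' \ c, 0 < a σ) ∧ ∀ v, y v = bc c' a v := by
  classical
  set Q : Finset V → Prop := fun S => S.Nonempty ∧ (∀ κ ∈ c, S ⊆ κ ∨ κ ⊆ S) ∧
    ∀ u ∈ S, ∀ v ∈ τ, v ∉ S → (∀ κ ∈ c, u ∈ κ ↔ v ∈ κ) → y v < y u with hQ
  set d : Finset (Finset V) := τ.powerset.filter Q with hd
  have hmemd : ∀ S, S ∈ d ↔ S ⊆ τ ∧ Q S := by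
    intro S
    rw [hd, Finset.mem_filter, Finset.mem_powerset]
  have hcτ : ∀ σ ∈ c, σ ⊆ τ := fun σ hσ => (hmax σ hσ).trans hτ
  have hcd : c ⊆ d := by
    intro κ hκ
    rw [hmemd]
    refine ⟨hcτ κ hκ, hc κ hκ, fun ρ hρ => hch κ hκ ρ hρ, fun u hu v _ hv h => ?_⟩
    exact absurd ((h κ hκ).1 hu) hv
  -- two members are comparable
  have hcomp : ∀ S ρ, S ⊆ τ → ρ ⊆ τ → Q S → Q ρ → (S ⊆ ρ ∨ ρ ⊆ S) := by
    intro S ρ hSτ hρτ hS hρ
    by_contra hcon
    rw [not_or] at hcon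
    obtain ⟨u, huS, huρ⟩ := Finset.not_subset.1 hcon.1
    obtain ⟨v, hvρ, hvS⟩ := Finset.not_subset.1 hcon.2
    have hsame : ∀ κ ∈ c, u ∈ κ ↔ v ∈ κ := by
      intro κ hκ
      constructor
      · intro huκ
        by_contra hvκ
        rcases hρ.2.1 κ hκ with h1 | h1
        · exact hvκ (h1 hvρ)
        · exact huρ (h1 huκ)
      · intro hvκ
        by_contra huκ
        rcases hS.2.1 κ hκ with h1 | h1
        · exact huκ (h1 huS)
        · exact hvS (h1 hvκ)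
    have h1 := hS.2.2 u huS v (hρτ hvρ) hvS hsame
    have h2 := hρ.2.2 v hvρ u (hSτ huS) huρ (fun κ hκ => (hsame κ hκ).symm)
    exact lt_asymm h1 h2
  have hdch : ∀ σ ∈ d, ∀ ρ ∈ d, σ ⊆ ρ ∨ ρ ⊆ σ := by
    intro σ hσ ρ hρ
    rw [hmemd] at hσ hρ
    exact hcomp σ ρ hσ.1 hρ.1 hσ.2 hρ.2
  have hτd : τ ∈ d := by
    rw [hmemd]
    refine ⟨subset_rfl, (hc σ₀ h0).mono hτ, fun κ hκ => Or.inr (hcτ κ hκ), ?_⟩
    intro u _ v hv hv'
    exact absurd hv hv'
  have hdne : ∀ σ ∈ d, σ.Nonempty := fun σ hσ => ((hmemd σ).1 hσ).2.1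
  have hdτ : ∀ σ ∈ d, σ ⊆ τ := fun σ hσ => ((hmemd σ).1 hσ).1
  -- y is constant on the classes
  have hconst : ∀ u v, u ∈ τ → (∀ σ ∈ d, u ∈ σ ↔ v ∈ σ) → ¬ y v < y u := by
    intro u v huτ hsame hlt
    have hvτ : v ∈ τ := (hsame τ hτd).1 huτ
    set S := τ.filter fun w => (∃ κ ∈ c, w ∈ κ ∧ u ∉ κ) ∨
      ((∀ κ ∈ c, w ∈ κ ↔ u ∈ κ) ∧ y u ≤ y w) with hS
    have huS : u ∈ S := Finset.mem_filter.2 ⟨huτ, Or.inr ⟨fun _ _ => Iff.rfl, le_rfl⟩⟩
    have hSd : S ∈ d := by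
      rw [hmemd]
      refine ⟨Finset.filter_subset _ _, ⟨u, huS⟩, ?_, ?_⟩
      · intro κ hκ
        by_cases huκ : u ∈ κ
        · left
          intro w hw
          rcases (Finset.mem_filter.1 hw).2 with ⟨κ', hκ', hw', hu'⟩ | ⟨hw', -⟩
          · rcases hch κ hκ κ' hκ' with h1 | h1
            · exact absurd (h1 huκ) hu'
            · exact h1 hw'
          · exact (hw' κ hκ).2 huκ
        · right
          intro w hw
          exact Finset.mem_filter.2 ⟨hcτ κ hκ hw, Or.inl ⟨κ, hκ, hw, huκ⟩⟩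
      · intro s hs t ht htS hst
        rcases (Finset.mem_filter.1 hs).2 with ⟨κ, hκ, hsκ, huκ⟩ | ⟨hs', hys⟩
        · exact absurd (Finset.mem_filter.2 ⟨ht, Or.inl ⟨κ, hκ, (hst κ hκ).1 hsκ, huκ⟩⟩) htS
        · have h1 : ¬ y u ≤ y t := fun h1 => htS (Finset.mem_filter.2 ⟨ht, Or.inr
            ⟨fun κ hκ => ((hst κ hκ).symm.trans (hs' κ hκ)), h1⟩⟩)
          exact (not_le.1 h1).trans_le hys
    have hvS : v ∈ S := (hsame S hSd).1 huS
    rcases (Finset.mem_filter.1 hvS).2 with ⟨κ, hκ, hvκ, huκ⟩ | ⟨-, h1⟩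
    · exact huκ ((hsame κ (hcd hκ)).2 hvκ)
    · exact absurd h1 (not_le.2 hlt)
  have hconst' : ∀ u v, (∀ σ ∈ d, u ∈ σ ↔ v ∈ σ) → y u = y v := by
    intro u v hsame
    by_cases huτ : u ∈ τ
    · have hvτ : v ∈ τ := (hsame τ hτd).1 huτ
      have h1 := hconst u v huτ hsame
      have h2 := hconst v u hvτ (fun σ hσ => (hsame σ hσ).symm)
      exact le_antisymm (not_lt.1 h1) (not_lt.1 h2)
    · have hvτ : v ∉ τ := fun h' => huτ ((hsame τ hτd).2 h')
      rw [hy0 u huτ, hy0 v hvτ]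
  obtain ⟨a, ha⟩ := sdComb_exists_bc d.card d rfl hdne hdch y
    (fun v hv => hy0 v (hv τ hτd)) hconst'
  refine ⟨d, ⟨hcd, fun σ hσ => ⟨hdne σ hσ, hdτ σ hσ⟩, hdch, a, ?_, ha⟩, ?_⟩
  · -- positivity
    intro σ hσ
    obtain ⟨hσd, hσc⟩ := Finset.mem_sdiff.1 hσ
    have hcard : (0 : ℝ) < (σ.card : ℝ) := by
      exact_mod_cast Finset.card_pos.2 (hdne σ hσd)
    obtain ⟨u, hu, hlow⟩ := sdComb_exists_low d hdch σ (hdne σ hσd)
    by_cases hστ : σ = τ
    · -- the largest member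
      have huσ₀ : u ∉ σ₀ := by
        refine hlow σ₀ (hcd h0) (Finset.ssubset_iff_subset_ne.2 ⟨by rw [hστ]; exact hτ, ?_⟩)
        rintro rfl
        exact hσc h0
      have hyu : 0 < y u := hy u (Finset.mem_sdiff.2 ⟨hdτ σ hσd hu, huσ₀⟩)
      have h1 : y u = a σ / (σ.card : ℝ) := by
        rw [ha u]
        unfold bc
        rw [Finset.sum_eq_single σ, if_pos hu]
        · intro ρ hρ hne
          rw [if_neg (hlow ρ hρ (Finset.ssubset_iff_subset_ne.2
            ⟨by rw [hστ]; exact hdτ ρ hρ, hne⟩))]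
        · intro h3
          exact absurd hσd h3
      rw [h1] at hyu
      exact (div_pos_iff_of_pos_right hcard).1 hyu
    · have hss : σ ⊂ τ := Finset.ssubset_iff_subset_ne.2 ⟨hdτ σ hσd, hστ⟩
      obtain ⟨v, hvτ, hvσ, hhigh⟩ := sdComb_exists_high d hdch σ τ hss hdτ
      have hdiff : ∀ ρ ∈ d, ρ ≠ σ → (u ∈ ρ ↔ v ∈ ρ) := by
        intro ρ hρ hne
        rcases hdch ρ hρ σ hσd with h1 | h1
        · have h2 := hlow ρ hρ (Finset.ssubset_iff_subset_ne.2 ⟨h1, hne⟩)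
          exact ⟨fun h3 => absurd h3 h2, fun h3 => absurd (h1 h3) hvσ⟩
        · have h2 := hhigh ρ hρ (Finset.ssubset_iff_subset_ne.2 ⟨h1, hne.symm⟩)
          exact ⟨fun _ => h2, fun _ => h1 hu⟩
      have h1 := sdComb_sub_eq d a hσd hu hvσ hdiff
      rw [← ha u, ← ha v] at h1
      have h2 : y v < y u := ((hmemd σ).1 hσd).2.2.2 u hu v hvτ hvσ (fun κ hκ =>
        hdiff κ (hcd hκ) (fun h3 => hσc (h3 ▸ hκ)))
      have h3 : 0 < a σ / (σ.card : ℝ) := by rw [← h1]; linarith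
      exact (div_pos_iff_of_pos_right hcard).1 h3
  · -- uniqueness
    rintro c' ⟨hcc', hc', hch', b, hb, hyb⟩
    have hsub : ∀ S ∈ c', Q S := by
      intro S hS
      refine ⟨(hc' S hS).1, fun κ hκ => hch' S hS κ (hcc' hκ), ?_⟩
      intro u hu v hvτ hvS hsame
      have hSc : S ∉ c := fun h1 => hvS ((hsame S h1).1 hu)
      have hcard : ∀ ρ ∈ c', (0 : ℝ) < (ρ.card : ℝ) := fun ρ hρ => by
        exact_mod_cast Finset.card_pos.2 (hc' ρ hρ).1
      have h1 : bc c' b v < bc c' b u := by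
        unfold bc
        refine Finset.sum_lt_sum (fun ρ hρ => ?_) ⟨S, hS, ?_⟩
        · by_cases hρc : ρ ∈ c
          · have := hsame ρ hρc
            by_cases h2 : u ∈ ρ
            · rw [if_pos h2, if_pos (this.1 h2)]
            · rw [if_neg h2, if_neg (fun h3 => h2 (this.2 h3))]
          · have hpos : 0 < b ρ / (ρ.card : ℝ) :=
              div_pos (hb ρ (Finset.mem_sdiff.2 ⟨hρ, hρc⟩)) (hcard ρ hρ)
            by_cases h2 : v ∈ ρ
            · have h3 : u ∈ ρ := by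
                rcases hch' ρ hρ S hS with h4 | h4
                · exact absurd (h4 h2) hvS
                · exact h4 hu
              rw [if_pos h2, if_pos h3]
            · rw [if_neg h2]
              split_ifs
              · exact hpos.le
              · exact le_rfl
        · rw [if_neg hvS, if_pos hu]
          exact div_pos (hb S (Finset.mem_sdiff.2 ⟨hS, hSc⟩)) (hcard S hS)
      rw [hyb u, hyb v]
      exact h1
    have hclass : ∀ u v, (∀ σ ∈ c', u ∈ σ ↔ v ∈ σ) → y u = y v := by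
      intro u v h1
      rw [hyb u, hyb v]
      unfold bc
      refine Finset.sum_congr rfl fun ρ hρ => ?_
      by_cases h2 : u ∈ ρ
      · rw [if_pos h2, if_pos ((h1 ρ hρ).1 h2)]
      · rw [if_neg h2, if_neg (fun h3 => h2 ((h1 ρ hρ).2 h3))]
    ext S
    rw [hmemd]
    constructor
    · intro hS
      exact ⟨(hc' S hS).2, hsub S hS⟩
    · rintro ⟨hSτ, hQS⟩
      by_contra hSc'
      have hcompS : ∀ ρ ∈ c', ρ ⊆ S ∨ S ⊆ ρ := fun ρ hρ =>
        hcomp ρ S (hc' ρ hρ).2 hSτ (hsub ρ hρ) hQS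
      have hneS : ∀ ρ ∈ c', ρ ≠ S := fun ρ hρ h1 => hSc' (h1 ▸ hρ)
      obtain ⟨u, hu, hlow⟩ := sdComb_exists_low c' hch' S hQS.1
      by_cases hSτ' : S = τ
      · have huno : ∀ ρ ∈ c', u ∉ ρ := fun ρ hρ =>
          hlow ρ hρ (Finset.ssubset_iff_subset_ne.2
            ⟨by rw [hSτ']; exact (hc' ρ hρ).2, hneS ρ hρ⟩)
        have h1 : y u = 0 := by
          rw [hyb u]
          unfold bc
          exact Finset.sum_eq_zero fun ρ hρ => if_neg (huno ρ hρ)
        have h2 : 0 < y u := hy u (Finset.mem_sdiff.2 ⟨hSτ hu, huno σ₀ (hcc' h0)⟩)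
        linarith
      · have hss : S ⊂ τ := Finset.ssubset_iff_subset_ne.2 ⟨hSτ, hSτ'⟩
        obtain ⟨v, hvτ, hvS, hhigh⟩ := sdComb_exists_high c' hch' S τ hss
          (fun ρ hρ => (hc' ρ hρ).2)
        have hsame : ∀ ρ ∈ c', u ∈ ρ ↔ v ∈ ρ := by
          intro ρ hρ
          rcases hcompS ρ hρ with h1 | h1
          · have h2 := hlow ρ hρ (Finset.ssubset_iff_subset_ne.2 ⟨h1, hneS ρ hρ⟩)
            exact ⟨fun h3 => absurd h3 h2, fun h3 => absurd (h1 h3) hvS⟩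
          · have h2 := hhigh ρ hρ (Finset.ssubset_iff_subset_ne.2 ⟨h1, (hneS ρ hρ).symm⟩)
            exact ⟨fun _ => h2, fun _ => h1 hu⟩
        have h1 := hclass u v hsame
        have h2 := hQS.2.2 u hu v hvτ hvS (fun κ hκ => hsame κ (hcc' hκ))
        linarith

end Pool.Agent.ChS
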