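import Pool.Agent.ChS.Defs
import Pool.Agent.ChS.SdComb
import Pool.Agent.ChP.UniqS

/-!
# The barycentric subdivision

`sd_indep`: let `τ` be the largest member of the chain; a relation `∑ w σ = 0`, `∑ w σ • bary σ = 0`
gives `∑_{v ∈ τ} y v = 0`, `∑_{v ∈ τ} y v • dev v = 0` with `y = bc c w`, so `y = 0` by `K.indep τ`
(`eq_of_affine_comb` in `ChP/UniqS.lean`) and `w = 0` by `bc_injective`.

`sd_local`: let `σ₀` be the largest member of `c`.  Existence: let `τ ⊇ σ₀` and `y` (zero outside `τ`) be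
given by `K.local_homeo` for `σ₀` and `x`, take `c'` from `sd_comb`; `∑ a = ∑ y = 0` by `sum_bc`.
Uniqueness: if `c'`, `a` is a solution with largest member `τ'` then `y' = bc c' a` satisfies `∑ y' = 0`,
`y' v > 0` for `v ∈ τ' \ σ₀` (only members not in `c` contain `v`, `τ'` does) and
`∑_{v ∈ τ'} y' v • dev v = x`, so `τ' = τ` by `local_homeo` and `y' = y` by affine independence of `τ`; use
the uniqueness in `sd_comb`.
-/

namespace Pool.Agent.ChS

open Matrix Pool.Agent.ChP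
open scoped Pointwise

variable {n : ℕ} (K : AffineTriangulation n)

/-- The vertices of the barycentric subdivision are the simplices. -/
def SdV : Type := {σ : Finset K.V // σ ∈ K.faces}

noncomputable instance : DecidableEq (SdV K) := Classical.decEq _

instance : MulAction K.Γ (SdV K) where
  smul γ σ := ⟨γ • σ.1, K.smul_mem γ _ σ.2⟩
  one_smul σ := Subtype.ext (one_smul _ _)
  mul_smul a b σ := Subtype.ext (mul_smul _ _ _)

theorem sdV_smul_val (γ : K.Γ) (σ : SdV K) : (γ • σ).1 = γ • σ.1 := rfl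

/-- The simplices of the barycentric subdivision are the chains of simplices. -/
def sdFaces : Set (Finset (SdV K)) :=
  {c | c.Nonempty ∧ ∀ a ∈ c, ∀ b ∈ c, a.1 ⊆ b.1 ∨ b.1 ⊆ a.1}

/-- the underlying family of simplices of a simplex of the subdivision -/
def sdIm {K : AffineTriangulation n} (c : Finset (SdV K)) : Finset (Finset K.V) :=
  c.map ⟨Subtype.val, Subtype.val_injective⟩

theorem mem_sdIm {K : AffineTriangulation n} {c : Finset (SdV K)} {σ : Finset K.V} :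
    σ ∈ sdIm c ↔ ∃ a ∈ c, a.1 = σ := by
  unfold sdIm
  rw [Finset.mem_map]
  rfl

theorem val_mem_sdIm {K : AffineTriangulation n} {c : Finset (SdV K)} {a : SdV K} :
    a.1 ∈ sdIm c ↔ a ∈ c := by
  rw [mem_sdIm]
  constructor
  · rintro ⟨b, hb, h⟩
    rwa [← Subtype.ext h]
  · intro h
    exact ⟨a, h, rfl⟩

theorem sdIm_injective {K : AffineTriangulation n} {c d : Finset (SdV K)} (h : sdIm c = sdIm d) :
    c = d := by
  ext a
  rw [← val_mem_sdIm, h, val_mem_sdIm]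

theorem sum_sdIm {K : AffineTriangulation n} {M : Type*} [AddCommMonoid M] (c : Finset (SdV K))
    (f : Finset K.V → M) : ∑ σ ∈ sdIm c, f σ = ∑ a ∈ c, f a.1 := by
  unfold sdIm
  rw [Finset.sum_map]
  rfl

/-- the largest member of a chain -/
theorem exists_largest {K : AffineTriangulation n} {c : Finset (SdV K)} (hc : c ∈ sdFaces K) :
    ∃ m ∈ c, ∀ a ∈ c, a.1 ⊆ m.1 := by
  obtain ⟨m, hm, hmax⟩ := c.exists_max_image (fun a => a.1.card) hc.1
  refine ⟨m, hm, fun a ha => ?_⟩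
  rcases hc.2 a ha m hm with h | h
  · exact h
  · exact (Finset.eq_of_subset_of_card_le h (hmax a ha)).ge

theorem sum_bc_dev {K : AffineTriangulation n} (c : Finset (Finset K.V)) (τ : Finset K.V)
    (hτ : ∀ σ ∈ c, σ ⊆ τ) (a : Finset K.V → ℝ) :
    ∑ v ∈ τ, bc c a v • K.dev v = ∑ σ ∈ c, a σ • K.bary σ := by
  unfold bc
  simp only [Finset.sum_smul]
  rw [Finset.sum_comm]
  refine Finset.sum_congr rfl fun σ hσ => ?_
  unfold AffineTriangulation.bary
  rw [smul_smul, ← div_eq_mul_inv, Finset.smul_sum, ← Finset.sum_subset (hτ σ hσ)]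
  · refine Finset.sum_congr rfl fun v hv => ?_
    rw [if_pos hv]
  · intro v _ hv
    rw [if_neg hv, zero_smul]

theorem sd_smul_mem (γ : K.Γ) (c : Finset (SdV K)) (hc : c ∈ sdFaces K) :
    γ • c ∈ sdFaces K := by
  refine ⟨hc.1.smul_finset, ?_⟩
  intro a ha b hb
  obtain ⟨a', ha', rfl⟩ := Finset.mem_smul_finset.1 ha
  obtain ⟨b', hb', rfl⟩ := Finset.mem_smul_finset.1 hb
  rw [sdV_smul_val, sdV_smul_val]
  rcases hc.2 a' ha' b' hb' with h | h
  · exact Or.inl (Finset.smul_finset_subset_smul_finset h)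
  · exact Or.inr (Finset.smul_finset_subset_smul_finset h)

theorem sd_free (γ : K.Γ) (c : Finset (SdV K)) (hc : c ∈ sdFaces K) (h : γ • c = c) : γ = 1 := by
  obtain ⟨m, hm, hmax⟩ := exists_largest hc
  have h1 : γ • m ∈ c := by
    rw [← h]
    exact Finset.smul_mem_smul_finset hm
  have h2 := hmax _ h1
  rw [sdV_smul_val] at h2
  refine K.free γ m.1 m.2 (Finset.eq_of_subset_of_card_le h2 ?_)
  rw [Finset.card_smul_finset]

theorem sd_cocompact : ∃ F : Finset (Finset (SdV K)), ∀ c ∈ sdFaces K, ∃ γ : K.Γ, γ • c ∈ F := by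
  classical
  obtain ⟨F, hF⟩ := K.cocompact
  have hfin : {σ : SdV K | ∃ τ ∈ F, σ.1 ⊆ τ}.Finite := by
    refine Set.Finite.of_injOn (f := fun σ : SdV K => σ.1)
      (t := ((F.biUnion Finset.powerset : Finset (Finset K.V)) : Set (Finset K.V))) ?_
      Subtype.val_injective.injOn (Finset.finite_toSet _)
    rintro σ ⟨τ, hτ, hsub⟩
    rw [Finset.mem_coe, Finset.mem_biUnion]
    exact ⟨τ, hτ, Finset.mem_powerset.2 hsub⟩
  refine ⟨hfin.toFinset.powerset, fun c hc => ?_⟩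
  obtain ⟨m, hm, hmax⟩ := exists_largest hc
  obtain ⟨γ, hγ⟩ := hF m.1 m.2
  refine ⟨γ, ?_⟩
  rw [Finset.mem_powerset]
  intro a ha
  obtain ⟨b, hb, rfl⟩ := Finset.mem_smul_finset.1 ha
  rw [Set.Finite.mem_toFinset]
  refine ⟨γ • m.1, hγ, ?_⟩
  rw [sdV_smul_val]
  exact Finset.smul_finset_subset_smul_finset (hmax b hb)

theorem sdIm_nonempty {K : AffineTriangulation n} {c : Finset (SdV K)} :
    ∀ σ ∈ sdIm c, σ.Nonempty := by
  intro σ hσ
  obtain ⟨a, -, rfl⟩ := mem_sdIm.1 hσ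
  exact K.nonempty_of_mem _ a.2

theorem sdIm_chain {K : AffineTriangulation n} {c : Finset (SdV K)} (hc : c ∈ sdFaces K) :
    ∀ σ ∈ sdIm c, ∀ ρ ∈ sdIm c, σ ⊆ ρ ∨ ρ ⊆ σ := by
  intro σ hσ ρ hρ
  obtain ⟨a, ha, rfl⟩ := mem_sdIm.1 hσ
  obtain ⟨b, hb, rfl⟩ := mem_sdIm.1 hρ
  exact hc.2 a ha b hb

open Classical in
/-- extension of a function on the simplices by zero -/
noncomputable def sdExt {K : AffineTriangulation n} (a : SdV K → ℝ) (σ : Finset K.V) : ℝ :=
  if h : σ ∈ K.faces then a ⟨σ, h⟩ else 0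

theorem sdExt_val {K : AffineTriangulation n} (a : SdV K → ℝ) (σ : SdV K) :
    sdExt a σ.1 = a σ := by
  unfold sdExt
  rw [dif_pos σ.2]
  rfl

theorem sd_indep (c : Finset (SdV K)) (hc : c ∈ sdFaces K) :
    AffineIndependent ℝ (fun v : c => K.bary v.1.1) := by
  classical
  rw [affineIndependent_iff_of_fintype]
  intro w hw hw' i
  rw [Finset.weightedVSub_eq_linear_combination (Finset.univ) hw] at hw'
  obtain ⟨m, hm, hmax⟩ := exists_largest hc
  set a : SdV K → ℝ := fun σ => if h : σ ∈ c then w ⟨σ, h⟩ else 0 with ha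
  have ha' : ∀ σ : c, a σ.1 = w σ := by
    intro σ
    simp only [ha]
    rw [dif_pos σ.2]
  have hsub : ∀ σ ∈ sdIm c, σ ⊆ m.1 := by
    intro σ hσ
    obtain ⟨b, hb, rfl⟩ := mem_sdIm.1 hσ
    exact hmax b hb
  have h1 : ∑ v ∈ m.1, bc (sdIm c) (sdExt a) v = 0 := by
    rw [sum_bc _ sdIm_nonempty _ hsub, sum_sdIm]
    simp only [sdExt_val]
    rw [← hw, ← Finset.sum_coe_sort c a]
    exact Finset.sum_congr rfl fun σ _ => ha' σ
  have h2 : ∑ v ∈ m.1, bc (sdIm c) (sdExt a) v • K.dev v = 0 := by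
    rw [sum_bc_dev _ _ hsub, sum_sdIm]
    simp only [sdExt_val]
    rw [← hw', ← Finset.sum_coe_sort c (fun σ => a σ • K.bary σ.1)]
    exact Finset.sum_congr rfl fun σ _ => by rw [ha' σ]
  have h3 := K.eq_of_affine_comb m.2 _ h1 h2
  have h4 : ∀ v, bc (sdIm c) (sdExt a) v = 0 := by
    intro v
    by_cases hv : v ∈ m.1
    · exact h3 v hv
    · unfold bc
      refine Finset.sum_eq_zero fun σ hσ => ?_
      rw [if_neg (fun h => hv (hsub σ hσ h))]
  have h5 := bc_injective (sdIm c) sdIm_nonempty (sdIm_chain hc) _ h4 i.1.1 (val_mem_sdIm.2 i.2)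
  rw [sdExt_val, ha' i] at h5
  exact h5

theorem sd_local (c : Finset (SdV K)) (hc : c ∈ sdFaces K) (x : Fin n → ℝ) :
    ∃! c' : Finset (SdV K), c' ∈ sdFaces K ∧ c ⊆ c' ∧
      ∃ a : SdV K → ℝ, (∑ σ ∈ c', a σ = 0) ∧ (∀ σ ∈ c' \ c, 0 < a σ) ∧
        ∑ σ ∈ c', a σ • K.bary σ.1 = x := by
  classical
  obtain ⟨m, hm, hmax⟩ := exists_largest hc
  obtain ⟨τ, ⟨hτ, hmτ, y₀, hy0, hypos, hyx⟩, huniq⟩ := K.local_homeo m.1 m.2 x
  set y : K.V → ℝ := fun v => if v ∈ τ then y₀ v else 0 with hy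
  have hyin : ∀ v ∈ τ, y v = y₀ v := fun v hv => if_pos hv
  have hyout : ∀ v, v ∉ τ → y v = 0 := fun v hv => if_neg hv
  have hysum : ∑ v ∈ τ, y v = 0 := by
    rw [← hy0]
    exact Finset.sum_congr rfl hyin
  have hyx' : ∑ v ∈ τ, y v • K.dev v = x := by
    rw [← hyx]
    exact Finset.sum_congr rfl fun v hv => by rw [hyin v hv]
  have hypos' : ∀ v ∈ τ \ m.1, 0 < y v := fun v hv => by
    rw [hyin v (Finset.mem_sdiff.1 hv).1]
    exact hypos v hv
  have hsubm : ∀ σ ∈ sdIm c, σ ⊆ m.1 := by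
    intro σ hσ
    obtain ⟨b, hb, rfl⟩ := mem_sdIm.1 hσ
    exact hmax b hb
  obtain ⟨C, ⟨hcC, hCτ, hCch, A, hApos, hyA⟩, hCuniq⟩ := sd_comb (sdIm c) sdIm_nonempty
    (sdIm_chain hc) m.1 (val_mem_sdIm.2 hm) hsubm τ hmτ y hypos' hyout
  have hCf : ∀ σ ∈ C, σ ∈ K.faces := fun σ hσ =>
    K.down_closed τ hτ σ (hCτ σ hσ).2 (hCτ σ hσ).1
  -- the lift of `C`
  set c' : Finset (SdV K) := Finset.subtype (fun σ => σ ∈ K.faces) C with hc'
  have hmem : ∀ σ : SdV K, σ ∈ c' ↔ σ.1 ∈ C := fun σ => Finset.mem_subtype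
  have him : sdIm c' = C := by
    ext σ
    rw [mem_sdIm]
    constructor
    · rintro ⟨a, ha, rfl⟩
      exact (hmem a).1 ha
    · intro hσ
      exact ⟨⟨σ, hCf σ hσ⟩, (hmem _).2 hσ, rfl⟩
  refine ⟨c', ⟨⟨⟨m, ?_⟩, ?_⟩, ?_, fun σ => A σ.1, ?_, ?_, ?_⟩, ?_⟩
  · rw [hmem]
    exact hcC (val_mem_sdIm.2 hm)
  · intro a ha b hb
    exact hCch a.1 ((hmem a).1 ha) b.1 ((hmem b).1 hb)
  · intro a ha
    rw [hmem]
    exact hcC (val_mem_sdIm.2 ha)
  · rw [← sum_sdIm, him, ← sum_bc C (fun σ hσ => (hCτ σ hσ).1) τ (fun σ hσ => (hCτ σ hσ).2),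
      ← hysum]
    exact Finset.sum_congr rfl fun v _ => (hyA v).symm
  · intro σ hσ
    obtain ⟨h1, h2⟩ := Finset.mem_sdiff.1 hσ
    exact hApos σ.1 (Finset.mem_sdiff.2 ⟨(hmem σ).1 h1, fun h => h2 (val_mem_sdIm.1 h)⟩)
  · have h1 := sum_sdIm c' (fun σ => A σ • K.bary σ)
    rw [← h1, him, ← sum_bc_dev C τ (fun σ hσ => (hCτ σ hσ).2), ← hyx']
    exact Finset.sum_congr rfl fun v _ => by rw [← hyA v]
  · rintro d ⟨hd, hcd, a, ha0, hapos, hax⟩
    obtain ⟨m', hm', hmax'⟩ := exists_largest hd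
    have hsubm' : ∀ σ ∈ sdIm d, σ ⊆ m'.1 := by
      intro σ hσ
      obtain ⟨b, hb, rfl⟩ := mem_sdIm.1 hσ
      exact hmax' b hb
    set y' : K.V → ℝ := bc (sdIm d) (sdExt a) with hy'
    have s1 : ∑ v ∈ m'.1, y' v = 0 := by
      rw [hy', sum_bc _ sdIm_nonempty _ hsubm', sum_sdIm]
      simp only [sdExt_val]
      exact ha0
    have s2 : ∑ v ∈ m'.1, y' v • K.dev v = x := by
      rw [hy', sum_bc_dev _ _ hsubm', sum_sdIm]
      simp only [sdExt_val]
      exact hax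
    have hcardpos : ∀ σ ∈ sdIm d, (0 : ℝ) < (σ.card : ℝ) := fun σ hσ => by
      exact_mod_cast Finset.card_pos.2 (sdIm_nonempty σ hσ)
    have s3 : ∀ v ∈ m'.1 \ m.1, 0 < y' v := by
      intro v hv
      obtain ⟨hv1, hv2⟩ := Finset.mem_sdiff.1 hv
      have key : ∀ σ ∈ sdIm d, v ∈ σ → 0 < sdExt a σ / (σ.card : ℝ) := by
        intro σ hσ hvσ
        refine div_pos ?_ (hcardpos σ hσ)
        obtain ⟨b, hb, rfl⟩ := mem_sdIm.1 hσ
        rw [sdExt_val]
        exact hapos b (Finset.mem_sdiff.2 ⟨hb, fun h => hv2 (hmax b h hvσ)⟩)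
      rw [hy']
      unfold bc
      refine Finset.sum_pos' (fun σ hσ => ?_) ⟨m'.1, val_mem_sdIm.2 hm', ?_⟩
      · split_ifs with h
        · exact (key σ hσ h).le
        · exact le_rfl
      · rw [if_pos hv1]
        exact key m'.1 (val_mem_sdIm.2 hm') hv1
    have hτ' : m'.1 = τ := huniq m'.1 ⟨m'.2, hmax' m (hcd hm), y', s1, s3, s2⟩
    rw [hτ'] at s1 s2
    have s4 := K.eq_of_affine_comb hτ (fun v => y v - y' v)
      (by rw [Finset.sum_sub_distrib, hysum, s1, sub_zero])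
      (by
        simp only [sub_smul]
        rw [Finset.sum_sub_distrib, hyx', s2, sub_self])
    have s5 : ∀ v, y v = bc (sdIm d) (sdExt a) v := by
      intro v
      by_cases hv : v ∈ τ
      · have := s4 v hv
        rw [← hy']
        linarith
      · rw [hyout v hv]
        unfold bc
        refine (Finset.sum_eq_zero fun σ hσ => ?_).symm
        rw [if_neg (fun h => hv (hτ' ▸ hsubm' σ hσ h))]
    have s6 : sdIm d = C := by
      refine hCuniq (sdIm d) ⟨?_, fun σ hσ => ⟨sdIm_nonempty σ hσ, hτ' ▸ hsubm' σ hσ⟩,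
        sdIm_chain hd, sdExt a, ?_, s5⟩
      · intro σ hσ
        obtain ⟨b, hb, rfl⟩ := mem_sdIm.1 hσ
        exact val_mem_sdIm.2 (hcd hb)
      · intro σ hσ
        obtain ⟨h1, h2⟩ := Finset.mem_sdiff.1 hσ
        obtain ⟨b, hb, rfl⟩ := mem_sdIm.1 h1
        rw [sdExt_val]
        exact hapos b (Finset.mem_sdiff.2 ⟨hb, fun h => h2 (val_mem_sdIm.2 h)⟩)
    exact sdIm_injective (s6.trans him.symm)

/-- The barycentric subdivision of a triangulated closed affine manifold. -/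
noncomputable def sd : AffineTriangulation n where
  Γ := K.Γ
  V := SdV K
  faces := sdFaces K
  nonempty_of_mem c hc := hc.1
  singleton_mem v := by
    refine ⟨Finset.singleton_nonempty v, fun a ha b hb => ?_⟩
    rw [Finset.mem_singleton] at ha hb
    rw [ha, hb]
    exact Or.inl subset_rfl
  down_closed c hc d hd hne := ⟨hne, fun a ha b hb => hc.2 a (hd ha) b (hd hb)⟩
  smul_mem := sd_smul_mem K
  free := sd_free K
  cocompact := sd_cocompact K
  dev v := K.bary v.1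
  hol := K.hol
  dev_smul γ v := K.bary_smul γ (K.nonempty_of_mem _ v.2)
  indep := sd_indep K
  local_homeo := sd_local K

end Pool.Agent.ChS
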