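import Pool.Agent.ChS.FanConn
import Pool.Agent.ChS.LinkFan

/-!
# Connectivity of stars and of the complex through walls

`star_connected`: apply `fan_connected` to the link fan of `σ₀` (`exists_link_fan`,
`d = n + 1 - σ₀.card`) and the real function `σ' ↦ if f (σ' ∪ σ₀) = f σ then 1 else 0`.

`chambers_connected`: `star_connected` for the vertices; the value of `f` on the star of `v` depends
only on `v` (it exists by `exists_top`) and is the same for `u` and `v` if `{u, v} ∈ K.faces`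
(`exists_top`); use `Connected`.
-/

set_option linter.all false

namespace Pool.Agent.ChS

open Matrix Pool.Agent.ChP
open scoped Pointwise

variable {n : ℕ} (K : AffineTriangulation n)

theorem star_connected {X : Type*} {σ₀ : Finset K.V} (h : σ₀ ∈ K.faces) (f : Finset K.V → X)
    (hf : ∀ σ σ', Chb K σ → Chb K σ' → σ₀ ⊆ σ → σ₀ ⊆ σ' → (σ ∩ σ').card = n → f σ = f σ')
    {σ σ' : Finset K.V} (hσ : Chb K σ) (hσ' : Chb K σ') (hs : σ₀ ⊆ σ) (hs' : σ₀ ⊆ σ') :
    f σ = f σ' := by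
  classical
  have hcard : σ₀.card ≤ n + 1 := hσ.2 ▸ Finset.card_le_card hs
  obtain ⟨d, hd⟩ := Nat.exists_eq_add_of_le hcard
  obtain ⟨cones, p, hfan, hmem⟩ := exists_link_fan K h hd.symm
  have hun : ∀ τ : Finset K.V, σ₀ ⊆ τ → (τ \ σ₀) ∪ σ₀ = τ := fun τ hτ =>
    Finset.sdiff_union_of_subset hτ
  have hin : ∀ τ : Finset K.V, Chb K τ → σ₀ ⊆ τ → τ \ σ₀ ∈ cones ∧ (τ \ σ₀).card = d := by
    intro τ hτ hsub
    refine ⟨(hmem _).mpr ⟨Finset.sdiff_disjoint, ?_⟩, ?_⟩
    · rw [hun τ hsub]; exact hτ.1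
    · rw [Finset.card_sdiff_of_subset hsub, hτ.2]; omega
  have hchb : ∀ τ ∈ cones, τ.card = d → Chb K (τ ∪ σ₀) := by
    intro τ hτ hc
    obtain ⟨h1, h2⟩ := (hmem τ).mp hτ
    refine ⟨h2, ?_⟩
    rw [Finset.card_union_of_disjoint h1]; omega
  have key := fan_connected hfan (fun τ => if f (τ ∪ σ₀) = f σ then (1:ℝ) else 0) ?_
    (hin σ hσ hs).1 (hin σ' hσ' hs').1 (hin σ hσ hs).2 (hin σ' hσ' hs').2
  · simp only [hun σ hs, hun σ' hs', if_true] at key
    by_contra hne
    rw [if_neg (fun h => hne h.symm)] at key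
    exact one_ne_zero key
  · intro τ hτ τ' hτ' hc hc' hcc
    have h1 : f (τ ∪ σ₀) = f (τ' ∪ σ₀) := by
      refine hf _ _ (hchb τ hτ hc) (hchb τ' hτ' hc') Finset.subset_union_right
        Finset.subset_union_right ?_
      rw [← Finset.inter_union_distrib_right, Finset.card_union_of_disjoint]
      · omega
      · exact Finset.disjoint_of_subset_left Finset.inter_subset_left ((hmem τ).mp hτ).1
    simp only [h1]

theorem chambers_connected {X : Type*} (hc : Connected K) (f : Finset K.V → X)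
    (hf : ∀ σ σ', Chb K σ → Chb K σ' → (σ ∩ σ').card = n → f σ = f σ')
    {σ σ' : Finset K.V} (hσ : Chb K σ) (hσ' : Chb K σ') : f σ = f σ' := by
  classical
  have hv : ∀ (v : K.V) (σ σ' : Finset K.V), Chb K σ → Chb K σ' → v ∈ σ → v ∈ σ' →
      f σ = f σ' := by
    intro v σ σ' h1 h2 h3 h4
    exact star_connected K (K.singleton_mem v) f (fun a b ha hb _ _ hab => hf a b ha hb hab)
      h1 h2 (by simpa using h3) (by simpa using h4)
  have hpath : ∀ u v : K.V,
      Relation.ReflTransGen (fun a b => ({a, b} : Finset K.V) ∈ K.faces) u v →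
      ∀ σ σ' : Finset K.V, Chb K σ → Chb K σ' → u ∈ σ → v ∈ σ' → f σ = f σ' := by
    intro u v huv
    induction huv with
    | refl => exact hv u
    | @tail b c _ hbc ih =>
      intro σ σ' h1 h2 h3 h4
      obtain ⟨τ, hτ, hsub, hcard⟩ := K.exists_top hbc
      have hb : b ∈ τ := hsub (by simp)
      have hc : c ∈ τ := hsub (by simp)
      exact (ih σ τ h1 ⟨hτ, hcard⟩ h3 hb).trans (hv c τ σ' ⟨hτ, hcard⟩ h2 hc h4)
  obtain ⟨u, hu⟩ := K.nonempty_of_mem σ hσ.1
  obtain ⟨v, hv'⟩ := K.nonempty_of_mem σ' hσ'.1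
  exact hpath u v (hc.2 u v) σ σ' hσ hσ' hu hv'

end Pool.Agent.ChS
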